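import Pool.Agent.H147_fact.Pattern

/-!
The numerical conditions hold for all large parameters.
-/

namespace Pool.Agent.H147

open Finset

theorem pow_eq_exp {x : ℝ} (hx : 0 < x) (m : ℕ) : x ^ m = Real.exp (m * Real.log x) := by
  rw [← Real.log_pow, Real.exp_log (by positivity)]

/-- upper bound for `G` -/
theorem GG_le (t n : ℕ) (ht : 1 ≤ t) (hn : 1 ≤ n) :
    GG t n ≤ Real.exp (Real.log t + n / t * Real.log n) := by
  have ht0 : (0 : ℝ) < t := by exact_mod_cast ht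
  have hn0 : (0 : ℝ) < n := by exact_mod_cast hn
  unfold GG
  rw [Real.exp_add, Real.exp_log ht0]
  apply mul_le_mul_of_nonneg_left _ ht0.le
  have h1 : (n.factorial : ℝ) ≤ (n : ℝ) ^ n := by exact_mod_cast Nat.factorial_le_pow n
  calc (n.factorial : ℝ) ^ (1 / (t : ℝ)) ≤ ((n : ℝ) ^ n) ^ (1 / (t : ℝ)) := by
        apply Real.rpow_le_rpow (by positivity) h1 (by positivity)
    _ = Real.exp (n / t * Real.log n) := by
        rw [pow_eq_exp hn0, ← Real.exp_mul]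
        congr 1; ring

/-- lower bound for `G` -/
theorem le_GG (t n : ℕ) (ht : 1 ≤ t) (hn : 1 ≤ n) :
    Real.exp (n / t * (Real.log n - 1)) ≤ GG t n := by
  have ht0 : (0 : ℝ) < t := by exact_mod_cast ht
  have ht1 : (1 : ℝ) ≤ t := by exact_mod_cast ht
  have hn0 : (0 : ℝ) < n := by exact_mod_cast hn
  have h1 : Real.exp (n * (Real.log n - 1)) ≤ (n.factorial : ℝ) := by
    have h2 := Real.pow_div_factorial_le_exp (n : ℝ) hn0.le n
    have hf : (0 : ℝ) < n.factorial := by positivity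
    rw [div_le_iff₀ hf] at h2
    have h3 : Real.exp (n * (Real.log n - 1)) = (n : ℝ) ^ n / Real.exp n := by
      rw [mul_sub, mul_one, Real.exp_sub, pow_eq_exp hn0]
    rw [h3, div_le_iff₀ (Real.exp_pos _)]
    linarith
  have h2 : Real.exp (n / t * (Real.log n - 1)) ≤ (n.factorial : ℝ) ^ (1 / (t : ℝ)) := by
    calc Real.exp (n / t * (Real.log n - 1)) = (Real.exp (n * (Real.log n - 1))) ^ (1 / (t : ℝ)) := by
          rw [← Real.exp_mul]; congr 1; ring
      _ ≤ _ := Real.rpow_le_rpow (Real.exp_pos _).le h1 (by positivity)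
  unfold GG
  have h3 : (0 : ℝ) ≤ (n.factorial : ℝ) ^ (1 / (t : ℝ)) := by positivity
  nlinarith

theorem GG_mono (t n m : ℕ) (h : n ≤ m) : GG t n ≤ GG t m := by
  unfold GG
  apply mul_le_mul_of_nonneg_left _ (by positivity)
  apply Real.rpow_le_rpow (by positivity) _ (by positivity)
  exact_mod_cast Nat.factorial_le h

theorem two_pow_le_exp (m : ℕ) : (2 : ℝ) ^ m ≤ Real.exp m := by
  have h : (2 : ℝ) ≤ Real.exp 1 := by
    have := Real.add_one_le_exp (1 : ℝ); linarith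
  calc (2 : ℝ) ^ m ≤ (Real.exp 1) ^ m := pow_le_pow_left₀ (by norm_num) h m
    _ = Real.exp m := by rw [← Real.exp_nat_mul, mul_one]

theorem exp_neg_one_lt : Real.exp (-1) < 1 / 2 := by
  rw [Real.exp_neg, inv_lt_comm₀ (Real.exp_pos _) (by norm_num)]
  have := Real.exp_one_gt_d9
  norm_num; linarith

section
variable (N t K d n s k j0 : ℕ) (L ℓ lk lt : ℝ)

theorem YY_bound (ht : 2 ≤ t) (hk : 1 ≤ k) (hd : 1 ≤ d) (hdN : 30 * (d : ℝ) ≤ Real.exp L)
    (hlk : lk = Real.log (2 * k)) (hlt : lt = Real.log t) :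
    (YY t k d : ℝ) ≤ Real.exp (2 * (L + k) + 9 * d * lt + (2 * d + 1) * lk) := by
  have ht0 : (0 : ℝ) < t := by exact_mod_cast (by omega : 0 < t)
  have hk0 : (0 : ℝ) < 2 * (k : ℝ) := by
    have : (0 : ℝ) < k := by exact_mod_cast hk
    linarith
  unfold YY
  push_cast
  rw [Real.exp_add, Real.exp_add]
  have h1 : (30 * (d : ℝ) * 2 ^ k) ^ 2 ≤ Real.exp (2 * (L + k)) := by
    have : 30 * (d : ℝ) * 2 ^ k ≤ Real.exp (L + k) := by
      rw [Real.exp_add]
      have := two_pow_le_exp k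
      gcongr
    calc (30 * (d : ℝ) * 2 ^ k) ^ 2 ≤ (Real.exp (L + k)) ^ 2 := by gcongr
      _ = _ := by rw [← Real.exp_nat_mul]; push_cast; ring_nf
  have h2 : (t : ℝ) ^ (9 * d) = Real.exp (9 * d * lt) := by
    rw [pow_eq_exp ht0, hlt]; push_cast; ring_nf
  have h3 : (2 * (k : ℝ)) ^ (2 * d + 1) = Real.exp ((2 * d + 1) * lk) := by
    rw [pow_eq_exp hk0, hlk]; push_cast; ring_nf
  rw [h2, h3]
  gcongr

end

theorem real_ineq1 (d k s ℓ L lk lt : ℝ) (hk0 : 0 ≤ k) (hs0 : 0 ≤ s) (hL : 10000 ≤ L)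
    (h1 : L - 1 / 50 ≤ ℓ) (h2 : ℓ ≤ L) (hk : 1000000 * (k + 1) ≤ d) (hsk : 100 * (s * (k + 1)) ≤ d)
    (hs : 100000 * s ≤ d) (hlk : lk ≤ L / 6 + L / 2000) (hlt : lt ≤ L / 2000) :
    (2 * d + s * k + k) * ℓ + ((lt + 5 / 2 * (d + 1) * ℓ) + ((2 + (2 * (2 * L + k) + 9 * d * lt
      + (2 * d + 1) * lk) + k + 2 * L + 6 * d * lk) + s * (2 * L) + (-(6 * d - s) * ℓ)
      + (2 + s * (k + 1)))) ≤ -1 := by
  have hℓ0 : 0 ≤ ℓ := by linarith
  have hL0 : 0 ≤ L := by linarith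
  have hd6 : 1000000 ≤ d := by linarith
  have hd0 : 0 ≤ d := by linarith
  obtain ⟨D, hD⟩ : ∃ D, D = d * L := ⟨_, rfl⟩
  have e1 : s * k * ℓ ≤ D / 100 := by
    have a1 : s * k ≤ d / 100 := by nlinarith
    have a2 : 0 ≤ s * k := mul_nonneg hs0 hk0
    calc s * k * ℓ ≤ d / 100 * L := by gcongr
      _ = D / 100 := by rw [hD]; ring
  have e2 : k * ℓ ≤ D / 1000000 := by
    have a1 : k ≤ d / 1000000 := by linarith
    calc k * ℓ ≤ d / 1000000 * L := by gcongr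
      _ = D / 1000000 := by rw [hD]; ring
  have e3 : D - d / 50 ≤ d * ℓ := by
    have := mul_le_mul_of_nonneg_left h1 hd0
    rw [hD]; linarith
  have e4 : d ≤ D / 10000 := by
    have := mul_le_mul_of_nonneg_left hL hd0
    rw [hD]; linarith
  have e5 : L ≤ D / 1000000 := by
    have := mul_le_mul_of_nonneg_right hd6 hL0
    rw [hD]; linarith
  have e6 : d * lt ≤ D / 2000 := by
    have := mul_le_mul_of_nonneg_left hlt hd0
    rw [hD]; linarith
  have e7 : d * lk ≤ D / 6 + D / 2000 := by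
    have := mul_le_mul_of_nonneg_left hlk hd0
    rw [hD]; linarith
  have e8 : s * L ≤ D / 100000 := by
    have := mul_le_mul_of_nonneg_right hs hL0
    rw [hD]; linarith
  have e9 : s * ℓ ≤ D / 100000 := by
    refine le_trans ?_ e8
    gcongr
  have hD0 : 10000000000 ≤ D := by
    have := mul_le_mul hd6 hL (by norm_num) hd0
    rw [hD]; linarith
  have expand : (2 * d + s * k + k) * ℓ + ((lt + 5 / 2 * (d + 1) * ℓ) + ((2 + (2 * (2 * L + k) + 9 * d * lt
      + (2 * d + 1) * lk) + k + 2 * L + 6 * d * lk) + s * (2 * L) + (-(6 * d - s) * ℓ)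
      + (2 + s * (k + 1))))
      = -(3 / 2) * (d * ℓ) + s * k * ℓ + k * ℓ + lt + 5 / 2 * ℓ + 4 + 6 * L + 3 * k + 9 * (d * lt)
        + 8 * (d * lk) + lk + 2 * (s * L) + s * ℓ + s * (k + 1) := by ring
  rw [expand]
  linarith

theorem real_ineq2 (d k s ℓ L lk lt : ℝ) (hk0 : 0 ≤ k) (hs0 : 0 ≤ s) (hL : 10000 ≤ L)
    (h1 : L - 1 / 50 ≤ ℓ) (h2 : ℓ ≤ L) (hk : 1000000 * (k + 1) ≤ d) (hsk : 100 * (s * (k + 1)) ≤ d)
    (hs : 100000 * s ≤ d) (hlk : lk ≤ L / 6 + L / 2000) (hlt : lt ≤ L / 2000) :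
    (2 * d + s * k + k) * ℓ + (2 + ((2 * (2 * L + k) + 9 * d * lt + (2 * d + 1) * lk) + s * (2 * L)
      + (1 + s * (k + 1)) + (4 * L - 50 / 51 * (5 / 2 * d) * (ℓ - 1)))) ≤ -1 := by
  have hℓ0 : 0 ≤ ℓ := by linarith
  have hL0 : 0 ≤ L := by linarith
  have hd6 : 1000000 ≤ d := by linarith
  have hd0 : 0 ≤ d := by linarith
  obtain ⟨D, hD⟩ : ∃ D, D = d * L := ⟨_, rfl⟩
  have e1 : s * k * ℓ ≤ D / 100 := by
    have a1 : s * k ≤ d / 100 := by nlinarith
    have a2 : 0 ≤ s * k := mul_nonneg hs0 hk0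
    calc s * k * ℓ ≤ d / 100 * L := by gcongr
      _ = D / 100 := by rw [hD]; ring
  have e2 : k * ℓ ≤ D / 1000000 := by
    have a1 : k ≤ d / 1000000 := by linarith
    calc k * ℓ ≤ d / 1000000 * L := by gcongr
      _ = D / 1000000 := by rw [hD]; ring
  have e3 : D - d / 50 ≤ d * ℓ := by
    have := mul_le_mul_of_nonneg_left h1 hd0
    rw [hD]; linarith
  have e3' : d * ℓ ≤ D := by
    have := mul_le_mul_of_nonneg_left h2 hd0
    rw [hD]; linarith
  have e4 : d ≤ D / 10000 := by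
    have := mul_le_mul_of_nonneg_left hL hd0
    rw [hD]; linarith
  have e5 : L ≤ D / 1000000 := by
    have := mul_le_mul_of_nonneg_right hd6 hL0
    rw [hD]; linarith
  have e6 : d * lt ≤ D / 2000 := by
    have := mul_le_mul_of_nonneg_left hlt hd0
    rw [hD]; linarith
  have e7 : d * lk ≤ D / 6 + D / 2000 := by
    have := mul_le_mul_of_nonneg_left hlk hd0
    rw [hD]; linarith
  have e8 : s * L ≤ D / 100000 := by
    have := mul_le_mul_of_nonneg_right hs hL0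
    rw [hD]; linarith
  have hD0 : 10000000000 ≤ D := by
    have := mul_le_mul hd6 hL (by norm_num) hd0
    rw [hD]; linarith
  have expand : (2 * d + s * k + k) * ℓ + (2 + ((2 * (2 * L + k) + 9 * d * lt + (2 * d + 1) * lk)
      + s * (2 * L) + (1 + s * (k + 1)) + (4 * L - 50 / 51 * (5 / 2 * d) * (ℓ - 1))))
      = (2 - 125 / 51) * (d * ℓ) + s * k * ℓ + k * ℓ + 3 + 8 * L + 2 * k + 9 * (d * lt) + 2 * (d * lk)
        + lk + 2 * (s * L) + s * (k + 1) + 125 / 51 * d := by ring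
  rw [expand]
  linarith

theorem nat_facts (N t K s d j0 k : ℕ) (hk : k = t * K) (ht : 2 ≤ t) (hK : 1000 ≤ K)
    (hd1 : 5 * t * d ≤ 2 * N)
    (hdk : 1000000 * (k + 1) ≤ d) (hj0 : j0 = d / (100 * (k + 1))) (hs : s < j0) :
    1000 ≤ k ∧ 1 ≤ d ∧ 100 * (s * (k + 1)) ≤ d ∧ 100000 * s ≤ d ∧ s ≤ 6 * d ∧ 30 * d ≤ N ^ 2 ∧
      6 * d + 1 ≤ N ^ 2 ∧ t * MMp k d j0 ≤ N ^ 2 ∧ t * (2 * k) * MMp k d j0 ≤ N ^ 2 ∧ 0 < N := by
  have hk1000 : 1000 ≤ k := by rw [hk]; nlinarith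
  have hd1' : 1 ≤ d := by omega
  have hj : j0 * (100 * (k + 1)) ≤ d := by rw [hj0]; exact Nat.div_mul_le_self _ _
  have hsk : 100 * (s * (k + 1)) ≤ d := by
    have : s * (100 * (k + 1)) ≤ j0 * (100 * (k + 1)) := Nat.mul_le_mul_right _ hs.le
    calc 100 * (s * (k + 1)) = s * (100 * (k + 1)) := by ring
      _ ≤ _ := this.trans hj
  have hs5 : 100000 * s ≤ d := by
    have h1 : s * 1000 ≤ s * (k + 1) := Nat.mul_le_mul_left _ (by omega)
    omega
  have hs6 : s ≤ 6 * d := by omega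
  have h2d : 2 * d ≤ t * d := Nat.mul_le_mul_right _ ht
  have htd5 : 5 * (t * d) ≤ 2 * N := by
    calc 5 * (t * d) = 5 * t * d := by ring
      _ ≤ _ := hd1
  have hN10 : 1000000000 ≤ N := by omega
  have hd5 : 5 * d ≤ N := by omega
  have hNN : 1000000000 * N ≤ N ^ 2 := by
    rw [pow_two]; exact Nat.mul_le_mul_right _ hN10
  have hdN : 30 * d ≤ N ^ 2 := by omega
  have hdN2 : 6 * d + 1 ≤ N ^ 2 := by omega
  have hMM : MMp k d j0 ≤ 7 * d := by
    unfold MMp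
    have : (j0 + 1) * (k + 1) = j0 * (k + 1) + (k + 1) := by ring
    have h2 : j0 * (k + 1) * 100 ≤ d := by
      calc j0 * (k + 1) * 100 = j0 * (100 * (k + 1)) := by ring
        _ ≤ d := hj
    omega
  have htMM3 : t * MMp k d j0 ≤ 3 * N := by
    have h1 : t * MMp k d j0 ≤ t * (7 * d) := Nat.mul_le_mul_left _ hMM
    have h2 : t * (7 * d) = 7 * (t * d) := by ring
    omega
  have htMM : t * MMp k d j0 ≤ N ^ 2 := by omega
  have hkN : 6 * k ≤ N := by omega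
  have htkMM : t * (2 * k) * MMp k d j0 ≤ N ^ 2 := by
    calc t * (2 * k) * MMp k d j0 = 2 * k * (t * MMp k d j0) := by ring
      _ ≤ 2 * k * (3 * N) := Nat.mul_le_mul_left _ htMM3
      _ = 6 * k * N := by ring
      _ ≤ N * N := Nat.mul_le_mul_right _ hkN
      _ = N ^ 2 := by ring
  exact ⟨hk1000, hd1', hsk, hs5, hs6, hdN, hdN2, htMM, htkMM, by omega⟩

theorem num_bounds (N t K n s d j0 : ℕ) (L : ℝ) (hL : L = Real.log N) (hL1 : 10000 ≤ L)
    (ht : 2 ≤ t) (hK : 1000 ≤ K) (hKN : t * K ^ 6 ≤ N) (hd1 : 5 * t * d ≤ 2 * N)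
    (hd2 : 2 * N < 5 * t * (d + 1)) (hdk : 1000000 * (t * K + 1) ≤ d)
    (hlt : Real.log (2 * t) ≤ L / 2000) (hn1 : 50 * N ≤ 51 * n) (hn2 : n ≤ N)
    (hj0 : j0 = d / (100 * (t * K + 1))) (hs : s < j0) :
    Num1 t (t * K) d j0 n s ∧ Num2 t (t * K) d j0 n s ((N : ℝ) ^ 4 / GG t n) := by
  obtain ⟨hk1000, hd1', hsk, hs5, hs6, hdN, hdN2, htMM, htkMM, hNpos⟩ :=
    nat_facts N t K s d j0 (t * K) rfl ht hK hd1 hdk hj0 hs
  have hn1' : 1 ≤ n := by omega
  have hnpos : (0 : ℝ) < n := by exact_mod_cast hn1'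
  have hNpos' : (0 : ℝ) < N := by exact_mod_cast hNpos
  have htpos : (0 : ℝ) < t := by exact_mod_cast (by omega : 0 < t)
  set k := t * K with hk
  have hkpos : (0 : ℝ) < k := by exact_mod_cast (by omega : 0 < k)
  -- real quantities
  have hexpL : Real.exp L = N := by rw [hL, Real.exp_log hNpos']
  have hexp2L : Real.exp (2 * L) = (N : ℝ) ^ 2 := by
    rw [pow_eq_exp hNpos', hL]; norm_num
  set ℓ := Real.log n with hℓ
  set lk := Real.log (2 * (k : ℝ)) with hlk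
  set lt := Real.log (t : ℝ) with hlt'
  have hℓL : ℓ ≤ L := by
    rw [hℓ, hL]
    exact Real.log_le_log hnpos (by exact_mod_cast hn2)
  have hLℓ : L - 1 / 50 ≤ ℓ := by
    have h1 : (N : ℝ) ≤ (1 + 1 / 50) * n := by
      have : (50 * N : ℝ) ≤ 51 * n := by exact_mod_cast hn1
      linarith
    have h2 : Real.log N ≤ Real.log ((1 + 1 / 50) * n) := Real.log_le_log hNpos' h1
    rw [Real.log_mul (by norm_num) hnpos.ne'] at h2
    have h3 : Real.log (1 + 1 / 50) ≤ 1 / 50 := by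
      have := Real.log_le_sub_one_of_pos (show (0 : ℝ) < 1 + 1 / 50 by norm_num)
      linarith
    rw [hL]; linarith
  have hlt2 : lt ≤ L / 2000 := by
    refine le_trans ?_ hlt
    apply Real.log_le_log htpos; linarith
  have hlk2 : lk ≤ L / 6 + L / 2000 := by
    have hKpos : (0 : ℝ) < K := by exact_mod_cast (by omega : 0 < K)
    have h1 : lk = Real.log (2 * t) + Real.log K := by
      rw [hlk, ← Real.log_mul (by positivity) hKpos.ne', hk]
      push_cast; ring_nf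
    have h2 : Real.log K ≤ L / 6 := by
      have h3 : (K : ℝ) ^ 6 ≤ N := by
        have : K ^ 6 ≤ N := le_trans (Nat.le_mul_of_pos_left _ (by omega)) hKN
        exact_mod_cast this
      have h4 := Real.log_le_log (by positivity) h3
      rw [Real.log_pow] at h4
      push_cast at h4
      rw [hL]; linarith
    rw [h1]; linarith
  have hkd' : 1000000 * ((k : ℝ) + 1) ≤ d := by exact_mod_cast hdk
  have hsk' : 100 * ((s : ℝ) * (k + 1)) ≤ d := by exact_mod_cast hsk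
  have hs5' : 100000 * (s : ℝ) ≤ d := by exact_mod_cast hs5
  have hNt : (N : ℝ) / t ≤ 5 / 2 * (d + 1) := by
    rw [div_le_iff₀ htpos]
    have : (2 * N : ℝ) ≤ 5 * t * (d + 1) := by exact_mod_cast hd2.le
    linarith
  have hNt2 : 5 / 2 * (d : ℝ) ≤ N / t := by
    rw [le_div_iff₀ htpos]
    have : (5 * t * d : ℝ) ≤ 2 * N := by exact_mod_cast hd1
    linarith
  have hℓ0 : 0 ≤ ℓ := by linarith
  -- common exponential bounds
  have b1 : (n : ℝ) ^ (2 * d + s * k + k) = Real.exp ((2 * d + s * k + k) * ℓ) := by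
    rw [pow_eq_exp hnpos, ← hℓ]; push_cast; ring_nf
  have b5 : (5 : ℝ) ≤ Real.exp 2 := by
    have h1 : (2.7 : ℝ) ≤ Real.exp 1 := by have := Real.exp_one_gt_d9; linarith
    have h2 : Real.exp 2 = Real.exp 1 * Real.exp 1 := by rw [← Real.exp_add]; norm_num
    rw [h2]; nlinarith
  have hY : (YY t k d : ℝ) ≤ Real.exp (2 * (2 * L + k) + 9 * d * lt + (2 * d + 1) * lk) := by
    apply YY_bound t d k (2 * L) lk lt ht (by omega) hd1' _ hlk hlt'
    rw [hexp2L]; exact_mod_cast hdN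
  have b2k : (2 : ℝ) ^ k ≤ Real.exp k := two_pow_le_exp k
  have b6d : (6 * (d : ℝ) + 1) ≤ Real.exp (2 * L) := by
    rw [hexp2L]; exact_mod_cast hdN2
  have bκ : (2 * (k : ℝ)) ^ (6 * d) = Real.exp (6 * d * lk) := by
    rw [pow_eq_exp (by positivity), hlk]; push_cast; ring_nf
  have bM1 : ((t : ℝ) * MMp k d j0) ^ s ≤ Real.exp (s * (2 * L)) := by
    rw [Real.exp_nat_mul, hexp2L]
    apply pow_le_pow_left₀ (by positivity)
    exact_mod_cast htMM
  have bM2 : ((t : ℝ) * (2 * k) * MMp k d j0) ^ s ≤ Real.exp (s * (2 * L)) := by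
    rw [Real.exp_nat_mul, hexp2L]
    apply pow_le_pow_left₀ (by positivity)
    exact_mod_cast htkMM
  have binv : (1 / (n : ℝ)) ^ (6 * d - s) = Real.exp (-(6 * d - s) * ℓ) := by
    rw [one_div, inv_pow, pow_eq_exp hnpos, ← Real.exp_neg, ← hℓ]
    rw [Nat.cast_sub hs6]; push_cast; ring_nf
  have b2a : (2 : ℝ) ^ (2 + s * (k + 1)) ≤ Real.exp (2 + s * (k + 1)) := by
    have := two_pow_le_exp (2 + s * (k + 1))
    push_cast at this; exact this
  have b2b : (2 : ℝ) ^ (1 + s * (k + 1)) ≤ Real.exp (1 + s * (k + 1)) := by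
    have := two_pow_le_exp (1 + s * (k + 1))
    push_cast at this; exact this
  have hGup : GG t n ≤ Real.exp (lt + 5 / 2 * (d + 1) * ℓ) := by
    refine (GG_le t n (by omega) hn1').trans ?_
    apply Real.exp_le_exp.2
    have h1 : (n : ℝ) / t ≤ 5 / 2 * (d + 1) := by
      refine le_trans ?_ hNt
      gcongr
    have := mul_le_mul_of_nonneg_right h1 hℓ0
    linarith
  have hGlo : Real.exp (50 / 51 * (5 / 2 * d) * (ℓ - 1)) ≤ GG t n := by
    refine le_trans ?_ (le_GG t n (by omega) hn1')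
    apply Real.exp_le_exp.2
    apply mul_le_mul_of_nonneg_right _ (by linarith)
    have h1 : 50 / 51 * (N : ℝ) ≤ n := by
      have : (50 * N : ℝ) ≤ 51 * n := by exact_mod_cast hn1
      linarith
    calc 50 / 51 * (5 / 2 * (d : ℝ)) ≤ 50 / 51 * (N / t) := by gcongr
      _ = (50 / 51 * N) / t := by ring
      _ ≤ n / t := by gcongr
  have hG0 := GG_pos t n (by omega)
  have hE : (N : ℝ) ^ 4 / GG t n ≤ Real.exp (4 * L - 50 / 51 * (5 / 2 * d) * (ℓ - 1)) := by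
    rw [Real.exp_sub]
    have : (N : ℝ) ^ 4 = Real.exp (4 * L) := by rw [pow_eq_exp hNpos', hL]; norm_num
    rw [this]
    gcongr
  constructor
  · unfold Num1
    have key := real_ineq1 d k s ℓ L lk lt hkpos.le (by positivity) hL1 hLℓ hℓL hkd' hsk' hs5' hlk2 hlt2
    refine lt_of_le_of_lt ?_ exp_neg_one_lt
    refine le_trans ?_ (Real.exp_le_exp.2 key)
    rw [b1, bκ, binv]
    have hx : Real.exp ((2 * (d : ℝ) + s * k + k) * ℓ + ((lt + 5 / 2 * (d + 1) * ℓ) + ((2 + (2 * (2 * L + k) + 9 * d * lt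
      + (2 * d + 1) * lk) + k + 2 * L + 6 * d * lk) + s * (2 * L) + (-(6 * d - s) * ℓ)
      + (2 + s * (k + 1)))))
      = Real.exp ((2 * (d : ℝ) + s * k + k) * ℓ) * Real.exp (lt + 5 / 2 * (d + 1) * ℓ) *
        ((Real.exp 2 * Real.exp (2 * (2 * L + k) + 9 * d * lt + (2 * d + 1) * lk) * Real.exp k
          * Real.exp (2 * L) * Real.exp (6 * d * lk)) * Real.exp (s * (2 * L))
          * Real.exp (-(6 * d - s) * ℓ) * Real.exp (2 + s * (k + 1))) := by
      simp only [← Real.exp_add]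
      congr 1; ring
    rw [hx]
    gcongr
  · unfold Num2
    have key := real_ineq2 d k s ℓ L lk lt hkpos.le (by positivity) hL1 hLℓ hℓL hkd' hsk' hs5' hlk2 hlt2
    refine lt_of_le_of_lt ?_ exp_neg_one_lt
    refine le_trans ?_ (Real.exp_le_exp.2 key)
    rw [b1]
    have hx : Real.exp ((2 * (d : ℝ) + s * k + k) * ℓ + (2 + ((2 * (2 * L + k) + 9 * d * lt + (2 * d + 1) * lk) + s * (2 * L)
      + (1 + s * (k + 1)) + (4 * L - 50 / 51 * (5 / 2 * d) * (ℓ - 1)))))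
      = Real.exp ((2 * (d : ℝ) + s * k + k) * ℓ) * (Real.exp 2 *
        ((Real.exp (2 * (2 * L + k) + 9 * d * lt + (2 * d + 1) * lk) * Real.exp (s * (2 * L))
          * Real.exp (1 + s * (k + 1))) * Real.exp (4 * L - 50 / 51 * (5 / 2 * d) * (ℓ - 1)))) := by
      simp only [← Real.exp_add]
    rw [hx]
    gcongr

/-- the property that `G t n` is close to a positive integer -/
def Near (t n : ℕ) : Prop := ∃ y : ℤ, 0 < y ∧ |(y : ℝ) - GG t n| ≤ (n : ℝ) ^ 4 / GG t n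

theorem pattern_count (N t K d : ℕ) (hL1 : 10000 ≤ Real.log N)
    (ht : 2 ≤ t) (hK : 1000 ≤ K) (hKN : t * K ^ 6 ≤ N) (hd : d = 2 * N / (5 * t))
    (hdk : 1000000 * (t * K + 1) ≤ d) (hlt : Real.log (2 * t) ≤ Real.log N / 2000)
    (S : Finset ℕ) (hS : ∀ n ∈ S, 50 * N ≤ 51 * n ∧ n ≤ N ∧ Near t n)
    (J : Finset ℕ) (hJ : J.card = 5) (hJK : ∀ j ∈ J, j ≤ K) :
    (S.filter (fun n => ∀ j ∈ J, n + t * j ∈ S)).card ≤ 1000 * (t * K + 1) := by
  have htpos : 0 < 5 * t := by omega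
  have hd1 : 5 * t * d ≤ 2 * N := by rw [hd]; exact Nat.mul_div_le _ _
  have hd2 : 2 * N < 5 * t * (d + 1) := by rw [hd]; exact Nat.lt_mul_div_succ _ htpos
  set k := t * K with hk
  set j0 := d / (100 * (k + 1)) with hj0
  have hj1 : j0 * (100 * (k + 1)) ≤ d := Nat.div_mul_le_self _ _
  have hj2 : d < 100 * (k + 1) * (j0 + 1) := Nat.lt_mul_div_succ _ (by omega)
  have hk1 : 1 ≤ k := by rw [hk]; nlinarith
  have hj06 : j0 ≤ 6 * d := by
    have : j0 * 1 ≤ j0 * (100 * (k + 1)) := Nat.mul_le_mul_left _ (by omega)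
    omega
  set q := J.orderEmbOfFin hJ with hq
  have hqJ : ∀ i, q i ∈ J := fun i => J.orderEmbOfFin_mem hJ i
  set M := S.filter (fun n => ∀ j ∈ J, n + t * j ∈ S) with hM
  have hMS : ∀ n ∈ M, n ∈ S := fun n hn => (mem_filter.1 hn).1
  have hMJ : ∀ n ∈ M, ∀ j ∈ J, n + t * j ∈ S := fun n hn => (mem_filter.1 hn).2
  have hnum : ∀ n ∈ M, ∀ s < j0, Num1 t k d j0 n s ∧ Num2 t k d j0 n s ((N : ℝ) ^ 4 / GG t n) := by
    intro n hn s hs
    obtain ⟨h1, h2, -⟩ := hS n (hMS n hn)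
    exact num_bounds N t K n s d j0 (Real.log N) rfl hL1 ht hK hKN hd1 hd2 hdk hlt h1 h2 hj0 hs
  have hdN : 5 * d ≤ N := by
    have : 2 * d ≤ t * d := Nat.mul_le_mul_right _ ht
    have h2 : 5 * t * d = 5 * (t * d) := by ring
    omega
  have key := pattern_bound t k d j0 ht hk1 (by omega) hj06 q
    (fun i => Nat.mul_le_mul_left _ (hJK _ (hqJ i))) q.injective
    (fun n => (N : ℝ) ^ 4 / GG t n) M
    (fun n hn => by
      obtain ⟨h1, h2, -⟩ := hS n (hMS n hn)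
      omega)
    (fun n hn => by
      have h1 : ∀ i : Fin 5, ∃ y : ℤ, 0 < y ∧ |(y : ℝ) - GG t (n + t * q i)| ≤ (N : ℝ) ^ 4 / GG t n := by
        intro i
        obtain ⟨h2, h3, y, hy0, hy⟩ := hS _ (hMJ n hn _ (hqJ i))
        refine ⟨y, hy0, hy.trans ?_⟩
        have h4 := GG_pos t n (by omega)
        have h5 := GG_mono t n (n + t * q i) (by omega)
        have h6 : ((n + t * q i : ℕ) : ℝ) ≤ N := by exact_mod_cast h3
        gcongr
      choose y hy0 hy using h1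
      exact ⟨y, fun i => (hy0 i).ne', hy⟩)
    (fun n hn s hs => (hnum n hn s hs).1)
    (fun n hn s hs => (hnum n hn s hs).2)
  by_contra hcon
  push Not at hcon
  have hj5 : 4 ≤ j0 := by
    by_contra h
    push Not at h
    have : 100 * (k + 1) * (j0 + 1) ≤ 100 * (k + 1) * 4 := Nat.mul_le_mul_left _ (by omega)
    omega
  have h1 : 1000 * (k + 1) * (j0 - 4) ≤ M.card * (j0 - 4) := Nat.mul_le_mul_right _ hcon.le
  have h2 : 1000 * (k + 1) * (j0 - 4) + 5000 * (k + 1) = 10 * (100 * (k + 1) * (j0 + 1)) := by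
    obtain ⟨c, hc⟩ : ∃ c, j0 = c + 4 := ⟨j0 - 4, by omega⟩
    rw [hc, Nat.add_sub_cancel]; ring
  omega

end Pool.Agent.H147
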