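import Mathlib

/-!
Evaluation of absolutely summable power series and coefficientwise majorants.
-/

namespace Pool.Agent.H147

open Finset PowerSeries

/-- absolute summability at `x` -/
def Sm (x : ℝ) (F : ℝ⟦X⟧) : Prop := Summable (fun m => ‖coeff m F * x ^ m‖)

/-- the value at `x` -/
noncomputable def ev (x : ℝ) (F : ℝ⟦X⟧) : ℝ := ∑' m, coeff m F * x ^ m

theorem mul_term (x : ℝ) (F G : ℝ⟦X⟧) (m : ℕ) :
    coeff m (F * G) * x ^ m = ∑ kl ∈ antidiagonal m, (coeff kl.1 F * x ^ kl.1) * (coeff kl.2 G * x ^ kl.2) := by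
  rw [coeff_mul, sum_mul]
  apply sum_congr rfl
  rintro ⟨i, j⟩ hij
  rw [HasAntidiagonal.mem_antidiagonal] at hij
  simp only at hij ⊢
  rw [← hij, pow_add]; ring

theorem Sm.mul {x : ℝ} {F G : ℝ⟦X⟧} (hF : Sm x F) (hG : Sm x G) : Sm x (F * G) := by
  have := summable_norm_sum_mul_antidiagonal_of_summable_norm hF hG
  unfold Sm
  simpa only [mul_term] using this

theorem ev_mul {x : ℝ} {F G : ℝ⟦X⟧} (hF : Sm x F) (hG : Sm x G) : ev x (F * G) = ev x F * ev x G := by
  have := tsum_mul_tsum_eq_tsum_sum_antidiagonal_of_summable_norm hF hG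
  unfold ev
  simp only [mul_term]
  exact this.symm

theorem Sm.add {x : ℝ} {F G : ℝ⟦X⟧} (hF : Sm x F) (hG : Sm x G) : Sm x (F + G) := by
  unfold Sm at *
  refine Summable.of_nonneg_of_le (fun m => norm_nonneg _) (fun m => ?_) (Summable.add hF hG)
  rw [map_add, add_mul]
  exact norm_add_le _ _

theorem ev_add {x : ℝ} {F G : ℝ⟦X⟧} (hF : Sm x F) (hG : Sm x G) : ev x (F + G) = ev x F + ev x G := by
  unfold ev
  rw [← Summable.tsum_add hF.of_norm hG.of_norm]
  apply tsum_congr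
  intro m
  rw [map_add, add_mul]

theorem Sm_coe (x : ℝ) (A : Polynomial ℝ) : Sm x (A : ℝ⟦X⟧) := by
  unfold Sm
  apply summable_of_ne_finset_zero (s := A.support)
  intro m hm
  rw [Polynomial.coeff_coe, Polynomial.notMem_support_iff.1 hm]
  simp

theorem ev_coe (x : ℝ) (A : Polynomial ℝ) : ev x (A : ℝ⟦X⟧) = A.eval x := by
  unfold ev
  rw [tsum_eq_sum (s := A.support)]
  · rw [Polynomial.eval_eq_sum, Polynomial.sum]
    simp only [Polynomial.coeff_coe]
  · intro m hm
    rw [Polynomial.coeff_coe, Polynomial.notMem_support_iff.1 hm, zero_mul]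

theorem Sm_one (x : ℝ) : Sm x 1 := by
  have := Sm_coe x 1
  simpa using this

theorem ev_one (x : ℝ) : ev x 1 = 1 := by
  have := ev_coe x 1
  simpa using this

theorem Sm_zero (x : ℝ) : Sm x 0 := by
  have := Sm_coe x 0
  simpa using this

theorem ev_zero (x : ℝ) : ev x 0 = 0 := by
  have := ev_coe x 0
  simpa using this

theorem Sm.pow {x : ℝ} {F : ℝ⟦X⟧} (hF : Sm x F) (n : ℕ) : Sm x (F ^ n) := by
  induction n with
  | zero => simpa using Sm_one x
  | succ n ih => rw [pow_succ]; exact ih.mul hF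

theorem ev_pow {x : ℝ} {F : ℝ⟦X⟧} (hF : Sm x F) (n : ℕ) : ev x (F ^ n) = ev x F ^ n := by
  induction n with
  | zero => simpa using ev_one x
  | succ n ih => rw [pow_succ, ev_mul (hF.pow n) hF, ih, pow_succ]

theorem Sm.prod {ι : Type*} {x : ℝ} (s : Finset ι) (F : ι → ℝ⟦X⟧) (h : ∀ i ∈ s, Sm x (F i)) :
    Sm x (∏ i ∈ s, F i) := by
  classical
  induction s using Finset.induction_on with
  | empty => simpa using Sm_one x
  | insert a s ha ih =>
    rw [prod_insert ha]
    exact (h a (mem_insert_self _ _)).mul (ih (fun i hi => h i (mem_insert_of_mem hi)))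

theorem ev_prod {ι : Type*} {x : ℝ} (s : Finset ι) (F : ι → ℝ⟦X⟧) (h : ∀ i ∈ s, Sm x (F i)) :
    ev x (∏ i ∈ s, F i) = ∏ i ∈ s, ev x (F i) := by
  classical
  induction s using Finset.induction_on with
  | empty => simpa using ev_one x
  | insert a s ha ih =>
    have h' : ∀ i ∈ s, Sm x (F i) := fun i hi => h i (mem_insert_of_mem hi)
    rw [prod_insert ha, prod_insert ha, ev_mul (h a (mem_insert_self _ _)) (Sm.prod s F h'), ih h']

theorem Sm.sum {ι : Type*} {x : ℝ} (s : Finset ι) (F : ι → ℝ⟦X⟧) (h : ∀ i ∈ s, Sm x (F i)) :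
    Sm x (∑ i ∈ s, F i) := by
  classical
  induction s using Finset.induction_on with
  | empty => simpa using Sm_zero x
  | insert a s ha ih =>
    rw [sum_insert ha]
    exact (h a (mem_insert_self _ _)).add (ih (fun i hi => h i (mem_insert_of_mem hi)))

theorem ev_sum {ι : Type*} {x : ℝ} (s : Finset ι) (F : ι → ℝ⟦X⟧) (h : ∀ i ∈ s, Sm x (F i)) :
    ev x (∑ i ∈ s, F i) = ∑ i ∈ s, ev x (F i) := by
  classical
  induction s using Finset.induction_on with
  | empty => simpa using ev_zero x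
  | insert a s ha ih =>
    have h' : ∀ i ∈ s, Sm x (F i) := fun i hi => h i (mem_insert_of_mem hi)
    rw [sum_insert ha, sum_insert ha, ev_add (h a (mem_insert_self _ _)) (Sm.sum s F h'), ih h']

/-- coefficientwise domination -/
def Maj (F G : ℝ⟦X⟧) : Prop := ∀ m, |coeff m F| ≤ coeff m G

theorem Maj.nonneg {F G : ℝ⟦X⟧} (h : Maj F G) (m : ℕ) : 0 ≤ coeff m G := (abs_nonneg _).trans (h m)

theorem Maj.trans {F G H : ℝ⟦X⟧} (h1 : Maj F G) (h2 : Maj G H) : Maj F H :=
  fun m => (h1 m).trans ((le_abs_self _).trans (h2 m))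

theorem Maj.self {F G : ℝ⟦X⟧} (h : Maj F G) : Maj G G := fun m => by
  rw [abs_of_nonneg (h.nonneg m)]

theorem Maj.add {F G F' G' : ℝ⟦X⟧} (h : Maj F G) (h' : Maj F' G') : Maj (F + F') (G + G') := by
  intro m
  rw [map_add, map_add]
  exact (abs_add_le _ _).trans (add_le_add (h m) (h' m))

theorem Maj.mul {F G F' G' : ℝ⟦X⟧} (h : Maj F G) (h' : Maj F' G') : Maj (F * F') (G * G') := by
  intro m
  rw [coeff_mul, coeff_mul]
  refine (abs_sum_le_sum_abs _ _).trans (sum_le_sum ?_)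
  intro p _
  rw [abs_mul]
  exact mul_le_mul (h _) (h' _) (abs_nonneg _) (h.nonneg _)

theorem Maj_C {c c' : ℝ} (h : |c| ≤ c') : Maj (C c) (C c') := by
  intro m
  rw [coeff_C, coeff_C]
  split_ifs with hm
  · exact h
  · simp

theorem Maj_one : Maj 1 1 := by
  have := Maj_C (c := 1) (c' := 1) (by simp)
  simpa using this

theorem Maj_zero {G : ℝ⟦X⟧} (h : Maj G G) : Maj 0 G := by
  intro m; simpa using h.nonneg m

theorem Maj_X : Maj X X := by
  intro m
  rw [coeff_X]
  split_ifs <;> simp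

theorem Maj.pow {F G : ℝ⟦X⟧} (h : Maj F G) (n : ℕ) : Maj (F ^ n) (G ^ n) := by
  induction n with
  | zero => simpa using Maj_one
  | succ n ih => rw [pow_succ, pow_succ]; exact ih.mul h

theorem Maj.deriv {F G : ℝ⟦X⟧} (h : Maj F G) : Maj (d⁄dX ℝ F) (d⁄dX ℝ G) := by
  intro m
  rw [coeff_derivative, coeff_derivative, abs_mul, abs_of_nonneg (by positivity : (0 : ℝ) ≤ (m : ℝ) + 1)]
  exact mul_le_mul_of_nonneg_right (h _) (by positivity)

theorem Maj.prod {ι : Type*} (s : Finset ι) (F G : ι → ℝ⟦X⟧) (h : ∀ i ∈ s, Maj (F i) (G i)) :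
    Maj (∏ i ∈ s, F i) (∏ i ∈ s, G i) := by
  classical
  induction s using Finset.induction_on with
  | empty => simpa using Maj_one
  | insert a s ha ih =>
    rw [prod_insert ha, prod_insert ha]
    exact (h a (mem_insert_self _ _)).mul (ih (fun i hi => h i (mem_insert_of_mem hi)))

theorem Maj.Sm {x : ℝ} (hx : 0 ≤ x) {F G : ℝ⟦X⟧} (h : Maj F G) (hG : Sm x G) : Sm x F := by
  unfold Pool.Agent.H147.Sm at *
  refine Summable.of_nonneg_of_le (fun m => norm_nonneg _) (fun m => ?_) hG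
  rw [norm_mul, norm_mul]
  refine mul_le_mul_of_nonneg_right ?_ (norm_nonneg _)
  rw [Real.norm_eq_abs, Real.norm_eq_abs, abs_of_nonneg (h.nonneg m)]
  exact h m

theorem Maj.ev {x : ℝ} (hx : 0 ≤ x) {F G : ℝ⟦X⟧} (h : Maj F G) (hG : Pool.Agent.H147.Sm x G) :
    |ev x F| ≤ ev x G := by
  have hF := h.Sm hx hG
  unfold Pool.Agent.H147.ev
  rw [← Real.norm_eq_abs]
  refine (norm_tsum_le_tsum_norm hF).trans ?_
  apply Summable.tsum_le_tsum _ hF hG.of_norm
  intro m
  rw [norm_mul, Real.norm_eq_abs, Real.norm_eq_abs, abs_of_nonneg (by positivity : 0 ≤ x ^ m)]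
  exact mul_le_mul_of_nonneg_right (h m) (by positivity)

/-- the geometric series `1 / (1 - a z)` -/
noncomputable def gg (a : ℝ) : ℝ⟦X⟧ := PowerSeries.mk (fun m => a ^ m)

theorem gg_eq (a : ℝ) : gg a = 1 + C a * X * gg a := by
  ext m
  rw [map_add, mul_assoc, coeff_C_mul]
  rcases m with _ | m
  · simp [gg]
  · rw [coeff_succ_X_mul]
    simp [gg, coeff_one, pow_succ, mul_comm]

theorem gg_deriv (a : ℝ) : d⁄dX ℝ (gg a) = C a * gg a ^ 2 := by
  have h := gg_eq a
  have hd := congrArg (d⁄dX ℝ) h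
  rw [map_add, Derivation.leibniz, Derivation.leibniz, derivative_X, derivative_C, derivative_one] at hd
  simp only [smul_eq_mul, mul_one, mul_zero, add_zero, zero_add] at hd
  -- `g' = a X g' + a g`
  have h1 : d⁄dX ℝ (gg a) * (1 - C a * X) = C a * gg a := by linear_combination hd
  have h2 : gg a * (1 - C a * X) = 1 := by linear_combination h
  calc d⁄dX ℝ (gg a) = d⁄dX ℝ (gg a) * (1 - C a * X) * gg a := by
        rw [mul_assoc, mul_comm (1 - C a * X), h2, mul_one]
    _ = C a * gg a ^ 2 := by rw [h1]; ring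

theorem gg_pow_deriv (a : ℝ) (e : ℕ) : d⁄dX ℝ (gg a ^ e) = C ((e : ℝ) * a) * gg a ^ (e + 1) := by
  rw [Derivation.leibniz_pow, gg_deriv]
  simp only [smul_eq_mul, nsmul_eq_mul, map_mul]
  have : (e : ℝ⟦X⟧) = C (e : ℝ) := by simp
  rw [this]
  rcases e with _ | e
  · simp
  · simp only [Nat.add_sub_cancel]; ring

theorem gg_self {a : ℝ} (ha : 0 ≤ a) : Maj (gg a) (gg a) := by
  intro m
  simp only [gg, coeff_mk]
  rw [abs_of_nonneg (by positivity)]

theorem one_maj_gg {a : ℝ} (ha : 0 ≤ a) : Maj 1 (gg a) := by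
  intro m
  simp only [gg, coeff_mk, coeff_one]
  split_ifs with hm
  · subst hm; simp
  · simp; positivity

theorem lin_maj_gg {a b : ℝ} (ha : 0 ≤ a) (hb : |b| ≤ a) : Maj (1 + C b * X) (gg a) := by
  intro m
  rcases m with _ | _ | m
  · simp [gg]
  · simp [gg, coeff_one]; exact hb
  · have : coeff (m + 1 + 1) (1 + C b * X : ℝ⟦X⟧) = 0 := by
      simp [coeff_one]
    rw [this]
    simp only [gg, coeff_mk, abs_zero]
    positivity

theorem aX_maj_gg {a : ℝ} (ha : 0 ≤ a) : Maj (C a * X * gg a) (gg a) := by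
  intro m
  have h : C a * X * gg a = gg a - 1 := by
    have := gg_eq a
    linear_combination -this
  rw [h, map_sub]
  simp only [gg, coeff_mk, coeff_one]
  split_ifs with hm
  · subst hm; simp
  · rw [sub_zero, abs_of_nonneg (by positivity)]

theorem gg_pow_maj {a : ℝ} (ha : 0 ≤ a) {m n : ℕ} (h : m ≤ n) : Maj (gg a ^ m) (gg a ^ n) := by
  have h1 : Maj (gg a ^ m * 1 ^ (n - m)) (gg a ^ m * gg a ^ (n - m)) :=
    ((gg_self ha).pow m).mul ((one_maj_gg ha).pow _)
  rwa [one_pow, mul_one, ← pow_add, Nat.add_sub_cancel' h] at h1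

theorem Sm_gg {a x : ℝ} (ha : 0 ≤ a) (hx : 0 ≤ x) (h : a * x < 1) : Sm x (gg a) := by
  unfold Sm
  simp only [gg, coeff_mk, ← mul_pow, norm_pow]
  apply summable_geometric_of_lt_one (norm_nonneg _)
  rw [Real.norm_eq_abs, abs_of_nonneg (by positivity)]
  exact h

theorem ev_gg {a x : ℝ} (ha : 0 ≤ a) (hx : 0 ≤ x) (h : a * x < 1) : ev x (gg a) = (1 - a * x)⁻¹ := by
  unfold ev
  simp only [gg, coeff_mk, ← mul_pow]
  exact tsum_geometric_of_lt_one (by positivity) h

end Pool.Agent.H147
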