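import Pool.Agent.H147_fact.Op
import Pool.Agent.H147_fact.Ev

/-!
Size, integrality and values of the roots `P_e ^ (1 / t)` at the origin.
-/

namespace Pool.Agent.H147

open Finset PowerSeries

theorem rt_zero_eq (t e : ℕ) : rt t 0 e = ∏ l ∈ range e, rescale ((l : ℝ) + 1) (beta t) := by
  rw [rt]
  apply prod_congr rfl
  intro l _
  simp

/-- integrality of all `t ^ (2 s)` times the coefficients -/
def IsI (t : ℕ) (F : ℝ⟦X⟧) : Prop := ∀ s, ∃ z : ℤ, (t : ℝ) ^ (2 * s) * coeff s F = z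

theorem IsI.mul {t : ℕ} {F G : ℝ⟦X⟧} (hF : IsI t F) (hG : IsI t G) : IsI t (F * G) := by
  choose f hf using hF
  choose g hg using hG
  intro s
  refine ⟨∑ p ∈ HasAntidiagonal.antidiagonal s, f p.1 * g p.2, ?_⟩
  rw [coeff_mul, mul_sum]
  push_cast
  apply sum_congr rfl
  rintro ⟨i, j⟩ hij
  rw [HasAntidiagonal.mem_antidiagonal] at hij
  simp only at hij ⊢
  rw [← hf, ← hg, ← hij, mul_add, pow_add]
  ring

theorem IsI_one (t : ℕ) : IsI t 1 := by
  intro s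
  rw [coeff_one]
  split_ifs with h
  · subst h; exact ⟨1, by simp⟩
  · exact ⟨0, by simp⟩

theorem IsI_beta (t : ℕ) (ht : 1 ≤ t) (a : ℕ) : IsI t (rescale (a : ℝ) (beta t)) := by
  intro s
  obtain ⟨z, hz⟩ := bc_int t s ht
  refine ⟨(a : ℤ) ^ s * z, ?_⟩
  rw [coeff_rescale]
  simp only [beta, coeff_mk]
  push_cast
  rw [← hz]; ring

theorem IsI_rt (t : ℕ) (ht : 1 ≤ t) (e : ℕ) : IsI t (rt t 0 e) := by
  rw [rt_zero_eq]
  induction e with
  | zero => simpa using IsI_one t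
  | succ e ih =>
    rw [prod_range_succ]
    apply ih.mul
    have := IsI_beta t ht (e + 1)
    push_cast at this
    exact this

theorem beta_maj (t : ℕ) (ht : 1 ≤ t) {a b : ℝ} (ha : 0 ≤ a) (hab : a ≤ b) :
    Maj (rescale a (beta t)) (gg b) := by
  intro m
  rw [coeff_rescale]
  simp only [beta, gg, coeff_mk]
  rw [abs_mul, abs_of_nonneg (by positivity : 0 ≤ a ^ m)]
  calc a ^ m * |bc t m| ≤ a ^ m * 1 := by
        have := abs_bc_le t m ht
        gcongr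
    _ ≤ b ^ m := by rw [mul_one]; gcongr

theorem gg_mul_gg (a : ℝ) : gg a * gg (2 * a) = C 2 * gg (2 * a) - gg a := by
  have h1 := gg_eq a
  have h2 := gg_eq (2 * a)
  have e1 : (1 - C a * X) * gg a = 1 := by linear_combination h1
  have e2 : (1 - C (2 * a) * X) * gg (2 * a) = 1 := by linear_combination h2
  have hC : (C (2 * a) : ℝ⟦X⟧) = C 2 * C a := by rw [map_mul]
  have h22 : (C 2 : ℝ⟦X⟧) = 2 := map_ofNat (C (R := ℝ)) 2
  have e3 : gg a * gg (2 * a) = (gg a * gg (2 * a)) * (C 2 * (1 - C a * X) - (1 - C (2 * a) * X)) := by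
    have : (C 2 * (1 - C a * X) - (1 - C (2 * a) * X) : ℝ⟦X⟧) = 1 := by
      rw [hC, h22]; ring
    rw [this, mul_one]
  rw [e3]
  calc gg a * gg (2 * a) * (C 2 * (1 - C a * X) - (1 - C (2 * a) * X))
      = C 2 * gg (2 * a) * ((1 - C a * X) * gg a) - gg a * ((1 - C (2 * a) * X) * gg (2 * a)) := by ring
    _ = _ := by rw [e1, e2]; ring

theorem gg_mul_gg_maj {a : ℝ} (ha : 0 ≤ a) : Maj (gg (2 * a) * gg a) (C 2 * gg (2 * a)) := by
  intro m
  have h0 : 0 ≤ coeff m (gg (2 * a) * gg a) :=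
    ((gg_self (by positivity : 0 ≤ 2 * a)).mul (gg_self ha)).nonneg m
  rw [abs_of_nonneg h0, mul_comm (gg (2 * a)), gg_mul_gg, map_sub]
  have : 0 ≤ coeff m (gg a) := (gg_self ha).nonneg m
  linarith

theorem rt_maj (t : ℕ) (ht : 1 ≤ t) (k e : ℕ) (he : e ≤ k) :
    Maj (rt t 0 e) (C (2 ^ e) * gg (2 * (k : ℝ))) := by
  rw [rt_zero_eq]
  induction e with
  | zero => simpa using one_maj_gg (by positivity : (0 : ℝ) ≤ 2 * (k : ℝ))
  | succ e ih =>
    rw [prod_range_succ]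
    have h1 := ih (by omega)
    have hk : ((e : ℝ) + 1) ≤ (k : ℝ) := by exact_mod_cast he
    have h2 := beta_maj t ht (a := (e : ℝ) + 1) (b := (k : ℝ)) (by positivity) hk
    have h3 := h1.mul h2
    have h4 : Maj (C ((2 : ℝ) ^ e) * gg (2 * (k : ℝ)) * gg (k : ℝ)) (C (2 ^ (e + 1)) * gg (2 * (k : ℝ))) := by
      have h5 := (Maj_C (c := (2 : ℝ) ^ e) (c' := 2 ^ e) (by rw [abs_of_nonneg (by positivity)])).mul
        (gg_mul_gg_maj (by positivity : (0 : ℝ) ≤ (k : ℝ)))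
      have e1 : C ((2 : ℝ) ^ e) * gg (2 * (k : ℝ)) * gg (k : ℝ) = C ((2 : ℝ) ^ e) * (gg (2 * (k : ℝ)) * gg (k : ℝ)) := by ring
      have e2 : (C ((2 : ℝ) ^ (e + 1)) : ℝ⟦X⟧) * gg (2 * (k : ℝ)) = C (2 ^ e) * (C 2 * gg (2 * (k : ℝ))) := by
        rw [pow_succ, map_mul]; ring
      rw [e1, e2]; exact h5
    exact h3.trans h4

theorem rt_coeff_le (t : ℕ) (ht : 1 ≤ t) (k e : ℕ) (he : e ≤ k) (s : ℕ) :
    |coeff s (rt t 0 e)| ≤ 2 ^ k * (2 * (k : ℝ)) ^ s := by
  refine (rt_maj t ht k e he s).trans ?_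
  rw [coeff_C_mul]
  simp only [gg, coeff_mk]
  have : (2 : ℝ) ^ e ≤ 2 ^ k := pow_le_pow_right₀ (by norm_num) he
  gcongr

theorem Sm_C_mul {x c : ℝ} {F : ℝ⟦X⟧} (h : Sm x F) : Sm x (C c * F) := by
  have h1 := Sm_coe x (Polynomial.C c)
  rw [Polynomial.coe_C] at h1
  exact h1.mul h

theorem ev_C_mul {x c : ℝ} {F : ℝ⟦X⟧} (h : Sm x F) : ev x (C c * F) = c * ev x F := by
  have h1 := Sm_coe x (Polynomial.C c)
  have h2 := ev_coe x (Polynomial.C c)
  rw [Polynomial.coe_C] at h1 h2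
  rw [ev_mul h1 h, h2, Polynomial.eval_C]

theorem Sm_X (x : ℝ) : Sm x X := by
  have h1 := Sm_coe x Polynomial.X
  rwa [Polynomial.coe_X] at h1

theorem ev_X (x : ℝ) : ev x X = x := by
  have h2 := ev_coe x Polynomial.X
  rwa [Polynomial.coe_X, Polynomial.eval_X] at h2

theorem Sm_rt (t : ℕ) (ht : 1 ≤ t) (k e : ℕ) (he : e ≤ k) {x : ℝ} (hx : 0 ≤ x) (h : 2 * (k : ℝ) * x < 1) :
    Sm x (rt t 0 e) :=
  (rt_maj t ht k e he).Sm hx (Sm_C_mul (Sm_gg (by positivity) hx h))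

theorem ev_beta_pos (t : ℕ) (ht : 1 ≤ t) {a x : ℝ} (ha : 0 ≤ a) (hx : 0 ≤ x) (h : 2 * (a * x) < 1) :
    0 < ev x (rescale a (beta t)) := by
  have hax : 0 ≤ a * x := by positivity
  have hax1 : a * x < 1 := by linarith
  have hS : Sm x (gg a) := Sm_gg ha hx hax1
  have hm : Maj (rescale a (beta t) - 1) (C a * X * gg a) := by
    intro m
    rcases m with _ | m
    · rw [map_sub, coeff_rescale]
      simp [beta, bc_zero]
    · rw [map_sub, coeff_one, if_neg (by omega), sub_zero, coeff_rescale, mul_assoc, coeff_C_mul,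
        coeff_succ_X_mul]
      simp only [beta, gg, coeff_mk]
      rw [abs_mul, abs_of_nonneg (by positivity : 0 ≤ a ^ (m + 1)), ← pow_succ']
      have := abs_bc_le t (m + 1) ht
      calc a ^ (m + 1) * |bc t (m + 1)| ≤ a ^ (m + 1) * 1 := by gcongr
        _ = _ := mul_one _
  have hSX : Sm x (C a * X * gg a) := (Sm_C_mul (Sm_X x)).mul hS
  have hev : ev x (C a * X * gg a) = a * x * (1 - a * x)⁻¹ := by
    rw [ev_mul (Sm_C_mul (Sm_X x)) hS, ev_C_mul (Sm_X x), ev_X, ev_gg ha hx hax1]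
  have h1 := hm.ev hx hSX
  rw [hev] at h1
  have h2 : a * x * (1 - a * x)⁻¹ < 1 := by
    rw [← div_eq_mul_inv, div_lt_one (by linarith)]; linarith
  have h3 : rescale a (beta t) = 1 + (rescale a (beta t) - 1) := by ring
  rw [h3, ev_add (Sm_one x) (hm.Sm hx hSX), ev_one]
  have := (abs_lt.1 (h1.trans_lt h2)).1
  linarith

theorem Pp_eval_zero (e : ℕ) : (Pp e).eval 0 = 1 := by
  rw [Pp, Polynomial.eval_prod]
  apply prod_eq_one
  intro l _
  simp

theorem ev_rt (t : ℕ) (ht : 1 ≤ t) (k e : ℕ) (he : e ≤ k) {x : ℝ} (hx : 0 ≤ x) (h : 2 * (k : ℝ) * x < 1) :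
    ev x (rt t 0 e) = ((Pp e).eval x) ^ (1 / (t : ℝ)) := by
  have hpos : 0 < ev x (rt t 0 e) := by
    rw [rt_zero_eq, ev_prod]
    · apply prod_pos
      intro l hl
      apply ev_beta_pos t ht (by positivity) hx
      have h1 : ((l : ℝ) + 1) ≤ k := by
        have := mem_range.1 hl
        exact_mod_cast (by omega : l + 1 ≤ k)
      have : ((l : ℝ) + 1) * x ≤ k * x := by gcongr
      linarith
    · intro l hl
      have h1 : ((l : ℝ) + 1) ≤ k := by
        have := mem_range.1 hl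
        exact_mod_cast (by omega : l + 1 ≤ k)
      apply (beta_maj t ht (a := (l : ℝ) + 1) (b := 2 * (k : ℝ)) (by positivity) (by linarith)).Sm hx
      exact Sm_gg (by positivity) hx h
  have hpow : (ev x (rt t 0 e)) ^ t = (Pp e).eval x := by
    rw [← ev_pow (Sm_rt t ht k e he hx h), ← ev_coe]
    have := rt_pow t ht 0 le_rfl e
    rw [Pp_eval_zero, map_one, one_mul, tau_zero_apply] at this
    rw [this]
  have ht0 : (t : ℝ) ≠ 0 := by positivity
  rw [← hpow, ← Real.rpow_natCast, ← Real.rpow_mul hpos.le, mul_one_div_cancel ht0, Real.rpow_one]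

end Pool.Agent.H147
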