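import Mathlib

/-!
A counting lemma: a set of integers in which every pattern of five points occurs rarely is small.
-/

namespace Pool.Agent.H147

open Finset

theorem count_sparse (t K N : ℕ) (ht : 1 ≤ t) (hK : 1 ≤ K) (S : Finset ℕ) (hS : ∀ n ∈ S, n ≤ N) :
    (S.filter (fun n => ((Icc 1 K).filter (fun j => n + t * j ∈ S)).card < 4)).card
      ≤ 4 * (t * (N / (t * K) + 1)) := by
  classical
  have htK : 0 < t * K := Nat.mul_pos (by omega) (by omega)
  have h1 := Finset.card_le_mul_card_image_of_maps_to
    (s := S.filter (fun n => ((Icc 1 K).filter (fun j => n + t * j ∈ S)).card < 4))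
    (t := range t ×ˢ range (N / (t * K) + 1))
    (f := fun n => (n % t, n / (t * K)))
    (fun n hn => by
      rw [mem_product, mem_range, mem_range]
      refine ⟨Nat.mod_lt _ (by omega), ?_⟩
      have := Nat.div_le_div_right (c := t * K) (hS n (mem_filter.1 hn).1)
      show n / (t * K) < N / (t * K) + 1
      omega) 4
    (fun b _ => by
      by_contra hcon
      push Not at hcon
      set F := (S.filter (fun n => ((Icc 1 K).filter (fun j => n + t * j ∈ S)).card < 4)).filter
        (fun n => (n % t, n / (t * K)) = b) with hF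
      have hne : F.Nonempty := card_pos.1 (by omega)
      set n0 := F.min' hne with hn0
      have hn0F : n0 ∈ F := F.min'_mem hne
      have hn0T := (mem_filter.1 (mem_filter.1 hn0F).1).2
      have h2 : 4 ≤ (F.erase n0).card := by
        rw [card_erase_of_mem hn0F]; omega
      have h3 : (F.erase n0).card ≤ ((Icc 1 K).filter (fun j => n0 + t * j ∈ S)).card := by
        have hprop : ∀ n' ∈ F.erase n0, ∃ j, n' = n0 + t * j ∧ 1 ≤ j ∧ j ≤ K := by
          intro n' hn'
          have hne' : n' ≠ n0 := (mem_erase.1 hn').1
          have hn'F : n' ∈ F := (mem_erase.1 hn').2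
          have hlt : n0 < n' := lt_of_le_of_ne (F.min'_le n' hn'F) (Ne.symm hne')
          have e1 := (mem_filter.1 hn0F).2
          have e2 := (mem_filter.1 hn'F).2
          have e3 : (n0 % t, n0 / (t * K)) = (n' % t, n' / (t * K)) := by rw [e1, e2]
          rw [Prod.mk.injEq] at e3
          obtain ⟨e4, e5⟩ := e3
          have e6 : t ∣ n' - n0 := (Nat.modEq_iff_dvd' hlt.le).1 e4
          obtain ⟨j, hj⟩ := e6
          refine ⟨j, by omega, ?_, ?_⟩
          · rcases Nat.eq_zero_or_pos j with h | h
            · subst h; omega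
            · exact h
          · have a1 : n' < t * K * (n' / (t * K) + 1) := Nat.lt_mul_div_succ _ htK
            have a2 : t * K * (n0 / (t * K)) ≤ n0 := Nat.mul_div_le _ _
            rw [← e5] at a1
            have a3 : t * K * (n0 / (t * K) + 1) = t * K * (n0 / (t * K)) + t * K := by ring
            have a4 : t * j < t * K := by omega
            exact (Nat.lt_of_mul_lt_mul_left a4).le
        choose! g hg using hprop
        apply card_le_card_of_injOn g
        · intro n' hn'
          obtain ⟨e1, e2, e3⟩ := hg n' hn'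
          rw [mem_coe, mem_filter, mem_Icc]
          refine ⟨⟨e2, e3⟩, ?_⟩
          rw [← e1]
          exact (mem_filter.1 (mem_filter.1 (mem_erase.1 hn').2).1).1
        · intro a ha b' hb' hab
          obtain ⟨e1, -, -⟩ := hg a ha
          obtain ⟨e2, -, -⟩ := hg b' hb'
          rw [e1, e2, hab]
      omega)
  rw [card_product, card_range, card_range] at h1
  exact h1

theorem count_S (t K N C : ℕ) (ht : 1 ≤ t) (hK : 1 ≤ K) (S : Finset ℕ) (hS : ∀ n ∈ S, n ≤ N)
    (hpat : ∀ J : Finset ℕ, J.card = 5 → (∀ j ∈ J, j ≤ K) →
      (S.filter (fun n => ∀ j ∈ J, n + t * j ∈ S)).card ≤ C) :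
    S.card ≤ 4 * (t * (N / (t * K) + 1)) + K ^ 4 * C := by
  classical
  have h1 := count_sparse t K N ht hK S hS
  have h2 : (S.filter (fun n => ¬ ((Icc 1 K).filter (fun j => n + t * j ∈ S)).card < 4)).card
      ≤ K ^ 4 * C := by
    have hsub : S.filter (fun n => ¬ ((Icc 1 K).filter (fun j => n + t * j ∈ S)).card < 4)
        ⊆ (powersetCard 4 (Icc 1 K)).biUnion
          (fun J' => S.filter (fun n => ∀ j ∈ insert 0 J', n + t * j ∈ S)) := by
      intro n hn
      obtain ⟨hnS, hn4⟩ := mem_filter.1 hn
      push Not at hn4
      obtain ⟨J', hJ', hJ'c⟩ := Finset.exists_subset_card_eq hn4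
      rw [mem_biUnion]
      refine ⟨J', ?_, ?_⟩
      · rw [mem_powersetCard]
        exact ⟨hJ'.trans (filter_subset _ _), hJ'c⟩
      · rw [mem_filter]
        refine ⟨hnS, ?_⟩
        intro j hj
        rcases mem_insert.1 hj with h | h
        · subst h; simpa using hnS
        · exact (mem_filter.1 (hJ' h)).2
    refine (card_le_card hsub).trans ?_
    refine (card_biUnion_le_card_mul _ _ C ?_).trans ?_
    · intro J' hJ'
      obtain ⟨hsub', hc⟩ := mem_powersetCard.1 hJ'
      apply hpat
      · rw [card_insert_of_notMem, hc]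
        intro h0
        have := mem_Icc.1 (hsub' h0)
        omega
      · intro j hj
        rcases mem_insert.1 hj with h | h
        · omega
        · exact (mem_Icc.1 (hsub' h)).2
    · apply Nat.mul_le_mul_right
      rw [card_powersetCard, Nat.card_Icc, Nat.add_sub_cancel]
      exact Nat.choose_le_pow K 4
  have h3 := Finset.card_filter_add_card_filter_not (s := S) (fun n => ((Icc 1 K).filter (fun j => n + t * j ∈ S)).card < 4)
  omega

end Pool.Agent.H147
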