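import Pool.Agent.H147_fact.Asym
import Pool.Agent.H147_fact.Count

/-!
The number of integers `n` for which `G t n` is close to an integer for some small `t`.
-/

namespace Pool.Agent.H147

open Finset

theorem bound_t (N t : ℕ) (hL1 : 10000 ≤ Real.log N) (ht : 2 ≤ t)
    (hlt : Real.log (2 * t) ≤ Real.log N / 2000) (hbig : 10 ^ 60 * t ^ 12 ≤ N)
    (S : Finset ℕ) (hS : ∀ n ∈ S, 50 * N ≤ 51 * n ∧ n ≤ N ∧ Near t n) :
    (S.card : ℝ) ≤ 2012 * ((t : ℝ) ^ (1 / 6 : ℝ) * (N : ℝ) ^ (5 / 6 : ℝ)) := by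
  have htpos : (0 : ℝ) < t := by exact_mod_cast (by omega : 0 < t)
  have ht12 : t ≤ t ^ 12 := Nat.le_self_pow (by norm_num) t
  have hNpos : 0 < N := by
    have : 0 < t ^ 12 := by positivity
    omega
  have hNpos' : (0 : ℝ) < N := by exact_mod_cast hNpos
  set x : ℝ := ((N : ℝ) / t) ^ (1 / 6 : ℝ) with hx
  have hxpos : 0 < x := by positivity
  have hx6 : x ^ 6 = N / t := by
    rw [hx, ← Real.rpow_natCast, ← Real.rpow_mul (by positivity)]
    norm_num
  have htx6 : t * x ^ 6 = N := by rw [hx6]; field_simp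
  set K := ⌊x⌋₊ with hKdef
  have hKx : (K : ℝ) ≤ x := Nat.floor_le hxpos.le
  have hxK : x < K + 1 := Nat.lt_floor_add_one x
  have hx1001 : (1001 : ℝ) ≤ x := by
    by_contra hcon
    push Not at hcon
    have h1 : x ^ 6 < 1001 ^ 6 := pow_lt_pow_left₀ hcon hxpos.le (by norm_num)
    have h2 : (N : ℝ) < 1001 ^ 6 * t := by
      rw [← htx6]; nlinarith
    have h3 : (10 ^ 60 * t : ℝ) ≤ N := by
      have : 10 ^ 60 * t ≤ N := le_trans (Nat.mul_le_mul_left _ ht12) hbig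
      exact_mod_cast this
    nlinarith
  have hK : 1000 ≤ K := by
    have : (1000 : ℝ) < K + 1 := by linarith
    have : 1000 < K + 1 := by exact_mod_cast this
    omega
  have hKN : t * K ^ 6 ≤ N := by
    have h1 : (K : ℝ) ^ 6 ≤ x ^ 6 := by gcongr
    have h2 : (t : ℝ) * K ^ 6 ≤ N := by
      rw [← htx6]; gcongr
    exact_mod_cast h2
  have hbig2 : 10000000 * (t ^ 2 * K) ≤ N := by
    have h1 : (10000000 * (t ^ 2 * K)) ^ 6 ≤ N ^ 6 := by
      calc (10000000 * (t ^ 2 * K)) ^ 6 = (10 ^ 42 * t ^ 11) * (t * K ^ 6) := by ring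
        _ ≤ N * N := by
          apply Nat.mul_le_mul _ hKN
          have : t ^ 11 ≤ t ^ 12 := Nat.pow_le_pow_right (by omega) (by norm_num)
          omega
        _ = N ^ 2 := by ring
        _ ≤ N ^ 6 := Nat.pow_le_pow_right hNpos (by norm_num)
    exact le_of_pow_le_pow_left₀ (by norm_num) (by omega) h1
  have hdk : 1000000 * (t * K + 1) ≤ 2 * N / (5 * t) := by
    rw [Nat.le_div_iff_mul_le (by omega)]
    have h1 : 1 ≤ t * K := by nlinarith
    have h2 : 1000000 * (t * K + 1) ≤ 1000000 * (2 * (t * K)) := by omega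
    calc 1000000 * (t * K + 1) * (5 * t) ≤ 1000000 * (2 * (t * K)) * (5 * t) := Nat.mul_le_mul_right _ h2
      _ = 10000000 * (t ^ 2 * K) := by ring
      _ ≤ 2 * N := by omega
  have key := count_S t K N (1000 * (t * K + 1)) (by omega) (by omega) S (fun n hn => (hS n hn).2.1)
    (fun J hJ hJK => pattern_count N t K _ hL1 ht hK hKN rfl hdk hlt S hS J hJ hJK)
  have key' : (S.card : ℝ) ≤ 4 * (t * ((N : ℝ) / (t * K) + 1)) + K ^ 4 * (1000 * (t * K + 1)) := by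
    have h1 : (S.card : ℝ) ≤ ((4 * (t * (N / (t * K) + 1)) + K ^ 4 * (1000 * (t * K + 1)) : ℕ) : ℝ) := by
      exact_mod_cast key
    refine h1.trans ?_
    push_cast
    have h2 : ((N / (t * K) : ℕ) : ℝ) ≤ (N : ℝ) / (t * K) := by
      have := @Nat.cast_div_le ℝ _ _ _ N (t * K)
      push_cast at this
      exact this
    gcongr
  have hKpos : (0 : ℝ) < K := by exact_mod_cast (by omega : 0 < K)
  have hKx2 : x ≤ 2 * K := by
    have : (1000 : ℝ) ≤ K := by exact_mod_cast hK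
    linarith
  have hx5 : (t : ℝ) * x ^ 5 = (t : ℝ) ^ (1 / 6 : ℝ) * (N : ℝ) ^ (5 / 6 : ℝ) := by
    have h1 : x ^ 5 = ((N : ℝ) / t) ^ (5 / 6 : ℝ) := by
      rw [hx, ← Real.rpow_natCast, ← Real.rpow_mul (by positivity)]
      norm_num
    rw [h1, Real.div_rpow hNpos'.le htpos.le]
    have h2 : (t : ℝ) = (t : ℝ) ^ (1 / 6 : ℝ) * (t : ℝ) ^ (5 / 6 : ℝ) := by
      rw [← Real.rpow_add htpos]; norm_num
    have h3 : (t : ℝ) ^ (5 / 6 : ℝ) ≠ 0 := by positivity
    rw [mul_div_assoc', div_eq_iff h3]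
    linear_combination (N : ℝ) ^ (5 / 6 : ℝ) * h2
  rw [← hx5]
  refine key'.trans ?_
  have a1 : (t : ℝ) * ((N : ℝ) / (t * K)) ≤ 2 * (t * x ^ 5) := by
    have : (t : ℝ) * ((N : ℝ) / (t * K)) = N / K := by field_simp
    rw [this, div_le_iff₀ hKpos, ← htx6]
    calc (t : ℝ) * x ^ 6 = t * x ^ 5 * x := by ring
      _ ≤ t * x ^ 5 * (2 * K) := by gcongr
      _ = _ := by ring
  have hx1 : 1 ≤ x := by linarith
  have a2 : (t : ℝ) ≤ t * x ^ 5 := by
    have : 1 ≤ x ^ 5 := one_le_pow₀ hx1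
    nlinarith
  have a3 : (K : ℝ) ^ 4 * (1000 * (t * K + 1)) ≤ 2000 * (t * x ^ 5) := by
    have h1 : (1 : ℝ) ≤ t * K := by
      have : 1 ≤ t * K := by nlinarith
      exact_mod_cast this
    calc (K : ℝ) ^ 4 * (1000 * ((t : ℝ) * K + 1)) ≤ (K : ℝ) ^ 4 * (1000 * ((t : ℝ) * K + t * K)) := by gcongr
      _ = 2000 * ((t : ℝ) * K ^ 5) := by ring
      _ ≤ 2000 * (t * x ^ 5) := by gcongr
  calc 4 * (t * ((N : ℝ) / (t * K) + 1)) + K ^ 4 * (1000 * (t * K + 1))
      = 4 * (t * ((N : ℝ) / (t * K))) + 4 * t + K ^ 4 * (1000 * (t * K + 1)) := by ring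
    _ ≤ 4 * (2 * (t * x ^ 5)) + 4 * (t * x ^ 5) + 2000 * (t * x ^ 5) := by gcongr
    _ = 2012 * (t * x ^ 5) := by ring

end Pool.Agent.H147
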