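import Pool.Agent.H147_fact.LocalNum

/-!
The numerical conditions with a constant factor `lam ≥ 1`.
-/

namespace Pool.Agent.H147

open Finset

/-- `lam G t n` is close to a positive integer -/
def NearC (lam : ℝ) (t n : ℕ) : Prop :=
  ∃ y : ℤ, 0 < y ∧ |(y : ℝ) - lam * GG t n| ≤ (n : ℝ) ^ 4 / GG t n

theorem YY_card (t k d : ℕ) (ht : 1 ≤ t) (hk : 1 ≤ k) (hd : 1 ≤ d) :
    (3 * (5 * (2 * d)) * YY t k d * 2 ^ k) ^ (6 * d) * (t ^ 2 * (2 * k)) ^ (6 * d * (6 * d - 1) / 2)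
      ≤ (YY t k d ^ (2 * d) * (2 * k) ^ (2 * d * (2 * d - 1) / 2)) ^ 5 := by
  set Y := YY t k d with hY
  set κ := 2 * k with hκ
  have hκ1 : 1 ≤ κ := by omega
  have h5 : (30 * d * Y * 2 ^ k) ^ 6 * (t ^ 2 * κ) ^ (3 * (6 * d - 1)) ≤ Y ^ 10 * κ ^ (5 * (2 * d - 1)) := by
    obtain ⟨c, hc⟩ : ∃ c, d = c + 1 := ⟨d - 1, by omega⟩
    have d1 : 3 * (6 * d - 1) = 18 * c + 15 := by omega
    have d2 : 5 * (2 * d - 1) = 10 * c + 5 := by omega
    set P := 30 * d * 2 ^ k with hP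
    have hP1 : 1 ≤ P := by
      have : 0 < 30 * d * 2 ^ k := by positivity
      omega
    have e0 : Y = P ^ 2 * t ^ (9 * d) * κ ^ (2 * d + 1) := by rw [hY, YY]
    rw [d1, d2]
    have e1 : (30 * d * Y * 2 ^ k) ^ 6 * (t ^ 2 * κ) ^ (18 * c + 15)
        = Y ^ 6 * (P ^ 6 * t ^ (36 * c + 30) * κ ^ (18 * c + 15)) := by
      have : 30 * d * Y * 2 ^ k = P * Y := by rw [hP]; ring
      rw [this, mul_pow (t ^ 2), ← pow_mul]; ring
    have e2 : Y ^ 10 * κ ^ (10 * c + 5) = Y ^ 6 * (P ^ 8 * t ^ (36 * c + 36) * κ ^ (18 * c + 17)) := by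
      have : Y ^ 10 = Y ^ 6 * (P ^ 2 * t ^ (9 * d) * κ ^ (2 * d + 1)) ^ 4 := by
        rw [← e0]; ring
      rw [this, hc]
      ring
    rw [e1, e2]
    apply Nat.mul_le_mul_left
    apply Nat.mul_le_mul
    · apply Nat.mul_le_mul
      · exact Nat.pow_le_pow_right hP1 (by omega)
      · exact Nat.pow_le_pow_right ht (by omega)
    · exact Nat.pow_le_pow_right hκ1 (by omega)
  have h6 := Nat.pow_le_pow_left h5 d
  have e1 : 6 * d * (6 * d - 1) / 2 = 3 * (6 * d - 1) * d := by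
    have : 6 * d * (6 * d - 1) = 2 * (3 * (6 * d - 1) * d) := by ring
    rw [this]; exact Nat.mul_div_cancel_left _ (by norm_num)
  have e2 : 2 * d * (2 * d - 1) / 2 = d * (2 * d - 1) := by
    rw [mul_assoc]; exact Nat.mul_div_cancel_left _ (by norm_num)
  have e3 : 3 * (5 * (2 * d)) * Y * 2 ^ k = 30 * d * Y * 2 ^ k := by ring
  rw [e1, e2, e3]
  calc (30 * d * Y * 2 ^ k) ^ (6 * d) * (t ^ 2 * κ) ^ (3 * (6 * d - 1) * d)
      = ((30 * d * Y * 2 ^ k) ^ 6 * (t ^ 2 * κ) ^ (3 * (6 * d - 1))) ^ d := by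
        rw [mul_pow ((30 * d * Y * 2 ^ k) ^ 6), ← pow_mul (30 * d * Y * 2 ^ k), ← pow_mul (t ^ 2 * κ)]
    _ ≤ (Y ^ 10 * κ ^ (5 * (2 * d - 1))) ^ d := h6
    _ = (Y ^ (2 * d) * κ ^ (d * (2 * d - 1))) ^ 5 := by
        rw [mul_pow (Y ^ 10), mul_pow (Y ^ (2 * d)), ← pow_mul Y, ← pow_mul Y, ← pow_mul κ, ← pow_mul κ]
        congr 2
        · ring
        · ring

theorem num_bounds_c (N t K n s d j0 : ℕ) (L lam : ℝ) (hL : L = Real.log N) (hL1 : 10000 ≤ L)
    (ht : 2 ≤ t) (hK : 1000 ≤ K) (hKN : t * K ^ 6 ≤ N) (hd1 : 5 * t * d ≤ 2 * N)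
    (hd2 : 2 * N < 5 * t * (d + 1)) (hdk : 1000000 * (t * K + 1) ≤ d) (hlam : 1 ≤ lam)
    (hlt : Real.log (2 * t * lam) ≤ L / 2000) (hn1 : 50 * N ≤ 51 * n) (hn2 : n ≤ N)
    (hj0 : j0 = d / (100 * (t * K + 1))) (hs : s < j0) :
    NumA t (t * K) 5 (2 * d) (6 * d) j0 n s (YY t (t * K) d) (lam * GG t n) ∧
    NumB t (t * K) 5 (2 * d) (6 * d) j0 n s (YY t (t * K) d) ((N : ℝ) ^ 4 / GG t n) := by
  obtain ⟨hk1000, hd1', hsk, hs5, hs6, hdN, hdN2, htMM, htkMM, hNpos⟩ :=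
    nat_facts N t K s d j0 (t * K) rfl ht hK hd1 hdk hj0 hs
  have hn1' : 1 ≤ n := by omega
  have hnpos : (0 : ℝ) < n := by exact_mod_cast hn1'
  have hNpos' : (0 : ℝ) < N := by exact_mod_cast hNpos
  have htpos : (0 : ℝ) < t := by exact_mod_cast (by omega : 0 < t)
  have hlam0 : 0 < lam := by linarith
  set k := t * K with hk
  have hkpos : (0 : ℝ) < k := by exact_mod_cast (by omega : 0 < k)
  -- real quantities
  have hexp2L : Real.exp (2 * L) = (N : ℝ) ^ 2 := by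
    rw [pow_eq_exp hNpos', hL]; norm_num
  set ℓ := Real.log n with hℓ
  set lk := Real.log (2 * (k : ℝ)) with hlk
  set lt := Real.log ((t : ℝ) * lam) with hlt'
  have hlt0 : Real.log t ≤ lt := by
    apply Real.log_le_log htpos
    nlinarith
  have hℓL : ℓ ≤ L := by
    rw [hℓ, hL]
    exact Real.log_le_log hnpos (by exact_mod_cast hn2)
  have hLℓ : L - 1 / 50 ≤ ℓ := by
    have h1 : (N : ℝ) ≤ (1 + 1 / 50) * n := by
      have : (50 * N : ℝ) ≤ 51 * n := by exact_mod_cast hn1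
      linarith
    have h2 : Real.log N ≤ Real.log ((1 + 1 / 50) * n) := Real.log_le_log hNpos' h1
    rw [Real.log_mul (by norm_num) hnpos.ne'] at h2
    have h3 : Real.log (1 + 1 / 50) ≤ 1 / 50 := by
      have := Real.log_le_sub_one_of_pos (show (0 : ℝ) < 1 + 1 / 50 by norm_num)
      linarith
    rw [hL]; linarith
  have hlt2 : lt ≤ L / 2000 := by
    refine le_trans ?_ hlt
    apply Real.log_le_log (by positivity)
    nlinarith [mul_pos htpos hlam0]
  have hlk2 : lk ≤ L / 6 + L / 2000 := by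
    have hKpos : (0 : ℝ) < K := by exact_mod_cast (by omega : 0 < K)
    have h1 : lk = Real.log (2 * t) + Real.log K := by
      rw [hlk, ← Real.log_mul (by positivity) hKpos.ne', hk]
      push_cast; ring_nf
    have h2 : Real.log K ≤ L / 6 := by
      have h3 : (K : ℝ) ^ 6 ≤ N := by
        have : K ^ 6 ≤ N := le_trans (Nat.le_mul_of_pos_left _ (by omega)) hKN
        exact_mod_cast this
      have h4 := Real.log_le_log (by positivity) h3
      rw [Real.log_pow] at h4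
      push_cast at h4
      rw [hL]; linarith
    have h3 : Real.log (2 * t) ≤ Real.log (2 * t * lam) := by
      apply Real.log_le_log (by positivity)
      nlinarith
    rw [h1]; linarith
  have hkd' : 1000000 * ((k : ℝ) + 1) ≤ d := by exact_mod_cast hdk
  have hsk' : 100 * ((s : ℝ) * (k + 1)) ≤ d := by exact_mod_cast hsk
  have hs5' : 100000 * (s : ℝ) ≤ d := by exact_mod_cast hs5
  have hNt : (N : ℝ) / t ≤ 5 / 2 * (d + 1) := by
    rw [div_le_iff₀ htpos]
    have : (2 * N : ℝ) ≤ 5 * t * (d + 1) := by exact_mod_cast hd2.le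
    linarith
  have hNt2 : 5 / 2 * (d : ℝ) ≤ N / t := by
    rw [le_div_iff₀ htpos]
    have : (5 * t * d : ℝ) ≤ 2 * N := by exact_mod_cast hd1
    linarith
  have hℓ0 : 0 ≤ ℓ := by linarith
  have b5 : ((5 : ℕ) : ℝ) ≤ Real.exp 2 := by
    have h1 : (2.7 : ℝ) ≤ Real.exp 1 := by have := Real.exp_one_gt_d9; linarith
    have h2 : Real.exp 2 = Real.exp 1 * Real.exp 1 := by rw [← Real.exp_add]; norm_num
    rw [h2]; push_cast; nlinarith
  have hY : (YY t k d : ℝ) ≤ Real.exp (2 * (2 * L + k) + 9 * d * lt + (2 * d + 1) * lk) := by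
    refine (YY_bound t d k (2 * L) lk (Real.log t) ht (by omega) hd1' (by
      rw [hexp2L]; exact_mod_cast hdN) hlk rfl).trans ?_
    apply Real.exp_le_exp.2
    gcongr
  have hGup : lam * GG t n ≤ Real.exp (lt + 5 / 2 * (d + 1) * ℓ) := by
    have h1 := GG_le t n (by omega) hn1'
    have h2 : lam * Real.exp (Real.log t + n / t * Real.log n) = Real.exp (lt + n / t * ℓ) := by
      rw [hlt', Real.log_mul htpos.ne' hlam0.ne', Real.exp_add, Real.exp_add, Real.exp_add,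
        Real.exp_log hlam0, ← hℓ]
      ring
    calc lam * GG t n ≤ lam * Real.exp (Real.log t + n / t * Real.log n) := by gcongr
      _ = Real.exp (lt + n / t * ℓ) := h2
      _ ≤ _ := by
        apply Real.exp_le_exp.2
        have h1 : (n : ℝ) / t ≤ 5 / 2 * (d + 1) := by
          refine le_trans ?_ hNt
          gcongr
        have := mul_le_mul_of_nonneg_right h1 hℓ0
        linarith
  have hGlo : Real.exp (50 / 51 * (5 / 2 * d) * (ℓ - 1)) ≤ GG t n := by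
    refine le_trans ?_ (le_GG t n (by omega) hn1')
    apply Real.exp_le_exp.2
    apply mul_le_mul_of_nonneg_right _ (by linarith)
    have h1 : 50 / 51 * (N : ℝ) ≤ n := by
      have : (50 * N : ℝ) ≤ 51 * n := by exact_mod_cast hn1
      linarith
    calc 50 / 51 * (5 / 2 * (d : ℝ)) ≤ 50 / 51 * (N / t) := by gcongr
      _ = (50 / 51 * N) / t := by ring
      _ ≤ n / t := by gcongr
  have hG0 := GG_pos t n (by omega)
  have hE : (N : ℝ) ^ 4 / GG t n ≤ Real.exp (4 * L - 50 / 51 * (5 / 2 * d) * (ℓ - 1)) := by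
    rw [Real.exp_sub]
    have : (N : ℝ) ^ 4 = Real.exp (4 * L) := by rw [pow_eq_exp hNpos', hL]; norm_num
    rw [this]
    gcongr
  constructor
  · have key := real_ineq1 d k s ℓ L lk lt hkpos.le (by positivity) hL1 hLℓ hℓL hkd' hsk' hs5' hlk2 hlt2
    apply numA_of t k 5 (2 * d) (6 * d) j0 n s _ _ 2 _ _ (2 * L) (2 * L) hn1' (by omega) hs6 b5
      (by positivity) hGup (by positivity) hY
    · rw [hexp2L]; exact_mod_cast hdN2
    · rw [hexp2L]; exact_mod_cast htMM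
    · push_cast
      exact key
  · have key := real_ineq2 d k s ℓ L lk lt hkpos.le (by positivity) hL1 hLℓ hℓL hkd' hsk' hs5' hlk2 hlt2
    apply numB_of t k 5 (2 * d) (6 * d) j0 n s _ _ 2 _ _ (2 * L) hn1' b5 (by positivity) hE
      (by positivity) hY
    · rw [hexp2L]; exact_mod_cast htkMM
    · push_cast
      exact key

theorem pattern_count_c (N t K d : ℕ) (lam : ℝ) (hL1 : 10000 ≤ Real.log N)
    (ht : 2 ≤ t) (hK : 1000 ≤ K) (hKN : t * K ^ 6 ≤ N) (hd : d = 2 * N / (5 * t))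
    (hdk : 1000000 * (t * K + 1) ≤ d) (hlam : 1 ≤ lam)
    (hlt : Real.log (2 * t * lam) ≤ Real.log N / 2000)
    (S : Finset ℕ) (hS : ∀ n ∈ S, 50 * N ≤ 51 * n ∧ n ≤ N ∧ NearC lam t n)
    (J : Finset ℕ) (hJ : J.card = 5) (hJK : ∀ j ∈ J, j ≤ K) :
    (S.filter (fun n => ∀ j ∈ J, n + t * j ∈ S)).card ≤ 1000 * (t * K + 1) := by
  have htpos : 0 < 5 * t := by omega
  have hd1 : 5 * t * d ≤ 2 * N := by rw [hd]; exact Nat.mul_div_le _ _
  have hd2 : 2 * N < 5 * t * (d + 1) := by rw [hd]; exact Nat.lt_mul_div_succ _ htpos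
  set k := t * K with hk
  set j0 := d / (100 * (k + 1)) with hj0
  have hj1 : j0 * (100 * (k + 1)) ≤ d := Nat.div_mul_le_self _ _
  have hj2 : d < 100 * (k + 1) * (j0 + 1) := Nat.lt_mul_div_succ _ (by omega)
  have hk1 : 1 ≤ k := by rw [hk]; nlinarith
  have hj06 : j0 ≤ 6 * d := by
    have : j0 * 1 ≤ j0 * (100 * (k + 1)) := Nat.mul_le_mul_left _ (by omega)
    omega
  set q := J.orderEmbOfFin hJ with hq
  have hqJ : ∀ i, q i ∈ J := fun i => J.orderEmbOfFin_mem hJ i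
  set M := S.filter (fun n => ∀ j ∈ J, n + t * j ∈ S) with hM
  have hMS : ∀ n ∈ M, n ∈ S := fun n hn => (mem_filter.1 hn).1
  have hMJ : ∀ n ∈ M, ∀ j ∈ J, n + t * j ∈ S := fun n hn => (mem_filter.1 hn).2
  have hdN : 5 * d ≤ N := by
    have : 2 * d ≤ t * d := Nat.mul_le_mul_right _ ht
    have h2 : 5 * t * d = 5 * (t * d) := by ring
    omega
  have hn1 : ∀ n ∈ M, 1 ≤ n := by
    intro n hn
    obtain ⟨h1, h2, -⟩ := hS n (hMS n hn)
    omega
  have hnum : ∀ n ∈ M, ∀ s < j0, NumA t k 5 (2 * d) (6 * d) j0 n s (YY t k d) (lam * GG t n) ∧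
      NumB t k 5 (2 * d) (6 * d) j0 n s (YY t k d) ((N : ℝ) ^ 4 / GG t n) := by
    intro n hn s hs
    obtain ⟨h1, h2, -⟩ := hS n (hMS n hn)
    exact num_bounds_c N t K n s d j0 (Real.log N) lam rfl hL1 ht hK hKN hd1 hd2 hdk hlam hlt h1 h2 hj0 hs
  have hY1 : 1 ≤ YY t k d := by
    unfold YY
    have h0 : 0 < t := by omega
    have h1 : 0 < d := by omega
    have : 0 < (30 * d * 2 ^ k) ^ 2 * t ^ (9 * d) * (2 * k) ^ (2 * d + 1) := by positivity
    omega
  have key := pattern_bound_gen t k 5 (2 * d) (6 * d) j0 (YY t k d) ht hk1 (by norm_num) (by omega) hY1 hj06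
    (YY_card t k d (by omega) hk1 (by omega)) q
    (fun i => Nat.mul_le_mul_left _ (hJK _ (hqJ i))) q.injective
    (fun n => lam * GG t n) (fun n => (N : ℝ) ^ 4 / GG t n) M
    (fun n hn => by
      obtain ⟨h1, h2, -⟩ := hS n (hMS n hn)
      omega)
    (fun n hn => mul_pos (by linarith) (GG_pos t n (by omega)))
    (fun n hn => by
      have h1 : ∀ i : Fin 5, ∃ y : ℤ, 0 < y ∧ |(y : ℝ) - lam * GG t (n + t * q i)| ≤ (N : ℝ) ^ 4 / GG t n := by
        intro i
        obtain ⟨h2, h3, y, hy0, hy⟩ := hS _ (hMJ n hn _ (hqJ i))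
        refine ⟨y, hy0, hy.trans ?_⟩
        have h4 := GG_pos t n (by omega)
        have h5 := GG_mono t n (n + t * q i) (by omega)
        have h6 : ((n + t * q i : ℕ) : ℝ) ≤ N := by exact_mod_cast h3
        gcongr
      choose y hy0 hy using h1
      refine ⟨y, fun i => (hy0 i).ne', fun i => ?_⟩
      have h2 := hy i
      rw [GG_shift t n (q i) (by omega) (hn1 n hn)] at h2
      refine le_trans (le_of_eq ?_) h2
      congr 1; ring)
    (fun n hn s hs => (hnum n hn s hs).1)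
    (fun n hn s hs => (hnum n hn s hs).2)
  simp only [Nat.reduceSub] at key
  by_contra hcon
  push Not at hcon
  have hj5 : 4 ≤ j0 := by
    by_contra h
    push Not at h
    have : 100 * (k + 1) * (j0 + 1) ≤ 100 * (k + 1) * 4 := Nat.mul_le_mul_left _ (by omega)
    omega
  have h1 : 1000 * (k + 1) * (j0 - 4) ≤ M.card * (j0 - 4) := Nat.mul_le_mul_right _ hcon.le
  have h2 : 1000 * (k + 1) * (j0 - 4) + 5000 * (k + 1) = 10 * (100 * (k + 1) * (j0 + 1)) := by
    obtain ⟨c, hc⟩ : ∃ c, j0 = c + 4 := ⟨j0 - 4, by omega⟩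
    rw [hc, Nat.add_sub_cancel]; ring
  omega

end Pool.Agent.H147
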