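import Pool.Agent.H147_fact.Nonzero

/-!
The zero estimate: how many points can carry a high order relation.
-/

namespace Pool.Agent.H147

open Finset

theorem natDegree_lin_prod_le (s : Finset ℕ) :
    (∏ l ∈ s, (1 + Polynomial.C ((l : ℝ) + 1) * Polynomial.X : Polynomial ℝ)).natDegree ≤ s.card := by
  refine (Polynomial.natDegree_prod_le _ _).trans ?_
  rw [card_eq_sum_ones]
  apply sum_le_sum
  intro l _
  refine (Polynomial.natDegree_add_le _ _).trans ?_
  simp only [Polynomial.natDegree_one, zero_le, sup_of_le_right]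
  refine (Polynomial.natDegree_C_mul_le _ _).trans ?_
  exact Polynomial.natDegree_X_le

theorem natDegree_Pp_le (e : ℕ) : (Pp e).natDegree ≤ e := by
  have := natDegree_lin_prod_le (range e)
  rwa [card_range] at this

theorem natDegree_Qp_le (k e : ℕ) : (Qp k e).natDegree ≤ k - e := by
  have := natDegree_lin_prod_le (Ico e k)
  rwa [Nat.card_Ico] at this

theorem natDegree_op_le (t k e : ℕ) (he : e ≤ k) (A : Polynomial ℝ) :
    (op t k e A).natDegree ≤ A.natDegree + k := by
  rw [op]
  refine (Polynomial.natDegree_add_le _ _).trans (max_le ?_ ?_)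
  · refine (Polynomial.natDegree_mul_le).trans ?_
    have h1 : ((t : Polynomial ℝ) * Pp k).natDegree ≤ k := by
      refine (Polynomial.natDegree_mul_le).trans ?_
      have := natDegree_Pp_le k
      have h2 : ((t : Polynomial ℝ)).natDegree = 0 := Polynomial.natDegree_natCast t
      omega
    have h2 := Polynomial.natDegree_derivative_le A
    omega
  · refine (Polynomial.natDegree_mul_le).trans ?_
    have h1 : (Qp k e * Polynomial.derivative (Pp e)).natDegree ≤ k := by
      refine (Polynomial.natDegree_mul_le).trans ?_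
      have h3 := natDegree_Qp_le k e
      have h4 := Polynomial.natDegree_derivative_le (Pp e)
      have h5 := natDegree_Pp_le e
      omega
    omega

theorem natDegree_op_iterate_le (t k e : ℕ) (he : e ≤ k) (A : Polynomial ℝ) (s : ℕ) :
    ((op t k e)^[s] A).natDegree ≤ A.natDegree + s * k := by
  induction s with
  | zero => simp
  | succ s ih =>
    rw [Function.iterate_succ_apply']
    have := natDegree_op_le t k e he ((op t k e)^[s] A)
    have h : (s + 1) * k = s * k + k := by ring
    omega

theorem natDegree_det_le {r : ℕ} (M : Matrix (Fin r) (Fin r) (Polynomial ℝ)) (m : ℕ)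
    (h : ∀ i j, (M i j).natDegree ≤ m) : M.det.natDegree ≤ r * m := by
  rw [Matrix.det_apply]
  apply Polynomial.natDegree_sum_le_of_forall_le
  intro σ _
  refine (Polynomial.natDegree_smul_le _ _).trans ?_
  refine (Polynomial.natDegree_prod_le _ _).trans ?_
  refine (sum_le_card_nsmul _ _ m (fun i _ => h _ _)).trans ?_
  simp

theorem zero_estimate (t k : ℕ) (ht : 2 ≤ t) {r : ℕ} (hr : 0 < r) (e : Fin r → ℕ) (he : ∀ i, e i ≤ k)
    (hinj : Function.Injective e) (A : Fin r → Polynomial ℝ) (hA : ∀ i, A i ≠ 0) (m : ℕ)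
    (hdeg : ∀ i, (A i).natDegree ≤ m) (T J : ℕ)
    (hT : PowerSeries.X ^ T ∣ ∑ i, tau 0 (A i) * rt t 0 (e i))
    (Z : Finset ℝ) (hpos : ∀ z ∈ Z, 0 < z)
    (hZ : ∀ z ∈ Z, ∃ y : Fin r → ℝ, (∃ i, y i ≠ 0) ∧
      PowerSeries.X ^ J ∣ ∑ i, PowerSeries.C (y i) * (tau z (A i) * rt t z (e i))) :
    (T - (r - 1)) + Z.card * (J - (r - 1)) ≤ r * (m + r * k) := by
  set D := (MM t k e A).det with hD
  have hD0 : D ≠ 0 := det_ne_zero t k ht r e he hinj A hA
  have hdegD : D.natDegree ≤ r * (m + r * k) := by
    apply natDegree_det_le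
    intro i j
    have h1 := natDegree_op_iterate_le t k (e j) (he j) (A j) (i : ℕ)
    have h2 : (i : ℕ) * k ≤ r * k := Nat.mul_le_mul_right _ i.2.le
    have h3 := hdeg j
    have h4 : (MM t k e A) i j = (op t k (e j))^[(i : ℕ)] (A j) := rfl
    rw [h4]
    omega
  have h0 : (Polynomial.X - Polynomial.C (0 : ℝ)) ^ (T - (r - 1)) ∣ D := by
    apply sub_pow_dvd
    apply det_dvd t k (by omega) 0 le_rfl e he A (fun _ => 1) ⟨0, hr⟩ one_ne_zero T
    simpa using hT
  have hz : ∀ z ∈ Z, (Polynomial.X - Polynomial.C z) ^ (J - (r - 1)) ∣ D := by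
    intro z hzZ
    obtain ⟨y, ⟨i0, hi0⟩, hy⟩ := hZ z hzZ
    apply sub_pow_dvd
    exact det_dvd t k (by omega) z (hpos z hzZ).le e he A y i0 hi0 J hy
  set f : ℝ → Polynomial ℝ := fun z =>
    (Polynomial.X - Polynomial.C z) ^ (if z = 0 then T - (r - 1) else J - (r - 1)) with hf
  have h0Z : (0 : ℝ) ∉ Z := fun h => lt_irrefl _ (hpos 0 h)
  have hprod : ∏ z ∈ insert 0 Z, f z ∣ D := by
    apply Finset.prod_dvd_of_coprime
    · intro a _ b _ hab
      simp only [Function.onFun, hf]
      apply IsCoprime.pow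
      exact Polynomial.isCoprime_X_sub_C_of_isUnit_sub (sub_ne_zero.2 hab).isUnit
    · intro z hzm
      rcases mem_insert.1 hzm with rfl | hzm
      · simpa [hf] using h0
      · have : z ≠ 0 := (hpos z hzm).ne'
        simpa [hf, this] using hz z hzm
  have hle := Polynomial.natDegree_le_of_dvd hprod hD0
  have hdegprod : (∏ z ∈ insert 0 Z, f z).natDegree = (T - (r - 1)) + Z.card * (J - (r - 1)) := by
    rw [Polynomial.natDegree_prod_of_monic]
    · rw [sum_insert h0Z]
      congr 1
      · simp only [hf, if_true, Polynomial.natDegree_pow, Polynomial.natDegree_X_sub_C, mul_one]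
      · rw [← smul_eq_mul, ← sum_const]
        apply sum_congr rfl
        intro z hzm
        have : z ≠ 0 := (hpos z hzm).ne'
        simp only [hf, this, if_false, Polynomial.natDegree_pow, Polynomial.natDegree_X_sub_C, mul_one]
    · intro z _
      exact (Polynomial.monic_X_sub_C z).pow _
  omega

end Pool.Agent.H147
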