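import Pool.Agent.H147_fact.Combine

/-!
Summation over the scales and over the number of factors.
-/

namespace Pool.Agent.H147

open Finset Filter

theorem eventually_large : ∃ N1 : ℕ, ∀ N : ℕ, N1 ≤ N → 10000 ≤ Real.log N ∧
    ∀ t : ℕ, 2 ≤ t → (t : ℝ) ≤ 3 * Real.log N →
      Real.log (2 * t) ≤ Real.log N / 2000 ∧ 10 ^ 60 * t ^ 12 ≤ N := by
  have h1 : ∀ᶠ x : ℝ in atTop, 10000 ≤ Real.log x := Real.tendsto_log_atTop.eventually_ge_atTop 10000
  have h2 : ∀ᶠ u : ℝ in atTop, Real.log (6 * u) ≤ u / 2000 := by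
    have h3 : ∀ᶠ u : ℝ in atTop, ‖Real.log u‖ ≤ (1 / 4000) * ‖id u‖ :=
      Real.isLittleO_log_id_atTop.def (by norm_num)
    filter_upwards [h3, eventually_ge_atTop (4000 * Real.log 6), eventually_gt_atTop 0] with u h4 h5 h6
    rw [Real.log_mul (by norm_num) h6.ne']
    simp only [id, Real.norm_eq_abs, abs_of_pos h6] at h4
    have := le_abs_self (Real.log u)
    linarith
  have h2' : ∀ᶠ x : ℝ in atTop, Real.log (6 * Real.log x) ≤ Real.log x / 2000 :=
    Real.tendsto_log_atTop.eventually h2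
  have h3 : ∀ᶠ x : ℝ in atTop, 10 ^ 60 * (3 * Real.log x) ^ 12 ≤ x := by
    have h4 : ∀ᶠ x : ℝ in atTop, ‖Real.log x ^ 12‖ ≤ (1 / (10 ^ 60 * 3 ^ 12)) * ‖id x‖ :=
      (Real.isLittleO_pow_log_id_atTop (n := 12)).def (by norm_num)
    filter_upwards [h4, eventually_gt_atTop 0] with x h5 h6
    simp only [id, Real.norm_eq_abs, abs_of_pos h6] at h5
    have h7 := le_abs_self (Real.log x ^ 12)
    have h8 : Real.log x ^ 12 ≤ 1 / (10 ^ 60 * 3 ^ 12) * x := h7.trans h5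
    rw [mul_pow]
    calc 10 ^ 60 * (3 ^ 12 * Real.log x ^ 12) ≤ 10 ^ 60 * (3 ^ 12 * (1 / (10 ^ 60 * 3 ^ 12) * x)) := by
          gcongr
      _ = x := by field_simp
  have h5 := (h1.and (h2'.and h3)).natCast_atTop
  obtain ⟨N1, hN1⟩ := eventually_atTop.1 h5
  refine ⟨N1, fun N hN => ?_⟩
  obtain ⟨a1, a2, a3⟩ := hN1 N hN
  refine ⟨a1, fun t ht htl => ?_⟩
  have htpos : (0 : ℝ) < t := by exact_mod_cast (by omega : 0 < t)
  constructor
  · refine le_trans ?_ a2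
    apply Real.log_le_log (by positivity)
    linarith
  · have h6 : (10 ^ 60 * (t : ℝ) ^ 12) ≤ N := by
      refine le_trans ?_ a3
      gcongr
    exact_mod_cast h6

theorem count_bad (Bad : ℕ → Prop) (n0 : ℕ)
    (h : ∀ n, n0 ≤ n → Bad n → ∃ t : ℕ, 2 ≤ t ∧ (t : ℝ) ≤ 3 * Real.log n ∧ Near t n) :
    ∃ C : ℝ, 0 < C ∧ ∀ N : ℕ, 2 ≤ N →
      (({n : ℕ | n ≤ N ∧ Bad n}.ncard : ℕ) : ℝ)
        ≤ C * ((N : ℝ) ^ (5 / 6 : ℝ) * (Real.log N) ^ (7 / 6 : ℝ)) := by
  classical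
  obtain ⟨N1, hN1⟩ := eventually_large
  set a : ℕ → ℕ := fun N => ((range (N + 1)).filter Bad).card with ha
  have haset : ∀ N, {n : ℕ | n ≤ N ∧ Bad n}.ncard = a N := by
    intro N
    have : {n : ℕ | n ≤ N ∧ Bad n} = (((range (N + 1)).filter Bad : Finset ℕ) : Set ℕ) := by
      ext n; simp
    rw [this, Set.ncard_coe_finset]
  set N2 := max (max N1 (2 * n0)) 100 with hN2
  -- the increment bound
  have hstep : ∀ N, N2 ≤ N → (a N : ℝ) ≤ a (50 * N / 51)
      + 10000 * ((N : ℝ) ^ (5 / 6 : ℝ) * (Real.log N) ^ (7 / 6 : ℝ)) := by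
    intro N hN
    have hNN1 : N1 ≤ N := le_trans (le_trans (le_max_left _ _) (le_max_left _ _)) hN
    have hNn0 : 2 * n0 ≤ N := le_trans (le_trans (le_max_right _ _) (le_max_left _ _)) hN
    have hN100 : 100 ≤ N := le_trans (le_max_right _ _) hN
    obtain ⟨hL, hN1'⟩ := hN1 N hNN1
    have hNpos : (0 : ℝ) < N := by exact_mod_cast (by omega : 0 < N)
    set L := Real.log N with hLdef
    set T := ⌊3 * L⌋₊ with hT
    have hTL : (T : ℝ) ≤ 3 * L := Nat.floor_le (by linarith)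
    set St : ℕ → Finset ℕ := fun t => (range (N + 1)).filter (fun n => 50 * N ≤ 51 * n ∧ Near t n) with hSt
    have hsub : (range (N + 1)).filter Bad ⊆ (range (50 * N / 51 + 1)).filter Bad ∪
        (Icc 2 T).biUnion St := by
      intro n hn
      obtain ⟨hn1, hn2⟩ := mem_filter.1 hn
      rw [mem_range] at hn1
      rw [mem_union]
      by_cases hcase : n < 50 * N / 51 + 1
      · left; rw [mem_filter, mem_range]; exact ⟨hcase, hn2⟩
      · right
        have h51 : 50 * N ≤ 51 * n := by omega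
        obtain ⟨t, ht2, htl, hnear⟩ := h n (by omega) hn2
        rw [mem_biUnion]
        refine ⟨t, ?_, ?_⟩
        · rw [mem_Icc]
          refine ⟨ht2, ?_⟩
          apply Nat.le_floor
          refine htl.trans ?_
          have : Real.log n ≤ L := by
            apply Real.log_le_log
            · exact_mod_cast (by omega : 0 < n)
            · exact_mod_cast (by omega : n ≤ N)
          linarith
        · rw [hSt, mem_filter, mem_range]
          exact ⟨hn1, h51, hnear⟩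
    have h1 : a N ≤ a (50 * N / 51) + ∑ t ∈ Icc 2 T, (St t).card := by
      refine (card_le_card hsub).trans ?_
      refine (card_union_le _ _).trans ?_
      exact Nat.add_le_add_left card_biUnion_le _
    have h2 : ∀ t ∈ Icc 2 T, ((St t).card : ℝ) ≤ 2012 * ((3 * L) ^ (1 / 6 : ℝ) * (N : ℝ) ^ (5 / 6 : ℝ)) := by
      intro t ht
      obtain ⟨ht2, htT⟩ := mem_Icc.1 ht
      have htl : (t : ℝ) ≤ 3 * L := le_trans (by exact_mod_cast htT) hTL
      obtain ⟨b1, b2⟩ := hN1' t ht2 htl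
      have h3 := bound_t N t hL ht2 b1 b2 (St t) (fun n hn => by
        rw [hSt, mem_filter, mem_range] at hn
        exact ⟨hn.2.1, by omega, hn.2.2⟩)
      refine h3.trans ?_
      gcongr
    have h3 : ((∑ t ∈ Icc 2 T, (St t).card : ℕ) : ℝ)
        ≤ T * (2012 * ((3 * L) ^ (1 / 6 : ℝ) * (N : ℝ) ^ (5 / 6 : ℝ))) := by
      push_cast
      refine (sum_le_sum h2).trans ?_
      rw [sum_const, nsmul_eq_mul, Nat.card_Icc]
      have : ((T + 1 - 2 : ℕ) : ℝ) ≤ T := by exact_mod_cast (by omega : T + 1 - 2 ≤ T)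
      have hLpos : 0 ≤ 3 * L := by linarith
      gcongr
    have h4 : (T : ℝ) * (2012 * ((3 * L) ^ (1 / 6 : ℝ) * (N : ℝ) ^ (5 / 6 : ℝ)))
        ≤ 10000 * ((N : ℝ) ^ (5 / 6 : ℝ) * L ^ (7 / 6 : ℝ)) := by
      have hLpos : 0 < L := by linarith
      have e1 : (3 * L) ^ (1 / 6 : ℝ) = 3 ^ (1 / 6 : ℝ) * L ^ (1 / 6 : ℝ) := by
        rw [Real.mul_rpow (by norm_num) hLpos.le]
      have e2 : (3 : ℝ) ^ (1 / 6 : ℝ) ≤ 1.5 := by
        have : (3 : ℝ) ≤ (1.5 : ℝ) ^ (6 : ℝ) := by norm_num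
        calc (3 : ℝ) ^ (1 / 6 : ℝ) ≤ ((1.5 : ℝ) ^ (6 : ℝ)) ^ (1 / 6 : ℝ) :=
              Real.rpow_le_rpow (by norm_num) this (by norm_num)
          _ = 1.5 := by rw [← Real.rpow_mul (by norm_num)]; norm_num
      have e3 : L ^ (7 / 6 : ℝ) = L * L ^ (1 / 6 : ℝ) := by
        have : (7 / 6 : ℝ) = 1 + 1 / 6 := by norm_num
        rw [this, Real.rpow_add hLpos, Real.rpow_one]
      have hL6 : 0 ≤ L ^ (1 / 6 : ℝ) := by positivity
      have hN6 : 0 ≤ (N : ℝ) ^ (5 / 6 : ℝ) := by positivity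
      rw [e1, e3]
      calc (T : ℝ) * (2012 * (3 ^ (1 / 6 : ℝ) * L ^ (1 / 6 : ℝ) * (N : ℝ) ^ (5 / 6 : ℝ)))
          ≤ (3 * L) * (2012 * (1.5 * L ^ (1 / 6 : ℝ) * (N : ℝ) ^ (5 / 6 : ℝ))) := by gcongr
        _ = 9054 * ((N : ℝ) ^ (5 / 6 : ℝ) * (L * L ^ (1 / 6 : ℝ))) := by ring
        _ ≤ 10000 * ((N : ℝ) ^ (5 / 6 : ℝ) * (L * L ^ (1 / 6 : ℝ))) := by
            apply mul_le_mul_of_nonneg_right (by norm_num)
            positivity
    calc (a N : ℝ) ≤ ((a (50 * N / 51) + ∑ t ∈ Icc 2 T, (St t).card : ℕ) : ℝ) := by exact_mod_cast h1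
      _ = a (50 * N / 51) + ((∑ t ∈ Icc 2 T, (St t).card : ℕ) : ℝ) := by push_cast; ring
      _ ≤ _ := by linarith
  have hlog2 : 0 < Real.log 2 := Real.log_pos (by norm_num)
  set C : ℝ := max 1000000 ((N2 + 1) / (Real.log 2) ^ (7 / 6 : ℝ)) with hC
  have hC1 : 1000000 ≤ C := le_max_left _ _
  have hC2 : (N2 + 1) / (Real.log 2) ^ (7 / 6 : ℝ) ≤ C := le_max_right _ _
  refine ⟨C, by linarith, ?_⟩
  intro N
  rw [haset]
  induction N using Nat.strong_induction_on with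
  | _ N ih =>
    intro hN2'
    have hNpos : (0 : ℝ) < N := by exact_mod_cast (by omega : 0 < N)
    have hN1r : (1 : ℝ) ≤ N := by exact_mod_cast (by omega : 1 ≤ N)
    have hlogmono : Real.log 2 ≤ Real.log N := by
      apply Real.log_le_log (by norm_num)
      exact_mod_cast hN2'
    have hlogpos : 0 < Real.log N := by linarith
    by_cases hsmall : N < N2
    · have h1 : (a N : ℝ) ≤ N2 + 1 := by
        have : a N ≤ N + 1 := by
          refine (card_filter_le _ _).trans ?_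
          rw [card_range]
        have h2 : a N ≤ N2 + 1 := by omega
        exact_mod_cast h2
      have h2 : (N2 + 1 : ℝ) ≤ C * (Real.log 2) ^ (7 / 6 : ℝ) := by
        rwa [div_le_iff₀ (by positivity)] at hC2
      have h3 : (Real.log 2) ^ (7 / 6 : ℝ) ≤ (N : ℝ) ^ (5 / 6 : ℝ) * (Real.log N) ^ (7 / 6 : ℝ) := by
        have h4 : 1 ≤ (N : ℝ) ^ (5 / 6 : ℝ) := Real.one_le_rpow hN1r (by norm_num)
        have h5 : (Real.log 2) ^ (7 / 6 : ℝ) ≤ (Real.log N) ^ (7 / 6 : ℝ) :=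
          Real.rpow_le_rpow hlog2.le hlogmono (by norm_num)
        have h6 : 0 ≤ (Real.log 2) ^ (7 / 6 : ℝ) := by positivity
        nlinarith
      calc (a N : ℝ) ≤ N2 + 1 := h1
        _ ≤ C * (Real.log 2) ^ (7 / 6 : ℝ) := h2
        _ ≤ _ := by gcongr
    · push Not at hsmall
      have hN100 : 100 ≤ N := le_trans (le_max_right _ _) hsmall
      have h1 := hstep N hsmall
      have h2 := ih (50 * N / 51) (by omega) (by omega)
      have h3 : ((50 * N / 51 : ℕ) : ℝ) ≤ 50 / 51 * N := by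
        have := @Nat.cast_div_le ℝ _ _ _ (50 * N) 51
        push_cast at this
        linarith
      have h4 : ((50 * N / 51 : ℕ) : ℝ) ^ (5 / 6 : ℝ) ≤ 0.99 * (N : ℝ) ^ (5 / 6 : ℝ) := by
        calc ((50 * N / 51 : ℕ) : ℝ) ^ (5 / 6 : ℝ) ≤ (50 / 51 * (N : ℝ)) ^ (5 / 6 : ℝ) :=
              Real.rpow_le_rpow (by positivity) h3 (by norm_num)
          _ = (50 / 51 : ℝ) ^ (5 / 6 : ℝ) * (N : ℝ) ^ (5 / 6 : ℝ) :=
              Real.mul_rpow (by norm_num) hNpos.le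
          _ ≤ 0.99 * (N : ℝ) ^ (5 / 6 : ℝ) := by
              apply mul_le_mul_of_nonneg_right _ (by positivity)
              have : (50 / 51 : ℝ) ^ (5 / 6 : ℝ) = ((50 / 51 : ℝ) ^ (5 : ℝ)) ^ (1 / 6 : ℝ) := by
                rw [← Real.rpow_mul (by norm_num)]; norm_num
              rw [this]
              have h99 : (50 / 51 : ℝ) ^ (5 : ℝ) ≤ (0.99 : ℝ) ^ (6 : ℝ) := by norm_num
              calc ((50 / 51 : ℝ) ^ (5 : ℝ)) ^ (1 / 6 : ℝ) ≤ ((0.99 : ℝ) ^ (6 : ℝ)) ^ (1 / 6 : ℝ) :=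
                    Real.rpow_le_rpow (by positivity) h99 (by norm_num)
                _ = 0.99 := by rw [← Real.rpow_mul (by norm_num)]; norm_num
      have h5 : (Real.log ((50 * N / 51 : ℕ) : ℝ)) ^ (7 / 6 : ℝ) ≤ (Real.log N) ^ (7 / 6 : ℝ) := by
        apply Real.rpow_le_rpow
        · apply Real.log_nonneg
          exact_mod_cast (by omega : 1 ≤ 50 * N / 51)
        · apply Real.log_le_log
          · exact_mod_cast (by omega : 0 < 50 * N / 51)
          · linarith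
        · norm_num
      have h6 : (a (50 * N / 51) : ℝ) ≤ C * (0.99 * (N : ℝ) ^ (5 / 6 : ℝ) * (Real.log N) ^ (7 / 6 : ℝ)) := by
        refine h2.trans ?_
        gcongr
      have hP : 0 ≤ (N : ℝ) ^ (5 / 6 : ℝ) * (Real.log N) ^ (7 / 6 : ℝ) := by positivity
      calc (a N : ℝ) ≤ a (50 * N / 51) + 10000 * ((N : ℝ) ^ (5 / 6 : ℝ) * (Real.log N) ^ (7 / 6 : ℝ)) := h1
        _ ≤ C * (0.99 * (N : ℝ) ^ (5 / 6 : ℝ) * (Real.log N) ^ (7 / 6 : ℝ))
            + C / 100 * ((N : ℝ) ^ (5 / 6 : ℝ) * (Real.log N) ^ (7 / 6 : ℝ)) := by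
            have : 10000 * ((N : ℝ) ^ (5 / 6 : ℝ) * (Real.log N) ^ (7 / 6 : ℝ))
                ≤ C / 100 * ((N : ℝ) ^ (5 / 6 : ℝ) * (Real.log N) ^ (7 / 6 : ℝ)) :=
              mul_le_mul_of_nonneg_right (by linarith) hP
            linarith
        _ = _ := by ring

end Pool.Agent.H147
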