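import Pool.Agent.H147_fact.Short

/-!
The count for a fixed finite set of numbers of factors, without logarithms.
-/

namespace Pool.Agent.H147

open Finset Filter

theorem eventually_fixed (Ts : Finset ℕ) : ∃ N1 : ℕ, ∀ N : ℕ, N1 ≤ N → 10000 ≤ Real.log N ∧
    ∀ t ∈ Ts, Real.log (2 * t) ≤ Real.log N / 2000 ∧ 10 ^ 60 * t ^ 12 ≤ N := by
  have hlog : Tendsto (fun n : ℕ => Real.log n) atTop atTop :=
    Real.tendsto_log_atTop.comp tendsto_natCast_atTop_atTop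
  have h1 : ∀ᶠ n : ℕ in atTop, 10000 ≤ Real.log n := hlog.eventually_ge_atTop 10000
  have h2 : ∀ᶠ n : ℕ in atTop, ∀ t ∈ Ts, Real.log (2 * t) ≤ Real.log n / 2000 ∧ 10 ^ 60 * t ^ 12 ≤ n := by
    rw [eventually_all_finset]
    intro t _
    filter_upwards [hlog.eventually_ge_atTop (2000 * Real.log (2 * t)),
      eventually_ge_atTop (10 ^ 60 * t ^ 12)] with n h3 h4
    exact ⟨by linarith, h4⟩
  obtain ⟨N1, hN1⟩ := eventually_atTop.1 (h1.and h2)
  exact ⟨N1, fun N hN => hN1 N hN⟩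

open Classical in
theorem count_fixed (Ts : Finset ℕ) (hTs : ∀ t ∈ Ts, 2 ≤ t) (w : ℕ → ℕ) (n0 : ℕ)
    (h : ∀ n, n0 ≤ n → w n ≤ (Ts.filter (fun t => Near t n)).card) :
    ∃ C : ℝ, 0 < C ∧ ∀ N H : ℕ, H ≤ N →
      ((∑ n ∈ Ioc (N - H) N, w n : ℕ) : ℝ) ≤ C * (H : ℝ) ^ (5 / 6 : ℝ) := by
  obtain ⟨N1, hN1⟩ := eventually_fixed Ts
  set N2 := max (max N1 (2 * n0 + 2)) 100 with hN2
  set D : ℝ := ∑ t ∈ Ts, 2016 * (t : ℝ) ^ (1 / 6 : ℝ) with hD
  have hD0 : 0 ≤ D := by positivity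
  have hstep : ∀ N M : ℕ, N2 ≤ N → 50 * N / 51 ≤ M → M ≤ N →
      ((∑ n ∈ Ioc M N, w n : ℕ) : ℝ) ≤ D * ((N - M : ℕ) : ℝ) ^ (5 / 6 : ℝ) := by
    intro N M hN hM hMN
    have hNN1 : N1 ≤ N := le_trans (le_trans (le_max_left _ _) (le_max_left _ _)) hN
    have hNn0 : 2 * n0 + 2 ≤ N := le_trans (le_trans (le_max_right _ _) (le_max_left _ _)) hN
    obtain ⟨hL, hN1'⟩ := hN1 N hNN1
    have h1 : ∑ n ∈ Ioc M N, w n ≤ ∑ t ∈ Ts, ((Ioc M N).filter (fun n => Near t n)).card := by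
      have h2 : ∀ n ∈ Ioc M N, w n ≤ ∑ t ∈ Ts, (if Near t n then 1 else 0) := by
        intro n hn
        rw [mem_Ioc] at hn
        refine (h n (by omega)).trans ?_
        rw [card_filter]
      refine (sum_le_sum h2).trans ?_
      rw [sum_comm]
      apply sum_le_sum
      intro t _
      rw [card_filter]
    have h3 : ((∑ t ∈ Ts, ((Ioc M N).filter (fun n => Near t n)).card : ℕ) : ℝ)
        ≤ D * ((N - M : ℕ) : ℝ) ^ (5 / 6 : ℝ) := by
      rw [hD, sum_mul]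
      push_cast
      apply sum_le_sum
      intro t ht
      obtain ⟨b1, b2⟩ := hN1' t ht
      have h4 := bound_t_interval N t (N - M) (by omega) hL (hTs t ht) b1 b2
        ((Ioc M N).filter (fun n => Near t n)) (fun n hn => by
          rw [mem_filter, mem_Ioc] at hn
          exact ⟨by omega, by omega, hn.1.2, hn.2⟩)
      refine h4.trans (le_of_eq ?_)
      ring
    exact le_trans (by exact_mod_cast h1) h3
  set a : ℕ → ℕ := fun N => ∑ n ∈ Ioc 0 N, w n with ha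
  have hsplit : ∀ N M : ℕ, M ≤ N → a N = a M + ∑ n ∈ Ioc M N, w n := by
    intro N M hMN
    simp only [ha]
    rw [← sum_union (by
      rw [disjoint_left]
      intro x hx hx'
      rw [mem_Ioc] at hx hx'
      omega)]
    apply sum_congr _ (fun _ _ => rfl)
    ext x
    simp only [mem_union, mem_Ioc]
    omega
  set W : ℕ := a N2 with hW
  have hamono : ∀ N, N ≤ N2 → a N ≤ W := by
    intro N hN
    rw [hW, hsplit N2 N hN]
    omega
  set C1 : ℝ := max (100 * D + 1) W with hC1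
  have hC1a : 100 * D + 1 ≤ C1 := le_max_left _ _
  have hC1b : (W : ℝ) ≤ C1 := le_max_right _ _
  have hC1pos : 0 < C1 := by linarith
  have hall : ∀ N : ℕ, (a N : ℝ) ≤ C1 * (N : ℝ) ^ (5 / 6 : ℝ) := by
    intro N
    induction N using Nat.strong_induction_on with
    | _ N ih =>
      rcases Nat.eq_zero_or_pos N with hN0 | hN0
      · subst hN0
        simp [ha]
      have hNpos : (0 : ℝ) < N := by exact_mod_cast hN0
      have hN1r : (1 : ℝ) ≤ N := by exact_mod_cast hN0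
      by_cases hsmall : N ≤ N2
      · have h1 : (a N : ℝ) ≤ W := by exact_mod_cast hamono N hsmall
        have h4 : 1 ≤ (N : ℝ) ^ (5 / 6 : ℝ) := Real.one_le_rpow hN1r (by norm_num)
        nlinarith
      · push Not at hsmall
        have hN100 : 100 ≤ N := le_trans (le_max_right _ _) hsmall.le
        have h1 := hstep N (50 * N / 51) hsmall.le le_rfl (by omega)
        have h2 := ih (50 * N / 51) (by omega)
        have h0 : (a N : ℝ) = a (50 * N / 51) + ((∑ n ∈ Ioc (50 * N / 51) N, w n : ℕ) : ℝ) := by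
          exact_mod_cast hsplit N (50 * N / 51) (by omega)
        have h3 : ((50 * N / 51 : ℕ) : ℝ) ≤ 50 / 51 * N := by
          have := @Nat.cast_div_le ℝ _ _ _ (50 * N) 51
          push_cast at this
          linarith
        have h4 : ((50 * N / 51 : ℕ) : ℝ) ^ (5 / 6 : ℝ) ≤ 0.99 * (N : ℝ) ^ (5 / 6 : ℝ) := by
          calc ((50 * N / 51 : ℕ) : ℝ) ^ (5 / 6 : ℝ) ≤ (50 / 51 * (N : ℝ)) ^ (5 / 6 : ℝ) :=
                Real.rpow_le_rpow (by positivity) h3 (by norm_num)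
            _ = (50 / 51 : ℝ) ^ (5 / 6 : ℝ) * (N : ℝ) ^ (5 / 6 : ℝ) :=
                Real.mul_rpow (by norm_num) hNpos.le
            _ ≤ 0.99 * (N : ℝ) ^ (5 / 6 : ℝ) := by
                apply mul_le_mul_of_nonneg_right _ (by positivity)
                have : (50 / 51 : ℝ) ^ (5 / 6 : ℝ) = ((50 / 51 : ℝ) ^ (5 : ℝ)) ^ (1 / 6 : ℝ) := by
                  rw [← Real.rpow_mul (by norm_num)]; norm_num
                rw [this]
                have h99 : (50 / 51 : ℝ) ^ (5 : ℝ) ≤ (0.99 : ℝ) ^ (6 : ℝ) := by norm_num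
                calc ((50 / 51 : ℝ) ^ (5 : ℝ)) ^ (1 / 6 : ℝ) ≤ ((0.99 : ℝ) ^ (6 : ℝ)) ^ (1 / 6 : ℝ) :=
                      Real.rpow_le_rpow (by positivity) h99 (by norm_num)
                  _ = 0.99 := by rw [← Real.rpow_mul (by norm_num)]; norm_num
        have h6 : (a (50 * N / 51) : ℝ) ≤ C1 * (0.99 * (N : ℝ) ^ (5 / 6 : ℝ)) := by
          refine h2.trans ?_
          gcongr
        have h7 : (((N - 50 * N / 51 : ℕ)) : ℝ) ^ (5 / 6 : ℝ) ≤ (N : ℝ) ^ (5 / 6 : ℝ) := by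
          apply Real.rpow_le_rpow (by positivity) _ (by norm_num)
          exact_mod_cast Nat.sub_le _ _
        have hP : 0 ≤ (N : ℝ) ^ (5 / 6 : ℝ) := by positivity
        have h8 : D * (((N - 50 * N / 51 : ℕ)) : ℝ) ^ (5 / 6 : ℝ) ≤ C1 / 100 * (N : ℝ) ^ (5 / 6 : ℝ) := by
          calc D * (((N - 50 * N / 51 : ℕ)) : ℝ) ^ (5 / 6 : ℝ) ≤ D * (N : ℝ) ^ (5 / 6 : ℝ) := by gcongr
            _ ≤ _ := mul_le_mul_of_nonneg_right (by linarith) hP
        rw [h0]
        calc (a (50 * N / 51) : ℝ) + ((∑ n ∈ Ioc (50 * N / 51) N, w n : ℕ) : ℝ)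
            ≤ C1 * (0.99 * (N : ℝ) ^ (5 / 6 : ℝ)) + C1 / 100 * (N : ℝ) ^ (5 / 6 : ℝ) :=
              add_le_add h6 (h1.trans h8)
          _ = _ := by ring
  refine ⟨51 * C1, by linarith, ?_⟩
  intro N H hHN
  rcases Nat.eq_zero_or_pos H with hH0 | hHpos
  · subst hH0; simp
  have hHpos' : (0 : ℝ) < H := by exact_mod_cast hHpos
  have hN0 : 0 < N := by omega
  have hNpos : (0 : ℝ) < N := by exact_mod_cast hN0
  have hle : ∑ n ∈ Ioc (N - H) N, w n ≤ a N := by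
    rw [hsplit N (N - H) (Nat.sub_le _ _)]; omega
  by_cases hsmall : N ≤ N2
  · have h1 : ((∑ n ∈ Ioc (N - H) N, w n : ℕ) : ℝ) ≤ W := by
      exact_mod_cast hle.trans (hamono N hsmall)
    have h4 : 1 ≤ (H : ℝ) ^ (5 / 6 : ℝ) :=
      Real.one_le_rpow (by exact_mod_cast hHpos) (by norm_num)
    nlinarith
  push Not at hsmall
  by_cases hlong : N < 51 * H
  · have h3 : (N : ℝ) ^ (5 / 6 : ℝ) ≤ 51 * (H : ℝ) ^ (5 / 6 : ℝ) := by
      have h4 : (N : ℝ) ≤ 51 * H := by exact_mod_cast hlong.le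
      calc (N : ℝ) ^ (5 / 6 : ℝ) ≤ (51 * (H : ℝ)) ^ (5 / 6 : ℝ) :=
            Real.rpow_le_rpow hNpos.le h4 (by norm_num)
        _ = (51 : ℝ) ^ (5 / 6 : ℝ) * (H : ℝ) ^ (5 / 6 : ℝ) :=
            Real.mul_rpow (by norm_num) hHpos'.le
        _ ≤ 51 * (H : ℝ) ^ (5 / 6 : ℝ) := by
            apply mul_le_mul_of_nonneg_right _ (by positivity)
            calc (51 : ℝ) ^ (5 / 6 : ℝ) ≤ (51 : ℝ) ^ (1 : ℝ) :=
                  Real.rpow_le_rpow_of_exponent_le (by norm_num) (by norm_num)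
              _ = 51 := Real.rpow_one _
    calc ((∑ n ∈ Ioc (N - H) N, w n : ℕ) : ℝ) ≤ a N := by exact_mod_cast hle
      _ ≤ C1 * (N : ℝ) ^ (5 / 6 : ℝ) := hall N
      _ ≤ C1 * (51 * (H : ℝ) ^ (5 / 6 : ℝ)) := by gcongr
      _ = 51 * C1 * (H : ℝ) ^ (5 / 6 : ℝ) := by ring
  push Not at hlong
  have h1 := hstep N (N - H) hsmall.le (by omega) (Nat.sub_le _ _)
  have h2 : N - (N - H) = H := by omega
  rw [h2] at h1
  have h6 : 0 ≤ (H : ℝ) ^ (5 / 6 : ℝ) := by positivity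
  exact h1.trans (mul_le_mul_of_nonneg_right (by linarith) h6)

end Pool.Agent.H147
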