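import Mathlib

/-!
A weighted form of Siegel's lemma: five power series with controlled coefficients admit a small
auxiliary linear combination with polynomial coefficients that vanishes to a high order.
-/

namespace Pool.Agent.H147

open Finset

/-- the size parameter of the auxiliary polynomials -/
def YY (t k d : ℕ) : ℕ := (30 * d * 2 ^ k) ^ 2 * t ^ (9 * d) * (2 * k) ^ (2 * d + 1)

theorem card_ineq (t k d : ℕ) (ht : 1 ≤ t) (hk : 1 ≤ k) (hd : 1 ≤ d) :
    ∏ s : Fin (6 * d), (2 * (10 * d * YY t k d * t ^ (2 * (s : ℕ)) * 2 ^ k * (2 * k) ^ (s : ℕ)) + 1)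
      < ∏ p : Fin 5 × Fin (2 * d), (YY t k d * (2 * k) ^ (p.2 : ℕ) + 1) := by
  set Y := YY t k d with hY
  set κ := 2 * k with hκ
  have hκ1 : 1 ≤ κ := by omega
  have hYpos : 1 ≤ Y := by
    rw [hY, YY]
    have : 0 < (30 * d * 2 ^ k) ^ 2 * t ^ (9 * d) * (2 * k) ^ (2 * d + 1) := by positivity
    omega
  have h1 : ∏ s : Fin (6 * d), (2 * (10 * d * Y * t ^ (2 * (s : ℕ)) * 2 ^ k * κ ^ (s : ℕ)) + 1)
      ≤ ∏ s : Fin (6 * d), (30 * d * Y * 2 ^ k * (t ^ 2 * κ) ^ (s : ℕ)) := by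
    apply prod_le_prod'
    intro s _
    have h2 : 1 ≤ 10 * d * Y * t ^ (2 * (s : ℕ)) * 2 ^ k * κ ^ (s : ℕ) := by
      have : 0 < 10 * d * Y * t ^ (2 * (s : ℕ)) * 2 ^ k * κ ^ (s : ℕ) := by positivity
      omega
    calc 2 * (10 * d * Y * t ^ (2 * (s : ℕ)) * 2 ^ k * κ ^ (s : ℕ)) + 1
        ≤ 3 * (10 * d * Y * t ^ (2 * (s : ℕ)) * 2 ^ k * κ ^ (s : ℕ)) := by omega
      _ = 30 * d * Y * 2 ^ k * (t ^ 2 * κ) ^ (s : ℕ) := by rw [mul_pow (t ^ 2) κ, ← pow_mul t 2]; ring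
  have h2 : ∏ s : Fin (6 * d), (30 * d * Y * 2 ^ k * (t ^ 2 * κ) ^ (s : ℕ))
      = ((30 * d * Y * 2 ^ k) ^ 6 * (t ^ 2 * κ) ^ (3 * (6 * d - 1))) ^ d := by
    rw [prod_mul_distrib, prod_const, prod_pow_eq_pow_sum, Finset.card_univ, Fintype.card_fin,
      Fin.sum_univ_eq_sum_range (fun i => i), Finset.sum_range_id, mul_pow ((30 * d * Y * 2 ^ k) ^ 6),
      ← pow_mul (30 * d * Y * 2 ^ k), ← pow_mul (t ^ 2 * κ)]
    congr 1
    congr 1
    have : 6 * d * (6 * d - 1) = 2 * (3 * (6 * d - 1) * d) := by ring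
    rw [this]; exact Nat.mul_div_cancel_left _ (by norm_num)
  have h3 : ∏ p : Fin 5 × Fin (2 * d), (Y * κ ^ (p.2 : ℕ))
      = (Y ^ 10 * κ ^ (5 * (2 * d - 1))) ^ d := by
    rw [Fintype.prod_prod_type]
    simp only [prod_mul_distrib, prod_const, prod_pow_eq_pow_sum, Finset.card_univ, Fintype.card_fin]
    rw [Fin.sum_univ_eq_sum_range (fun i => i), Finset.sum_range_id,
      mul_pow (Y ^ 10), ← pow_mul Y, ← pow_mul Y, ← pow_mul κ, ← pow_mul κ]
    congr 1
    · congr 1; ring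
    · congr 1
      have : 2 * d * (2 * d - 1) / 2 = d * (2 * d - 1) := by
        rw [mul_assoc]; exact Nat.mul_div_cancel_left _ (by norm_num)
      rw [this]; ring
  have h4 : ∏ p : Fin 5 × Fin (2 * d), (Y * κ ^ (p.2 : ℕ))
      < ∏ p : Fin 5 × Fin (2 * d), (Y * κ ^ (p.2 : ℕ) + 1) := by
    apply Finset.prod_lt_prod
    · intro p _; positivity
    · intro p _; omega
    · exact ⟨(0, ⟨0, by omega⟩), mem_univ _, by omega⟩
  have h5 : (30 * d * Y * 2 ^ k) ^ 6 * (t ^ 2 * κ) ^ (3 * (6 * d - 1)) ≤ Y ^ 10 * κ ^ (5 * (2 * d - 1)) := by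
    obtain ⟨c, hc⟩ : ∃ c, d = c + 1 := ⟨d - 1, by omega⟩
    have d1 : 3 * (6 * d - 1) = 18 * c + 15 := by omega
    have d2 : 5 * (2 * d - 1) = 10 * c + 5 := by omega
    set P := 30 * d * 2 ^ k with hP
    have hP1 : 1 ≤ P := by
      have : 0 < 30 * d * 2 ^ k := by positivity
      omega
    have e0 : Y = P ^ 2 * t ^ (9 * d) * κ ^ (2 * d + 1) := by rw [hY, YY]
    rw [d1, d2]
    have e1 : (30 * d * Y * 2 ^ k) ^ 6 * (t ^ 2 * κ) ^ (18 * c + 15)
        = Y ^ 6 * (P ^ 6 * t ^ (36 * c + 30) * κ ^ (18 * c + 15)) := by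
      have : 30 * d * Y * 2 ^ k = P * Y := by rw [hP]; ring
      rw [this, mul_pow (t ^ 2), ← pow_mul]; ring
    have e2 : Y ^ 10 * κ ^ (10 * c + 5) = Y ^ 6 * (P ^ 8 * t ^ (36 * c + 36) * κ ^ (18 * c + 17)) := by
      have : Y ^ 10 = Y ^ 6 * (P ^ 2 * t ^ (9 * d) * κ ^ (2 * d + 1)) ^ 4 := by
        rw [← e0]; ring
      rw [this, hc]
      ring
    rw [e1, e2]
    apply Nat.mul_le_mul_left
    apply Nat.mul_le_mul
    · apply Nat.mul_le_mul
      · exact Nat.pow_le_pow_right hP1 (by omega)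
      · exact Nat.pow_le_pow_right ht (by omega)
    · exact Nat.pow_le_pow_right hκ1 (by omega)
  calc _ ≤ _ := h1
    _ = _ := h2
    _ ≤ (Y ^ 10 * κ ^ (5 * (2 * d - 1))) ^ d := Nat.pow_le_pow_left h5 _
    _ = _ := h3.symm
    _ < _ := h4

theorem siegel (t k d : ℕ) (ht : 1 ≤ t) (hk : 1 ≤ k) (hd : 1 ≤ d) (f : Fin 5 → PowerSeries ℝ)
    (hb : ∀ i s, |PowerSeries.coeff s (f i)| ≤ 2 ^ k * (2 * (k : ℝ)) ^ s)
    (hint : ∀ i s, ∃ z : ℤ, (t : ℝ) ^ (2 * s) * PowerSeries.coeff s (f i) = z) :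
    ∃ A : Fin 5 → Polynomial ℤ, (∃ i, A i ≠ 0) ∧ (∀ i, (A i).natDegree < 2 * d) ∧
      (∀ i j, |((A i).coeff j : ℝ)| ≤ YY t k d * (2 * (k : ℝ)) ^ j) ∧
      PowerSeries.X ^ (6 * d) ∣
        ∑ i, (((A i).map (Int.castRingHom ℝ) : Polynomial ℝ) : PowerSeries ℝ) * f i := by
  classical
  set Y := YY t k d with hY
  have hYpos : 1 ≤ Y := by
    rw [hY, YY]
    have : 0 < (30 * d * 2 ^ k) ^ 2 * t ^ (9 * d) * (2 * k) ^ (2 * d + 1) := by positivity
    omega
  -- integer coefficients of the equations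
  have hC : ∀ (i : Fin 5) (j s : ℕ), ∃ z : ℤ,
      (if j ≤ s then (t : ℝ) ^ (2 * s) * PowerSeries.coeff (s - j) (f i) else 0) = z := by
    intro i j s
    by_cases hjs : j ≤ s
    · obtain ⟨z, hz⟩ := hint i (s - j)
      refine ⟨(t : ℤ) ^ (2 * j) * z, ?_⟩
      rw [if_pos hjs]
      push_cast
      rw [← hz, ← mul_assoc, ← pow_add]
      congr 2; omega
    · exact ⟨0, by simp [hjs]⟩
  choose Cz hCz using hC
  set V : ℕ → ℕ := fun s => 10 * d * Y * t ^ (2 * s) * 2 ^ k * (2 * k) ^ s with hV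
  set box : Finset (Fin 5 × Fin (2 * d) → ℕ) :=
    Fintype.piFinset (fun p => Finset.range (Y * (2 * k) ^ (p.2 : ℕ) + 1)) with hbox
  set tgt : Finset (Fin (6 * d) → ℤ) :=
    Fintype.piFinset (fun s => Finset.Icc (-(V s : ℤ)) (V s)) with htgt
  set val : (Fin 5 × Fin (2 * d) → ℕ) → (Fin (6 * d) → ℤ) := fun a s =>
    ∑ p : Fin 5 × Fin (2 * d), (a p : ℤ) * Cz p.1 p.2 s with hval
  have hCb : ∀ (i : Fin 5) (j s : ℕ), |(Cz i j s : ℝ)| * (2 * (k : ℝ)) ^ j
      ≤ (t : ℝ) ^ (2 * s) * 2 ^ k * (2 * (k : ℝ)) ^ s := by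
    intro i j s
    rw [← hCz]
    by_cases hjs : j ≤ s
    · rw [if_pos hjs, abs_mul, abs_of_nonneg (by positivity : (0 : ℝ) ≤ (t : ℝ) ^ (2 * s))]
      have e1 : (2 * (k : ℝ)) ^ s = (2 * (k : ℝ)) ^ (s - j) * (2 * (k : ℝ)) ^ j := by
        rw [← pow_add]; congr 1; omega
      rw [e1]
      have := hb i (s - j)
      have hp : (0 : ℝ) ≤ (t : ℝ) ^ (2 * s) := by positivity
      have hq : (0 : ℝ) ≤ (2 * (k : ℝ)) ^ j := by positivity
      calc (t : ℝ) ^ (2 * s) * |PowerSeries.coeff (s - j) (f i)| * (2 * (k : ℝ)) ^ j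
          ≤ (t : ℝ) ^ (2 * s) * (2 ^ k * (2 * (k : ℝ)) ^ (s - j)) * (2 * (k : ℝ)) ^ j := by gcongr
        _ = _ := by ring
    · rw [if_neg hjs]; simp; positivity
  have hmaps : Set.MapsTo val (box : Set _) (tgt : Set _) := by
    intro a ha
    rw [mem_coe, hbox, Fintype.mem_piFinset] at ha
    rw [mem_coe, htgt, Fintype.mem_piFinset]
    intro s
    rw [mem_Icc, ← abs_le]
    have hreal : |((val a s : ℤ) : ℝ)| ≤ (V s : ℝ) := by
      simp only [hval]
      push_cast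
      refine (abs_sum_le_sum_abs _ _).trans ?_
      have hterm : ∀ p : Fin 5 × Fin (2 * d), |(a p : ℝ) * (Cz p.1 p.2 s : ℝ)|
          ≤ (Y : ℝ) * ((t : ℝ) ^ (2 * (s : ℕ)) * 2 ^ k * (2 * (k : ℝ)) ^ (s : ℕ)) := by
        intro p
        have h1 := ha p
        rw [mem_range] at h1
        have h2 : (a p : ℝ) ≤ Y * (2 * (k : ℝ)) ^ (p.2 : ℕ) := by
          have : a p ≤ Y * (2 * k) ^ (p.2 : ℕ) := by omega
          exact_mod_cast this
        rw [abs_mul, Nat.abs_cast]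
        calc (a p : ℝ) * |(Cz p.1 p.2 s : ℝ)|
            ≤ (Y * (2 * (k : ℝ)) ^ (p.2 : ℕ)) * |(Cz p.1 p.2 s : ℝ)| := by gcongr
          _ = Y * (|(Cz p.1 p.2 s : ℝ)| * (2 * (k : ℝ)) ^ (p.2 : ℕ)) := by ring
          _ ≤ _ := by
            have := hCb p.1 p.2 s
            gcongr
      refine (sum_le_sum (fun p _ => hterm p)).trans ?_
      rw [sum_const, Finset.card_univ, Fintype.card_prod, Fintype.card_fin, Fintype.card_fin, nsmul_eq_mul]
      simp only [hV]
      push_cast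
      apply le_of_eq
      ring
    have : ((|val a s| : ℤ) : ℝ) ≤ ((V s : ℤ) : ℝ) := by push_cast; exact_mod_cast hreal
    exact_mod_cast this
  have hcard : tgt.card < box.card := by
    rw [htgt, hbox, Fintype.card_piFinset, Fintype.card_piFinset]
    have h1 : ∀ s : Fin (6 * d), (Finset.Icc (-(V s : ℤ)) (V s)).card = 2 * V s + 1 := by
      intro s
      rw [Int.card_Icc]
      omega
    simp only [h1, card_range]
    exact card_ineq t k d ht hk hd
  obtain ⟨a, ha, b, hb', hab, hvab⟩ := Finset.exists_ne_map_eq_of_card_lt_of_maps_to hcard hmaps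
  set δ : Fin 5 × Fin (2 * d) → ℤ := fun p => (a p : ℤ) - b p with hδ
  have hδ0 : ∃ p, δ p ≠ 0 := by
    by_contra hcon
    push Not at hcon
    apply hab
    funext p
    have := hcon p
    simp only [hδ] at this
    omega
  have hδb : ∀ p, |(δ p : ℝ)| ≤ Y * (2 * (k : ℝ)) ^ (p.2 : ℕ) := by
    intro p
    rw [hbox, Fintype.mem_piFinset] at ha hb'
    have h1 := mem_range.1 (ha p)
    have h2 := mem_range.1 (hb' p)
    have h3 : |δ p| ≤ ((Y * (2 * k) ^ (p.2 : ℕ) : ℕ) : ℤ) := by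
      rw [abs_le]; simp only [hδ]; constructor <;> omega
    have : ((|δ p| : ℤ) : ℝ) ≤ (((Y * (2 * k) ^ (p.2 : ℕ) : ℕ) : ℤ) : ℝ) := by exact_mod_cast h3
    push_cast at this
    exact this
  have hδeq : ∀ s : Fin (6 * d), ∑ p : Fin 5 × Fin (2 * d), (δ p : ℝ) * (Cz p.1 p.2 s : ℝ) = 0 := by
    intro s
    have h1 := congrFun hvab s
    simp only [hval] at h1
    have h2 : ∑ p : Fin 5 × Fin (2 * d), δ p * Cz p.1 p.2 s = 0 := by
      simp only [hδ, sub_mul, sum_sub_distrib, h1, sub_self]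
    exact_mod_cast h2
  -- the polynomials
  refine ⟨fun i => ∑ j : Fin (2 * d), Polynomial.C (δ (i, j)) * Polynomial.X ^ (j : ℕ), ?_, ?_, ?_, ?_⟩
  · obtain ⟨⟨i, j⟩, hp⟩ := hδ0
    refine ⟨i, ?_⟩
    intro h0
    apply hp
    have h1 := congrArg (fun P => Polynomial.coeff P (j : ℕ)) h0
    simp only [Polynomial.finsetSum_coeff, Polynomial.coeff_C_mul_X_pow, Polynomial.coeff_zero] at h1
    rw [Finset.sum_eq_single j] at h1
    · simpa using h1
    · intro b _ hb
      rw [if_neg]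
      intro h; exact hb (Fin.ext h.symm)
    · simp
  · intro i
    have : (∑ j : Fin (2 * d), Polynomial.C (δ (i, j)) * Polynomial.X ^ (j : ℕ)).natDegree ≤ 2 * d - 1 := by
      apply Polynomial.natDegree_sum_le_of_forall_le
      intro j _
      refine (Polynomial.natDegree_C_mul_X_pow_le _ _).trans ?_
      have := j.2; omega
    exact lt_of_le_of_lt this (by omega)
  · intro i j
    simp only [Polynomial.finsetSum_coeff, Polynomial.coeff_C_mul_X_pow]
    by_cases hj : j < 2 * d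
    · rw [Finset.sum_eq_single (⟨j, hj⟩ : Fin (2 * d))]
      · simpa using hδb (i, ⟨j, hj⟩)
      · intro b _ hb
        rw [if_neg]
        intro h; exact hb (Fin.ext h.symm)
      · simp
    · rw [Finset.sum_eq_zero]
      · simp; positivity
      · intro b _
        rw [if_neg]
        intro h; have := b.2; omega
  · rw [PowerSeries.X_pow_dvd_iff]
    intro s hs
    have h1 := hδeq ⟨s, hs⟩
    simp only [← hCz] at h1
    rw [Fintype.sum_prod_type] at h1
    rw [map_sum]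
    have ht0 : ((t : ℝ) ^ (2 * s)) ≠ 0 := by positivity
    have h2 : (t : ℝ) ^ (2 * s) * ∑ i : Fin 5, PowerSeries.coeff s
        ((((∑ j : Fin (2 * d), Polynomial.C (δ (i, j)) * Polynomial.X ^ (j : ℕ)).map (Int.castRingHom ℝ)
          : Polynomial ℝ) : PowerSeries ℝ) * f i) = 0 := by
      rw [← h1, mul_sum]
      apply sum_congr rfl
      intro i _
      have h3 : ((((∑ j : Fin (2 * d), Polynomial.C (δ (i, j)) * Polynomial.X ^ (j : ℕ)).map (Int.castRingHom ℝ)
          : Polynomial ℝ) : PowerSeries ℝ) * f i)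
          = ∑ j : Fin (2 * d), PowerSeries.C (δ (i, j) : ℝ) * (PowerSeries.X ^ (j : ℕ) * f i) := by
        rw [Polynomial.map_sum]
        have h4 : ((∑ j : Fin (2 * d), (Polynomial.C (δ (i, j)) * Polynomial.X ^ (j : ℕ)).map (Int.castRingHom ℝ) : Polynomial ℝ) : PowerSeries ℝ)
            = ∑ j : Fin (2 * d), PowerSeries.C (δ (i, j) : ℝ) * PowerSeries.X ^ (j : ℕ) := by
          have := map_sum (Polynomial.coeToPowerSeries.ringHom (R := ℝ))
            (fun j : Fin (2 * d) => (Polynomial.C (δ (i, j)) * Polynomial.X ^ (j : ℕ)).map (Int.castRingHom ℝ)) univ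
          simp only [Polynomial.coeToPowerSeries.ringHom_apply] at this
          rw [this]
          apply sum_congr rfl
          intro j _
          rw [Polynomial.map_mul, Polynomial.map_C, Polynomial.map_pow, Polynomial.map_X,
            Polynomial.coe_mul, Polynomial.coe_C, Polynomial.coe_pow, Polynomial.coe_X]
          rfl
        rw [h4, sum_mul]
        apply sum_congr rfl
        intro j _
        ring
      rw [h3, map_sum, mul_sum]
      apply sum_congr rfl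
      intro j _
      rw [PowerSeries.coeff_C_mul, PowerSeries.coeff_X_pow_mul']
      split_ifs with h5
      · ring
      · simp
    exact (mul_eq_zero.1 h2).resolve_left ht0

end Pool.Agent.H147
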