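import Pool.Agent.H147_fact.Form
import Pool.Agent.H147_fact.SiegG

/-!
The integer forms at a point `1 / n` vanish when the numerical conditions hold: general parameters.
-/

namespace Pool.Agent.H147

open Finset

/-- the parameter bounding all the factors that come from derivatives -/
def MMg (k T j0 : ℕ) : ℕ := T + 2 + (j0 + 1) * (k + 1)

/-- first numerical condition -/
def NumA (t k r D T j0 n s : ℕ) (Y G : ℝ) : Prop :=
  (n : ℝ) ^ (D + s * k + k) * G *
    ((r * Y * 2 ^ k * (T + 1) * (2 * (k : ℝ)) ^ T) * ((t : ℝ) * MMg k T j0) ^ s *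
      (1 / (n : ℝ)) ^ (T - s) * 2 ^ (2 + s * (k + 1))) < 1 / 2

/-- second numerical condition, for an error `E` -/
def NumB (t k r D T j0 n s : ℕ) (Y E : ℝ) : Prop :=
  (n : ℝ) ^ (D + s * k + k) *
    (r * ((Y * ((t : ℝ) * (2 * k) * MMg k T j0) ^ s * 2 ^ (1 + s * (k + 1))) * E)) < 1 / 2

theorem forms_vanish_gen (t k r D T j0 : ℕ) (Y : ℝ) (hY0 : 0 ≤ Y) (ht : 2 ≤ t) (hk : 1 ≤ k) (hr : 1 ≤ r) (hj0 : j0 ≤ T)
    (q : Fin r → ℕ) (he : ∀ i, t * q i ≤ k) (A : Fin r → Polynomial ℤ)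
    (hdeg : ∀ i, (A i).natDegree < D)
    (hco : ∀ i j, |((A i).coeff j : ℝ)| ≤ Y * (2 * (k : ℝ)) ^ j)
    (hX : PowerSeries.X ^ T ∣
        ∑ i, (((A i).map (Int.castRingHom ℝ) : Polynomial ℝ) : PowerSeries ℝ) * rt t 0 (t * q i))
    (n : ℕ) (hn : 4 * k ≤ n) (y : Fin r → ℤ) (G E : ℝ) (hG : 0 < G)
    (hy : ∀ i, |(y i : ℝ) - G * (n : ℝ) ^ (q i) * ((Pp (t * q i)).eval (1 / (n : ℝ))) ^ (1 / (t : ℝ))| ≤ E)
    (s : ℕ) (hs : s < j0)
    (h1 : NumA t k r D T j0 n s Y G) (h2 : NumB t k r D T j0 n s Y E) :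
    ∑ i, ((op t k (t * q i))^[s] ((A i).map (Int.castRingHom ℝ))).eval (1 / (n : ℝ))
      * ((1 / (n : ℝ)) ^ (q i) * (y i : ℝ)) = 0 := by
  have hn1 : 1 ≤ n := by omega
  have hnpos : (0 : ℝ) < n := by exact_mod_cast hn1
  have ht1 : 1 ≤ t := by omega
  obtain ⟨V, hV⟩ : ∃ V : Fin r → ℝ, V = fun i =>
    G * (n : ℝ) ^ (q i) * ((Pp (t * q i)).eval (1 / (n : ℝ))) ^ (1 / (t : ℝ)) := ⟨_, rfl⟩
  replace hy : ∀ i, |(y i : ℝ) - V i| ≤ E := by
    intro i; rw [hV]; exact hy i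
  set x : ℝ := 1 / (n : ℝ) with hx
  have hx0 : 0 ≤ x := by positivity
  set κ : ℝ := 2 * (k : ℝ) with hκ
  have hκ0 : 0 ≤ κ := by positivity
  have hκx : κ * x ≤ 1 / 2 := by
    have : (4 * k : ℝ) ≤ n := by exact_mod_cast hn
    rw [hκ, hx, mul_one_div, div_le_iff₀ hnpos]; linarith
  have hκx1 : κ * x < 1 := by linarith
  have hkκ : (k : ℝ) ≤ κ := by rw [hκ]; have : (0 : ℝ) ≤ k := by positivity
                               linarith
  have hSg : Sm x (gg κ) := Sm_gg hκ0 hx0 hκx1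
  have hg2 : ev x (gg κ) ≤ 2 := by
    rw [ev_gg hκ0 hx0 hκx1]
    rw [inv_le_comm₀ (by linarith) (by norm_num)]; linarith
  have hg0 : 0 ≤ ev x (gg κ) := by
    rw [ev_gg hκ0 hx0 hκx1]; apply inv_nonneg.2; linarith
  set B : Fin r → Polynomial ℝ := fun i => (A i).map (Int.castRingHom ℝ) with hB
  -- majorants of the polynomials
  have hBmaj : ∀ i, Maj (tau 0 (B i)) (PowerSeries.C Y * gg κ) := by
    intro i m
    rw [tau_zero_apply, Polynomial.coeff_coe, PowerSeries.coeff_C_mul]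
    simp only [hB, Polynomial.coeff_map, gg, PowerSeries.coeff_mk]
    simpa using hco i m
  have hMM1 : 1 + j0 * (k + 1) + k ≤ MMg k T j0 := by unfold MMg; nlinarith
  have hMM2 : T + 2 + j0 * (k + 1) ≤ MMg k T j0 := by unfold MMg; nlinarith
  have hBs : ∀ i, |((op t k (t * q i))^[s] (B i)).eval x|
      ≤ Y * ((t : ℝ) * κ * MMg k T j0) ^ s * 2 ^ (1 + s * (k + 1)) := by
    intro i
    have hm := op_iterate_maj t k (t * q i) ht1 (he i) hkκ Y hY0 j0 (MMg k T j0) hMM1 (hBmaj i) s hs.le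
    have hm2 := hm.ev hx0 (Sm_C_mul (hSg.pow _))
    rw [ev_C_mul (hSg.pow _), ev_pow hSg, tau_zero_apply, ev_coe] at hm2
    refine hm2.trans ?_
    have : ev x (gg κ) ^ (1 + s * (k + 1)) ≤ 2 ^ (1 + s * (k + 1)) := pow_le_pow_left₀ hg0 hg2 _
    gcongr
  -- the auxiliary function
  set F : PowerSeries ℝ := ∑ i, tau 0 (B i) * rt t 0 (t * q i) with hF
  have hXF : PowerSeries.X ^ (T) ∣ F := by
    have : F = ∑ i, (((A i).map (Int.castRingHom ℝ) : Polynomial ℝ) : PowerSeries ℝ) * rt t 0 (t * q i) := by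
      rw [hF]
      apply sum_congr rfl
      intro i _
      rw [tau_zero_apply]
    rw [this]; exact hX
  have hFmaj : Maj F (PowerSeries.C ((r : ℝ) * Y * 2 ^ k) * gg κ ^ 2) := by
    have hterm : ∀ i, Maj (tau 0 (B i) * rt t 0 (t * q i)) (PowerSeries.C (Y * 2 ^ k) * gg κ ^ 2) := by
      intro i
      have h3 := (hBmaj i).mul ((rt_maj t ht1 k (t * q i) (he i)).trans
        (Maj_C_mono (c' := 2 ^ k) (pow_le_pow_right₀ (by norm_num) (he i)) (by positivity) (gg_self hκ0)))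
      have e1 : PowerSeries.C (Y * 2 ^ k) * gg κ ^ 2
          = PowerSeries.C Y * gg κ * (PowerSeries.C (2 ^ k) * gg (2 * (k : ℝ))) := by
        rw [map_mul, ← hκ]; ring
      rw [e1]; exact h3
    intro m
    rw [hF, map_sum]
    refine (abs_sum_le_sum_abs _ _).trans ?_
    refine (sum_le_sum (fun i _ => hterm i m)).trans ?_
    rw [sum_const, Finset.card_univ, Fintype.card_fin, nsmul_eq_mul, PowerSeries.coeff_C_mul,
      PowerSeries.coeff_C_mul]
    apply le_of_eq; push_cast; ring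
  have hFmaj2 := extract_maj hκ0 (by positivity : 0 ≤ (r : ℝ) * Y * 2 ^ k) (T) hXF hFmaj
  have hFs := dd_iterate_maj t k hkκ _ (by positivity) (T) 2 j0 (MMg k T j0) hMM2 hFmaj2 s hs.le
    (by omega)
  set c0 : ℝ := (r : ℝ) * Y * 2 ^ k * (((T : ℝ) + 1) * κ ^ (T)) with hc0
  have hevF : |ev x ((dd t k 0)^[s] F)| ≤ c0 * ((t : ℝ) * MMg k T j0) ^ s * x ^ (T - s) * 2 ^ (2 + s * (k + 1)) := by
    have hS : Sm x (PowerSeries.C (c0 * ((t : ℝ) * MMg k T j0) ^ s) * PowerSeries.X ^ (T - s) * gg κ ^ (2 + s * (k + 1))) := by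
      exact (Sm_C_mul ((Sm_X x).pow _)).mul (hSg.pow _)
    have h3 := hFs.ev hx0 hS
    rw [ev_mul (Sm_C_mul ((Sm_X x).pow _)) (hSg.pow _), ev_C_mul ((Sm_X x).pow _), ev_pow (Sm_X x),
      ev_X, ev_pow hSg] at h3
    refine h3.trans ?_
    have : ev x (gg κ) ^ (2 + s * (k + 1)) ≤ 2 ^ (2 + s * (k + 1)) := pow_le_pow_left₀ hg0 hg2 _
    gcongr
  -- the value of the form on the exact values
  have hSrt : ∀ i, Sm x (rt t 0 (t * q i)) := fun i => Sm_rt t ht1 k _ (he i) hx0 hκx1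
  have hevsum : ev x ((dd t k 0)^[s] F)
      = ∑ i, ((op t k (t * q i))^[s] (B i)).eval x * ((Pp (t * q i)).eval x) ^ (1 / (t : ℝ)) := by
    have h3 : (dd t k 0)^[s] F = ∑ i, tau 0 ((op t k (t * q i))^[s] (B i)) * rt t 0 (t * q i) := by
      have h4 := dd_iterate_sum t k 0 univ (fun _ => (1 : ℝ)) (fun i => tau 0 (B i) * rt t 0 (t * q i)) s
      simp only [map_one, one_mul] at h4
      rw [hF, h4]
      apply sum_congr rfl
      intro i _
      rw [tau_op_iterate t k _ ht1 (he i) 0 le_rfl]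
    rw [h3, ev_sum]
    · apply sum_congr rfl
      intro i _
      rw [tau_zero_apply, ev_mul (Sm_coe _ _) (hSrt i), ev_coe, ev_rt t ht1 k _ (he i) hx0 hκx1]
    · intro i _
      rw [tau_zero_apply]
      exact (Sm_coe _ _).mul (hSrt i)
  -- the integer
  set a : Fin r → ℝ := fun i => ((op t k (t * q i))^[s] (B i)).eval x with ha
  set S0 : ℝ := ∑ i, a i * (x ^ (q i) * (y i : ℝ)) with hS0
  have hqk : ∀ i, q i ≤ k := by
    intro i
    have : q i ≤ t * q i := Nat.le_mul_of_pos_left _ ht1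
    exact this.trans (he i)
  have hint : ∃ z : ℤ, (n : ℝ) ^ (D + s * k + k) * S0 = z := by
    have h3 : ∀ i, ∃ z : ℤ, (n : ℝ) ^ (D + s * k) * a i = z := by
      intro i
      have h4 : a i = (((opZ t k (t * q i))^[s] (A i)).map (Int.castRingHom ℝ)).eval (1 / (n : ℝ)) := by
        rw [opZ_iterate_map]
      rw [h4]
      apply int_eval _ _ _ hn1
      rw [opZ_iterate_map]
      have h5 := natDegree_op_iterate_le t k (t * q i) (he i) ((A i).map (Int.castRingHom ℝ)) s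
      have h6 : ((A i).map (Int.castRingHom ℝ)).natDegree ≤ (A i).natDegree := Polynomial.natDegree_map_le
      have := hdeg i
      omega
    choose z hz using h3
    refine ⟨∑ i, z i * ((n : ℤ) ^ (k - q i) * y i), ?_⟩
    rw [hS0, mul_sum]
    push_cast
    apply sum_congr rfl
    intro i _
    rw [← hz i, pow_add]
    have h7 : (n : ℝ) ^ k * x ^ (q i) = (n : ℝ) ^ (k - q i) := by
      have : (n : ℝ) ^ k = (n : ℝ) ^ (k - q i) * (n : ℝ) ^ (q i) := by
        rw [← pow_add]; congr 1; have := hqk i; omega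
      rw [this, hx, one_div, inv_pow]
      have h8 : (n : ℝ) ^ (q i) ≠ 0 := by positivity
      field_simp
    rw [← h7]; ring
  obtain ⟨z, hz⟩ := hint
  -- size of the integer
  have hdecomp : S0 = G * ev x ((dd t k 0)^[s] F)
      + ∑ i, a i * (x ^ (q i) * ((y i : ℝ) - V i)) := by
    rw [hevsum, hS0, mul_sum, ← sum_add_distrib]
    apply sum_congr rfl
    intro i _
    have hVi : V i = G * (n : ℝ) ^ (q i) * ((Pp (t * q i)).eval (1 / (n : ℝ))) ^ (1 / (t : ℝ)) := by rw [hV]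
    rw [hVi]
    have h8 : x ^ (q i) * (n : ℝ) ^ (q i) = 1 := by
      rw [← mul_pow, hx, one_div, inv_mul_cancel₀ hnpos.ne', one_pow]
    have : x ^ (q i) * (G * (n : ℝ) ^ (q i) * ((Pp (t * q i)).eval (1 / (n : ℝ))) ^ (1 / (t : ℝ)))
        = G * ((Pp (t * q i)).eval x) ^ (1 / (t : ℝ)) := by
      calc _ = (x ^ (q i) * (n : ℝ) ^ (q i)) * (G * ((Pp (t * q i)).eval (1 / (n : ℝ))) ^ (1 / (t : ℝ))) := by ring
        _ = _ := by rw [h8, one_mul]
    rw [mul_sub (x ^ (q i)), this]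
    ring
  have hE0 : 0 ≤ E := (abs_nonneg _).trans (hy ⟨0, hr⟩)
  have herr : |∑ i, a i * (x ^ (q i) * ((y i : ℝ) - V i))|
      ≤ (r : ℝ) * ((Y * ((t : ℝ) * κ * MMg k T j0) ^ s * 2 ^ (1 + s * (k + 1))) * E) := by
    refine (abs_sum_le_sum_abs _ _).trans ?_
    have hterm : ∀ i ∈ (univ : Finset (Fin r)), |a i * (x ^ (q i) * ((y i : ℝ) - V i))|
        ≤ (Y * ((t : ℝ) * κ * MMg k T j0) ^ s * 2 ^ (1 + s * (k + 1))) * E := by
      intro i _
      rw [abs_mul, abs_mul]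
      have hx1 : |x ^ (q i)| ≤ 1 := by
        rw [abs_of_nonneg (by positivity)]
        apply pow_le_one₀ hx0
        rw [hx, div_le_one hnpos]
        exact_mod_cast hn1
      have h9 := hBs i
      calc |a i| * (|x ^ (q i)| * |(y i : ℝ) - V i|)
          ≤ (Y * ((t : ℝ) * κ * MMg k T j0) ^ s * 2 ^ (1 + s * (k + 1))) * (1 * E) := by
            gcongr
            exact hy i
        _ = _ := by ring
    refine (sum_le_sum hterm).trans ?_
    rw [sum_const, Finset.card_univ, Fintype.card_fin, nsmul_eq_mul]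
  have hzabs : |(z : ℝ)| < 1 := by
    rw [← hz, hdecomp, mul_add]
    refine (abs_add_le _ _).trans_lt ?_
    have hN : (0 : ℝ) ≤ (n : ℝ) ^ (D + s * k + k) := by positivity
    have hA1 : |(n : ℝ) ^ (D + s * k + k) * (G * ev x ((dd t k 0)^[s] F))| < 1 / 2 := by
      rw [abs_mul, abs_mul, abs_of_nonneg hN, abs_of_pos hG, ← mul_assoc]
      refine lt_of_le_of_lt ?_ h1
      have hGp := hG.le
      apply mul_le_mul_of_nonneg_left _ (by positivity)
      refine hevF.trans (le_of_eq ?_)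
      rw [hc0]; push_cast; ring
    have hA2 : |(n : ℝ) ^ (D + s * k + k) * ∑ i, a i * (x ^ (q i) * ((y i : ℝ) - V i))| < 1 / 2 := by
      rw [abs_mul, abs_of_nonneg hN]
      refine lt_of_le_of_lt ?_ h2
      exact mul_le_mul_of_nonneg_left herr hN
    linarith
  have hz0 : z = 0 := by
    have : |z| < 1 := by exact_mod_cast hzabs
    exact Int.abs_lt_one_iff.1 this
  have h10 : (n : ℝ) ^ (D + s * k + k) * S0 = 0 := by rw [hz, hz0]; simp
  exact (mul_eq_zero.1 h10).resolve_left (by positivity)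

end Pool.Agent.H147
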