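import Pool.Agent.H147_fact.Coef
import Pool.Agent.H147_fact.Count0

/-!
Majorants for the iterated operators.
-/

namespace Pool.Agent.H147

open Finset PowerSeries

theorem Pp_maj (e : ℕ) {a : ℝ} (ha : (e : ℝ) ≤ a) : Maj (tau 0 (Pp e)) (gg a ^ e) := by
  rw [Pp, map_prod]
  have ha0 : 0 ≤ a := le_trans (by positivity) ha
  have h : gg a ^ e = ∏ _l ∈ range e, gg a := by simp
  rw [h]
  apply Maj.prod
  intro l hl
  have h1 : ((l : ℝ) + 1) ≤ a := by
    have := mem_range.1 hl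
    have : ((l : ℝ) + 1) ≤ e := by exact_mod_cast this
    linarith
  have h2 : tau 0 (1 + Polynomial.C ((l : ℝ) + 1) * Polynomial.X) = 1 + C ((l : ℝ) + 1) * X := by
    simp only [map_add, map_mul, map_one, tau_C, tau_X, map_natCast]
    simp
  rw [h2]
  apply lin_maj_gg ha0
  rw [abs_of_nonneg (by positivity)]; exact h1

theorem Qp_maj (k e : ℕ) {a : ℝ} (ha : (k : ℝ) ≤ a) : Maj (tau 0 (Qp k e)) (gg a ^ (k - e)) := by
  rw [Qp, map_prod]
  have ha0 : 0 ≤ a := le_trans (by positivity) ha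
  have h : gg a ^ (k - e) = ∏ _l ∈ Ico e k, gg a := by simp
  rw [h]
  apply Maj.prod
  intro l hl
  have h1 : ((l : ℝ) + 1) ≤ a := by
    have := (mem_Ico.1 hl).2
    have : ((l : ℝ) + 1) ≤ k := by exact_mod_cast this
    linarith
  have h2 : tau 0 (1 + Polynomial.C ((l : ℝ) + 1) * Polynomial.X) = 1 + C ((l : ℝ) + 1) * X := by
    simp only [map_add, map_mul, map_one, tau_C, tau_X, map_natCast]
    simp
  rw [h2]
  apply lin_maj_gg ha0
  rw [abs_of_nonneg (by positivity)]; exact h1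

theorem natCast_maj (t : ℕ) : Maj (t : ℝ⟦X⟧) (C (t : ℝ)) := by
  have : (t : ℝ⟦X⟧) = C (t : ℝ) := by simp
  rw [this]
  apply Maj_C; simp

theorem Maj_C_mono {c c' : ℝ} {G : ℝ⟦X⟧} (h : c ≤ c') (hc : 0 ≤ c) (hG : Maj G G) :
    Maj (C c * G) (C c' * G) := (Maj_C (by rwa [abs_of_nonneg hc])).mul hG

/-- derivative of the standard majorant -/
theorem std_deriv {a : ℝ} (ha : 0 ≤ a) (c : ℝ) (hc : 0 ≤ c) (J e : ℕ) :
    Maj (d⁄dX ℝ (C c * X ^ (J + 1) * gg a ^ e)) (C (c * (J + 1 + e)) * X ^ J * gg a ^ (e + 1)) := by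
  have h1 : d⁄dX ℝ (C c * X ^ (J + 1) * gg a ^ e)
      = C (c * (J + 1)) * (X ^ J * gg a ^ e) + C (c * e) * (X ^ J * ((C a * X * gg a) * gg a ^ e)) := by
    rw [Derivation.leibniz, Derivation.leibniz, derivative_C, gg_pow_deriv, Derivation.leibniz_pow,
      derivative_X]
    simp only [smul_eq_mul, nsmul_eq_mul, map_mul, map_add, map_one, mul_one, mul_zero, add_zero,
      Nat.add_sub_cancel, Nat.cast_add, Nat.cast_one, map_natCast]
    ring
  have h2 : C (c * (J + 1 + e)) * X ^ J * gg a ^ (e + 1)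
      = C (c * (J + 1)) * (X ^ J * gg a ^ (e + 1)) + C (c * e) * (X ^ J * (gg a * gg a ^ e)) := by
    simp only [map_mul, map_add, map_one, map_natCast]
    ring
  rw [h1, h2]
  apply Maj.add
  · apply (Maj_C (by rw [abs_of_nonneg (by positivity)])).mul
    exact (Maj_X.pow J).mul (gg_pow_maj ha (by omega))
  · apply (Maj_C (by rw [abs_of_nonneg (by positivity)])).mul
    exact (Maj_X.pow J).mul ((aX_maj_gg ha).mul ((gg_self ha).pow e))

theorem dd_maj (t k : ℕ) {a : ℝ} (ha : (k : ℝ) ≤ a) (c : ℝ) (hc : 0 ≤ c) (J e : ℕ) {F : ℝ⟦X⟧}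
    (h : Maj F (C c * X ^ (J + 1) * gg a ^ e)) :
    Maj (dd t k 0 F) (C (c * (t * (J + 1 + e))) * X ^ J * gg a ^ (e + 1 + k)) := by
  have ha0 : 0 ≤ a := le_trans (by positivity) ha
  have h1 := (h.deriv).trans (std_deriv ha0 c hc J e)
  have h2 := ((natCast_maj t).mul (Pp_maj k ha)).mul h1
  rw [dd]
  have h3 : C (c * (t * (J + 1 + e))) * X ^ J * gg a ^ (e + 1 + k)
      = C (t : ℝ) * gg a ^ k * (C (c * (J + 1 + e)) * X ^ J * gg a ^ (e + 1)) := by
    simp only [map_mul, map_add, map_one, map_natCast]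
    ring
  rw [h3]; exact h2

theorem X_pow_maj_mul {c c' a : ℝ} (ha : 0 ≤ a) (hc : 0 ≤ c) (h : c ≤ c') (J e : ℕ) :
    Maj (C c * X ^ J * gg a ^ e) (C c' * X ^ J * gg a ^ e) := by
  rw [mul_assoc, mul_assoc]
  exact Maj_C_mono h hc ((Maj_X.pow J).mul ((gg_self ha).pow e))

theorem dd_iterate_maj (t k : ℕ) {a : ℝ} (ha : (k : ℝ) ≤ a) (c : ℝ) (hc : 0 ≤ c) (T e0 j0 M : ℕ)
    (hM : T + e0 + j0 * (k + 1) ≤ M) {F : ℝ⟦X⟧} (h : Maj F (C c * X ^ T * gg a ^ e0)) :
    ∀ s, s ≤ j0 → s ≤ T →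
      Maj ((dd t k 0)^[s] F) (C (c * ((t : ℝ) * M) ^ s) * X ^ (T - s) * gg a ^ (e0 + s * (k + 1))) := by
  have ha0 : 0 ≤ a := le_trans (by positivity) ha
  intro s
  induction s with
  | zero => intro _ _; simpa using h
  | succ s ih =>
    intro hs hsT
    have h1 := ih (by omega) (by omega)
    have h2 : T - s = (T - (s + 1)) + 1 := by omega
    rw [h2] at h1
    have h3 := dd_maj t k ha (c * ((t : ℝ) * M) ^ s) (by positivity) (T - (s + 1)) (e0 + s * (k + 1)) h1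
    rw [Function.iterate_succ_apply']
    have h4 : e0 + (s + 1) * (k + 1) = e0 + s * (k + 1) + 1 + k := by ring
    rw [h4]
    refine h3.trans (X_pow_maj_mul ha0 (by positivity) ?_ _ _)
    rw [pow_succ, ← mul_assoc c]
    apply mul_le_mul_of_nonneg_left _ (by positivity)
    apply mul_le_mul_of_nonneg_left _ (by positivity)
    have h5 : (T - (s + 1)) + 1 + (e0 + s * (k + 1)) ≤ M := by
      have : s * (k + 1) ≤ j0 * (k + 1) := Nat.mul_le_mul_right _ (by omega)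
      omega
    exact_mod_cast h5

theorem op_maj (t k e' : ℕ) (ht : 1 ≤ t) (he : e' ≤ k) {a : ℝ} (ha : (k : ℝ) ≤ a) (c : ℝ) (hc : 0 ≤ c) (e : ℕ)
    {A : Polynomial ℝ} (h : Maj (tau 0 A) (C c * gg a ^ e)) :
    Maj (tau 0 (op t k e' A)) (C (c * (t * a * (e + k))) * gg a ^ (e + 1 + k)) := by
  have ha0 : 0 ≤ a := le_trans (by positivity) ha
  have he'a : (e' : ℝ) ≤ a := by
    have : (e' : ℝ) ≤ k := by exact_mod_cast he
    linarith
  have hd1 : Maj (d⁄dX ℝ (tau 0 A)) (C (c * (e * a)) * gg a ^ (e + 1)) := by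
    have h1 := h.deriv
    rw [Derivation.leibniz, derivative_C, gg_pow_deriv] at h1
    simp only [smul_eq_mul, mul_zero, add_zero] at h1
    have e1 : C (c * (e * a)) * gg a ^ (e + 1) = C c * (C ((e : ℝ) * a) * gg a ^ (e + 1)) := by
      simp only [map_mul]; ring
    rw [e1]; exact h1
  have hd2 : Maj (d⁄dX ℝ (tau 0 (Pp e'))) (C ((e' : ℝ) * a) * gg a ^ (e' + 1)) := by
    have h1 := (Pp_maj e' he'a).deriv
    rwa [gg_pow_deriv] at h1
  have hA : tau 0 (op t k e' A) = (t : ℝ⟦X⟧) * tau 0 (Pp k) * d⁄dX ℝ (tau 0 A)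
      + tau 0 (Qp k e') * d⁄dX ℝ (tau 0 (Pp e')) * tau 0 A := by
    rw [op, tau_deriv, tau_deriv]
    simp only [map_add, map_mul, map_natCast]
  rw [hA]
  have h2 := ((natCast_maj t).mul (Pp_maj k ha)).mul hd1
  have h3 := ((Qp_maj k e' ha).mul hd2).mul h
  have h4 := h2.add h3
  refine h4.trans ?_
  have e1 : C (t : ℝ) * gg a ^ k * (C (c * (e * a)) * gg a ^ (e + 1))
      + gg a ^ (k - e') * (C ((e' : ℝ) * a) * gg a ^ (e' + 1)) * (C c * gg a ^ e)
      = C (c * (t * a * e) + c * (e' * a)) * gg a ^ (e + 1 + k) := by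
    have e2 : gg a ^ (k - e') * gg a ^ (e' + 1) * gg a ^ e = gg a ^ (e + 1 + k) := by
      rw [← pow_add, ← pow_add]; congr 1; omega
    simp only [map_mul, map_add, map_natCast]
    rw [add_mul]
    congr 1
    · ring
    · rw [← e2]; ring
  rw [e1]
  apply Maj_C_mono _ (by positivity) ((gg_self ha0).pow _)
  have hk : (e' : ℝ) ≤ k := by exact_mod_cast he
  have ht1 : (1 : ℝ) ≤ t := by exact_mod_cast ht
  have h5 : (e' : ℝ) * a ≤ t * a * k := by
    calc (e' : ℝ) * a ≤ k * a := by gcongr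
      _ = 1 * (k * a) := by ring
      _ ≤ t * (k * a) := by gcongr
      _ = _ := by ring
  have : c * (e' * a) ≤ c * (t * a * k) := by gcongr
  linarith

theorem op_iterate_maj (t k e' : ℕ) (ht : 1 ≤ t) (he : e' ≤ k) {a : ℝ} (ha : (k : ℝ) ≤ a) (c : ℝ) (hc : 0 ≤ c)
    (j0 M : ℕ) (hM : 1 + j0 * (k + 1) + k ≤ M) {A : Polynomial ℝ} (h : Maj (tau 0 A) (C c * gg a)) :
    ∀ s, s ≤ j0 →
      Maj (tau 0 ((op t k e')^[s] A)) (C (c * ((t : ℝ) * a * M) ^ s) * gg a ^ (1 + s * (k + 1))) := by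
  have ha0 : 0 ≤ a := le_trans (by positivity) ha
  intro s
  induction s with
  | zero => intro _; simpa using h
  | succ s ih =>
    intro hs
    have h1 := ih (by omega)
    have h3 := op_maj t k e' ht he ha (c * ((t : ℝ) * a * M) ^ s) (by positivity) (1 + s * (k + 1)) h1
    rw [Function.iterate_succ_apply']
    have h4 : 1 + (s + 1) * (k + 1) = 1 + s * (k + 1) + 1 + k := by ring
    rw [h4]
    refine h3.trans (Maj_C_mono ?_ (by positivity) ((gg_self ha0).pow _))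
    rw [pow_succ, ← mul_assoc c]
    apply mul_le_mul_of_nonneg_left _ (by positivity)
    apply mul_le_mul_of_nonneg_left _ (by positivity)
    have h5 : 1 + s * (k + 1) + k ≤ M := by
      have : s * (k + 1) ≤ j0 * (k + 1) := Nat.mul_le_mul_right _ (by omega)
      omega
    exact_mod_cast h5

theorem coeff_gg_sq (a : ℝ) (m : ℕ) : coeff m (gg a ^ 2) = (m + 1) * a ^ m := by
  rw [pow_two, coeff_mul]
  have : ∀ p ∈ HasAntidiagonal.antidiagonal m, coeff p.1 (gg a) * coeff p.2 (gg a) = a ^ m := by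
    intro p hp
    rw [HasAntidiagonal.mem_antidiagonal] at hp
    simp only [gg, coeff_mk]
    rw [← pow_add, hp]
  rw [sum_congr rfl this, sum_const, Nat.card_antidiagonal, nsmul_eq_mul]
  push_cast; ring

theorem extract_maj {a c : ℝ} (ha : 0 ≤ a) (hc : 0 ≤ c) (T : ℕ) {F : ℝ⟦X⟧} (hX : X ^ T ∣ F)
    (h : Maj F (C c * gg a ^ 2)) : Maj F (C (c * ((T + 1) * a ^ T)) * X ^ T * gg a ^ 2) := by
  intro m
  rw [mul_assoc, coeff_C_mul, coeff_X_pow_mul']
  split_ifs with hm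
  · refine (h m).trans ?_
    rw [coeff_C_mul, coeff_gg_sq, coeff_gg_sq]
    obtain ⟨u, rfl⟩ : ∃ u, m = T + u := ⟨m - T, by omega⟩
    have e1 : T + u - T = u := by omega
    rw [e1, pow_add, mul_assoc]
    apply mul_le_mul_of_nonneg_left _ hc
    have h1 : (((T + u : ℕ) : ℝ) + 1) ≤ (T + 1) * (u + 1) := by
      push_cast
      have : (0 : ℝ) ≤ (T : ℝ) * u := by positivity
      nlinarith
    calc (((T + u : ℕ) : ℝ) + 1) * (a ^ T * a ^ u) ≤ ((T + 1) * (u + 1)) * (a ^ T * a ^ u) := by gcongr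
      _ = _ := by ring
  · rw [mul_zero]
    rw [X_pow_dvd_iff] at hX
    rw [hX m (by omega), abs_zero]

end Pool.Agent.H147
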