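import Pool.Agent.H147_fact.LocalNum

/-!
At most two close values in each residue class in a short window.
-/

namespace Pool.Agent.H147

open Finset

theorem no_three (n t k : ℕ) (q : Fin 3 → ℕ) (ht : 2 ≤ t) (htk : 2 * t ≤ k) (he : ∀ i, t * q i ≤ k)
    (hq : Function.Injective q) (hℓ : 10000 ≤ Real.log n)
    (hlk : 20000 * ((k : ℝ) * Real.log (2 * k)) ≤ Real.log n)
    (hDk : 2000000 * k ^ 2 ≤ 2 * n / (3 * t)) (hnear : ∀ i, Near t (n + t * q i)) : False := by
  obtain ⟨D, hD⟩ : ∃ D, D = 2 * n / (3 * t) := ⟨_, rfl⟩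
  obtain ⟨S, hS⟩ : ∃ S, S = D / (100 * k) := ⟨_, rfl⟩
  obtain ⟨T, hT⟩ : ∃ T, T = 3 * D - S := ⟨_, rfl⟩
  obtain ⟨j0, hj0⟩ : ∃ j0, j0 = S + 9 * k + 5 := ⟨_, rfl⟩
  rw [← hD] at hDk
  obtain ⟨f1, f2, f3, f4, f5, f6, f7, f8, f9, f10, f11, f12, f13⟩ :=
    local_nat n t k D S T j0 ht htk hD hS hT hj0 hDk
  have hk4 : 4 ≤ k := by omega
  have hD1 : 1 ≤ D := by
    have : 1 ≤ k ^ 2 := Nat.one_le_pow _ _ (by omega)
    omega
  have hnpos : (0 : ℝ) < n := by exact_mod_cast f13
  have htpos : (0 : ℝ) < t := by exact_mod_cast (by omega : 0 < t)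
  have hkpos : (0 : ℝ) < k := by exact_mod_cast (by omega : 0 < k)
  set ℓ := Real.log n with hℓd
  set lt := Real.log (t : ℝ) with hlt
  set lk := Real.log (2 * (k : ℝ)) with hlkd
  have hlt0 : 0 ≤ lt := Real.log_nonneg (by exact_mod_cast (by omega : 1 ≤ t))
  have hltk : lt ≤ lk := by
    apply Real.log_le_log htpos
    have : t ≤ 2 * k := by omega
    exact_mod_cast this
  have hlk1 : 1 ≤ lk := by
    rw [hlkd, Real.le_log_iff_exp_le (by positivity)]
    have h1 := Real.exp_one_lt_d9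
    have h2 : (4 : ℝ) ≤ k := by exact_mod_cast hk4
    linarith
  have hexp : Real.exp (2 * ℓ) = (n : ℝ) ^ 2 := by
    rw [pow_eq_exp hnpos, ← hℓd]; norm_num
  have hnt1 : (n : ℝ) / t ≤ 3 / 2 * (D + 1) := by
    rw [div_le_iff₀ htpos]
    have : (2 * n : ℝ) ≤ 3 * t * (D + 1) := by exact_mod_cast f2.le
    linarith
  have hnt2 : 3 / 2 * (D : ℝ) ≤ n / t := by
    rw [le_div_iff₀ htpos]
    have : (3 * t * D : ℝ) ≤ 2 * n := by exact_mod_cast f1
    linarith
  have hG0 := GG_pos t n (by omega)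
  have hGup : GG t n ≤ Real.exp (lt + 3 / 2 * (D + 1) * ℓ) := by
    refine (GG_le t n (by omega) f13).trans ?_
    apply Real.exp_le_exp.2
    have := mul_le_mul_of_nonneg_right hnt1 (by linarith : 0 ≤ ℓ)
    linarith
  have hGlo : Real.exp (3 / 2 * D * (ℓ - 1)) ≤ GG t n := by
    refine le_trans ?_ (le_GG t n (by omega) f13)
    apply Real.exp_le_exp.2
    exact mul_le_mul_of_nonneg_right hnt2 (by linarith)
  have hE : (2 * (n : ℝ)) ^ 4 / GG t n ≤ Real.exp (4 * ℓ + 3 - 3 / 2 * D * (ℓ - 1)) := by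
    rw [Real.exp_sub, Real.exp_add]
    have h1 : (n : ℝ) ^ 4 = Real.exp (4 * ℓ) := by
      rw [pow_eq_exp hnpos, ← hℓd]; norm_num
    have h2 : (16 : ℝ) ≤ Real.exp 3 := by
      have h3 : Real.exp 3 = Real.exp 1 ^ 3 := by rw [← Real.exp_nat_mul]; norm_num
      have h4 : (2.7 : ℝ) ≤ Real.exp 1 := by have := Real.exp_one_gt_d9; linarith
      rw [h3]
      calc (16 : ℝ) ≤ 2.7 ^ 3 := by norm_num
        _ ≤ Real.exp 1 ^ 3 := by gcongr
    have h5 : (2 * (n : ℝ)) ^ 4 = Real.exp (4 * ℓ) * 16 := by rw [← h1]; ring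
    rw [h5]
    gcongr
  have hρ : ((3 : ℕ) : ℝ) ≤ Real.exp 2 := by
    have h1 : (2.7 : ℝ) ≤ Real.exp 1 := by have := Real.exp_one_gt_d9; linarith
    have h2 : Real.exp 2 = Real.exp 1 * Real.exp 1 := by rw [← Real.exp_add]; norm_num
    rw [h2]; push_cast; nlinarith
  have hYb := YL_bound t k D n (by omega) (by omega) f13 f8
  have hY1 : 1 ≤ YL t k D := by
    unfold YL
    have h0 : 0 < t := by omega
    have h1 : 0 < k := by omega
    have : 0 < (9 * D * 2 ^ k * t ^ (3 * D) * (2 * k) ^ D) ^ (303 * k) := by positivity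
    omega
  have hreal : ∀ s < j0, _ := fun s hs => local_real D k s S ℓ lt lk (by exact_mod_cast hk4)
    (by positivity : (0 : ℝ) ≤ (s : ℝ)) (by exact_mod_cast (by omega : s ≤ 2 * S)) (by exact_mod_cast f3)
    (by exact_mod_cast hDk) hℓ hlk hlk1 hlt0 hltk
  have hTr : (T : ℝ) = 3 * D - S := by rw [hT, Nat.cast_sub f7]; push_cast; ring
  have key := pattern_bound_gen t k 3 D T j0 (YL t k D) ht (by omega) (by norm_num) hD1 hY1 f5
    (YL_card t k D S T (by omega) (by omega) hD1 hT f7 f6) q he hq (fun _ => GG t n)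
    (fun _ => (2 * (n : ℝ)) ^ 4 / GG t n) {n} (by
      intro m hm
      rw [mem_singleton] at hm
      subst hm; exact f12) (fun _ _ => hG0) (by
      intro m hm
      rw [mem_singleton] at hm
      subst hm
      choose y hy0 hy using hnear
      refine ⟨y, fun i => (hy0 i).ne', fun i => ?_⟩
      rw [← GG_shift t m (q i) (by omega) f13]
      refine (hy i).trans ?_
      have h1 : ((m + t * q i : ℕ) : ℝ) ≤ 2 * m := by
        have := he i
        exact_mod_cast (by omega : m + t * q i ≤ 2 * m)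
      have h2 := GG_mono t m (m + t * q i) (by omega)
      have h3 := GG_pos t (m + t * q i) (by omega)
      gcongr) (by
      intro m hm s hs
      rw [mem_singleton] at hm
      subst hm
      apply numA_of t k 3 D T j0 m s _ _ 2 _ _ ℓ (2 * ℓ) f13 (by omega) (by omega) hρ hG0 hGup
        (by positivity) hYb
      · rw [hℓd, Real.exp_log hnpos]
        exact_mod_cast f9
      · rw [hexp]; exact_mod_cast f10
      · rw [hTr]
        exact (hreal s hs).1) (by
      intro m hm s hs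
      rw [mem_singleton] at hm
      subst hm
      apply numB_of t k 3 D T j0 m s _ _ 2 _ _ (2 * ℓ) f13 hρ (by positivity) hE
        (by positivity) hYb
      · rw [hexp]; exact_mod_cast f11
      · exact (hreal s hs).2)
  rw [card_singleton] at key
  omega

end Pool.Agent.H147
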