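import Pool.Agent.H147_fact.Asym

/-!
The sum of the factors is close to `t (n!) ^ (1 / t)`.
-/

namespace Pool.Agent.H147

open Finset Filter

theorem log_lower (u : ℝ) (h1 : -(1 / 2) ≤ u) : u - 2 * u ^ 2 ≤ Real.log (1 + u) := by
  have h2 : 0 < 1 + u := by linarith
  have h3 := Real.one_sub_inv_le_log_of_pos h2
  refine le_trans ?_ h3
  rw [le_sub_iff_add_le, ← sub_nonneg]
  have : 1 - (u - 2 * u ^ 2 + (1 + u)⁻¹) = u ^ 2 * (1 + 2 * u) / (1 + u) := by
    field_simp; ring
  rw [this]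
  apply div_nonneg _ h2.le
  apply mul_nonneg (sq_nonneg _); linarith

theorem near_core (n t : ℕ) (S : Finset ℕ) (ht : t = S.card) (ht1 : 1 ≤ t) (hn : 1 ≤ n)
    (hprod : ∏ a ∈ S, a = n.factorial)
    (hclose : ∀ a ∈ S, ∀ b ∈ S, (b : ℝ) - a ≤ n)
    (hbig : 2 * (n : ℝ) * t ≤ GG t n) (ht2 : 2 * (t : ℝ) ^ 2 ≤ (n : ℝ) ^ 2) : Near t n := by
  have htpos : (0 : ℝ) < t := by exact_mod_cast ht1
  have hnpos : (0 : ℝ) < n := by exact_mod_cast hn
  have h0S : ∀ a ∈ S, a ≠ 0 := by
    intro a ha h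
    subst h
    have : ∏ a ∈ S, a = 0 := prod_eq_zero ha rfl
    rw [hprod] at this
    exact Nat.factorial_ne_zero n this
  set y : ℝ := ∑ a ∈ S, (a : ℝ) with hy
  set μ : ℝ := y / t with hμ
  have htμ : t * μ = y := by rw [hμ]; field_simp
  have hdev : ∀ a ∈ S, |(a : ℝ) - μ| ≤ n := by
    intro a ha
    have h1 : t * ((a : ℝ) - μ) = ∑ b ∈ S, ((a : ℝ) - b) := by
      rw [sum_sub_distrib, sum_const, nsmul_eq_mul, ← ht, mul_sub, htμ]
    have h2 : |∑ b ∈ S, ((a : ℝ) - b)| ≤ t * n := by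
      refine (abs_sum_le_sum_abs _ _).trans ?_
      have : ∀ b ∈ S, |(a : ℝ) - b| ≤ n := by
        intro b hb
        rw [abs_le]
        constructor
        · have := hclose a ha b hb; linarith
        · have := hclose b hb a ha; linarith
      refine (sum_le_sum this).trans ?_
      rw [sum_const, nsmul_eq_mul, ← ht]
    rw [← h1, abs_mul, abs_of_pos htpos] at h2
    exact le_of_mul_le_mul_left h2 htpos
  have hlogfact : Real.log n.factorial = ∑ a ∈ S, Real.log a := by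
    rw [← hprod]
    push_cast
    rw [Real.log_prod]
    intro a ha
    exact_mod_cast h0S a ha
  have hapos : ∀ a ∈ S, (0 : ℝ) < a := by
    intro a ha
    exact_mod_cast Nat.pos_of_ne_zero (h0S a ha)
  have hSne : S.Nonempty := card_pos.1 (by omega)
  have hypos : 0 < y := sum_pos hapos hSne
  have hμpos : 0 < μ := by positivity
  have hsumdev : ∑ a ∈ S, ((a : ℝ) - μ) = 0 := by
    rw [sum_sub_distrib, sum_const, nsmul_eq_mul, ← ht, htμ, sub_self]
  have hfpos : (0 : ℝ) < n.factorial := by positivity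
  -- upper bound
  have hup : Real.log n.factorial ≤ t * Real.log μ := by
    have h1 : ∀ a ∈ S, Real.log a ≤ Real.log μ + ((a : ℝ) - μ) / μ := by
      intro a ha
      have h2 := Real.log_le_sub_one_of_pos (div_pos (hapos a ha) hμpos)
      rw [Real.log_div (hapos a ha).ne' hμpos.ne'] at h2
      have : (a : ℝ) / μ - 1 = ((a : ℝ) - μ) / μ := by field_simp
      linarith
    rw [hlogfact]
    refine (sum_le_sum h1).trans ?_
    rw [sum_add_distrib, ← sum_div, hsumdev, zero_div, add_zero, sum_const, nsmul_eq_mul, ← ht]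
  have hGpow : GG t n = t * Real.exp (Real.log n.factorial / t) := by
    unfold GG
    rw [Real.rpow_def_of_pos hfpos]
    congr 2; ring
  have hGy : GG t n ≤ y := by
    rw [hGpow, ← htμ]
    apply mul_le_mul_of_nonneg_left _ htpos.le
    calc Real.exp (Real.log n.factorial / t) ≤ Real.exp (Real.log μ) := by
          apply Real.exp_le_exp.2
          rw [div_le_iff₀ htpos]; linarith
      _ = μ := Real.exp_log hμpos
  have hμ2n : 2 * n ≤ μ := by
    have : 2 * (n : ℝ) * t ≤ μ * t := by rw [mul_comm μ]; linarith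
    exact le_of_mul_le_mul_right this htpos
  -- lower bound
  have hlo : t * (Real.log μ - 2 * n ^ 2 / μ ^ 2) ≤ Real.log n.factorial := by
    have h1 : ∀ a ∈ S, Real.log μ + ((a : ℝ) - μ) / μ - 2 * n ^ 2 / μ ^ 2 ≤ Real.log a := by
      intro a ha
      have hd := abs_le.1 (hdev a ha)
      have h2 := log_lower (((a : ℝ) - μ) / μ) (by
        rw [le_div_iff₀ hμpos]; linarith [hd.1])
      have h3 : 1 + ((a : ℝ) - μ) / μ = a / μ := by field_simp; ring
      rw [h3, Real.log_div (hapos a ha).ne' hμpos.ne'] at h2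
      have h4 : (((a : ℝ) - μ) / μ) ^ 2 ≤ n ^ 2 / μ ^ 2 := by
        rw [div_pow]
        apply div_le_div_of_nonneg_right _ (by positivity)
        exact sq_le_sq' (by linarith [hd.1]) hd.2
      have h5 : 2 * (n : ℝ) ^ 2 / μ ^ 2 = 2 * (n ^ 2 / μ ^ 2) := by ring
      rw [h5]; linarith
    rw [hlogfact]
    refine le_trans ?_ (sum_le_sum h1)
    rw [sum_sub_distrib, sum_add_distrib, ← sum_div, hsumdev, zero_div, add_zero, sum_const,
      sum_const, nsmul_eq_mul, nsmul_eq_mul, ← ht]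
    apply le_of_eq; ring
  have hGlo : y - 2 * t * n ^ 2 / μ ≤ GG t n := by
    rw [hGpow]
    have h1 : Real.log μ - 2 * n ^ 2 / μ ^ 2 ≤ Real.log n.factorial / t := by
      rw [le_div_iff₀ htpos]; linarith
    have h2 : μ * (1 - 2 * n ^ 2 / μ ^ 2) ≤ Real.exp (Real.log n.factorial / t) := by
      calc μ * (1 - 2 * n ^ 2 / μ ^ 2) ≤ μ * Real.exp (-(2 * n ^ 2 / μ ^ 2)) := by
            have := Real.add_one_le_exp (-(2 * n ^ 2 / μ ^ 2))
            apply mul_le_mul_of_nonneg_left _ hμpos.le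
            linarith
        _ = Real.exp (Real.log μ - 2 * n ^ 2 / μ ^ 2) := by
            rw [sub_eq_add_neg, Real.exp_add, Real.exp_log hμpos]
        _ ≤ _ := Real.exp_le_exp.2 h1
    have h3 : y - 2 * t * n ^ 2 / μ = t * (μ * (1 - 2 * n ^ 2 / μ ^ 2)) := by
      rw [← htμ]; field_simp
    rw [h3]
    gcongr
  have hG0 := GG_pos t n ht1
  refine ⟨((∑ a ∈ S, a : ℕ) : ℤ), ?_, ?_⟩
  · have : (0 : ℝ) < ((∑ a ∈ S, a : ℕ) : ℝ) := by push_cast; exact hypos
    exact_mod_cast this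
  · have hcast : ((((∑ a ∈ S, a : ℕ) : ℤ)) : ℝ) = y := by push_cast; rfl
    rw [hcast, abs_of_nonneg (by linarith)]
    have h1 : y - GG t n ≤ 2 * t * n ^ 2 / μ := by linarith
    refine h1.trans ?_
    rw [div_le_div_iff₀ hμpos hG0]
    calc 2 * (t : ℝ) * n ^ 2 * GG t n ≤ 2 * t * n ^ 2 * (t * μ) := by rw [htμ]; gcongr
      _ = (2 * t ^ 2) * n ^ 2 * μ := by ring
      _ ≤ n ^ 2 * n ^ 2 * μ := by gcongr
      _ = n ^ 4 * μ := by ring

theorem near_of_close : ∃ n0 : ℕ, ∀ n : ℕ, n0 ≤ n → ∀ S : Finset ℕ, ∏ a ∈ S, a = n.factorial →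
    2 ≤ S.card → (S.card : ℝ) ≤ 3 * Real.log n → (∀ a ∈ S, ∀ b ∈ S, (b : ℝ) - a ≤ n) →
    Near S.card n := by
  have h1 : ∀ᶠ x : ℝ in atTop, 2 ≤ Real.log x := Real.tendsto_log_atTop.eventually_ge_atTop 2
  have h2 : ∀ᶠ x : ℝ in atTop, 18 * Real.log x ^ 2 ≤ x := by
    have h4 : ∀ᶠ x : ℝ in atTop, ‖Real.log x ^ 2‖ ≤ (1 / 18) * ‖id x‖ :=
      (Real.isLittleO_pow_log_id_atTop (n := 2)).def (by norm_num)
    filter_upwards [h4, eventually_gt_atTop 0] with x h5 h6
    simp only [id, Real.norm_eq_abs, abs_of_pos h6] at h5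
    have h7 := le_abs_self (Real.log x ^ 2)
    linarith
  obtain ⟨n0, hn0⟩ := eventually_atTop.1 (h1.and h2).natCast_atTop
  refine ⟨max n0 10000, fun n hn S hprod hcard hcard2 hclose => ?_⟩
  obtain ⟨a1, a2⟩ := hn0 n (le_trans (le_max_left _ _) hn)
  have hn1 : 10000 ≤ n := le_trans (le_max_right _ _) hn
  have hn1' : (10000 : ℝ) ≤ n := by exact_mod_cast hn1
  have hnpos : (0 : ℝ) < n := by linarith
  set t := S.card with ht
  have htpos : (0 : ℝ) < t := by exact_mod_cast (by omega : 0 < t)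
  have hlogn : Real.log n ≤ n := (Real.log_le_sub_one_of_pos hnpos).trans (by linarith)
  apply near_core n t S ht (by omega) (by omega) hprod hclose
  · refine le_trans ?_ (le_GG t n (by omega) (by omega))
    have b1 : (n : ℝ) / 6 ≤ n / t * (Real.log n - 1) := by
      rw [div_mul_eq_mul_div, div_le_div_iff₀ (by norm_num) htpos]
      have : (t : ℝ) ≤ 6 * (Real.log n - 1) := by linarith
      nlinarith
    have b2 : (n / 6 : ℝ) ^ 3 / (Nat.factorial 3 : ℕ) ≤ Real.exp (n / 6) :=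
      Real.pow_div_factorial_le_exp _ (by positivity) 3
    have b3 : Real.exp (n / 6) ≤ Real.exp (n / t * (Real.log n - 1)) := Real.exp_le_exp.2 b1
    refine le_trans ?_ (b2.trans b3)
    have b4 : (Nat.factorial 3 : ℕ) = 6 := rfl
    rw [b4]
    push_cast
    have b5 : 2 * (n : ℝ) * t ≤ 6 * n * n := by
      have : (t : ℝ) ≤ 3 * n := by linarith
      nlinarith
    refine b5.trans ?_
    rw [le_div_iff₀ (by norm_num)]
    have : (n / 6 : ℝ) ^ 3 = n * n * n / 216 := by ring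
    rw [this]
    have : (10000 : ℝ) * (n * n) ≤ n * (n * n) := by
      apply mul_le_mul_of_nonneg_right hn1' (by positivity)
    nlinarith
  · have : (t : ℝ) ^ 2 ≤ (3 * Real.log n) ^ 2 := by gcongr
    nlinarith

end Pool.Agent.H147
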