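import Pool.Agent.H147_fact.Local
import Pool.Agent.H147_fact.NearS

/-!
Short windows contain few `n` for which `n!` has a factorisation with small spread.
-/

namespace Pool.Agent.H147

open Finset Filter

open Classical in
theorem class_card (n L t : ℕ) (ht : 2 ≤ t) (hℓ : 10000 ≤ Real.log n)
    (hL : 20000 * ((L : ℝ) * Real.log (2 * L)) ≤ Real.log n) (hn : 3000000 * L ^ 3 ≤ 2 * n) :
    ((Icc n (n + L)).filter (fun n' => Near t n')).card ≤ 2 * t := by
  have hn1 : 1 ≤ n := by
    rcases Nat.eq_zero_or_pos n with h | h
    · subst h; norm_num at hℓ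
    · exact h
  have hnpos : (0 : ℝ) < n := by exact_mod_cast hn1
  have h1 := Finset.card_le_mul_card_image_of_maps_to
    (s := (Icc n (n + L)).filter (fun n' => Near t n')) (t := range t) (f := fun n' => n' % t)
    (fun n' _ => mem_range.2 (Nat.mod_lt _ (by omega))) 2
    (fun b _ => by
      by_contra hcon
      push Not at hcon
      set F := ((Icc n (n + L)).filter (fun n' => Near t n')).filter (fun n' => n' % t = b) with hF
      obtain ⟨g, hg⟩ : ∃ g : Fin 3 ↪o ℕ, ∀ i, g i ∈ F :=
        ⟨F.orderEmbOfCardLe hcon, fun i => F.orderEmbOfCardLe_mem hcon i⟩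
      have hgF : ∀ i, (n ≤ g i ∧ g i ≤ n + L) ∧ Near t (g i) ∧ g i % t = b := by
        intro i
        have h2 := hg i
        rw [hF, mem_filter, mem_filter, mem_Icc] at h2
        exact ⟨h2.1.1, h2.1.2, h2.2⟩
      have hg0 : ∀ i, g 0 ≤ g i := fun i => g.monotone (Fin.zero_le i)
      have hdvd : ∀ i, t ∣ g i - g 0 := by
        intro i
        have h2 : g 0 % t = g i % t := by rw [(hgF 0).2.2, (hgF i).2.2]
        exact (Nat.modEq_iff_dvd' (hg0 i)).1 h2
      have hq : ∀ i, t * ((g i - g 0) / t) = g i - g 0 := fun i => Nat.mul_div_cancel' (hdvd i)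
      have h01 : g 0 < g 1 := g.strictMono (by decide)
      have h12 : g 1 < g 2 := g.strictMono (by decide)
      have h2t : 2 * t ≤ L := by
        have a1 : g 0 + t ≤ g 1 := by
          have := Nat.le_of_dvd (by omega) (hdvd 1)
          omega
        have a2 : g 0 + 2 * t ≤ g 2 := by
          obtain ⟨u, hu⟩ := hdvd 1
          obtain ⟨v, hv⟩ := hdvd 2
          have a3 : t * u < t * v := by omega
          have a4 : u < v := Nat.lt_of_mul_lt_mul_left a3
          have a5 : 0 < u := by
            rcases Nat.eq_zero_or_pos u with h | h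
            · subst h; omega
            · exact h
          have a6 : t * 2 ≤ t * v := Nat.mul_le_mul_left _ (by omega)
          omega
        have := (hgF 0).1.1
        have := (hgF 2).1.2
        omega
      have hle : Real.log n ≤ Real.log (g 0) :=
        Real.log_le_log hnpos (by exact_mod_cast (hgF 0).1.1)
      apply no_three (g 0) t L (fun i => (g i - g 0) / t) ht h2t
        (fun i => by
          rw [hq i]
          have := (hgF i).1.2
          have := (hgF 0).1.1
          omega)
        (by
          intro i j hij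
          have h3 : g i - g 0 = g j - g 0 := by
            rw [← hq i, ← hq j]
            have : (g i - g 0) / t = (g j - g 0) / t := hij
            rw [this]
          have := hg0 i
          have := hg0 j
          exact g.injective (by omega))
        (by linarith) (by linarith)
        (by
          rw [Nat.le_div_iff_mul_le (by omega)]
          have h3 := (hgF 0).1.1
          have h4 : 2000000 * L ^ 2 * (3 * t) ≤ 3000000 * L ^ 3 := by
            calc 2000000 * L ^ 2 * (3 * t) = 3000000 * L ^ 2 * (2 * t) := by ring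
              _ ≤ 3000000 * L ^ 2 * L := Nat.mul_le_mul_left _ h2t
              _ = 3000000 * L ^ 3 := by ring
          omega)
        (fun i => by
          show Near t (g 0 + t * ((g i - g 0) / t))
          rw [hq i]
          have h3 : g 0 + (g i - g 0) = g i := by have := hg0 i; omega
          rw [h3]
          exact (hgF i).2.1))
  rw [card_range] at h1
  exact h1

theorem sum_two_mul (m : ℕ) : ∑ t ∈ Icc 2 (m + 1), 2 * t = m ^ 2 + 3 * m := by
  induction m with
  | zero => simp
  | succ m ih =>
    rw [Finset.sum_Icc_succ_top (by omega), ih]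
    ring

theorem eventually_window : ∃ n0 : ℕ, ∀ n : ℕ, n0 ≤ n → 10000 ≤ Real.log n ∧
    1 ≤ Real.log (Real.log n) ∧ 3000000 * Real.log n ^ 3 ≤ 2 * n := by
  have hlog : Tendsto (fun n : ℕ => Real.log n) atTop atTop :=
    Real.tendsto_log_atTop.comp tendsto_natCast_atTop_atTop
  have h1 : ∀ᶠ n : ℕ in atTop, 10000 ≤ Real.log n := hlog.eventually_ge_atTop 10000
  have h2 : ∀ᶠ n : ℕ in atTop, 1 ≤ Real.log (Real.log n) :=
    (Real.tendsto_log_atTop.comp hlog).eventually_ge_atTop 1
  have h3 : ∀ᶠ x : ℝ in atTop, 3000000 * Real.log x ^ 3 ≤ 2 * x := by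
    have h4 : ∀ᶠ x : ℝ in atTop, ‖Real.log x ^ 3‖ ≤ (1 / 3000000) * ‖id x‖ :=
      (Real.isLittleO_pow_log_id_atTop (n := 3)).def (by norm_num)
    filter_upwards [h4, eventually_gt_atTop 0] with x h5 h6
    simp only [id, Real.norm_eq_abs, abs_of_pos h6] at h5
    have := le_abs_self (Real.log x ^ 3)
    linarith
  have h4 := h3.natCast_atTop
  obtain ⟨n0, hn0⟩ := eventually_atTop.1 (h1.and (h2.and h4))
  exact ⟨n0, fun n hn => hn0 n hn⟩

end Pool.Agent.H147
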