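import Pool.Agent.H147_fact.ConstNum
import Pool.Agent.H147_fact.Window

/-!
At most two close values in each residue class in a short window, with a constant factor.
-/

namespace Pool.Agent.H147

open Finset

theorem no_three_c (n t k : ℕ) (lam : ℝ) (hlam : 1 ≤ lam) (hkl : (t : ℝ) * lam ≤ 2 * k) (q : Fin 3 → ℕ) (ht : 2 ≤ t) (htk : 2 * t ≤ k) (he : ∀ i, t * q i ≤ k)
    (hq : Function.Injective q) (hℓ : 10000 ≤ Real.log n)
    (hlk : 20000 * ((k : ℝ) * Real.log (2 * k)) ≤ Real.log n)
    (hDk : 2000000 * k ^ 2 ≤ 2 * n / (3 * t)) (hnear : ∀ i, NearC lam t (n + t * q i)) : False := by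
  obtain ⟨D, hD⟩ : ∃ D, D = 2 * n / (3 * t) := ⟨_, rfl⟩
  obtain ⟨S, hS⟩ : ∃ S, S = D / (100 * k) := ⟨_, rfl⟩
  obtain ⟨T, hT⟩ : ∃ T, T = 3 * D - S := ⟨_, rfl⟩
  obtain ⟨j0, hj0⟩ : ∃ j0, j0 = S + 9 * k + 5 := ⟨_, rfl⟩
  rw [← hD] at hDk
  obtain ⟨f1, f2, f3, f4, f5, f6, f7, f8, f9, f10, f11, f12, f13⟩ :=
    local_nat n t k D S T j0 ht htk hD hS hT hj0 hDk
  have hk4 : 4 ≤ k := by omega
  have hD1 : 1 ≤ D := by
    have : 1 ≤ k ^ 2 := Nat.one_le_pow _ _ (by omega)
    omega
  have hnpos : (0 : ℝ) < n := by exact_mod_cast f13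
  have htpos : (0 : ℝ) < t := by exact_mod_cast (by omega : 0 < t)
  have hkpos : (0 : ℝ) < k := by exact_mod_cast (by omega : 0 < k)
  set ℓ := Real.log n with hℓd
  have hlam0 : 0 < lam := by linarith
  set lt := Real.log ((t : ℝ) * lam) with hlt
  set lk := Real.log (2 * (k : ℝ)) with hlkd
  have ht1 : (1 : ℝ) ≤ t := by exact_mod_cast (by omega : 1 ≤ t)
  have hlt0 : 0 ≤ lt := Real.log_nonneg (one_le_mul_of_one_le_of_one_le ht1 hlam)
  have hlt1 : Real.log t ≤ lt := by
    apply Real.log_le_log htpos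
    nlinarith
  have hltk : lt ≤ lk := Real.log_le_log (by positivity) hkl
  have hlk1 : 1 ≤ lk := by
    rw [hlkd, Real.le_log_iff_exp_le (by positivity)]
    have h1 := Real.exp_one_lt_d9
    have h2 : (4 : ℝ) ≤ k := by exact_mod_cast hk4
    linarith
  have hexp : Real.exp (2 * ℓ) = (n : ℝ) ^ 2 := by
    rw [pow_eq_exp hnpos, ← hℓd]; norm_num
  have hnt1 : (n : ℝ) / t ≤ 3 / 2 * (D + 1) := by
    rw [div_le_iff₀ htpos]
    have : (2 * n : ℝ) ≤ 3 * t * (D + 1) := by exact_mod_cast f2.le
    linarith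
  have hnt2 : 3 / 2 * (D : ℝ) ≤ n / t := by
    rw [le_div_iff₀ htpos]
    have : (3 * t * D : ℝ) ≤ 2 * n := by exact_mod_cast f1
    linarith
  have hG0 := GG_pos t n (by omega)
  have hGup : lam * GG t n ≤ Real.exp (lt + 3 / 2 * (D + 1) * ℓ) := by
    have h1 := GG_le t n (by omega) f13
    have h2 : lam * Real.exp (Real.log t + n / t * Real.log n) = Real.exp (lt + n / t * ℓ) := by
      rw [hlt, Real.log_mul htpos.ne' hlam0.ne', Real.exp_add, Real.exp_add, Real.exp_add,
        Real.exp_log hlam0, ← hℓd]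
      ring
    calc lam * GG t n ≤ lam * Real.exp (Real.log t + n / t * Real.log n) := by gcongr
      _ = Real.exp (lt + n / t * ℓ) := h2
      _ ≤ _ := by
        apply Real.exp_le_exp.2
        have := mul_le_mul_of_nonneg_right hnt1 (by linarith : 0 ≤ ℓ)
        linarith
  have hGlo : Real.exp (3 / 2 * D * (ℓ - 1)) ≤ GG t n := by
    refine le_trans ?_ (le_GG t n (by omega) f13)
    apply Real.exp_le_exp.2
    exact mul_le_mul_of_nonneg_right hnt2 (by linarith)
  have hE : (2 * (n : ℝ)) ^ 4 / GG t n ≤ Real.exp (4 * ℓ + 3 - 3 / 2 * D * (ℓ - 1)) := by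
    rw [Real.exp_sub, Real.exp_add]
    have h1 : (n : ℝ) ^ 4 = Real.exp (4 * ℓ) := by
      rw [pow_eq_exp hnpos, ← hℓd]; norm_num
    have h2 : (16 : ℝ) ≤ Real.exp 3 := by
      have h3 : Real.exp 3 = Real.exp 1 ^ 3 := by rw [← Real.exp_nat_mul]; norm_num
      have h4 : (2.7 : ℝ) ≤ Real.exp 1 := by have := Real.exp_one_gt_d9; linarith
      rw [h3]
      calc (16 : ℝ) ≤ 2.7 ^ 3 := by norm_num
        _ ≤ Real.exp 1 ^ 3 := by gcongr
    have h5 : (2 * (n : ℝ)) ^ 4 = Real.exp (4 * ℓ) * 16 := by rw [← h1]; ring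
    rw [h5]
    gcongr
  have hρ : ((3 : ℕ) : ℝ) ≤ Real.exp 2 := by
    have h1 : (2.7 : ℝ) ≤ Real.exp 1 := by have := Real.exp_one_gt_d9; linarith
    have h2 : Real.exp 2 = Real.exp 1 * Real.exp 1 := by rw [← Real.exp_add]; norm_num
    rw [h2]; push_cast; nlinarith
  have hYb : (YL t k D : ℝ) ≤ Real.exp (303 * k * (2 * ℓ + k + 3 * D * lt + D * lk)) := by
    refine (YL_bound t k D n (by omega) (by omega) f13 f8).trans ?_
    apply Real.exp_le_exp.2
    gcongr
  have hY1 : 1 ≤ YL t k D := by
    unfold YL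
    have h0 : 0 < t := by omega
    have h1 : 0 < k := by omega
    have : 0 < (9 * D * 2 ^ k * t ^ (3 * D) * (2 * k) ^ D) ^ (303 * k) := by positivity
    omega
  have hreal : ∀ s < j0, _ := fun s hs => local_real D k s S ℓ lt lk (by exact_mod_cast hk4)
    (by positivity : (0 : ℝ) ≤ (s : ℝ)) (by exact_mod_cast (by omega : s ≤ 2 * S)) (by exact_mod_cast f3)
    (by exact_mod_cast hDk) hℓ hlk hlk1 hlt0 hltk
  have hTr : (T : ℝ) = 3 * D - S := by rw [hT, Nat.cast_sub f7]; push_cast; ring
  have key := pattern_bound_gen t k 3 D T j0 (YL t k D) ht (by omega) (by norm_num) hD1 hY1 f5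
    (YL_card t k D S T (by omega) (by omega) hD1 hT f7 f6) q he hq (fun _ => lam * GG t n)
    (fun _ => (2 * (n : ℝ)) ^ 4 / GG t n) {n} (by
      intro m hm
      rw [mem_singleton] at hm
      subst hm; exact f12) (fun _ _ => mul_pos hlam0 hG0) (by
      intro m hm
      rw [mem_singleton] at hm
      subst hm
      choose y hy0 hy using hnear
      refine ⟨y, fun i => (hy0 i).ne', fun i => ?_⟩
      have h0 : lam * GG t m * (m : ℝ) ^ (q i) * ((Pp (t * q i)).eval (1 / (m : ℝ))) ^ (1 / (t : ℝ))
          = lam * GG t (m + t * q i) := by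
        rw [GG_shift t m (q i) (by omega) f13]; ring
      rw [h0]
      refine (hy i).trans ?_
      have h1 : ((m + t * q i : ℕ) : ℝ) ≤ 2 * m := by
        have := he i
        exact_mod_cast (by omega : m + t * q i ≤ 2 * m)
      have h2 := GG_mono t m (m + t * q i) (by omega)
      have h3 := GG_pos t (m + t * q i) (by omega)
      gcongr) (by
      intro m hm s hs
      rw [mem_singleton] at hm
      subst hm
      apply numA_of t k 3 D T j0 m s _ _ 2 _ _ ℓ (2 * ℓ) f13 (by omega) (by omega) hρ (mul_pos hlam0 hG0) hGup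
        (by positivity) hYb
      · rw [hℓd, Real.exp_log hnpos]
        exact_mod_cast f9
      · rw [hexp]; exact_mod_cast f10
      · rw [hTr]
        exact (hreal s hs).1) (by
      intro m hm s hs
      rw [mem_singleton] at hm
      subst hm
      apply numB_of t k 3 D T j0 m s _ _ 2 _ _ (2 * ℓ) f13 hρ (by positivity) hE
        (by positivity) hYb
      · rw [hexp]; exact_mod_cast f11
      · exact (hreal s hs).2)
  rw [card_singleton] at key
  omega

open Classical in
theorem class_card_c (n L t : ℕ) (lam : ℝ) (hlam : 1 ≤ lam) (hLl : (t : ℝ) * lam ≤ 2 * L) (ht : 2 ≤ t) (hℓ : 10000 ≤ Real.log n)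
    (hL : 20000 * ((L : ℝ) * Real.log (2 * L)) ≤ Real.log n) (hn : 3000000 * L ^ 3 ≤ 2 * n) :
    ((Icc n (n + L)).filter (fun n' => NearC lam t n')).card ≤ 2 * t := by
  have hn1 : 1 ≤ n := by
    rcases Nat.eq_zero_or_pos n with h | h
    · subst h; norm_num at hℓ
    · exact h
  have hnpos : (0 : ℝ) < n := by exact_mod_cast hn1
  have h1 := Finset.card_le_mul_card_image_of_maps_to
    (s := (Icc n (n + L)).filter (fun n' => NearC lam t n')) (t := range t) (f := fun n' => n' % t)
    (fun n' _ => mem_range.2 (Nat.mod_lt _ (by omega))) 2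
    (fun b _ => by
      by_contra hcon
      push Not at hcon
      set F := ((Icc n (n + L)).filter (fun n' => NearC lam t n')).filter (fun n' => n' % t = b) with hF
      obtain ⟨g, hg⟩ : ∃ g : Fin 3 ↪o ℕ, ∀ i, g i ∈ F :=
        ⟨F.orderEmbOfCardLe hcon, fun i => F.orderEmbOfCardLe_mem hcon i⟩
      have hgF : ∀ i, (n ≤ g i ∧ g i ≤ n + L) ∧ NearC lam t (g i) ∧ g i % t = b := by
        intro i
        have h2 := hg i
        rw [hF, mem_filter, mem_filter, mem_Icc] at h2
        exact ⟨h2.1.1, h2.1.2, h2.2⟩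
      have hg0 : ∀ i, g 0 ≤ g i := fun i => g.monotone (Fin.zero_le i)
      have hdvd : ∀ i, t ∣ g i - g 0 := by
        intro i
        have h2 : g 0 % t = g i % t := by rw [(hgF 0).2.2, (hgF i).2.2]
        exact (Nat.modEq_iff_dvd' (hg0 i)).1 h2
      have hq : ∀ i, t * ((g i - g 0) / t) = g i - g 0 := fun i => Nat.mul_div_cancel' (hdvd i)
      have h01 : g 0 < g 1 := g.strictMono (by decide)
      have h12 : g 1 < g 2 := g.strictMono (by decide)
      have h2t : 2 * t ≤ L := by
        have a1 : g 0 + t ≤ g 1 := by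
          have := Nat.le_of_dvd (by omega) (hdvd 1)
          omega
        have a2 : g 0 + 2 * t ≤ g 2 := by
          obtain ⟨u, hu⟩ := hdvd 1
          obtain ⟨v, hv⟩ := hdvd 2
          have a3 : t * u < t * v := by omega
          have a4 : u < v := Nat.lt_of_mul_lt_mul_left a3
          have a5 : 0 < u := by
            rcases Nat.eq_zero_or_pos u with h | h
            · subst h; omega
            · exact h
          have a6 : t * 2 ≤ t * v := Nat.mul_le_mul_left _ (by omega)
          omega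
        have := (hgF 0).1.1
        have := (hgF 2).1.2
        omega
      have hle : Real.log n ≤ Real.log (g 0) :=
        Real.log_le_log hnpos (by exact_mod_cast (hgF 0).1.1)
      apply no_three_c (g 0) t L lam hlam hLl (fun i => (g i - g 0) / t) ht h2t
        (fun i => by
          rw [hq i]
          have := (hgF i).1.2
          have := (hgF 0).1.1
          omega)
        (by
          intro i j hij
          have h3 : g i - g 0 = g j - g 0 := by
            rw [← hq i, ← hq j]
            have : (g i - g 0) / t = (g j - g 0) / t := hij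
            rw [this]
          have := hg0 i
          have := hg0 j
          exact g.injective (by omega))
        (by linarith) (by linarith)
        (by
          rw [Nat.le_div_iff_mul_le (by omega)]
          have h3 := (hgF 0).1.1
          have h4 : 2000000 * L ^ 2 * (3 * t) ≤ 3000000 * L ^ 3 := by
            calc 2000000 * L ^ 2 * (3 * t) = 3000000 * L ^ 2 * (2 * t) := by ring
              _ ≤ 3000000 * L ^ 2 * L := Nat.mul_le_mul_left _ h2t
              _ = 3000000 * L ^ 3 := by ring
          omega)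
        (fun i => by
          show NearC lam t (g 0 + t * ((g i - g 0) / t))
          rw [hq i]
          have h3 : g 0 + (g i - g 0) = g i := by have := hg0 i; omega
          rw [h3]
          exact (hgF i).2.1))
  rw [card_range] at h1
  exact h1

end Pool.Agent.H147
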