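import Pool.Agent.H147_fact.NumG

/-!
The numerical conditions for three functions and a single point, in short windows.
-/

namespace Pool.Agent.H147

open Finset

theorem local_real (D k s S ℓ lt lk : ℝ) (hk4 : 4 ≤ k) (hs0 : 0 ≤ s) (hsS : s ≤ 2 * S)
    (hSD : 100 * k * S ≤ D) (hDk : 2000000 * k ^ 2 ≤ D) (hℓ : 10000 ≤ ℓ)
    (hlk : 20000 * (k * lk) ≤ ℓ) (hlk1 : 1 ≤ lk) (hlt0 : 0 ≤ lt) (hlt : lt ≤ lk) :
    ((D + s * k + k) * ℓ + ((lt + 3 / 2 * (D + 1) * ℓ) + ((2 + 303 * k * (2 * ℓ + k + 3 * D * lt + D * lk)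
      + k + ℓ + (3 * D - S) * lk) + s * (2 * ℓ) + (-((3 * D - S) - s) * ℓ) + (2 + s * (k + 1)))) ≤ -1) ∧
    ((D + s * k + k) * ℓ + (2 + ((303 * k * (2 * ℓ + k + 3 * D * lt + D * lk) + s * (2 * ℓ)
      + (1 + s * (k + 1))) + (4 * ℓ + 3 - 3 / 2 * D * (ℓ - 1)))) ≤ -1) := by
  have hk0 : 0 ≤ k := by linarith
  have hℓ0 : 0 ≤ ℓ := by linarith
  have hS0 : 0 ≤ S := by linarith
  have hkk : 4 * k ≤ k ^ 2 := by nlinarith
  have hD1 : 2000000 * (4 * k) ≤ D := by linarith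
  have hD0 : 32000000 ≤ D := by linarith
  have hD00 : 0 ≤ D := by linarith
  obtain ⟨P, hP⟩ : ∃ P, P = D * ℓ := ⟨_, rfl⟩
  have hkS : 0 ≤ k * S := mul_nonneg hk0 hS0
  have hsk : s * k ≤ D / 50 := by
    have : s * k ≤ (2 * S) * k := mul_le_mul_of_nonneg_right hsS hk0
    linarith
  have hsk0 : 0 ≤ s * k := mul_nonneg hs0 hk0
  have hs4 : s ≤ D / 200 := by
    have : s * 4 ≤ s * k := mul_le_mul_of_nonneg_left hk4 hs0
    linarith
  have hS4 : S ≤ D / 400 := by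
    have : 4 * S ≤ k * S := mul_le_mul_of_nonneg_right hk4 hS0
    linarith
  have e1 : s * k * ℓ ≤ P / 50 := by
    have := mul_le_mul_of_nonneg_right hsk hℓ0
    rw [hP]; linarith
  have e2 : k * ℓ ≤ P / 8000000 := by
    have : k ≤ D / 8000000 := by linarith
    have := mul_le_mul_of_nonneg_right this hℓ0
    rw [hP]; linarith
  have e3 : s * ℓ ≤ P / 200 := by
    have := mul_le_mul_of_nonneg_right hs4 hℓ0
    rw [hP]; linarith
  have e3' : S * ℓ ≤ P / 400 := by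
    have := mul_le_mul_of_nonneg_right hS4 hℓ0
    rw [hP]; linarith
  have e4 : D * (k * lk) ≤ P / 20000 := by
    have : k * lk ≤ ℓ / 20000 := by linarith
    have := mul_le_mul_of_nonneg_left this hD00
    rw [hP]; linarith
  have e4' : D * (k * lt) ≤ P / 20000 := by
    refine le_trans ?_ e4
    gcongr
  have hlk0 : 0 ≤ lk := by linarith
  have hlkℓ : 4 * lk ≤ ℓ / 20000 := by
    have : 4 * lk ≤ k * lk := mul_le_mul_of_nonneg_right hk4 hlk0
    linarith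
  have e5 : D * lk ≤ P / 80000 := by
    have := mul_le_mul_of_nonneg_left hlkℓ hD00
    rw [hP]; linarith
  have e5' : 0 ≤ S * lk := mul_nonneg hS0 hlk0
  have e6 : k * k ≤ D / 2000000 := by nlinarith
  have e7 : D ≤ P / 10000 := by
    have := mul_le_mul_of_nonneg_left hℓ hD00
    rw [hP]; linarith
  have e8 : ℓ ≤ P / 32000000 := by
    have := mul_le_mul_of_nonneg_right hD0 hℓ0
    rw [hP]; linarith
  have e9 : lt ≤ ℓ := by linarith
  have hP0 : 320000000000 ≤ P := by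
    have := mul_le_mul hD0 hℓ (by norm_num) hD00
    rw [hP]; linarith
  constructor
  · have expand : (D + s * k + k) * ℓ + ((lt + 3 / 2 * (D + 1) * ℓ) + ((2 + 303 * k * (2 * ℓ + k + 3 * D * lt + D * lk)
      + k + ℓ + (3 * D - S) * lk) + s * (2 * ℓ) + (-((3 * D - S) - s) * ℓ) + (2 + s * (k + 1))))
      = -(1 / 2) * (D * ℓ) + s * k * ℓ + k * ℓ + lt + 3 / 2 * ℓ + 4 + 606 * (k * ℓ) + 303 * (k * k)
        + 909 * (D * (k * lt)) + 303 * (D * (k * lk)) + k + ℓ + 3 * (D * lk) - S * lk + 3 * (s * ℓ)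
        + S * ℓ + s * k + s := by ring
    rw [expand, ← hP]
    linarith
  · have expand : (D + s * k + k) * ℓ + (2 + ((303 * k * (2 * ℓ + k + 3 * D * lt + D * lk) + s * (2 * ℓ)
      + (1 + s * (k + 1))) + (4 * ℓ + 3 - 3 / 2 * D * (ℓ - 1))))
      = -(1 / 2) * (D * ℓ) + s * k * ℓ + k * ℓ + 6 + 606 * (k * ℓ) + 303 * (k * k)
        + 909 * (D * (k * lt)) + 303 * (D * (k * lk)) + 2 * (s * ℓ) + s * k + s + 4 * ℓ + 3 / 2 * D := by ring
    rw [expand, ← hP]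
    linarith

theorem local_nat (n t k D S T j0 : ℕ) (ht : 2 ≤ t) (htk : 2 * t ≤ k) (hD : D = 2 * n / (3 * t))
    (hS : S = D / (100 * k)) (hT : T = 3 * D - S) (hj0 : j0 = S + 9 * k + 5)
    (hDk : 2000000 * k ^ 2 ≤ D) :
    3 * t * D ≤ 2 * n ∧ 2 * n < 3 * t * (D + 1) ∧ 100 * k * S ≤ D ∧ j0 ≤ 2 * S ∧ j0 ≤ T ∧
      3 * D ≤ 303 * k * S ∧ S ≤ 3 * D ∧ 9 * D ≤ n ^ 2 ∧ T + 1 ≤ n ∧ t * MMg k T j0 ≤ n ^ 2 ∧
      t * (2 * k) * MMg k T j0 ≤ n ^ 2 ∧ 4 * k ≤ n ∧ 1 ≤ n := by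
  have hk4 : 4 ≤ k := by omega
  have h3t : 0 < 3 * t := by omega
  have hF1 : 3 * t * D ≤ 2 * n := by rw [hD]; exact Nat.mul_div_le _ _
  have hF2 : 2 * n < 3 * t * (D + 1) := by rw [hD]; exact Nat.lt_mul_div_succ _ h3t
  have h100 : 0 < 100 * k := by omega
  have hF3 : 100 * k * S ≤ D := by rw [hS]; exact Nat.mul_div_le _ _
  have hF4 : D < 100 * k * (S + 1) := by rw [hS]; exact Nat.lt_mul_div_succ _ h100
  have hkk : k * 4 ≤ k ^ 2 := by rw [pow_two]; exact Nat.mul_le_mul_left _ hk4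
  have hSk : 20000 * k ≤ S + 1 := by
    by_contra hcon
    push Not at hcon
    have h1 : 100 * k * (S + 1) ≤ 100 * k * (20000 * k) := Nat.mul_le_mul_left _ hcon.le
    have h2 : 100 * k * (20000 * k) = 2000000 * k ^ 2 := by ring
    omega
  have hj : j0 ≤ 2 * S := by omega
  have hSD : 400 * S ≤ D := by
    have : 4 * S ≤ k * S := Nat.mul_le_mul_right _ hk4
    have h2 : 100 * k * S = 100 * (k * S) := by ring
    omega
  have hjT : j0 ≤ T := by omega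
  have hc1 : 3 * D ≤ 303 * k * S := by
    have h1 : 100 * k * (S + 1) = 100 * k * S + 100 * k := by ring
    have h2 : 303 * k * S = 300 * k * S + 3 * (k * S) := by ring
    have h3 : 300 * k * S = 3 * (100 * k * S) := by ring
    have h4 : 100 * k ≤ k * S := by
      calc 100 * k = k * 100 := by ring
        _ ≤ k * S := Nat.mul_le_mul_left _ (by omega)
    omega
  have htD : 2 * D ≤ t * D := Nat.mul_le_mul_right _ ht
  have h6 : 3 * t * D = 3 * (t * D) := by ring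
  have h3D : 3 * D ≤ n := by omega
  have hn1 : 1000000 ≤ n := by omega
  have hnn : 1000000 * n ≤ n ^ 2 := by rw [pow_two]; exact Nat.mul_le_mul_right _ hn1
  have hMM : MMg k T j0 ≤ 4 * D := by
    unfold MMg
    have h1 : (j0 + 1) * (k + 1) ≤ (2 * S + 1) * (2 * k) := Nat.mul_le_mul (by omega) (by omega)
    have h2 : (2 * S + 1) * (2 * k) * 25 = 100 * k * S + 50 * k := by ring
    omega
  have htMM : t * MMg k T j0 ≤ 3 * n := by
    have h1 : t * MMg k T j0 ≤ t * (4 * D) := Nat.mul_le_mul_left _ hMM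
    have h2 : t * (4 * D) = 4 * (t * D) := by ring
    omega
  refine ⟨hF1, hF2, hF3, hj, hjT, hc1, by omega, by omega, by omega, by omega, ?_, by omega, by omega⟩
  calc t * (2 * k) * MMg k T j0 = 2 * k * (t * MMg k T j0) := by ring
    _ ≤ 2 * k * (3 * n) := Nat.mul_le_mul_left _ htMM
    _ = 6 * k * n := by ring
    _ ≤ n * n := Nat.mul_le_mul_right _ (by omega)
    _ = n ^ 2 := by ring

/-- the size parameter of the auxiliary polynomials -/
def YL (t k D : ℕ) : ℕ := (9 * D * 2 ^ k * t ^ (3 * D) * (2 * k) ^ D) ^ (303 * k)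

theorem YL_card (t k D S T : ℕ) (ht : 1 ≤ t) (hk : 1 ≤ k) (hD : 1 ≤ D) (hT : T = 3 * D - S) (hSD : S ≤ 3 * D)
    (hc : 3 * D ≤ 303 * k * S) :
    (3 * (3 * D) * YL t k D * 2 ^ k) ^ T * (t ^ 2 * (2 * k)) ^ (T * (T - 1) / 2)
      ≤ (YL t k D ^ D * (2 * k) ^ (D * (D - 1) / 2)) ^ 3 := by
  set Y := YL t k D with hY
  set κ := 2 * k with hκ
  have hκ1 : 1 ≤ κ := by omega
  obtain ⟨a, ha⟩ : ∃ a, D * (D - 1) = 2 * a := by
    have := Nat.even_mul_pred_self D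
    obtain ⟨a, ha⟩ := this
    exact ⟨a, by omega⟩
  obtain ⟨b, hb⟩ : ∃ b, T * (T - 1) = 2 * b := by
    have := Nat.even_mul_pred_self T
    obtain ⟨b, hb⟩ := this
    exact ⟨b, by omega⟩
  have ha2 : D * (D - 1) / 2 = a := by omega
  have hb2 : T * (T - 1) / 2 = b := by omega
  rw [ha2, hb2]
  have hT3 : T ≤ 3 * D := by omega
  have hTb : b ≤ 3 * D ^ 2 + 3 * a := by
    obtain ⟨c, rfl⟩ : ∃ c, D = c + 1 := ⟨D - 1, by omega⟩
    have h1 : T * (T - 1) ≤ (3 * (c + 1)) * (3 * (c + 1) - 1) := Nat.mul_le_mul hT3 (by omega)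
    have h2 : (3 * (c + 1)) * (3 * (c + 1) - 1) = 9 * c ^ 2 + 15 * c + 6 := by
      have : 3 * (c + 1) - 1 = 3 * c + 2 := by omega
      rw [this]; ring
    have h3 : (c + 1) * (c + 1 - 1) = c ^ 2 + c := by
      have : c + 1 - 1 = c := by omega
      rw [this]; ring
    have h4 : 3 * (c + 1) ^ 2 = 3 * c ^ 2 + 6 * c + 3 := by ring
    omega
  have hTb2 : 2 * b ≤ 9 * D ^ 2 := by
    have h1 : T * (T - 1) ≤ (3 * D) * (3 * D) := Nat.mul_le_mul hT3 (by omega)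
    have h2 : (3 * D) * (3 * D) = 9 * D ^ 2 := by ring
    omega
  set P := 9 * D * 2 ^ k with hP
  have hP1 : 1 ≤ P := by
    have : 0 < 9 * D * 2 ^ k := by positivity
    omega
  have hbase : 1 ≤ P * t ^ (3 * D) * κ ^ D := by
    have : 0 < P * t ^ (3 * D) * κ ^ D := by positivity
    omega
  have hYS : P ^ (3 * D) * t ^ (9 * D ^ 2) * κ ^ (3 * D ^ 2) ≤ Y ^ S := by
    have h1 : Y ^ S = (P * t ^ (3 * D) * κ ^ D) ^ (303 * k * S) := by
      rw [hY, YL, ← pow_mul]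
    rw [h1]
    calc P ^ (3 * D) * t ^ (9 * D ^ 2) * κ ^ (3 * D ^ 2) = (P * t ^ (3 * D) * κ ^ D) ^ (3 * D) := by
          rw [mul_pow (P * t ^ (3 * D)), mul_pow P, ← pow_mul t, ← pow_mul κ]
          congr 2
          · congr 1; ring
          · ring
      _ ≤ _ := Nat.pow_le_pow_right hbase hc
  have hl : (3 * (3 * D) * Y * 2 ^ k) ^ T * (t ^ 2 * κ) ^ b = Y ^ T * (P ^ T * t ^ (2 * b) * κ ^ b) := by
    have : 3 * (3 * D) * Y * 2 ^ k = Y * P := by rw [hP]; ring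
    rw [this, mul_pow Y P, mul_pow (t ^ 2) κ, ← pow_mul t 2]; ring
  have hr : (Y ^ D * κ ^ a) ^ 3 = Y ^ T * (Y ^ S * κ ^ (3 * a)) := by
    have : Y ^ T * Y ^ S = Y ^ (3 * D) := by rw [← pow_add]; congr 1; omega
    rw [← mul_assoc, this, mul_pow (Y ^ D), ← pow_mul Y, ← pow_mul κ]
    congr 2
    · ring
    · ring
  rw [hl, hr]
  apply Nat.mul_le_mul_left
  calc P ^ T * t ^ (2 * b) * κ ^ b ≤ P ^ (3 * D) * t ^ (9 * D ^ 2) * κ ^ (3 * D ^ 2 + 3 * a) := by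
        apply Nat.mul_le_mul
        · apply Nat.mul_le_mul
          · exact Nat.pow_le_pow_right hP1 hT3
          · exact Nat.pow_le_pow_right ht hTb2
        · exact Nat.pow_le_pow_right hκ1 hTb
    _ = (P ^ (3 * D) * t ^ (9 * D ^ 2) * κ ^ (3 * D ^ 2)) * κ ^ (3 * a) := by rw [pow_add]; ring
    _ ≤ Y ^ S * κ ^ (3 * a) := Nat.mul_le_mul_right _ hYS

theorem YL_bound (t k D n : ℕ) (ht : 1 ≤ t) (hk : 1 ≤ k) (hn : 1 ≤ n) (h9 : 9 * D ≤ n ^ 2) :
    (YL t k D : ℝ) ≤ Real.exp (303 * k * (2 * Real.log n + k + 3 * D * Real.log t + D * Real.log (2 * k))) := by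
  have ht0 : (0 : ℝ) < t := by exact_mod_cast ht
  have hk0 : (0 : ℝ) < k := by exact_mod_cast hk
  have hn0 : (0 : ℝ) < n := by exact_mod_cast hn
  have h1 : (9 * (D : ℝ) * 2 ^ k * (t : ℝ) ^ (3 * D) * (2 * (k : ℝ)) ^ D)
      ≤ Real.exp (2 * Real.log n + k + 3 * D * Real.log t + D * Real.log (2 * k)) := by
    rw [Real.exp_add, Real.exp_add, Real.exp_add]
    have a1 : (9 * (D : ℝ)) ≤ Real.exp (2 * Real.log n) := by
      have h2 : Real.exp (2 * Real.log n) = (n : ℝ) ^ 2 := by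
        rw [pow_eq_exp hn0]; norm_num
      rw [h2]; exact_mod_cast h9
    have a2 := two_pow_le_exp k
    have a3 : (t : ℝ) ^ (3 * D) = Real.exp (3 * D * Real.log t) := by
      rw [pow_eq_exp ht0]; push_cast; ring_nf
    have a4 : (2 * (k : ℝ)) ^ D = Real.exp (D * Real.log (2 * k)) := by
      rw [pow_eq_exp (by positivity)]
    rw [a3, a4]
    gcongr
  have h2 : (YL t k D : ℝ) = (9 * (D : ℝ) * 2 ^ k * (t : ℝ) ^ (3 * D) * (2 * (k : ℝ)) ^ D) ^ (303 * k) := by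
    unfold YL; push_cast; ring
  rw [h2]
  have h3 : Real.exp (303 * k * (2 * Real.log n + k + 3 * D * Real.log t + D * Real.log (2 * k)))
      = Real.exp (2 * Real.log n + k + 3 * D * Real.log t + D * Real.log (2 * k)) ^ (303 * k) := by
    rw [← Real.exp_nat_mul]; push_cast; ring_nf
  rw [h3]
  exact pow_le_pow_left₀ (by positivity) h1 _

end Pool.Agent.H147
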