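import Pool.Agent.H147_fact.Val

/-!
Factorisations of `n!` with many factors have a large spread.
-/

namespace Pool.Agent.H147

open Finset Filter

theorem totient_small (ρ : ℝ) (hρ : 0 < ρ) : ∃ P : ℕ, P ≠ 0 ∧ (P.totient : ℝ) ≤ ρ * P := by
  classical
  have h1 := (not_summable_iff_tendsto_nat_atTop_of_nonneg (fun n => by
    by_cases h : n ∈ {p : ℕ | Nat.Prime p}
    · rw [Set.indicator_of_mem h]; positivity
    · rw [Set.indicator_of_notMem h])).1 not_summable_one_div_on_primes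
  obtain ⟨z, hz⟩ := (h1.eventually_ge_atTop (- Real.log ρ)).exists
  have hpr : ∀ p ∈ Nat.primesBelow z, Nat.Prime p := fun p hp => (Nat.mem_primesBelow.1 hp).2
  set P := ∏ p ∈ Nat.primesBelow z, p with hP
  have hP0 : P ≠ 0 := by
    rw [hP, Finset.prod_ne_zero_iff]
    exact fun p hp => (hpr p hp).ne_zero
  refine ⟨P, hP0, ?_⟩
  have h2 := Nat.totient_eq_mul_prod_factors P
  have h3 : (P.totient : ℝ) = P * ∏ p ∈ Nat.primesBelow z, (1 - (p : ℝ)⁻¹) := by
    have h4 : ((P.totient : ℚ) : ℝ) = ((P * ∏ p ∈ P.primeFactors, (1 - (p : ℚ)⁻¹) : ℚ) : ℝ) := by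
      exact_mod_cast congrArg (fun x : ℚ => (x : ℝ)) h2
    rw [Nat.primeFactors_prod hpr] at h4
    push_cast at h4
    exact h4
  have h5 : ∏ p ∈ Nat.primesBelow z, (1 - (p : ℝ)⁻¹) ≤ ρ := by
    calc ∏ p ∈ Nat.primesBelow z, (1 - (p : ℝ)⁻¹)
        ≤ ∏ p ∈ Nat.primesBelow z, Real.exp (-(p : ℝ)⁻¹) := by
          apply Finset.prod_le_prod
          · intro p hp
            have h6 : (1 : ℝ) ≤ p := by exact_mod_cast (hpr p hp).one_le
            have : (p : ℝ)⁻¹ ≤ 1 := inv_le_one_of_one_le₀ h6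
            linarith
          · intro p _
            have := Real.add_one_le_exp (-(p : ℝ)⁻¹)
            linarith
      _ = Real.exp (- ∑ p ∈ Nat.primesBelow z, (p : ℝ)⁻¹) := by
          rw [← Real.exp_sum, Finset.sum_neg_distrib]
      _ ≤ Real.exp (Real.log ρ) := by
          apply Real.exp_le_exp.2
          have h7 : ∑ i ∈ range z, {p : ℕ | Nat.Prime p}.indicator (fun n : ℕ => 1 / (n : ℝ)) i
              = ∑ p ∈ Nat.primesBelow z, (p : ℝ)⁻¹ := by
            rw [Nat.primesBelow, Finset.sum_filter]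
            apply sum_congr rfl
            intro i _
            simp [Set.indicator_apply]
          rw [h7] at hz
          linarith
      _ = ρ := Real.exp_log hρ
  rw [h3, mul_comm]
  gcongr

theorem logb_B_le (n A B t : ℕ) (S : Finset ℕ) (hA : 1 ≤ A) (hAB : A ≤ B) (hS : S ⊆ Icc A B)
    (ht : t = S.card) (ht1 : 1 ≤ t)
    (hprod : ∏ a ∈ S, a = n.factorial) (hm : B + 1 - A ≤ n) :
    (Nat.log 2 B : ℝ) ≤ n * Real.logb 2 n / t + 1 := by
  have hn1 : 1 ≤ n := by omega
  have hnpos : (0 : ℝ) < n := by exact_mod_cast hn1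
  have htpos : (0 : ℝ) < t := by exact_mod_cast ht1
  have hApos : (0 : ℝ) < A := by exact_mod_cast hA
  have hBpos : (0 : ℝ) < B := by exact_mod_cast (by omega : 0 < B)
  have htn : t ≤ n := by
    rw [ht]
    calc S.card ≤ (Icc A B).card := card_le_card hS
      _ = B + 1 - A := Nat.card_Icc A B
      _ ≤ n := hm
  set ℓ := Real.logb 2 n with hℓ
  have hℓ0 : 0 ≤ ℓ := Real.logb_nonneg (by norm_num) (by exact_mod_cast hn1)
  set α := n * ℓ / t with hα
  have hℓα : ℓ ≤ α := by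
    rw [hα, le_div_iff₀ htpos, mul_comm]
    have : (t : ℝ) ≤ n := by exact_mod_cast htn
    gcongr
  have hAα : Real.logb 2 A ≤ α := by
    rw [hα, le_div_iff₀ htpos]
    have h1 : A ^ t ≤ n ^ n := by
      calc A ^ t ≤ ∏ a ∈ S, a := by
            rw [ht]
            exact Finset.pow_card_le_prod S (fun a => a) A (fun a ha => by
              have := hS ha; rw [mem_Icc] at this; exact this.1)
        _ = n.factorial := hprod
        _ ≤ n ^ n := Nat.factorial_le_pow n
    have h2 : (A : ℝ) ^ t ≤ (n : ℝ) ^ n := by exact_mod_cast h1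
    have h3 := Real.logb_le_logb_of_le (b := 2) (by norm_num) (by positivity) h2
    rw [Real.logb_pow, Real.logb_pow] at h3
    linarith
  have h1 : (n : ℝ) ≤ (2 : ℝ) ^ α := by
    rw [← Real.logb_le_iff_le_rpow (by norm_num) hnpos]; exact hℓα
  have h2 : (A : ℝ) ≤ (2 : ℝ) ^ α := by
    rw [← Real.logb_le_iff_le_rpow (by norm_num) hApos]; exact hAα
  have h3 : (B : ℝ) ≤ (2 : ℝ) ^ (α + 1) := by
    rw [Real.rpow_add (by norm_num), Real.rpow_one]
    have : (B : ℝ) ≤ A + n := by exact_mod_cast (by omega : B ≤ A + n)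
    linarith
  have h4 : Real.logb 2 B ≤ α + 1 := by
    rw [Real.logb_le_iff_le_rpow (by norm_num) hBpos]; exact h3
  have h5 := Real.natLog_le_logb B 2
  push_cast at h5
  linarith

theorem eventually_many (ε η ρ c : ℝ) (hε : 0 < ε) (hη : 0 < η) (hρ : 0 < ρ) (hc : 0 ≤ c) :
    ∀ᶠ n : ℕ in atTop, 1 ≤ Real.logb 2 n ∧ Real.logb 2 n + 3 ≤ η * n ∧
      c * (Real.logb 2 n ^ 2 / η + Real.logb 2 n + 2) ≤ ρ * n ∧
      Real.logb 2 (Real.logb 2 n ^ 2 / η + Real.logb 2 n + 2) + 3 ≤ ε / 2 * Real.logb 2 n := by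
  have htend : Tendsto (fun x : ℝ => Real.logb 2 x) atTop atTop :=
    Real.tendsto_logb_atTop (by norm_num)
  have h1 : ∀ᶠ x : ℝ in atTop, 1 ≤ Real.logb 2 x := htend.eventually_ge_atTop 1
  have hsq : ∀ δ : ℝ, 0 < δ → ∀ᶠ x : ℝ in atTop, Real.logb 2 x ^ 2 ≤ δ * x := by
    intro δ hδ
    have h4 : ∀ᶠ x : ℝ in atTop, ‖Real.logb 2 x ^ 2‖ ≤ δ * ‖id x‖ :=
      (Real.isLittleO_pow_logb_id_atTop (b := 2) (n := 2)).def hδ
    filter_upwards [h4, eventually_gt_atTop 0] with x h5 h6
    simp only [id, Real.norm_eq_abs, abs_of_pos h6] at h5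
    exact (le_abs_self _).trans h5
  have h2 : ∀ᶠ x : ℝ in atTop, Real.logb 2 x + 3 ≤ η * x := by
    filter_upwards [h1, hsq (η / 4) (by positivity)] with x a1 a2
    nlinarith
  have h3 : ∀ᶠ x : ℝ in atTop, c * (Real.logb 2 x ^ 2 / η + Real.logb 2 x + 2) ≤ ρ * x := by
    have hpos : 0 < (c + 1) * (1 / η + 3) := by positivity
    filter_upwards [h1, hsq (ρ / ((c + 1) * (1 / η + 3))) (by positivity), eventually_gt_atTop 0] with x a1 a2 a3
    have b1 : Real.logb 2 x ^ 2 / η + Real.logb 2 x + 2 ≤ (1 / η + 3) * Real.logb 2 x ^ 2 := by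
      have : Real.logb 2 x ^ 2 / η = 1 / η * Real.logb 2 x ^ 2 := by ring
      rw [this]
      nlinarith
    calc c * (Real.logb 2 x ^ 2 / η + Real.logb 2 x + 2)
        ≤ c * ((1 / η + 3) * Real.logb 2 x ^ 2) := by gcongr
      _ ≤ (c + 1) * ((1 / η + 3) * Real.logb 2 x ^ 2) := by
          apply mul_le_mul_of_nonneg_right (by linarith) (by positivity)
      _ = ((c + 1) * (1 / η + 3)) * Real.logb 2 x ^ 2 := by ring
      _ ≤ ((c + 1) * (1 / η + 3)) * (ρ / ((c + 1) * (1 / η + 3)) * x) := by gcongr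
      _ = ρ * x := by field_simp
  have h4 : ∀ᶠ u : ℝ in atTop, Real.logb 2 (u ^ 2 / η + u + 2) + 3 ≤ ε / 2 * u := by
    have hl : ∀ᶠ u : ℝ in atTop, ‖Real.logb 2 u‖ ≤ (ε / 8) * ‖id u‖ :=
      (Real.isLittleO_logb_id_atTop (b := 2)).def (by positivity)
    filter_upwards [hl, eventually_ge_atTop 1,
      eventually_ge_atTop ((Real.logb 2 (1 / η + 3) + 3) / (ε / 4))] with u a1 a2 a3
    have hu0 : 0 < u := by linarith
    simp only [id, Real.norm_eq_abs, abs_of_pos hu0] at a1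
    have a1' := (le_abs_self _).trans a1
    rw [div_le_iff₀ (by positivity)] at a3
    have b1 : u ^ 2 / η + u + 2 ≤ (1 / η + 3) * u ^ 2 := by
      have : u ^ 2 / η = 1 / η * u ^ 2 := by ring
      rw [this]; nlinarith
    have b2 : Real.logb 2 (u ^ 2 / η + u + 2) ≤ Real.logb 2 ((1 / η + 3) * u ^ 2) :=
      Real.logb_le_logb_of_le (by norm_num) (by positivity) b1
    rw [Real.logb_mul (by positivity) (by positivity), Real.logb_pow] at b2
    push_cast at b2
    linarith
  have h4' : ∀ᶠ x : ℝ in atTop, Real.logb 2 (Real.logb 2 x ^ 2 / η + Real.logb 2 x + 2) + 3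
      ≤ ε / 2 * Real.logb 2 x := htend.eventually h4
  exact (h1.and (h2.and (h3.and h4'))).natCast_atTop

/-- a factorisation of `n!` with at least `(1 + ε) log_2 n` factors has spread at least
`n - (1 + ε) log_2 n` -/
theorem many_factors (ε : ℝ) (hε : 0 < ε) : ∃ n0 : ℕ, ∀ n : ℕ, n0 ≤ n → ∀ S : Finset ℕ,
    ∏ a ∈ S, a = n.factorial → (1 + ε) * Real.logb 2 n ≤ S.card →
    ∃ a ∈ S, ∃ b ∈ S, (n : ℝ) - (1 + ε) * Real.logb 2 n ≤ (b : ℝ) - a := by
  set ρ : ℝ := ε / (4 + 4 * ε) with hρdef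
  set η : ℝ := ε / (2 * (1 + ε)) with hηdef
  have hρ : 0 < ρ := by positivity
  have hη : 0 < η := by positivity
  obtain ⟨P, hP0, hPρ⟩ := totient_small ρ hρ
  set c : ℝ := 1 + P.totient + P.primeFactors.card with hc
  have hev := eventually_many ε η ρ c hε hη hρ (by positivity)
  obtain ⟨n0, hn0⟩ := eventually_atTop.1 hev
  refine ⟨max n0 2, fun n hn S hprod hcard => ?_⟩
  obtain ⟨c1, c2, c3, c4⟩ := hn0 n (le_trans (le_max_left _ _) hn)
  have hn2 : 2 ≤ n := le_trans (le_max_right _ _) hn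
  have hnpos : (0 : ℝ) < n := by exact_mod_cast (by omega : 0 < n)
  set ℓ := Real.logb 2 n with hℓ
  have hSne : S.Nonempty := by
    rw [← card_pos]
    have : (0 : ℝ) < S.card := lt_of_lt_of_le (by positivity) hcard
    exact_mod_cast this
  have h0S : 0 ∉ S := by
    intro h
    have : ∏ a ∈ S, a = 0 := prod_eq_zero h rfl
    rw [hprod] at this
    exact Nat.factorial_ne_zero n this
  set A := S.min' hSne with hAdef
  set B := S.max' hSne with hBdef
  have hAS : A ∈ S := S.min'_mem hSne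
  have hBS : B ∈ S := S.max'_mem hSne
  have hA : 1 ≤ A := by
    rcases Nat.eq_zero_or_pos A with h | h
    · rw [h] at hAS; exact absurd hAS h0S
    · exact h
  have hAB : A ≤ B := S.min'_le B hBS
  have hSI : S ⊆ Icc A B := by
    intro a ha
    rw [mem_Icc]
    exact ⟨S.min'_le a ha, S.le_max' a ha⟩
  refine ⟨A, hAS, B, hBS, ?_⟩
  by_cases hm : B + 1 - A ≤ n
  swap
  · have h1 : n + A ≤ B := by omega
    have h2 : (n : ℝ) + A ≤ B := by exact_mod_cast h1
    have h3 : 0 ≤ (1 + ε) * ℓ := by positivity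
    linarith
  -- the main case
  set t := S.card with ht
  have ht1 : 1 ≤ t := card_pos.2 hSne
  have htpos : (0 : ℝ) < t := by exact_mod_cast ht1
  set β : ℝ := (Nat.log 2 B : ℝ) with hβ
  have hβ1 : β ≤ n * ℓ / t + 1 := logb_B_le n A B t S hA hAB hSI ht ht1 hprod hm
  have hlogn : (Nat.log 2 n : ℝ) ≤ ℓ := by
    have := Real.natLog_le_logb n 2
    push_cast at this
    exact this
  -- step a
  have hstepa : η * n < t * ℓ := by
    by_contra hcon
    push Not at hcon
    have h1 := few_factors n A B S hA hAB hSI hSne hprod hm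
    rw [← ht] at h1
    have h2 : (n : ℝ) ≤ β + t * Nat.log 2 n + Nat.log 2 n + 1 := by rw [hβ]; exact_mod_cast h1
    have h3 : (t : ℝ) * Nat.log 2 n ≤ t * ℓ := by gcongr
    have h4 : n * ℓ / t ≤ n / (1 + ε) := by
      rw [div_le_div_iff₀ htpos (by positivity)]
      calc (n : ℝ) * ℓ * (1 + ε) = n * ((1 + ε) * ℓ) := by ring
        _ ≤ n * t := by gcongr
    have h5 : n / (1 + ε) + η * n + η * n = n := by
      rw [hηdef]; field_simp; ring
    linarith
  have hnℓt : n * ℓ / t ≤ ℓ ^ 2 / η := by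
    rw [div_le_div_iff₀ htpos hη]
    calc (n : ℝ) * ℓ * η = (η * n) * ℓ := by ring
      _ ≤ (t * ℓ) * ℓ := by gcongr
      _ = ℓ ^ 2 * t := by ring
  -- step b
  obtain ⟨δ, hδ⟩ : ∃ δ : ℕ, δ = n - (B + 1 - A) := ⟨_, rfl⟩
  have hδ1 : (δ : ℝ) ≤ β + Nat.log 2 n + 1 := by
    have := defect_le n A B S hA hAB hSI hprod hm
    rw [← hδ] at this
    rw [hβ]
    exact_mod_cast this
  have hδ2 : (δ : ℝ) ≤ β + Nat.log 2 δ + 1 := by
    have := defect_le' n A B S hA hAB hSI hprod hm
    rw [← hδ] at this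
    rw [hβ]
    exact_mod_cast this
  set W := ℓ ^ 2 / η + ℓ + 2 with hW
  have hδW : (δ : ℝ) ≤ W := by linarith
  have hβW : β ≤ W := by linarith
  have hW0 : 0 ≤ W := by positivity
  -- step c
  obtain ⟨mm, hmm⟩ : ∃ mm : ℕ, mm = B + 1 - A := ⟨_, rfl⟩
  have hmmn : (mm : ℝ) = n - δ := by
    have : mm + δ = n := by omega
    have h2 : (mm : ℝ) + δ = n := by exact_mod_cast this
    linarith
  have hstepc : (n : ℝ) * (1 - 2 * ρ) ≤ t := by
    have h1 := card_lower n A B S hA hAB hSI hprod hm P hP0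
    rw [← hmm, ← ht] at h1
    have h2 : (mm : ℝ) ≤ t + P.totient * ((mm / P : ℕ) + 1) + P.primeFactors.card * β := by
      rw [hβ]
      exact_mod_cast h1
    have hPpos : (0 : ℝ) < P := by exact_mod_cast Nat.pos_of_ne_zero hP0
    have h3 : ((mm / P : ℕ) : ℝ) ≤ mm / P := Nat.cast_div_le
    have h4 : (P.totient : ℝ) * ((mm / P : ℕ) + 1) ≤ ρ * mm + P.totient := by
      calc (P.totient : ℝ) * ((mm / P : ℕ) + 1) ≤ P.totient * (mm / P + 1) := by gcongr
        _ = P.totient * (mm / P) + P.totient := by ring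
        _ ≤ (ρ * P) * (mm / P) + P.totient := by gcongr
        _ = ρ * mm + P.totient := by field_simp
    have h5 : (P.primeFactors.card : ℝ) * β ≤ P.primeFactors.card * W := by gcongr
    have h6 : (P.totient : ℝ) ≤ P.totient * W := by
      have h1W : 1 ≤ W := by
        have : 0 ≤ ℓ ^ 2 / η := by positivity
        rw [hW]; linarith
      have : (0 : ℝ) ≤ P.totient := by positivity
      nlinarith
    have h7 : c * W = W + P.totient * W + P.primeFactors.card * W := by rw [hc]; ring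
    have h8 : ρ * mm ≤ ρ * n := by
      have : (mm : ℝ) ≤ n := by rw [hmmn]; have : (0 : ℝ) ≤ δ := by positivity
                                linarith
      gcongr
    linarith
  -- step d
  have hρ4 : 2 * ρ < 1 := by
    rw [hρdef, ← mul_div_assoc, div_lt_one (by positivity)]; linarith
  have hβ2 : β ≤ (1 + ε / 2) * ℓ + 1 := by
    have h1 : n * ℓ / t ≤ (1 + ε / 2) * ℓ := by
      rw [div_le_iff₀ htpos]
      have h2 : 1 ≤ (1 + ε / 2) * (1 - 2 * ρ) := by
        have : ρ * (4 + 4 * ε) = ε := by rw [hρdef]; field_simp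
        nlinarith
      calc (n : ℝ) * ℓ = 1 * (n * ℓ) := by ring
        _ ≤ ((1 + ε / 2) * (1 - 2 * ρ)) * (n * ℓ) := by gcongr
        _ = (1 + ε / 2) * ℓ * (n * (1 - 2 * ρ)) := by ring
        _ ≤ (1 + ε / 2) * ℓ * t := by gcongr
    linarith
  -- step e
  have hδ3 : (δ : ℝ) ≤ (1 + ε) * ℓ - 1 := by
    have h1 : (Nat.log 2 δ : ℝ) ≤ Real.logb 2 W := by
      rcases Nat.eq_zero_or_pos δ with h | h
      · rw [h]; simp
        apply Real.logb_nonneg (by norm_num)
        have : 0 ≤ ℓ ^ 2 / η := by positivity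
        rw [hW]; linarith
      · have h2 := Real.natLog_le_logb δ 2
        push_cast at h2
        refine h2.trans ?_
        apply Real.logb_le_logb_of_le (by norm_num) _ hδW
        exact_mod_cast h
    linarith
  have hBA : (B : ℝ) - A = mm - 1 := by
    have : mm + A = B + 1 := by omega
    have h2 : (mm : ℝ) + A = B + 1 := by exact_mod_cast this
    linarith
  rw [hBA, hmmn]
  linarith

end Pool.Agent.H147
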