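import Pool.Agent.H147_fact.Ord

/-!
The determinant of the iterated operators does not vanish.
-/

namespace Pool.Agent.H147

open Finset

theorem x_mul_deriv_pow (x : Polynomial ℝ) (hx : Polynomial.derivative x = 1) (n : ℕ) :
    x * Polynomial.derivative (x ^ n) = (n : Polynomial ℝ) * x ^ n := by
  rw [Polynomial.derivative_pow, hx]
  rcases n with _ | n
  · simp
  · simp [pow_succ]; ring

theorem no_rel (t k : ℕ) (ht : 2 ≤ t) (a b : ℕ) (hab : b < a) (ha : a ≤ k) (u v : Polynomial ℝ)
    (hu : u ≠ 0) (hv : v ≠ 0)
    (h : v * ((t : Polynomial ℝ) * Pp k * Polynomial.derivative u - Qp k a * Polynomial.derivative (Pp a) * u)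
      = u * ((t : Polynomial ℝ) * Pp k * Polynomial.derivative v - Qp k b * Polynomial.derivative (Pp b) * v)) :
    False := by
  obtain ⟨a', rfl⟩ : ∃ a', a = a' + 1 := ⟨a - 1, by omega⟩
  set c : ℝ := (a' : ℝ) + 1 with hc
  have hc0 : 0 < c := by positivity
  set ζ : ℝ := -1 / c with hζ
  set x : Polynomial ℝ := Polynomial.X - Polynomial.C ζ with hx
  have hdx : Polynomial.derivative x = 1 := by simp [hx]
  have hl : (1 + Polynomial.C c * Polynomial.X : Polynomial ℝ) = Polynomial.C c * x := by
    rw [hx, mul_sub, ← Polynomial.C_mul]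
    have : c * ζ = -1 := by rw [hζ]; field_simp
    rw [this]; simp; ring
  have hPa : Pp (a' + 1) = Pp a' * (Polynomial.C c * x) := by
    rw [Pp, prod_range_succ, ← Pp, ← hl]
  have hQb : Qp k b = Qp a' b * (Polynomial.C c * x) * Qp k (a' + 1) := by
    rw [Qp, Qp, Qp, ← hl, ← prod_Ico_succ_top (by omega), prod_Ico_consecutive _ (by omega) (by omega)]
  have hPk : Pp k = Pp a' * (Polynomial.C c * x) * Qp k (a' + 1) := by
    rw [← hPa, Pp_mul_Qp ha]
  set W : Polynomial ℝ := Pp a' * Qp k (a' + 1) with hW
  have hWz : W.eval ζ ≠ 0 := by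
    rw [hW, Polynomial.eval_mul]
    have key : ∀ l : ℕ, l ≠ a' → (1 + Polynomial.C ((l : ℝ) + 1) * Polynomial.X : Polynomial ℝ).eval ζ ≠ 0 := by
      intro l hl
      simp only [Polynomial.eval_add, Polynomial.eval_one, Polynomial.eval_mul, Polynomial.eval_C,
        Polynomial.eval_X]
      intro h0
      rw [hζ] at h0
      field_simp at h0
      apply hl
      have : (l : ℝ) = a' := by rw [hc] at h0; linarith
      exact_mod_cast this
    apply mul_ne_zero
    · rw [Pp, Polynomial.eval_prod]
      apply prod_ne_zero_iff.2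
      intro l hl
      exact key l (by have := mem_range.1 hl; omega)
    · rw [Qp, Polynomial.eval_prod]
      apply prod_ne_zero_iff.2
      intro l hl
      exact key l (by have := mem_Ico.1 hl; omega)
  obtain ⟨u1, hu1, hu1n⟩ := Polynomial.exists_eq_pow_rootMultiplicity_mul_and_not_dvd u hu ζ
  obtain ⟨v1, hv1, hv1n⟩ := Polynomial.exists_eq_pow_rootMultiplicity_mul_and_not_dvd v hv ζ
  rw [← hx] at hu1 hv1 hu1n hv1n
  set α := Polynomial.rootMultiplicity ζ u
  set β := Polynomial.rootMultiplicity ζ v
  have hu1z : u1.eval ζ ≠ 0 := by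
    intro h0; exact hu1n (Polynomial.dvd_iff_isRoot.2 h0)
  have hv1z : v1.eval ζ ≠ 0 := by
    intro h0; exact hv1n (Polynomial.dvd_iff_isRoot.2 h0)
  have hdu : x * Polynomial.derivative u = (α : Polynomial ℝ) * u + x ^ α * (x * Polynomial.derivative u1) := by
    rw [hu1, Polynomial.derivative_mul, mul_add, ← mul_assoc x, x_mul_deriv_pow x hdx]
    ring
  have hdv : x * Polynomial.derivative v = (β : Polynomial ℝ) * v + x ^ β * (x * Polynomial.derivative v1) := by
    rw [hv1, Polynomial.derivative_mul, mul_add, ← mul_assoc x, x_mul_deriv_pow x hdx]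
    ring
  have hx0 : x ≠ 0 := Polynomial.X_sub_C_ne_zero ζ
  -- the relation after cancelling the common power of `x`
  have hrel : x ^ (α + β) * ((t : Polynomial ℝ) * Polynomial.C c * W *
        (((α : Polynomial ℝ) - β) * u1 * v1 + x * (Polynomial.derivative u1 * v1 - u1 * Polynomial.derivative v1)))
      = x ^ (α + β) * ((Qp k (a' + 1) * Polynomial.derivative (Pp (a' + 1))
          - Qp k b * Polynomial.derivative (Pp b)) * u1 * v1) := by
    have h1 : (t : Polynomial ℝ) * Pp k * (Polynomial.derivative u * v - u * Polynomial.derivative v)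
        = (Qp k (a' + 1) * Polynomial.derivative (Pp (a' + 1)) - Qp k b * Polynomial.derivative (Pp b)) * u * v := by
      linear_combination h
    have h2 : (t : Polynomial ℝ) * Pp k * (Polynomial.derivative u * v - u * Polynomial.derivative v)
        = (t : Polynomial ℝ) * Polynomial.C c * W * ((x * Polynomial.derivative u) * v - u * (x * Polynomial.derivative v)) := by
      rw [hPk, hW]; ring
    rw [h2, hdu, hdv] at h1
    rw [pow_add]
    have h3 : u * v = x ^ α * x ^ β * (u1 * v1) := by
      conv_lhs => rw [hu1, hv1]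
      ring
    have h4 : x ^ α * v = x ^ α * x ^ β * v1 := by
      conv_lhs => rw [hv1]
      ring
    have h5 : x ^ β * u = x ^ α * x ^ β * u1 := by
      conv_lhs => rw [hu1]
      ring
    linear_combination h1 - (t : Polynomial ℝ) * Polynomial.C c * W * ((α : Polynomial ℝ) - β) * h3
      - (t : Polynomial ℝ) * Polynomial.C c * W * x * Polynomial.derivative u1 * h4
      + (t : Polynomial ℝ) * Polynomial.C c * W * x * Polynomial.derivative v1 * h5
      + (Qp k (a' + 1) * Polynomial.derivative (Pp (a' + 1)) - Qp k b * Polynomial.derivative (Pp b)) * h3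
  have hcan := mul_left_cancel₀ (pow_ne_zero _ hx0) hrel
  have hev := congrArg (Polynomial.eval ζ) hcan
  have hxz : x.eval ζ = 0 := by simp [hx]
  have hcz : c ≠ 0 := hc0.ne'
  have hQbz : (Qp k b).eval ζ = 0 := by rw [hQb]; simp [hxz]
  have hom : (Qp k (a' + 1) * Polynomial.derivative (Pp (a' + 1))).eval ζ = c * W.eval ζ := by
    rw [hPa, Polynomial.derivative_mul, Polynomial.derivative_C_mul, hdx, hW]
    simp only [Polynomial.eval_mul, Polynomial.eval_add, hxz, Polynomial.eval_C, Polynomial.eval_one]
    ring
  have e1 : (Qp k (a' + 1) * Polynomial.derivative (Pp (a' + 1)) - Qp k b * Polynomial.derivative (Pp b)).eval ζ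
      = c * W.eval ζ := by
    have h0 : (Qp k b * Polynomial.derivative (Pp b)).eval ζ = 0 := by
      rw [Polynomial.eval_mul, hQbz, zero_mul]
    rw [Polynomial.eval_sub, hom, h0, sub_zero]
  simp only [Polynomial.eval_mul, e1] at hev
  simp only [Polynomial.eval_add, Polynomial.eval_sub, Polynomial.eval_mul, Polynomial.eval_natCast,
    Polynomial.eval_C, hxz, zero_mul, add_zero] at hev
  have h6 : (t : ℝ) * ((α : ℝ) - β) = 1 := by
    have h7 : (c * W.eval ζ * u1.eval ζ * v1.eval ζ) ≠ 0 := by
      exact mul_ne_zero (mul_ne_zero (mul_ne_zero hcz hWz) hu1z) hv1z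
    apply mul_right_cancel₀ h7
    linear_combination hev
  have h8 : (t : ℤ) * ((α : ℤ) - β) = 1 := by exact_mod_cast h6
  have h9 : (t : ℤ) ∣ 1 := ⟨_, h8.symm⟩
  have h10 := Int.le_of_dvd (by norm_num) h9
  omega

theorem det_ne_zero (t k : ℕ) (ht : 2 ≤ t) : ∀ (r : ℕ) (e : Fin r → ℕ) (_ : ∀ i, e i ≤ k)
    (_ : Function.Injective e) (A : Fin r → Polynomial ℝ) (_ : ∀ i, A i ≠ 0), (MM t k e A).det ≠ 0 := by
  intro r
  induction r with
  | zero => intro e _ _ A _; simp
  | succ r ih =>
    intro e he hinj A hA hdet
    set M := MM t k e A with hM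
    have hsub : ∀ i : Fin (r + 1), M.submatrix (Fin.last r).succAbove i.succAbove
        = MM t k (e ∘ i.succAbove) (A ∘ i.succAbove) := by
      intro i
      ext1 s j
      simp [hM, MM]
    have hminor : ∀ i : Fin (r + 1), (MM t k (e ∘ i.succAbove) (A ∘ i.succAbove)).det ≠ 0 := by
      intro i
      exact ih _ (fun j => he _) (hinj.comp Fin.succAbove_right_injective) _ (fun j => hA _)
    set g : Fin (r + 1) → Polynomial ℝ := fun i => M.adjugate i (Fin.last r) with hg
    have hg0 : ∀ i, g i ≠ 0 := by
      intro i
      simp only [hg]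
      rw [Matrix.adjugate_fin_succ_eq_det_submatrix, hsub]
      exact mul_ne_zero (pow_ne_zero _ (by norm_num)) (hminor i)
    have hker : ∀ s : Fin (r + 1), ∑ i, M s i * g i = 0 := by
      intro s
      have h1 : (M * M.adjugate) s (Fin.last r) = 0 := by
        rw [Matrix.mul_adjugate, hdet, zero_smul]; rfl
      simpa [Matrix.mul_apply, hg] using h1
    set om : Fin (r + 1) → Polynomial ℝ := fun i => Qp k (e i) * Polynomial.derivative (Pp (e i)) with hom
    set h : Fin (r + 1) → Polynomial ℝ := fun i =>
      (t : Polynomial ℝ) * Pp k * Polynomial.derivative (g i) - om i * g i with hh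
    have hstep : ∀ (s : Fin r) (i : Fin (r + 1)), M s.succ i
        = (t : Polynomial ℝ) * Pp k * Polynomial.derivative (M s.castSucc i) + om i * M s.castSucc i := by
      intro s i
      simp only [hM, MM, Matrix.of_apply, Fin.val_succ, Fin.val_castSucc, Function.iterate_succ_apply']
      rw [op]
    have hker2 : ∀ s : Fin r, ∑ i, M s.castSucc i * h i = 0 := by
      intro s
      have h1 := congrArg Polynomial.derivative (hker s.castSucc)
      rw [Polynomial.derivative_sum] at h1
      simp only [Polynomial.derivative_mul, Polynomial.derivative_zero] at h1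
      have h2 := hker s.succ
      have h3 : ∑ i, M s.castSucc i * h i
          = (t : Polynomial ℝ) * Pp k * ∑ i, (Polynomial.derivative (M s.castSucc i) * g i
              + M s.castSucc i * Polynomial.derivative (g i)) - ∑ i, M s.succ i * g i := by
        rw [mul_sum, ← sum_sub_distrib]
        apply sum_congr rfl
        intro i _
        rw [hstep s i]
        simp only [hh]
        ring
      rw [h3, h1, h2]; simp
    have hprop : ∀ j i : Fin (r + 1), g j * h i = h j * g i := by
      intro j
      set c : Fin (r + 1) → Polynomial ℝ := fun i => g j * h i - h j * g i with hcdef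
      have hcj : c j = 0 := by simp [hcdef, mul_comm]
      have hk3 : ∀ s : Fin r, ∑ i, M s.castSucc i * c i = 0 := by
        intro s
        have : ∑ i, M s.castSucc i * c i
            = g j * ∑ i, M s.castSucc i * h i - h j * ∑ i, M s.castSucc i * g i := by
          rw [mul_sum, mul_sum, ← sum_sub_distrib]
          apply sum_congr rfl
          intro i _
          simp only [hcdef]; ring
        rw [this, hker2 s, hker s.castSucc]; simp
      have hmv : (MM t k (e ∘ j.succAbove) (A ∘ j.succAbove)).mulVec (c ∘ j.succAbove) = 0 := by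
        funext s
        have h4 := hk3 s
        rw [Fin.sum_univ_succAbove _ j, hcj, mul_zero, zero_add] at h4
        simp only [Matrix.mulVec, dotProduct, Pi.zero_apply]
        rw [← h4]
        apply sum_congr rfl
        intro i _
        simp [hM, MM]
      have hz := Matrix.eq_zero_of_mulVec_eq_zero (hminor j) hmv
      intro i
      by_cases hij : i = j
      · subst hij; ring
      · obtain ⟨i', rfl⟩ := Fin.exists_succAbove_eq hij
        have := congrFun hz i'
        simp only [Function.comp, Pi.zero_apply, hcdef] at this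
        exact sub_eq_zero.1 this
    rcases Nat.eq_zero_or_pos r with hr | hr
    · subst hr
      apply hA 0
      have : M.det = A 0 := by
        rw [Matrix.det_fin_one]; simp [hM, MM]
      rw [← this]; exact hdet
    · -- two different indices
      have h01 : (⟨0, by omega⟩ : Fin (r + 1)) ≠ ⟨1, by omega⟩ := by simp
      set i0 : Fin (r + 1) := ⟨0, by omega⟩
      set i1 : Fin (r + 1) := ⟨1, by omega⟩
      have hne : e i0 ≠ e i1 := fun hh => h01 (hinj hh)
      rcases lt_or_gt_of_ne hne with hlt | hlt
      · refine no_rel t k ht (e i1) (e i0) hlt (he _) (g i1) (g i0) (hg0 _) (hg0 _) ?_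
        have := hprop i0 i1
        simp only [hh, hom] at this
        linear_combination this
      · refine no_rel t k ht (e i0) (e i1) hlt (he _) (g i0) (g i1) (hg0 _) (hg0 _) ?_
        have := hprop i1 i0
        simp only [hh, hom] at this
        linear_combination this

end Pool.Agent.H147
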