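import Pool.Agent.H147_fact.PatternG
import Pool.Agent.H147_fact.Asym

/-!
The two numerical conditions in terms of logarithms.
-/

namespace Pool.Agent.H147

open Finset

theorem numA_of (t k r D T j0 n s : ℕ) (Y G ρ gu y τ m1 : ℝ) (hn : 1 ≤ n) (hk : 1 ≤ k) (hsT : s ≤ T)
    (hr : (r : ℝ) ≤ Real.exp ρ) (hG0 : 0 < G) (hG : G ≤ Real.exp gu) (hY0 : 0 ≤ Y) (hY : Y ≤ Real.exp y)
    (hT : (T : ℝ) + 1 ≤ Real.exp τ) (hM : (t : ℝ) * MMg k T j0 ≤ Real.exp m1)
    (h : ((D : ℝ) + s * k + k) * Real.log n + (gu + ((ρ + y + k + τ + T * Real.log (2 * k)) + s * m1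
      + (-((T : ℝ) - s) * Real.log n) + (2 + s * (k + 1)))) ≤ -1) :
    NumA t k r D T j0 n s Y G := by
  have hnpos : (0 : ℝ) < n := by exact_mod_cast hn
  have hkpos : (0 : ℝ) < k := by exact_mod_cast hk
  have b1 : (n : ℝ) ^ (D + s * k + k) = Real.exp ((D + s * k + k) * Real.log n) := by
    rw [pow_eq_exp hnpos]; push_cast; ring_nf
  have b2k : (2 : ℝ) ^ k ≤ Real.exp k := two_pow_le_exp k
  have bκ : (2 * (k : ℝ)) ^ T = Real.exp (T * Real.log (2 * k)) := by
    rw [pow_eq_exp (by positivity)]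
  have bM1 : ((t : ℝ) * MMg k T j0) ^ s ≤ Real.exp (s * m1) := by
    rw [Real.exp_nat_mul]
    exact pow_le_pow_left₀ (by positivity) hM _
  have binv : (1 / (n : ℝ)) ^ (T - s) = Real.exp (-((T : ℝ) - s) * Real.log n) := by
    rw [one_div, inv_pow, pow_eq_exp hnpos, ← Real.exp_neg]
    rw [Nat.cast_sub hsT]; ring_nf
  have b2a : (2 : ℝ) ^ (2 + s * (k + 1)) ≤ Real.exp (2 + s * (k + 1)) := by
    have := two_pow_le_exp (2 + s * (k + 1))
    push_cast at this; exact this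
  unfold NumA
  refine lt_of_le_of_lt ?_ exp_neg_one_lt
  refine le_trans ?_ (Real.exp_le_exp.2 h)
  rw [b1, bκ, binv]
  have hx : Real.exp (((D : ℝ) + s * k + k) * Real.log n + (gu + ((ρ + y + k + τ + T * Real.log (2 * k)) + s * m1
      + (-((T : ℝ) - s) * Real.log n) + (2 + s * (k + 1)))))
      = Real.exp (((D : ℝ) + s * k + k) * Real.log n) * Real.exp gu *
        ((Real.exp ρ * Real.exp y * Real.exp k
          * Real.exp τ * Real.exp (T * Real.log (2 * k))) * Real.exp (s * m1)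
          * Real.exp (-((T : ℝ) - s) * Real.log n) * Real.exp (2 + s * (k + 1))) := by
    simp only [← Real.exp_add]
    congr 1; ring
  rw [hx]
  gcongr

theorem numB_of (t k r D T j0 n s : ℕ) (Y E ρ εu y m1 : ℝ) (hn : 1 ≤ n)
    (hr : (r : ℝ) ≤ Real.exp ρ) (hE0 : 0 ≤ E) (hE : E ≤ Real.exp εu) (hY0 : 0 ≤ Y) (hY : Y ≤ Real.exp y)
    (hM : (t : ℝ) * (2 * k) * MMg k T j0 ≤ Real.exp m1)
    (h : ((D : ℝ) + s * k + k) * Real.log n + (ρ + ((y + s * m1 + (1 + s * (k + 1))) + εu)) ≤ -1) :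
    NumB t k r D T j0 n s Y E := by
  have hnpos : (0 : ℝ) < n := by exact_mod_cast hn
  have b1 : (n : ℝ) ^ (D + s * k + k) = Real.exp ((D + s * k + k) * Real.log n) := by
    rw [pow_eq_exp hnpos]; push_cast; ring_nf
  have bM2 : ((t : ℝ) * (2 * k) * MMg k T j0) ^ s ≤ Real.exp (s * m1) := by
    rw [Real.exp_nat_mul]
    exact pow_le_pow_left₀ (by positivity) hM _
  have b2b : (2 : ℝ) ^ (1 + s * (k + 1)) ≤ Real.exp (1 + s * (k + 1)) := by
    have := two_pow_le_exp (1 + s * (k + 1))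
    push_cast at this; exact this
  unfold NumB
  refine lt_of_le_of_lt ?_ exp_neg_one_lt
  refine le_trans ?_ (Real.exp_le_exp.2 h)
  rw [b1]
  have hx : Real.exp (((D : ℝ) + s * k + k) * Real.log n + (ρ + ((y + s * m1 + (1 + s * (k + 1))) + εu)))
      = Real.exp (((D : ℝ) + s * k + k) * Real.log n) * (Real.exp ρ *
        ((Real.exp y * Real.exp (s * m1) * Real.exp (1 + s * (k + 1))) * Real.exp εu)) := by
    simp only [← Real.exp_add]
  rw [hx]
  gcongr

end Pool.Agent.H147
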