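import Pool.Agent.H147_fact.Root

/-!
Local roots `(P_e) ^ (1 / t)` at an arbitrary centre and the operators that describe the derivation
`t w d/dz` on the products `A * (P_e) ^ (1 / t)`.
-/

namespace Pool.Agent.H147

open Finset

/-- `P_e = (1 + z) (1 + 2 z) ⋯ (1 + e z)` -/
noncomputable def Pp (e : ℕ) : Polynomial ℝ :=
  ∏ l ∈ range e, (1 + Polynomial.C ((l : ℝ) + 1) * Polynomial.X)

/-- `Q_{e,k} = (1 + (e + 1) z) ⋯ (1 + k z)` -/
noncomputable def Qp (k e : ℕ) : Polynomial ℝ :=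
  ∏ l ∈ Ico e k, (1 + Polynomial.C ((l : ℝ) + 1) * Polynomial.X)

theorem Pp_mul_Qp {k e : ℕ} (h : e ≤ k) : Pp e * Qp k e = Pp k := by
  rw [Pp, Qp, Pp, range_eq_Ico, range_eq_Ico]
  exact prod_Ico_consecutive _ (Nat.zero_le _) h

theorem Pp_eval_pos (e : ℕ) {x : ℝ} (hx : 0 ≤ x) : 0 < (Pp e).eval x := by
  rw [Pp, Polynomial.eval_prod]
  apply prod_pos
  intro l _
  simp only [Polynomial.eval_add, Polynomial.eval_one, Polynomial.eval_mul, Polynomial.eval_C,
    Polynomial.eval_X]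
  positivity

/-- expansion of a polynomial at `z0`, as a power series -/
noncomputable def tau (z0 : ℝ) : Polynomial ℝ →+* PowerSeries ℝ :=
  (Polynomial.coeToPowerSeries.ringHom).comp (Polynomial.taylorAlgHom z0 : Polynomial ℝ →ₐ[ℝ] Polynomial ℝ).toRingHom

theorem tau_apply (z0 : ℝ) (A : Polynomial ℝ) :
    tau z0 A = ((Polynomial.taylor z0 A : Polynomial ℝ) : PowerSeries ℝ) := rfl

theorem tau_deriv (z0 : ℝ) (A : Polynomial ℝ) :
    PowerSeries.derivative ℝ (tau z0 A) = tau z0 (Polynomial.derivative A) := by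
  rw [tau_apply, tau_apply, PowerSeries.derivative_coe, Polynomial.taylor_apply, Polynomial.taylor_apply,
    Polynomial.derivative_comp]
  simp

theorem constCoeff_tau (z0 : ℝ) (A : Polynomial ℝ) :
    PowerSeries.constantCoeff (tau z0 A) = A.eval z0 := by
  rw [tau_apply, ← PowerSeries.coeff_zero_eq_constantCoeff_apply, Polynomial.coeff_coe,
    Polynomial.taylor_coeff_zero]

theorem tau_C (z0 c : ℝ) : tau z0 (Polynomial.C c) = PowerSeries.C c := by
  rw [tau_apply]; simp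

theorem tau_X (z0 : ℝ) : tau z0 Polynomial.X = PowerSeries.X + PowerSeries.C z0 := by
  rw [tau_apply]; simp

theorem tau_zero_apply (A : Polynomial ℝ) : tau 0 A = (A : PowerSeries ℝ) := by
  rw [tau_apply, Polynomial.taylor_zero]

/-- the local root of `P_e` at `z0`, normalised to `1` at `z0` -/
noncomputable def rt (t : ℕ) (z0 : ℝ) (e : ℕ) : PowerSeries ℝ :=
  ∏ l ∈ range e, PowerSeries.rescale (((l : ℝ) + 1) / (1 + ((l : ℝ) + 1) * z0)) (beta t)

theorem lin_pow (t : ℕ) (ht : 1 ≤ t) (z0 a : ℝ) (hz : 0 ≤ z0) (ha : 0 ≤ a) :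
    PowerSeries.C ((1 + Polynomial.C a * Polynomial.X : Polynomial ℝ).eval z0)
      * (PowerSeries.rescale (a / (1 + a * z0)) (beta t)) ^ t
      = tau z0 (1 + Polynomial.C a * Polynomial.X) := by
  have h1 : (1 + a * z0) ≠ 0 := by positivity
  rw [← map_pow, beta_pow t ht]
  have h2 : (1 + PowerSeries.C a * PowerSeries.C z0) * PowerSeries.C (a / (1 + a * z0)) = (PowerSeries.C a : PowerSeries ℝ) := by
    rw [← map_mul, ← map_one (PowerSeries.C (R := ℝ)), ← map_add, ← map_mul]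
    congr 1
    field_simp
  simp only [map_add, map_one, map_mul, tau_C, tau_X, Polynomial.eval_add, Polynomial.eval_one,
    Polynomial.eval_mul, Polynomial.eval_C, Polynomial.eval_X, PowerSeries.rescale_X]
  linear_combination (PowerSeries.X : PowerSeries ℝ) * h2

theorem rt_pow (t : ℕ) (ht : 1 ≤ t) (z0 : ℝ) (hz : 0 ≤ z0) (e : ℕ) :
    PowerSeries.C ((Pp e).eval z0) * rt t z0 e ^ t = tau z0 (Pp e) := by
  rw [rt, Pp, Polynomial.eval_prod, map_prod, map_prod, ← prod_pow, ← prod_mul_distrib]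
  apply prod_congr rfl
  intro l _
  exact lin_pow t ht z0 _ hz (by positivity)

theorem constCoeff_rt (t : ℕ) (z0 : ℝ) (e : ℕ) : PowerSeries.constantCoeff (rt t z0 e) = 1 := by
  rw [rt, map_prod]
  apply prod_eq_one
  intro l _
  rw [← PowerSeries.coeff_zero_eq_constantCoeff_apply, PowerSeries.coeff_rescale]
  simp [beta, bc_zero]

theorem rt_ode (t : ℕ) (ht : 1 ≤ t) (z0 : ℝ) (hz : 0 ≤ z0) (e : ℕ) :
    (t : PowerSeries ℝ) * tau z0 (Pp e) * PowerSeries.derivative ℝ (rt t z0 e)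
      = tau z0 (Polynomial.derivative (Pp e)) * rt t z0 e := by
  have h := rt_pow t ht z0 hz e
  have hd := congrArg (PowerSeries.derivative ℝ) h
  rw [tau_deriv, Derivation.leibniz, PowerSeries.derivative_C, smul_zero, add_zero,
    Derivation.leibniz_pow] at hd
  simp only [smul_eq_mul, nsmul_eq_mul] at hd
  rw [← hd, ← h]
  have h1 : rt t z0 e ^ t = rt t z0 e ^ (t - 1) * rt t z0 e := by
    rw [← pow_succ]; congr 1; omega
  rw [h1]
  ring

/-- the operator `A ↦ t w A' + Q P' A`, so that `op A * φ = t w (A φ)'` for `φ = P_e ^ (1 / t)` -/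
noncomputable def op (t k e : ℕ) (A : Polynomial ℝ) : Polynomial ℝ :=
  (t : Polynomial ℝ) * Pp k * Polynomial.derivative A + Qp k e * Polynomial.derivative (Pp e) * A

/-- the derivation `t w d/dz` on power series at the centre `z0` -/
noncomputable def dd (t k : ℕ) (z0 : ℝ) (G : PowerSeries ℝ) : PowerSeries ℝ :=
  (t : PowerSeries ℝ) * tau z0 (Pp k) * PowerSeries.derivative ℝ G

theorem tau_op (t k e : ℕ) (ht : 1 ≤ t) (he : e ≤ k) (z0 : ℝ) (hz : 0 ≤ z0) (A : Polynomial ℝ) :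
    tau z0 (op t k e A) * rt t z0 e = dd t k z0 (tau z0 A * rt t z0 e) := by
  have h := rt_ode t ht z0 hz e
  rw [op, dd, Derivation.leibniz, tau_deriv]
  simp only [smul_eq_mul, map_add, map_mul, map_natCast]
  rw [← Pp_mul_Qp he, map_mul]
  linear_combination (-(tau z0 (Qp k e)) * tau z0 A) * h

theorem tau_op_iterate (t k e : ℕ) (ht : 1 ≤ t) (he : e ≤ k) (z0 : ℝ) (hz : 0 ≤ z0) (A : Polynomial ℝ)
    (s : ℕ) :
    tau z0 ((op t k e)^[s] A) * rt t z0 e = (dd t k z0)^[s] (tau z0 A * rt t z0 e) := by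
  induction s with
  | zero => rfl
  | succ s ih =>
    rw [Function.iterate_succ_apply', Function.iterate_succ_apply', tau_op t k e ht he z0 hz, ih]

/-- `dd` is linear -/
theorem dd_sum {ι : Type*} (t k : ℕ) (z0 : ℝ) (S : Finset ι) (c : ι → ℝ) (G : ι → PowerSeries ℝ) :
    dd t k z0 (∑ i ∈ S, PowerSeries.C (c i) * G i) = ∑ i ∈ S, PowerSeries.C (c i) * dd t k z0 (G i) := by
  simp only [dd, map_sum, Derivation.leibniz, PowerSeries.derivative_C, smul_eq_mul, mul_sum]
  apply sum_congr rfl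
  intro i _
  ring

theorem dd_iterate_sum {ι : Type*} (t k : ℕ) (z0 : ℝ) (S : Finset ι) (c : ι → ℝ) (G : ι → PowerSeries ℝ)
    (s : ℕ) :
    (dd t k z0)^[s] (∑ i ∈ S, PowerSeries.C (c i) * G i)
      = ∑ i ∈ S, PowerSeries.C (c i) * (dd t k z0)^[s] (G i) := by
  induction s with
  | zero => rfl
  | succ s ih =>
    rw [Function.iterate_succ_apply', ih, dd_sum]
    simp [Function.iterate_succ_apply']

end Pool.Agent.H147
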