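import Pool.Agent.H147_fact.Op

/-!
Orders of vanishing: from linear relations at a point to divisibility of the determinant.
-/

namespace Pool.Agent.H147

open Finset

theorem isUnit_w (t k : ℕ) (ht : 1 ≤ t) (z0 : ℝ) (hz : 0 ≤ z0) :
    IsUnit ((t : PowerSeries ℝ) * tau z0 (Pp k)) := by
  rw [PowerSeries.isUnit_iff_constantCoeff]
  rw [map_mul, constCoeff_tau]
  simp only [map_natCast]
  have h1 := Pp_eval_pos k hz
  have h2 : (0 : ℝ) < t := by exact_mod_cast ht
  exact (mul_pos h2 h1).ne'.isUnit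

theorem X_pow_dvd_of_deriv {j : ℕ} {G : PowerSeries ℝ} (h0 : PowerSeries.constantCoeff G = 0)
    (h : PowerSeries.X ^ j ∣ PowerSeries.derivative ℝ G) : PowerSeries.X ^ (j + 1) ∣ G := by
  rw [PowerSeries.X_pow_dvd_iff] at h ⊢
  intro m hm
  rcases m with _ | m
  · simpa using h0
  · have h1 := h m (by omega)
    rw [PowerSeries.coeff_derivative] at h1
    exact (mul_eq_zero.1 h1).resolve_right (by positivity)

theorem X_pow_dvd_deriv {j : ℕ} {G : PowerSeries ℝ} (h : PowerSeries.X ^ (j + 1) ∣ G) :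
    PowerSeries.X ^ j ∣ PowerSeries.derivative ℝ G := by
  rw [PowerSeries.X_pow_dvd_iff] at h ⊢
  intro m hm
  rw [PowerSeries.coeff_derivative, h (m + 1) (by omega), zero_mul]

theorem ord_of_iterates (t k : ℕ) (ht : 1 ≤ t) (z0 : ℝ) (hz : 0 ≤ z0) (j : ℕ) :
    ∀ G : PowerSeries ℝ, (∀ s < j, PowerSeries.constantCoeff ((dd t k z0)^[s] G) = 0) →
      PowerSeries.X ^ j ∣ G := by
  induction j with
  | zero => intro G _; simp
  | succ j ih =>
    intro G h
    have h0 := h 0 (by omega)
    apply X_pow_dvd_of_deriv (by simpa using h0)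
    have h1 : PowerSeries.X ^ j ∣ dd t k z0 G := by
      apply ih
      intro s hs
      have := h (s + 1) (by omega)
      rwa [Function.iterate_succ_apply] at this
    rw [dd] at h1
    exact (isUnit_w t k ht z0 hz).dvd_mul_left.1 h1

theorem dvd_dd (t k : ℕ) (z0 : ℝ) {j : ℕ} {G : PowerSeries ℝ} (h : PowerSeries.X ^ (j + 1) ∣ G) :
    PowerSeries.X ^ j ∣ dd t k z0 G := by
  rw [dd]
  exact (X_pow_dvd_deriv h).mul_left _

theorem dvd_dd_iterate (t k : ℕ) (z0 : ℝ) (J s : ℕ) {G : PowerSeries ℝ} (h : PowerSeries.X ^ J ∣ G) :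
    PowerSeries.X ^ (J - s) ∣ (dd t k z0)^[s] G := by
  induction s with
  | zero => simpa using h
  | succ s ih =>
    rw [Function.iterate_succ_apply']
    rcases Nat.lt_or_ge s J with hs | hs
    · apply dvd_dd
      have : J - (s + 1) + 1 = J - s := by omega
      rw [this]; exact ih
    · have : J - (s + 1) = 0 := by omega
      rw [this, pow_zero]; exact one_dvd _

/-- the matrix of iterated operators -/
noncomputable def MM (t k : ℕ) {r : ℕ} (e : Fin r → ℕ) (A : Fin r → Polynomial ℝ) :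
    Matrix (Fin r) (Fin r) (Polynomial ℝ) :=
  Matrix.of fun s i => (op t k (e i))^[(s : ℕ)] (A i)

theorem det_dvd (t k : ℕ) (ht : 1 ≤ t) (z0 : ℝ) (hz : 0 ≤ z0) {r : ℕ} (e : Fin r → ℕ)
    (he : ∀ i, e i ≤ k) (A : Fin r → Polynomial ℝ) (y : Fin r → ℝ) (i0 : Fin r) (hy : y i0 ≠ 0) (J : ℕ)
    (h : PowerSeries.X ^ J ∣ ∑ i, PowerSeries.C (y i) * (tau z0 (A i) * rt t z0 (e i))) :
    PowerSeries.X ^ (J - (r - 1)) ∣ tau z0 (MM t k e A).det := by
  set N : Matrix (Fin r) (Fin r) (PowerSeries ℝ) := (MM t k e A).map (tau z0) with hN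
  set v : Fin r → PowerSeries ℝ := fun i => PowerSeries.C (y i) * rt t z0 (e i) with hv
  have hrow : ∀ s : Fin r, PowerSeries.X ^ (J - (r - 1)) ∣ (N.mulVec v) s := by
    intro s
    have h1 : (N.mulVec v) s
        = (dd t k z0)^[(s : ℕ)] (∑ i, PowerSeries.C (y i) * (tau z0 (A i) * rt t z0 (e i))) := by
      rw [dd_iterate_sum]
      simp only [Matrix.mulVec, dotProduct]
      apply sum_congr rfl
      intro i _
      rw [← tau_op_iterate t k (e i) ht (he i) z0 hz]
      simp only [hN, hv, MM, Matrix.map_apply, Matrix.of_apply]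
      ring
    rw [h1]
    have h2 := dvd_dd_iterate t k z0 J (s : ℕ) h
    refine (pow_dvd_pow _ ?_).trans h2
    have := s.2
    omega
  have hadj : N.det • v = N.adjugate.mulVec (N.mulVec v) := by
    rw [Matrix.mulVec_mulVec, Matrix.adjugate_mul, Matrix.smul_mulVec, Matrix.one_mulVec]
  have h3 : PowerSeries.X ^ (J - (r - 1)) ∣ N.det * v i0 := by
    have h4 := congrFun hadj i0
    simp only [Pi.smul_apply, smul_eq_mul] at h4
    rw [h4]
    simp only [Matrix.mulVec, dotProduct] at hrow ⊢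
    apply dvd_sum
    intro i _
    exact (hrow i).mul_left _
  have hunit : IsUnit (v i0) := by
    rw [PowerSeries.isUnit_iff_constantCoeff]
    simp only [hv, map_mul, constCoeff_rt, mul_one]
    rw [PowerSeries.constantCoeff_C]
    exact hy.isUnit
  have h5 : N.det = tau z0 (MM t k e A).det := by
    rw [hN, RingHom.map_det]; rfl
  rw [← h5]
  exact hunit.dvd_mul_right.1 h3

/-- divisibility of the expansion means divisibility of the polynomial -/
theorem sub_pow_dvd (z0 : ℝ) (m : ℕ) (D : Polynomial ℝ) (h : PowerSeries.X ^ m ∣ tau z0 D) :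
    (Polynomial.X - Polynomial.C z0) ^ m ∣ D := by
  have h1 : (Polynomial.X ^ m : Polynomial ℝ) ∣ Polynomial.taylor z0 D := by
    rw [Polynomial.X_pow_dvd_iff]
    intro d hd
    rw [PowerSeries.X_pow_dvd_iff] at h
    have := h d hd
    rwa [tau_apply, Polynomial.coeff_coe] at this
  obtain ⟨c, hc⟩ := h1
  refine ⟨Polynomial.taylor (-z0) c, ?_⟩
  have h3 : Polynomial.taylor (-z0) (Polynomial.taylor z0 D) = D := by
    rw [Polynomial.taylor_taylor]; simp
  rw [← h3, hc, Polynomial.taylor_mul, Polynomial.taylor_X_pow]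
  simp [sub_eq_add_neg]

end Pool.Agent.H147
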