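import Pool.Agent.H147_fact.Form

/-!
A bound for the number of points with a given pattern of close integers.
-/

namespace Pool.Agent.H147

open Finset

theorem pattern_bound (t k d j0 : ℕ) (ht : 2 ≤ t) (hk : 1 ≤ k) (hd : 1 ≤ d) (hj0 : j0 ≤ 6 * d)
    (q : Fin 5 → ℕ) (he : ∀ i, t * q i ≤ k) (hqinj : Function.Injective q) (E : ℕ → ℝ)
    (M : Finset ℕ) (hM : ∀ n ∈ M, 4 * k ≤ n)
    (hy : ∀ n ∈ M, ∃ y : Fin 5 → ℤ, (∀ i, y i ≠ 0) ∧ ∀ i, |(y i : ℝ) - GG t (n + t * q i)| ≤ E n)
    (h1 : ∀ n ∈ M, ∀ s < j0, Num1 t k d j0 n s)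
    (h2 : ∀ n ∈ M, ∀ s < j0, Num2 t k d j0 n s (E n)) :
    (6 * d - 4) + M.card * (j0 - 4) ≤ 10 * d + 25 * k := by
  have ht1 : 1 ≤ t := by omega
  obtain ⟨A, hA0, hdeg, hco, hX⟩ := siegel t k d ht1 hk hd (fun i => rt t 0 (t * q i))
    (fun i s => by
      have := rt_coeff_le t ht1 k (t * q i) (he i) s
      exact this)
    (fun i s => IsI_rt t ht1 (t * q i) s)
  -- the family of nonzero polynomials
  set B : Fin 5 → Polynomial ℝ := fun i => (A i).map (Int.castRingHom ℝ) with hB
  have hB0 : ∀ i, B i = 0 ↔ A i = 0 := by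
    intro i
    exact Polynomial.map_eq_zero_iff (RingHom.injective_int (Int.castRingHom ℝ))
  set I : Finset (Fin 5) := univ.filter (fun i => A i ≠ 0) with hI
  set r := I.card with hr
  have hrpos : 0 < r := by
    obtain ⟨i, hi⟩ := hA0
    exact card_pos.2 ⟨i, by simp [hI, hi]⟩
  have hr6 : r ≤ 5 := by
    have := card_le_univ I
    simpa using this
  set g := I.orderEmbOfFin rfl with hg
  have hgI : ∀ j, g j ∈ I := fun j => I.orderEmbOfFin_mem rfl j
  have hIA : ∀ i ∈ I, A i ≠ 0 := fun i hi => (mem_filter.1 hi).2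
  have hgA : ∀ j, A (g j) ≠ 0 := fun j => hIA _ (hgI j)
  have hreidx : ∀ f : Fin 5 → PowerSeries ℝ, (∀ i, A i = 0 → f i = 0) → ∑ i, f i = ∑ j, f (g j) := by
    intro f hf
    have h3 : ∑ i ∈ I, f i = ∑ i, f i := by
      apply sum_subset (subset_univ _)
      intro i _ hi
      apply hf
      by_contra h
      exact hi (by simp [hI, h])
    rw [← h3]
    conv_lhs => rw [← Finset.map_orderEmbOfFin_univ I rfl]
    rw [sum_map]
    rfl
  have key := zero_estimate t k ht hrpos (fun j => t * q (g j)) (fun j => he _)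
    (by
      intro a b hab
      have h4 : q (g a) = q (g b) := Nat.eq_of_mul_eq_mul_left (by omega) hab
      exact g.injective (hqinj h4))
    (fun j => B (g j)) (fun j => by rw [ne_eq, hB0]; exact hgA j) (2 * d)
    (fun j => by
      have h6 : ((A (g j)).map (Int.castRingHom ℝ)).natDegree ≤ (A (g j)).natDegree :=
        Polynomial.natDegree_map_le
      have := hdeg (g j)
      show ((A (g j)).map (Int.castRingHom ℝ)).natDegree ≤ 2 * d
      omega)
    (6 * d) j0
    (by
      have h5 := hreidx (fun i => tau 0 (B i) * rt t 0 (t * q i)) (by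
        intro i hi
        have : B i = 0 := (hB0 i).2 hi
        simp [this])
      rw [← h5]
      have : ∑ i, tau 0 (B i) * rt t 0 (t * q i)
          = ∑ i, (((A i).map (Int.castRingHom ℝ) : Polynomial ℝ) : PowerSeries ℝ) * rt t 0 (t * q i) := by
        apply sum_congr rfl
        intro i _
        rw [tau_zero_apply]
      rw [this]; exact hX)
    (M.image (fun n : ℕ => 1 / (n : ℝ)))
    (by
      intro z hz
      obtain ⟨n, hn, rfl⟩ := mem_image.1 hz
      have h4 := hM n hn
      have : (0 : ℝ) < n := by exact_mod_cast (by omega : 0 < n)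
      positivity)
    (by
      intro z hz
      obtain ⟨n, hn, rfl⟩ := mem_image.1 hz
      have h4 := hM n hn
      have hn1 : 1 ≤ n := by omega
      have hnpos : (0 : ℝ) < n := by exact_mod_cast hn1
      obtain ⟨y, hy0, hyE⟩ := hy n hn
      refine ⟨fun j => (1 / (n : ℝ)) ^ (q (g j)) * (y (g j) : ℝ), ⟨⟨0, hrpos⟩, ?_⟩, ?_⟩
      · have h5 : (y (g ⟨0, hrpos⟩) : ℝ) ≠ 0 := by exact_mod_cast hy0 _
        have h6 : (1 / (n : ℝ)) ^ (q (g ⟨0, hrpos⟩)) ≠ 0 := by positivity
        exact mul_ne_zero h6 h5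
      · have h5 := hreidx (fun i => PowerSeries.C ((1 / (n : ℝ)) ^ (q i) * (y i : ℝ))
            * (tau (1 / (n : ℝ)) (B i) * rt t (1 / (n : ℝ)) (t * q i))) (by
          intro i hi
          have : B i = 0 := (hB0 i).2 hi
          simp [this])
        rw [← h5]
        apply ord_of_iterates t k ht1 (1 / (n : ℝ)) (by positivity)
        intro s hs
        rw [dd_iterate_sum, map_sum]
        have h6 := forms_vanish t k d j0 ht hk hj0 q he A hdeg hco hX n h4 y (E n) hyE s hs
          (h1 n hn s hs) (h2 n hn s hs)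
        rw [← h6]
        apply sum_congr rfl
        intro i _
        rw [← tau_op_iterate t k _ ht1 (he i) (1 / (n : ℝ)) (by positivity)]
        simp only [map_mul PowerSeries.constantCoeff, constCoeff_rt, constCoeff_tau,
          PowerSeries.constantCoeff_C]
        simp only [hB]
        ring)
  have hcard : (M.image (fun n : ℕ => 1 / (n : ℝ))).card = M.card := by
    apply card_image_of_injOn
    intro a ha b hb hab
    have h3 : (1 : ℝ) / a = 1 / b := hab
    have : (a : ℝ) = b := by
      rw [one_div, one_div] at h3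
      exact inv_injective h3
    exact_mod_cast this
  rw [hcard] at key
  have h7 : r * (2 * d + r * k) ≤ 5 * (2 * d + 5 * k) := by
    apply Nat.mul_le_mul hr6
    have : r * k ≤ 5 * k := Nat.mul_le_mul_right _ hr6
    omega
  have h8 : M.card * (j0 - 4) ≤ M.card * (j0 - (r - 1)) := by
    apply Nat.mul_le_mul_left
    omega
  have h9 : 6 * d - 4 ≤ 6 * d - (r - 1) := by omega
  omega

end Pool.Agent.H147
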