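import Pool.Agent.H147_fact.ConstNum

/-!
If `P(x) = c n!` for a polynomial `P` of degree `t ≥ 2`, then a constant multiple of `G t n` is
close to an integer.
-/

namespace Pool.Agent.H147

open Finset

theorem poly_abs_le (Q : Polynomial ℤ) (m : ℕ) (hm : Q.natDegree ≤ m) (x : ℤ) :
    |((Q.eval x : ℤ) : ℝ)| ≤ (∑ i ∈ range (m + 1), |((Q.coeff i : ℤ) : ℝ)|) * (max 1 |(x : ℝ)|) ^ m := by
  rw [Polynomial.eval_eq_sum_range' (Nat.lt_succ_of_le hm)]
  push_cast
  refine (abs_sum_le_sum_abs _ _).trans ?_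
  rw [sum_mul]
  apply sum_le_sum
  intro i hi
  have hi' : i ≤ m := by have := mem_range.1 hi; omega
  rw [abs_mul, abs_pow]
  apply mul_le_mul_of_nonneg_left _ (abs_nonneg _)
  calc |(x : ℝ)| ^ i ≤ (max 1 |(x : ℝ)|) ^ i := pow_le_pow_left₀ (abs_nonneg _) (le_max_right _ _) _
    _ ≤ _ := pow_le_pow_right₀ (le_max_left _ _) hi'

theorem rem_degree (P : Polynomial ℤ) (t : ℕ) (ht : 2 ≤ t) (hdeg : P.natDegree = t) :
    ((Polynomial.C (P.leadingCoeff * t) * Polynomial.X + Polynomial.C (P.coeff (t - 1))) ^ t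
      - Polynomial.C ((t : ℤ) ^ t * P.leadingCoeff ^ (t - 1)) * P).natDegree ≤ t - 2 := by
  set a := P.leadingCoeff with ha
  set b := P.coeff (t - 1) with hb
  set u : ℤ := a * t with hu
  have hL : (Polynomial.C u * Polynomial.X + Polynomial.C b) ^ t
      = ((Polynomial.X + Polynomial.C b) ^ t).comp (Polynomial.C u * Polynomial.X) := by
    rw [Polynomial.pow_comp, Polynomial.add_comp, Polynomial.X_comp, Polynomial.C_comp]
  have hcoeff : ∀ i, ((Polynomial.C u * Polynomial.X + Polynomial.C b) ^ t).coeff i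
      = b ^ (t - i) * (t.choose i : ℤ) * u ^ i := by
    intro i
    rw [hL, Polynomial.comp_C_mul_X_coeff, Polynomial.coeff_X_add_C_pow]
  rw [Polynomial.natDegree_le_iff_coeff_eq_zero]
  intro i hi
  rw [Polynomial.coeff_sub, hcoeff, Polynomial.coeff_C_mul]
  have hPt : P.coeff t = a := by rw [ha, Polynomial.leadingCoeff, hdeg]
  rcases Nat.lt_trichotomy i t with h1 | h1 | h1
  · have h2 : i = t - 1 := by omega
    rw [h2, ← hb]
    have h3 : t - (t - 1) = 1 := by omega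
    have h4 : t.choose (t - 1) = t := by
      have := Nat.choose_symm (n := t) (k := 1) (by omega)
      rw [Nat.choose_one_right] at this
      exact this
    rw [h3, h4, pow_one, hu, mul_pow]
    have h5 : (t : ℤ) ^ t = t * (t : ℤ) ^ (t - 1) := by
      rw [← pow_succ']; congr 1; omega
    rw [h5]; ring
  · rw [h1, hPt, hu, Nat.sub_self, Nat.choose_self, mul_pow]
    have h5 : a ^ t = a ^ (t - 1) * a := by
      rw [← pow_succ]; congr 1; omega
    rw [h5]; push_cast; ring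
  · rw [Nat.choose_eq_zero_of_lt h1, Polynomial.coeff_eq_zero_of_natDegree_lt (by omega)]
    simp

theorem near_poly (P : Polynomial ℤ) (t : ℕ) (ht : 2 ≤ t) (hdeg : P.natDegree = t) (c : ℕ) (hc : 1 ≤ c) :
    ∃ lam : ℝ, 1 ≤ lam ∧ ∃ n0 : ℕ, ∀ n : ℕ, n0 ≤ n → ∀ x : ℤ, P.eval x = (c : ℤ) * n.factorial →
      NearC lam t n := by
  set a := P.leadingCoeff with ha
  set b := P.coeff (t - 1) with hb
  have hP0 : P ≠ 0 := by
    rintro rfl
    simp at hdeg; omega
  have ha0 : a ≠ 0 := Polynomial.leadingCoeff_ne_zero.2 hP0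
  have habs1 : (1 : ℝ) ≤ |(a : ℝ)| := by
    have : (1 : ℤ) ≤ |a| := Int.one_le_abs ha0
    exact_mod_cast this
  set R := (Polynomial.C (a * t) * Polynomial.X + Polynomial.C b) ^ t
      - Polynomial.C ((t : ℤ) ^ t * a ^ (t - 1)) * P with hR
  have hRdeg : R.natDegree ≤ t - 2 := rem_degree P t ht hdeg
  set C0 : ℝ := ∑ i ∈ range (t - 2 + 1), |((R.coeff i : ℤ) : ℝ)| with hC0
  have hC00 : 0 ≤ C0 := by positivity
  set C3 : ℝ := ∑ i ∈ range (t + 1), |((P.coeff i : ℤ) : ℝ)| with hC3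
  have hC30 : 0 ≤ C3 := by positivity
  have htr : (0 : ℝ) < t := by exact_mod_cast (by omega : 0 < t)
  have ht1 : (1 : ℝ) ≤ t := by exact_mod_cast (by omega : 1 ≤ t)
  set lam : ℝ := (|(a : ℝ)| ^ (t - 1) * c) ^ (1 / (t : ℝ)) with hlam
  have hcr : (1 : ℝ) ≤ c := by exact_mod_cast hc
  have hbase : (1 : ℝ) ≤ |(a : ℝ)| ^ (t - 1) * c := one_le_mul_of_one_le_of_one_le (one_le_pow₀ habs1) hcr
  have hlam1 : 1 ≤ lam := Real.one_le_rpow hbase (by positivity)
  have hlam0 : 0 < lam := by linarith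
  have hlamt : lam ^ t = |(a : ℝ)| ^ (t - 1) * c := by
    rw [hlam, ← Real.rpow_natCast, ← Real.rpow_mul (by positivity), one_div_mul_cancel htr.ne',
      Real.rpow_one]
  -- constants
  set X0 : ℝ := 2 * (|(b : ℝ)| + 1) with hX0
  set C1 : ℝ := C0 * 2 ^ (t - 1) with hC1
  have hC10 : 0 ≤ C1 := by positivity
  set C2 : ℝ := |(a : ℝ)| * t + |(b : ℝ)| + C1 with hC2
  have hC20 : 0 ≤ C2 := by positivity
  obtain ⟨n1, hn1⟩ : ∃ n1 : ℕ, ∀ n : ℕ, n1 ≤ n → C3 * X0 ^ t < n.factorial := by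
    obtain ⟨m, hm⟩ := exists_nat_gt (C3 * X0 ^ t)
    refine ⟨m, fun n hn => hm.trans_le ?_⟩
    have : n ≤ n.factorial := Nat.self_le_factorial n
    exact_mod_cast hn.trans this
  obtain ⟨n2, hn2⟩ := exists_nat_gt (C1 * C2)
  refine ⟨lam, hlam1, max (max n1 n2) 1, fun n hn x hx => ?_⟩
  have h1 : n1 ≤ n := le_trans (le_trans (le_max_left _ _) (le_max_left _ _)) hn
  have h2 : n2 ≤ n := le_trans (le_trans (le_max_right _ _) (le_max_left _ _)) hn
  have h3 : 1 ≤ n := le_trans (le_max_right _ _) hn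
  set X : ℝ := max 1 |(x : ℝ)| with hX
  have hX1 : 1 ≤ X := le_max_left _ _
  have hXpos : 0 < X := by linarith
  have hf0 : (0 : ℝ) < n.factorial := by exact_mod_cast n.factorial_pos
  have hxr : ((P.eval x : ℤ) : ℝ) = c * n.factorial := by rw [hx]; push_cast; ring
  have hXbig : X0 ≤ X := by
    by_contra hcon
    push Not at hcon
    have e1 := poly_abs_le P t hdeg.le x
    rw [hxr, abs_of_pos (by positivity)] at e1
    have e2 : X ^ t ≤ X0 ^ t := pow_le_pow_left₀ hXpos.le hcon.le _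
    have e3 := hn1 n h1
    have e4 : C3 * X ^ t ≤ C3 * X0 ^ t := mul_le_mul_of_nonneg_left e2 hC30
    have e5 : (n.factorial : ℝ) ≤ c * n.factorial := by nlinarith
    linarith
  have hXx : X = |(x : ℝ)| := by
    rw [hX]
    apply max_eq_right
    by_contra hcon
    push Not at hcon
    have : X = 1 := max_eq_left hcon.le
    have hb0 := abs_nonneg (b : ℝ)
    linarith
  -- the integer
  set y : ℤ := |a * t * x + b| with hy
  have hyr : (y : ℝ) = |(a : ℝ) * t * x + b| := by rw [hy]; push_cast; ring_nf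
  have hyX : X / 2 ≤ y := by
    rw [hyr]
    have e1 : |(a : ℝ) * t * x| ≤ |(a : ℝ) * t * x + b| + |(b : ℝ)| := by
      have := abs_sub ((a : ℝ) * t * x + b) b
      simpa using this
    have e2 : X ≤ |(a : ℝ) * t * x| := by
      rw [abs_mul, abs_mul, hXx, abs_of_pos htr]
      have : 1 ≤ |(a : ℝ)| * t := one_le_mul_of_one_le_of_one_le habs1 ht1
      have h0 := abs_nonneg (x : ℝ)
      nlinarith
    have hb0 := abs_nonneg (b : ℝ)
    linarith
  have hypos : (0 : ℝ) < y := by linarith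
  have hyle : (y : ℝ) ≤ (|(a : ℝ)| * t + |(b : ℝ)|) * X := by
    rw [hyr]
    refine (abs_add_le _ _).trans ?_
    rw [abs_mul, abs_mul, abs_of_pos htr, add_mul, ← hXx]
    have hb0 := abs_nonneg (b : ℝ)
    have : |(b : ℝ)| ≤ |(b : ℝ)| * X := le_mul_of_one_le_right hb0 hX1
    linarith
  set G : ℝ := lam * GG t n with hG
  have hGG0 := GG_pos t n (by omega)
  have hG0 : 0 < G := by positivity
  have hGt : G ^ t = (t : ℝ) ^ t * (|(a : ℝ)| ^ (t - 1) * (c * n.factorial)) := by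
    rw [hG, mul_pow, hlamt]
    have : GG t n ^ t = (t : ℝ) ^ t * n.factorial := by
      unfold GG
      rw [mul_pow, ← Real.rpow_natCast ((n.factorial : ℝ) ^ (1 / (t : ℝ))), ← Real.rpow_mul hf0.le,
        one_div_mul_cancel htr.ne', Real.rpow_one]
    rw [this]; ring
  have hyt : |(y : ℝ) ^ t - G ^ t| ≤ C0 * X ^ (t - 2) := by
    have e1 : (((a * t * x + b) ^ t : ℤ) : ℝ) = (t : ℝ) ^ t * (a : ℝ) ^ (t - 1) * (c * n.factorial)
        + ((R.eval x : ℤ) : ℝ) := by
      have e2 : R.eval x = (a * t * x + b) ^ t - (t : ℤ) ^ t * a ^ (t - 1) * P.eval x := by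
        rw [hR]
        simp only [Polynomial.eval_sub, Polynomial.eval_pow, Polynomial.eval_add, Polynomial.eval_mul,
          Polynomial.eval_C, Polynomial.eval_X]
      rw [e2]
      push_cast
      rw [hxr]; ring
    have e3 : (y : ℝ) ^ t = |(t : ℝ) ^ t * (a : ℝ) ^ (t - 1) * (c * n.factorial) + ((R.eval x : ℤ) : ℝ)| := by
      rw [← e1, hyr]
      push_cast
      rw [abs_pow]
    have e4 : G ^ t = |(t : ℝ) ^ t * (a : ℝ) ^ (t - 1) * (c * n.factorial)| := by
      rw [hGt, abs_mul, abs_mul, abs_pow, abs_pow, abs_of_pos htr, abs_of_pos (by positivity : (0 : ℝ) < c * n.factorial)]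
      ring
    rw [e3, e4]
    refine (abs_abs_sub_abs_le _ _).trans ?_
    rw [add_sub_cancel_left]
    exact poly_abs_le R (t - 2) hRdeg x
  have hdiff : |(y : ℝ) - G| * (y : ℝ) ^ (t - 1) ≤ |(y : ℝ) ^ t - G ^ t| := by
    have e1 : (y : ℝ) ^ t - G ^ t = (∑ i ∈ range t, (y : ℝ) ^ i * G ^ (t - 1 - i)) * (y - G) :=
      (Commute.all (y : ℝ) G).geom_sum₂_mul t |>.symm
    rw [e1, abs_mul, mul_comm |(y : ℝ) - G|]
    apply mul_le_mul_of_nonneg_right _ (abs_nonneg _)
    refine le_trans ?_ (le_abs_self _)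
    have e2 : (y : ℝ) ^ (t - 1) * G ^ (t - 1 - (t - 1)) ≤ ∑ i ∈ range t, (y : ℝ) ^ i * G ^ (t - 1 - i) :=
      single_le_sum (f := fun i => (y : ℝ) ^ i * G ^ (t - 1 - i)) (fun i _ => by positivity)
        (mem_range.2 (by omega : t - 1 < t))
    simpa using e2
  have hyG1 : |(y : ℝ) - G| * X ≤ C1 := by
    have e1 : |(y : ℝ) - G| * (X / 2) ^ (t - 1) ≤ C0 * X ^ (t - 2) := by
      refine le_trans ?_ (hdiff.trans hyt)
      gcongr
    have e2 : X ^ (t - 1) = X ^ (t - 2) * X := by rw [← pow_succ]; congr 1; omega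
    rw [div_pow, e2] at e1
    have e3 : (|(y : ℝ) - G| * X) * X ^ (t - 2) ≤ C1 * X ^ (t - 2) := by
      have e4 : |(y : ℝ) - G| * (X ^ (t - 2) * X / 2 ^ (t - 1)) * 2 ^ (t - 1)
          = (|(y : ℝ) - G| * X) * X ^ (t - 2) := by field_simp
      rw [← e4, hC1]
      calc |(y : ℝ) - G| * (X ^ (t - 2) * X / 2 ^ (t - 1)) * 2 ^ (t - 1)
          ≤ C0 * X ^ (t - 2) * 2 ^ (t - 1) := by gcongr
        _ = _ := by ring
    exact le_of_mul_le_mul_right e3 (by positivity)
  have hGX : G ≤ C2 * X := by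
    have e1 : |(y : ℝ) - G| ≤ C1 * X := by
      have e2 : |(y : ℝ) - G| ≤ |(y : ℝ) - G| * X := le_mul_of_one_le_right (abs_nonneg _) hX1
      have e3 : C1 ≤ C1 * X := le_mul_of_one_le_right hC10 hX1
      linarith
    have e2 := (abs_le.1 e1).1
    rw [hC2]
    linarith
  refine ⟨y, by exact_mod_cast hypos, ?_⟩
  rw [← hG, le_div_iff₀ hGG0]
  have hGGG : GG t n ≤ G := by rw [hG]; nlinarith
  calc |(y : ℝ) - G| * GG t n ≤ |(y : ℝ) - G| * (C2 * X) := by
        apply mul_le_mul_of_nonneg_left (hGGG.trans hGX) (abs_nonneg _)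
    _ = (|(y : ℝ) - G| * X) * C2 := by ring
    _ ≤ C1 * C2 := by gcongr
    _ ≤ n := by
        have : (n2 : ℝ) ≤ n := by exact_mod_cast h2
        linarith
    _ ≤ (n : ℝ) ^ 4 := by
        have : (1 : ℝ) ≤ n := by exact_mod_cast h3
        calc (n : ℝ) = (n : ℝ) ^ 1 := (pow_one _).symm
          _ ≤ (n : ℝ) ^ 4 := pow_le_pow_right₀ this (by norm_num)

end Pool.Agent.H147
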