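import Mathlib

/-!
The power series `(1 + z) ^ (1 / t)`: its coefficients are at most one in absolute value and become
integers after multiplication by `t ^ (2 s)`; its `t`-th power is `1 + z`.
-/

namespace Pool.Agent.H147

open PowerSeries Finset

/-- the coefficients of `(1 + z) ^ (1 / t)` -/
noncomputable def bc (t s : ℕ) : ℝ := ∏ j ∈ range s, ((1 / (t : ℝ) - j) / (j + 1))

theorem bc_zero (t : ℕ) : bc t 0 = 1 := by simp [bc]

theorem bc_succ (t s : ℕ) : bc t (s + 1) * (s + 1) = bc t s * (1 / (t : ℝ) - s) := by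
  have h : ((s : ℝ) + 1) ≠ 0 := by positivity
  rw [bc, prod_range_succ, ← bc]
  field_simp

theorem abs_bc_le (t s : ℕ) (ht : 1 ≤ t) : |bc t s| ≤ 1 := by
  rw [bc, Finset.abs_prod]
  apply Finset.prod_le_one
  · intro i _; exact abs_nonneg _
  · intro i _
    have ht' : (1 : ℝ) ≤ t := by exact_mod_cast ht
    have h1 : 1 / (t : ℝ) ≤ 1 := by
      rw [div_le_one (by linarith)]; exact ht'
    have h0 : 0 < 1 / (t : ℝ) := by positivity
    have hi : (0 : ℝ) ≤ i := by positivity
    rw [abs_div, abs_of_pos (by positivity : (0 : ℝ) < (i : ℝ) + 1), div_le_one (by positivity),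
      abs_le]
    constructor <;> linarith

/-- divisibility behind the integrality -/
theorem fact_dvd (t s : ℕ) (_ht : 1 ≤ t) :
    (s.factorial : ℤ) ∣ (t : ℤ) ^ s * ∏ j ∈ range s, (1 - (j : ℤ) * t) := by
  rw [Int.natCast_dvd]
  apply (Nat.dvd_iff_prime_pow_dvd_dvd _ _).2
  intro p k hp hpk
  rw [← Int.natCast_dvd_natCast, Int.natCast_natAbs, dvd_abs]
  haveI : Fact p.Prime := ⟨hp⟩
  by_cases hpt : p ∣ t
  · have hk : k ≤ s := by
      have h1 : k ≤ padicValNat p s.factorial := by
        rwa [← padicValNat_dvd_iff_le (Nat.factorial_ne_zero s)]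
      have h2 := sub_one_mul_padicValNat_factorial (p := p) s
      have h3 : padicValNat p s.factorial ≤ (p - 1) * padicValNat p s.factorial := by
        have : 1 ≤ p - 1 := by have := hp.two_le; omega
        nlinarith [Nat.zero_le (padicValNat p s.factorial)]
      omega
    have h4 : ((p : ℤ)) ^ k ∣ (t : ℤ) ^ s :=
      (pow_dvd_pow _ hk).trans (pow_dvd_pow_of_dvd (by exact_mod_cast hpt) s)
    push_cast
    exact h4.mul_right _
  · -- `t` is invertible modulo `p ^ k`
    have hcop : Nat.Coprime t (p ^ k) := by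
      apply Nat.Coprime.pow_right
      exact ((Nat.Prime.coprime_iff_not_dvd hp).2 hpt).symm
    have hcopZ : IsCoprime (t : ℤ) ((p ^ k : ℕ) : ℤ) := Nat.isCoprime_iff_coprime.2 hcop
    obtain ⟨a, b, hab⟩ := hcopZ
    -- choose a natural number `u` congruent to `a`
    set q : ℤ := ((p ^ k : ℕ) : ℤ) with hq
    have hqpos : 0 < q := by rw [hq]; exact_mod_cast pow_pos hp.pos k
    obtain ⟨u, hu⟩ : ∃ u : ℕ, (u : ℤ) ≡ a [ZMOD q] := by
      refine ⟨(a % q).toNat, ?_⟩
      rw [Int.toNat_of_nonneg (Int.emod_nonneg _ hqpos.ne')]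
      exact Int.mod_modEq a q
    have hut : (u : ℤ) * t ≡ 1 [ZMOD q] := by
      have h1 : (u : ℤ) * t ≡ a * t [ZMOD q] := hu.mul_right _
      refine h1.trans ?_
      refine (Int.modEq_iff_dvd).2 ⟨b, ?_⟩
      linear_combination -hab
    have hprod : (u : ℤ) ^ s * ∏ j ∈ range s, (1 - (j : ℤ) * t) ≡ ∏ j ∈ range s, ((u : ℤ) - j) [ZMOD q] := by
      have h1 : (u : ℤ) ^ s * ∏ j ∈ range s, (1 - (j : ℤ) * t) = ∏ j ∈ range s, ((u : ℤ) * (1 - (j : ℤ) * t)) := by
        rw [prod_mul_distrib]; simp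
      rw [h1]
      apply Int.ModEq.prod
      intro j _
      have h2 : (u : ℤ) * (1 - (j : ℤ) * t) = u - j * (u * t) := by ring
      rw [h2]
      have h3 : (j : ℤ) * (u * t) ≡ j * 1 [ZMOD q] := hut.mul_left _
      simpa using (Int.ModEq.refl (u : ℤ)).sub h3
    have hdesc : (∏ j ∈ range s, ((u : ℤ) - j)) = (u.descFactorial s : ℤ) := by
      rw [← descPochhammer_eval_eq_descFactorial, descPochhammer_eval_eq_prod_range]
    have hqs : q ∣ (s.factorial : ℤ) := by rw [hq]; exact_mod_cast hpk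
    have hqd : q ∣ ∏ j ∈ range s, ((u : ℤ) - j) := by
      rw [hdesc]
      exact hqs.trans (by exact_mod_cast Nat.factorial_dvd_descFactorial u s)
    have hq2 : q ∣ (u : ℤ) ^ s * ∏ j ∈ range s, (1 - (j : ℤ) * t) := by
      have := hprod.dvd
      have h5 := (dvd_sub_right hqd).1 (this)
      exact h5
    have hcu : IsCoprime q ((u : ℤ) ^ s) := by
      apply IsCoprime.pow_right
      obtain ⟨c, hc⟩ := hut.dvd
      exact ⟨c, t, by linear_combination -hc⟩
    have h6 : q ∣ ∏ j ∈ range s, (1 - (j : ℤ) * t) := hcu.dvd_of_dvd_mul_left hq2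
    exact h6.mul_left _

theorem bc_int (t s : ℕ) (ht : 1 ≤ t) : ∃ z : ℤ, (t : ℝ) ^ (2 * s) * bc t s = z := by
  obtain ⟨z, hz⟩ := fact_dvd t s ht
  refine ⟨z, ?_⟩
  have ht0 : (t : ℝ) ≠ 0 := by positivity
  have h3 : (s.factorial : ℝ) ≠ 0 := by positivity
  have h1 : bc t s * (t : ℝ) ^ s * s.factorial = ∏ j ∈ range s, (1 - (j : ℝ) * t) := by
    have h2 : (∏ j ∈ range s, ((j : ℝ) + 1)) = s.factorial := by
      rw [← Finset.prod_range_add_one_eq_factorial]; push_cast; rfl
    have h4 : ((t : ℝ)) ^ s = ∏ _j ∈ range s, (t : ℝ) := by simp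
    rw [← h2, h4, bc, ← prod_mul_distrib, ← prod_mul_distrib]
    apply prod_congr rfl
    intro j _
    have : ((j : ℝ) + 1) ≠ 0 := by positivity
    field_simp
  have hz' : (t : ℝ) ^ s * ∏ j ∈ range s, (1 - (j : ℝ) * t) = s.factorial * z := by
    exact_mod_cast hz
  have h5 : ((t : ℝ) ^ (2 * s) * bc t s) * s.factorial = z * s.factorial := by
    rw [mul_comm (z : ℝ), ← hz', ← h1]; ring
  exact mul_right_cancel₀ h3 h5

/-- the series `(1 + z) ^ (1 / t)` -/
noncomputable def beta (t : ℕ) : ℝ⟦X⟧ := PowerSeries.mk (bc t)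

theorem beta_ode (t : ℕ) : (1 + X) * d⁄dX ℝ (beta t) = C (1 / (t : ℝ)) * beta t := by
  ext s
  rw [add_mul, one_mul, map_add, coeff_C_mul]
  rcases s with _ | s
  · simp only [coeff_zero_X_mul, add_zero, PowerSeries.coeff_derivative, beta, coeff_mk]
    have := bc_succ t 0
    simp [bc_zero] at this ⊢
    linarith
  · rw [coeff_succ_X_mul]
    simp only [PowerSeries.coeff_derivative, beta, coeff_mk]
    have := bc_succ t (s + 1)
    push_cast at this ⊢
    linarith

theorem beta_pow (t : ℕ) (ht : 1 ≤ t) : beta t ^ t = 1 + X := by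
  have ht0 : (t : ℝ) ≠ 0 := by positivity
  set H : ℝ⟦X⟧ := beta t ^ t with hH
  have hode : (1 + X) * d⁄dX ℝ H = H := by
    rw [hH, Derivation.leibniz_pow]
    have h1 : beta t ^ t = beta t ^ (t - 1) * beta t := by
      rw [← pow_succ]; congr 1; omega
    rw [h1]
    simp only [smul_eq_mul, nsmul_eq_mul]
    have h2 : (1 + X) * ((t : ℝ⟦X⟧) * (beta t ^ (t - 1) * d⁄dX ℝ (beta t)))
        = (t : ℝ⟦X⟧) * beta t ^ (t - 1) * ((1 + X) * d⁄dX ℝ (beta t)) := by ring
    rw [h2, beta_ode]
    have h3 : (t : ℝ⟦X⟧) * C (1 / (t : ℝ)) = 1 := by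
      have : (t : ℝ⟦X⟧) = C (t : ℝ) := by simp
      rw [this, ← map_mul]
      rw [mul_one_div_cancel ht0, map_one]
    calc (t : ℝ⟦X⟧) * beta t ^ (t - 1) * (C (1 / (t : ℝ)) * beta t)
        = ((t : ℝ⟦X⟧) * C (1 / (t : ℝ))) * (beta t ^ (t - 1) * beta t) := by ring
      _ = _ := by rw [h3, one_mul]
  have h0 : coeff 0 H = 1 := by
    rw [hH]; simp [beta, bc_zero]
  have hrec : ∀ s : ℕ, coeff (s + 1) H * (s + 1) = (1 - s) * coeff s H := by
    intro s
    have h1 := congrArg (coeff s) hode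
    rw [add_mul, one_mul, map_add] at h1
    rcases s with _ | s
    · simp only [coeff_zero_X_mul, add_zero, PowerSeries.coeff_derivative] at h1
      simp at h1 ⊢; linarith
    · rw [coeff_succ_X_mul] at h1
      simp only [PowerSeries.coeff_derivative] at h1
      push_cast at h1 ⊢
      linarith
  have h1 : coeff 1 H = 1 := by
    have := hrec 0
    simp at this
    rw [this]; simpa using h0
  have h2 : ∀ s : ℕ, coeff (s + 2) H = 0 := by
    intro s
    induction s with
    | zero =>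
      have := hrec 1
      norm_num at this
      simpa using this
    | succ s ih =>
      have := hrec (s + 2)
      rw [ih, mul_zero] at this
      have h5 : (((s + 2 : ℕ) : ℝ) + 1) ≠ 0 := by positivity
      have := (mul_eq_zero.1 this).resolve_right h5
      simpa using this
  ext s
  rcases s with _ | _ | s
  · simpa using h0
  · simpa using h1
  · rw [h2]
    simp [coeff_one, coeff_X]

end Pool.Agent.H147
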