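import Pool.Agent.H147_fact.Density
import Pool.Agent.H147_fact.CountI

/-!
The number of exceptional integers in short intervals.
-/

namespace Pool.Agent.H147

open Finset Filter

theorem bound_t_interval (N t H : ℕ) (hHN : H ≤ N) (hL1 : 10000 ≤ Real.log N) (ht : 2 ≤ t)
    (hlt : Real.log (2 * t) ≤ Real.log N / 2000) (hbig : 10 ^ 60 * t ^ 12 ≤ N)
    (S : Finset ℕ) (hS : ∀ n ∈ S, 50 * N ≤ 51 * n ∧ N - H < n ∧ n ≤ N ∧ Near t n) :
    (S.card : ℝ) ≤ 2016 * ((t : ℝ) ^ (1 / 6 : ℝ) * (H : ℝ) ^ (5 / 6 : ℝ)) := by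
  have htpos : (0 : ℝ) < t := by exact_mod_cast (by omega : 0 < t)
  have hcardH : S.card ≤ H := by
    have : S ⊆ Ioc (N - H) N := by
      intro n hn
      obtain ⟨-, h2, h3, -⟩ := hS n hn
      exact mem_Ioc.2 ⟨h2, h3⟩
    have h2 := card_le_card this
    rw [Nat.card_Ioc] at h2
    omega
  rcases Nat.eq_zero_or_pos H with hH0 | hHpos
  · have : S.card = 0 := by omega
    rw [this]; push_cast; positivity
  have hHpos' : (0 : ℝ) < H := by exact_mod_cast hHpos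
  set x : ℝ := ((H : ℝ) / t) ^ (1 / 6 : ℝ) with hx
  have hxpos : 0 < x := by positivity
  have hx6 : x ^ 6 = H / t := by
    rw [hx, ← Real.rpow_natCast, ← Real.rpow_mul (by positivity)]
    norm_num
  have htx6 : t * x ^ 6 = H := by rw [hx6]; field_simp
  have hx5 : (t : ℝ) * x ^ 5 = (t : ℝ) ^ (1 / 6 : ℝ) * (H : ℝ) ^ (5 / 6 : ℝ) := by
    have h1 : x ^ 5 = ((H : ℝ) / t) ^ (5 / 6 : ℝ) := by
      rw [hx, ← Real.rpow_natCast, ← Real.rpow_mul (by positivity)]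
      norm_num
    rw [h1, Real.div_rpow hHpos'.le htpos.le]
    have h2 : (t : ℝ) = (t : ℝ) ^ (1 / 6 : ℝ) * (t : ℝ) ^ (5 / 6 : ℝ) := by
      rw [← Real.rpow_add htpos]; norm_num
    have h3 : (t : ℝ) ^ (5 / 6 : ℝ) ≠ 0 := by positivity
    rw [mul_div_assoc', div_eq_iff h3]
    linear_combination (H : ℝ) ^ (5 / 6 : ℝ) * h2
  rw [← hx5]
  by_cases hsmall : x < 1001
  · have h1 : (S.card : ℝ) ≤ H := by exact_mod_cast hcardH
    have h2 : (H : ℝ) ≤ 1001 * (t * x ^ 5) := by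
      rw [← htx6]
      calc (t : ℝ) * x ^ 6 = (t * x ^ 5) * x := by ring
        _ ≤ (t * x ^ 5) * 1001 := by gcongr
        _ = _ := by ring
    have h3 : 0 ≤ (t : ℝ) * x ^ 5 := by positivity
    linarith
  push Not at hsmall
  set K := ⌊x⌋₊ with hKdef
  have hKx : (K : ℝ) ≤ x := Nat.floor_le hxpos.le
  have hxK : x < K + 1 := Nat.lt_floor_add_one x
  have hK : 1000 ≤ K := by
    have : (1000 : ℝ) < K + 1 := by linarith
    have : 1000 < K + 1 := by exact_mod_cast this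
    omega
  have hNpos : 0 < N := by omega
  have hKH : t * K ^ 6 ≤ H := by
    have h1 : (K : ℝ) ^ 6 ≤ x ^ 6 := by gcongr
    have h2 : (t : ℝ) * K ^ 6 ≤ H := by
      rw [← htx6]; gcongr
    exact_mod_cast h2
  have hKN : t * K ^ 6 ≤ N := hKH.trans hHN
  have hbig2 : 10000000 * (t ^ 2 * K) ≤ N := by
    have h1 : (10000000 * (t ^ 2 * K)) ^ 6 ≤ N ^ 6 := by
      calc (10000000 * (t ^ 2 * K)) ^ 6 = (10 ^ 42 * t ^ 11) * (t * K ^ 6) := by ring
        _ ≤ N * N := by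
          apply Nat.mul_le_mul _ hKN
          have : t ^ 11 ≤ t ^ 12 := Nat.pow_le_pow_right (by omega) (by norm_num)
          omega
        _ = N ^ 2 := by ring
        _ ≤ N ^ 6 := Nat.pow_le_pow_right hNpos (by norm_num)
    exact le_of_pow_le_pow_left₀ (by norm_num) (by omega) h1
  have hdk : 1000000 * (t * K + 1) ≤ 2 * N / (5 * t) := by
    rw [Nat.le_div_iff_mul_le (by omega)]
    have h1 : 1 ≤ t * K := by nlinarith
    have h2 : 1000000 * (t * K + 1) ≤ 1000000 * (2 * (t * K)) := by omega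
    calc 1000000 * (t * K + 1) * (5 * t) ≤ 1000000 * (2 * (t * K)) * (5 * t) := Nat.mul_le_mul_right _ h2
      _ = 10000000 * (t ^ 2 * K) := by ring
      _ ≤ 2 * N := by omega
  have key := count_S_interval t K N H (1000 * (t * K + 1)) (by omega) (by omega) hHN S
    (fun n hn => ⟨(hS n hn).2.1, (hS n hn).2.2.1⟩)
    (fun J hJ hJK => pattern_count N t K _ hL1 ht hK hKN rfl hdk hlt S
      (fun n hn => ⟨(hS n hn).1, (hS n hn).2.2.1, (hS n hn).2.2.2⟩) J hJ hJK)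
  have key' : (S.card : ℝ) ≤ 4 * (t * ((H : ℝ) / (t * K) + 2)) + K ^ 4 * (1000 * (t * K + 1)) := by
    have h1 : (S.card : ℝ) ≤ ((4 * (t * (H / (t * K) + 2)) + K ^ 4 * (1000 * (t * K + 1)) : ℕ) : ℝ) := by
      exact_mod_cast key
    refine h1.trans ?_
    push_cast
    have h2 : ((H / (t * K) : ℕ) : ℝ) ≤ (H : ℝ) / (t * K) := by
      have := @Nat.cast_div_le ℝ _ _ _ H (t * K)
      push_cast at this
      exact this
    gcongr
  have hKpos : (0 : ℝ) < K := by exact_mod_cast (by omega : 0 < K)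
  have hKx2 : x ≤ 2 * K := by
    have : (1000 : ℝ) ≤ K := by exact_mod_cast hK
    linarith
  refine key'.trans ?_
  have a1 : (t : ℝ) * ((H : ℝ) / (t * K)) ≤ 2 * (t * x ^ 5) := by
    have : (t : ℝ) * ((H : ℝ) / (t * K)) = H / K := by field_simp
    rw [this, div_le_iff₀ hKpos, ← htx6]
    calc (t : ℝ) * x ^ 6 = t * x ^ 5 * x := by ring
      _ ≤ t * x ^ 5 * (2 * K) := by gcongr
      _ = _ := by ring
  have hx1 : 1 ≤ x := by linarith
  have a2 : (t : ℝ) ≤ t * x ^ 5 := by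
    have : 1 ≤ x ^ 5 := one_le_pow₀ hx1
    nlinarith
  have a3 : (K : ℝ) ^ 4 * (1000 * ((t : ℝ) * K + 1)) ≤ 2000 * (t * x ^ 5) := by
    have h1 : (1 : ℝ) ≤ t * K := by
      have : 1 ≤ t * K := by nlinarith
      exact_mod_cast this
    calc (K : ℝ) ^ 4 * (1000 * ((t : ℝ) * K + 1)) ≤ (K : ℝ) ^ 4 * (1000 * ((t : ℝ) * K + t * K)) := by gcongr
      _ = 2000 * ((t : ℝ) * K ^ 5) := by ring
      _ ≤ 2000 * (t * x ^ 5) := by gcongr
  calc 4 * (t * ((H : ℝ) / (t * K) + 2)) + K ^ 4 * (1000 * (t * K + 1))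
      = 4 * (t * ((H : ℝ) / (t * K))) + 8 * t + K ^ 4 * (1000 * (t * K + 1)) := by ring
    _ ≤ 4 * (2 * (t * x ^ 5)) + 8 * (t * x ^ 5) + 2000 * (t * x ^ 5) := by gcongr
    _ = 2016 * (t * x ^ 5) := by ring

theorem count_bad_interval (Bad : ℕ → Prop) (n0 : ℕ)
    (h : ∀ n, n0 ≤ n → Bad n → ∃ t : ℕ, 2 ≤ t ∧ (t : ℝ) ≤ 3 * Real.log n ∧ Near t n) :
    ∃ C : ℝ, 0 < C ∧ ∀ N H : ℕ, 2 ≤ N → H ≤ N →
      (({n : ℕ | N - H < n ∧ n ≤ N ∧ Bad n}.ncard : ℕ) : ℝ)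
        ≤ C * ((H : ℝ) ^ (5 / 6 : ℝ) * (Real.log N) ^ (7 / 6 : ℝ)) := by
  classical
  obtain ⟨C1, hC1, hC1'⟩ := count_bad Bad n0 h
  obtain ⟨N1, hN1⟩ := eventually_large
  set N2 := max (max N1 (2 * n0)) 100 with hN2
  have hset : ∀ N H, {n : ℕ | N - H < n ∧ n ≤ N ∧ Bad n}
      = (((Ioc (N - H) N).filter Bad : Finset ℕ) : Set ℕ) := by
    intro N H
    ext n
    simp only [Set.mem_ofPred_eq, coe_filter, mem_Ioc]
    tauto
  have hcard : ∀ N H, {n : ℕ | N - H < n ∧ n ≤ N ∧ Bad n}.ncard = ((Ioc (N - H) N).filter Bad).card := by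
    intro N H
    rw [hset, Set.ncard_coe_finset]
  have hlog2 : 0 < Real.log 2 := Real.log_pos (by norm_num)
  have hl76 : 0 < (Real.log 2) ^ (7 / 6 : ℝ) := by positivity
  set C : ℝ := max (max 10000 (51 * C1)) (N2 / (Real.log 2) ^ (7 / 6 : ℝ)) with hC
  have hCa : 10000 ≤ C := le_trans (le_max_left _ _) (le_max_left _ _)
  have hCb : 51 * C1 ≤ C := le_trans (le_max_right _ _) (le_max_left _ _)
  have hCc : N2 / (Real.log 2) ^ (7 / 6 : ℝ) ≤ C := le_max_right _ _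
  refine ⟨C, by linarith, ?_⟩
  intro N H hN hHN
  rw [hcard]
  have hNpos : (0 : ℝ) < N := by exact_mod_cast (by omega : 0 < N)
  have hlogmono : Real.log 2 ≤ Real.log N := by
    apply Real.log_le_log (by norm_num)
    exact_mod_cast hN
  have hlogpos : 0 < Real.log N := by linarith
  have hcardH : ((Ioc (N - H) N).filter Bad).card ≤ H := by
    refine (card_filter_le _ _).trans ?_
    rw [Nat.card_Ioc]; omega
  rcases Nat.eq_zero_or_pos H with hH0 | hHpos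
  · have : ((Ioc (N - H) N).filter Bad).card = 0 := by omega
    rw [this]; push_cast; positivity
  have hHpos' : (0 : ℝ) < H := by exact_mod_cast hHpos
  by_cases hsmall : N < N2
  · -- small `N`
    have h1 : (((Ioc (N - H) N).filter Bad).card : ℝ) ≤ N2 := by
      have : ((Ioc (N - H) N).filter Bad).card ≤ N2 := by omega
      exact_mod_cast this
    have h2 : (N2 : ℝ) ≤ C * (Real.log 2) ^ (7 / 6 : ℝ) := by
      rwa [div_le_iff₀ hl76] at hCc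
    have h3 : (Real.log 2) ^ (7 / 6 : ℝ) ≤ (H : ℝ) ^ (5 / 6 : ℝ) * (Real.log N) ^ (7 / 6 : ℝ) := by
      have h4 : 1 ≤ (H : ℝ) ^ (5 / 6 : ℝ) :=
        Real.one_le_rpow (by exact_mod_cast hHpos) (by norm_num)
      have h5 : (Real.log 2) ^ (7 / 6 : ℝ) ≤ (Real.log N) ^ (7 / 6 : ℝ) :=
        Real.rpow_le_rpow hlog2.le hlogmono (by norm_num)
      nlinarith
    calc (((Ioc (N - H) N).filter Bad).card : ℝ) ≤ N2 := h1
      _ ≤ C * (Real.log 2) ^ (7 / 6 : ℝ) := h2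
      _ ≤ _ := by gcongr
  push Not at hsmall
  by_cases hlong : N < 51 * H
  · -- long intervals
    have h1 : ((Ioc (N - H) N).filter Bad).card ≤ {n : ℕ | n ≤ N ∧ Bad n}.ncard := by
      rw [← hcard]
      apply Set.ncard_le_ncard
      · intro n hn
        exact ⟨hn.2.1, hn.2.2⟩
      · exact (Set.finite_Iic N).subset (fun n hn => hn.1)
    have h2 := hC1' N hN
    have h3 : (N : ℝ) ^ (5 / 6 : ℝ) ≤ 51 * (H : ℝ) ^ (5 / 6 : ℝ) := by
      have h4 : (N : ℝ) ≤ 51 * H := by exact_mod_cast hlong.le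
      calc (N : ℝ) ^ (5 / 6 : ℝ) ≤ (51 * (H : ℝ)) ^ (5 / 6 : ℝ) :=
            Real.rpow_le_rpow hNpos.le h4 (by norm_num)
        _ = (51 : ℝ) ^ (5 / 6 : ℝ) * (H : ℝ) ^ (5 / 6 : ℝ) :=
            Real.mul_rpow (by norm_num) hHpos'.le
        _ ≤ 51 * (H : ℝ) ^ (5 / 6 : ℝ) := by
            apply mul_le_mul_of_nonneg_right _ (by positivity)
            calc (51 : ℝ) ^ (5 / 6 : ℝ) ≤ (51 : ℝ) ^ (1 : ℝ) :=
                  Real.rpow_le_rpow_of_exponent_le (by norm_num) (by norm_num)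
              _ = 51 := Real.rpow_one _
    have hlp : 0 ≤ (Real.log N) ^ (7 / 6 : ℝ) := by positivity
    calc (((Ioc (N - H) N).filter Bad).card : ℝ) ≤ (({n : ℕ | n ≤ N ∧ Bad n}.ncard : ℕ) : ℝ) := by
          exact_mod_cast h1
      _ ≤ C1 * ((N : ℝ) ^ (5 / 6 : ℝ) * (Real.log N) ^ (7 / 6 : ℝ)) := h2
      _ ≤ C1 * ((51 * (H : ℝ) ^ (5 / 6 : ℝ)) * (Real.log N) ^ (7 / 6 : ℝ)) := by gcongr
      _ = (51 * C1) * ((H : ℝ) ^ (5 / 6 : ℝ) * (Real.log N) ^ (7 / 6 : ℝ)) := by ring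
      _ ≤ C * ((H : ℝ) ^ (5 / 6 : ℝ) * (Real.log N) ^ (7 / 6 : ℝ)) := by gcongr
  push Not at hlong
  -- short intervals
  have hNN1 : N1 ≤ N := le_trans (le_trans (le_max_left _ _) (le_max_left _ _)) hsmall
  have hNn0 : 2 * n0 ≤ N := le_trans (le_trans (le_max_right _ _) (le_max_left _ _)) hsmall
  have hN100 : 100 ≤ N := le_trans (le_max_right _ _) hsmall
  obtain ⟨hL, hN1'⟩ := hN1 N hNN1
  set L := Real.log N with hLdef
  set T := ⌊3 * L⌋₊ with hT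
  have hTL : (T : ℝ) ≤ 3 * L := Nat.floor_le (by linarith)
  set St : ℕ → Finset ℕ := fun t => (Ioc (N - H) N).filter (fun n => Near t n) with hSt
  have hsub : (Ioc (N - H) N).filter Bad ⊆ (Icc 2 T).biUnion St := by
    intro n hn
    obtain ⟨hn1, hn2⟩ := mem_filter.1 hn
    have hn1' := mem_Ioc.1 hn1
    obtain ⟨t, ht2, htl, hnear⟩ := h n (by omega) hn2
    rw [mem_biUnion]
    refine ⟨t, ?_, ?_⟩
    · rw [mem_Icc]
      refine ⟨ht2, ?_⟩
      apply Nat.le_floor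
      refine htl.trans ?_
      have : Real.log n ≤ L := by
        apply Real.log_le_log
        · exact_mod_cast (by omega : 0 < n)
        · exact_mod_cast hn1'.2
      linarith
    · rw [hSt, mem_filter]
      exact ⟨hn1, hnear⟩
  have h1 : ((Ioc (N - H) N).filter Bad).card ≤ ∑ t ∈ Icc 2 T, (St t).card :=
    (card_le_card hsub).trans card_biUnion_le
  have h2 : ∀ t ∈ Icc 2 T, ((St t).card : ℝ) ≤ 2016 * ((3 * L) ^ (1 / 6 : ℝ) * (H : ℝ) ^ (5 / 6 : ℝ)) := by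
    intro t ht
    obtain ⟨ht2, htT⟩ := mem_Icc.1 ht
    have htl : (t : ℝ) ≤ 3 * L := le_trans (by exact_mod_cast htT) hTL
    obtain ⟨b1, b2⟩ := hN1' t ht2 htl
    have h3 := bound_t_interval N t H hHN hL ht2 b1 b2 (St t) (fun n hn => by
      rw [hSt, mem_filter, mem_Ioc] at hn
      exact ⟨by omega, hn.1.1, hn.1.2, hn.2⟩)
    refine h3.trans ?_
    gcongr
  have h3 : ((∑ t ∈ Icc 2 T, (St t).card : ℕ) : ℝ)
      ≤ T * (2016 * ((3 * L) ^ (1 / 6 : ℝ) * (H : ℝ) ^ (5 / 6 : ℝ))) := by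
    push_cast
    refine (sum_le_sum h2).trans ?_
    rw [sum_const, nsmul_eq_mul, Nat.card_Icc]
    have : ((T + 1 - 2 : ℕ) : ℝ) ≤ T := by exact_mod_cast (by omega : T + 1 - 2 ≤ T)
    have hLpos : 0 ≤ 3 * L := by linarith
    gcongr
  have h4 : (T : ℝ) * (2016 * ((3 * L) ^ (1 / 6 : ℝ) * (H : ℝ) ^ (5 / 6 : ℝ)))
      ≤ 10000 * ((H : ℝ) ^ (5 / 6 : ℝ) * L ^ (7 / 6 : ℝ)) := by
    have hLpos : 0 < L := by linarith
    have e1 : (3 * L) ^ (1 / 6 : ℝ) = 3 ^ (1 / 6 : ℝ) * L ^ (1 / 6 : ℝ) := by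
      rw [Real.mul_rpow (by norm_num) hLpos.le]
    have e2 : (3 : ℝ) ^ (1 / 6 : ℝ) ≤ 1.5 := by
      have : (3 : ℝ) ≤ (1.5 : ℝ) ^ (6 : ℝ) := by norm_num
      calc (3 : ℝ) ^ (1 / 6 : ℝ) ≤ ((1.5 : ℝ) ^ (6 : ℝ)) ^ (1 / 6 : ℝ) :=
            Real.rpow_le_rpow (by norm_num) this (by norm_num)
        _ = 1.5 := by rw [← Real.rpow_mul (by norm_num)]; norm_num
    have e3 : L ^ (7 / 6 : ℝ) = L * L ^ (1 / 6 : ℝ) := by
      have : (7 / 6 : ℝ) = 1 + 1 / 6 := by norm_num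
      rw [this, Real.rpow_add hLpos, Real.rpow_one]
    have hL6 : 0 ≤ L ^ (1 / 6 : ℝ) := by positivity
    have hN6 : 0 ≤ (H : ℝ) ^ (5 / 6 : ℝ) := by positivity
    rw [e1, e3]
    calc (T : ℝ) * (2016 * (3 ^ (1 / 6 : ℝ) * L ^ (1 / 6 : ℝ) * (H : ℝ) ^ (5 / 6 : ℝ)))
        ≤ (3 * L) * (2016 * (1.5 * L ^ (1 / 6 : ℝ) * (H : ℝ) ^ (5 / 6 : ℝ))) := by gcongr
      _ = 9072 * ((H : ℝ) ^ (5 / 6 : ℝ) * (L * L ^ (1 / 6 : ℝ))) := by ring
      _ ≤ 10000 * ((H : ℝ) ^ (5 / 6 : ℝ) * (L * L ^ (1 / 6 : ℝ))) := by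
          apply mul_le_mul_of_nonneg_right (by norm_num)
          positivity
  have hLp : 0 ≤ (H : ℝ) ^ (5 / 6 : ℝ) * L ^ (7 / 6 : ℝ) := by
    have : 0 ≤ L := by linarith
    positivity
  calc (((Ioc (N - H) N).filter Bad).card : ℝ) ≤ ((∑ t ∈ Icc 2 T, (St t).card : ℕ) : ℝ) := by
        exact_mod_cast h1
    _ ≤ 10000 * ((H : ℝ) ^ (5 / 6 : ℝ) * L ^ (7 / 6 : ℝ)) := h3.trans h4
    _ ≤ C * ((H : ℝ) ^ (5 / 6 : ℝ) * L ^ (7 / 6 : ℝ)) := by gcongr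

end Pool.Agent.H147
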