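import Pool.Agent.H147_fact.ConstNum
import Pool.Agent.H147_fact.CountI

/-!
Counting in intervals with a constant factor, and for a fixed number of factors.
-/

namespace Pool.Agent.H147

open Finset Filter

theorem bound_t_interval_c (N t H : ℕ) (lam : ℝ) (hHN : H ≤ N) (hL1 : 10000 ≤ Real.log N) (ht : 2 ≤ t)
    (hlam : 1 ≤ lam) (hlt : Real.log (2 * t * lam) ≤ Real.log N / 2000) (hbig : 10 ^ 60 * t ^ 12 ≤ N)
    (S : Finset ℕ) (hS : ∀ n ∈ S, 50 * N ≤ 51 * n ∧ N - H < n ∧ n ≤ N ∧ NearC lam t n) :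
    (S.card : ℝ) ≤ 2016 * ((t : ℝ) ^ (1 / 6 : ℝ) * (H : ℝ) ^ (5 / 6 : ℝ)) := by
  have htpos : (0 : ℝ) < t := by exact_mod_cast (by omega : 0 < t)
  have hcardH : S.card ≤ H := by
    have : S ⊆ Ioc (N - H) N := by
      intro n hn
      obtain ⟨-, h2, h3, -⟩ := hS n hn
      exact mem_Ioc.2 ⟨h2, h3⟩
    have h2 := card_le_card this
    rw [Nat.card_Ioc] at h2
    omega
  rcases Nat.eq_zero_or_pos H with hH0 | hHpos
  · have : S.card = 0 := by omega
    rw [this]; push_cast; positivity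
  have hHpos' : (0 : ℝ) < H := by exact_mod_cast hHpos
  set x : ℝ := ((H : ℝ) / t) ^ (1 / 6 : ℝ) with hx
  have hxpos : 0 < x := by positivity
  have hx6 : x ^ 6 = H / t := by
    rw [hx, ← Real.rpow_natCast, ← Real.rpow_mul (by positivity)]
    norm_num
  have htx6 : t * x ^ 6 = H := by rw [hx6]; field_simp
  have hx5 : (t : ℝ) * x ^ 5 = (t : ℝ) ^ (1 / 6 : ℝ) * (H : ℝ) ^ (5 / 6 : ℝ) := by
    have h1 : x ^ 5 = ((H : ℝ) / t) ^ (5 / 6 : ℝ) := by
      rw [hx, ← Real.rpow_natCast, ← Real.rpow_mul (by positivity)]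
      norm_num
    rw [h1, Real.div_rpow hHpos'.le htpos.le]
    have h2 : (t : ℝ) = (t : ℝ) ^ (1 / 6 : ℝ) * (t : ℝ) ^ (5 / 6 : ℝ) := by
      rw [← Real.rpow_add htpos]; norm_num
    have h3 : (t : ℝ) ^ (5 / 6 : ℝ) ≠ 0 := by positivity
    rw [mul_div_assoc', div_eq_iff h3]
    linear_combination (H : ℝ) ^ (5 / 6 : ℝ) * h2
  rw [← hx5]
  by_cases hsmall : x < 1001
  · have h1 : (S.card : ℝ) ≤ H := by exact_mod_cast hcardH
    have h2 : (H : ℝ) ≤ 1001 * (t * x ^ 5) := by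
      rw [← htx6]
      calc (t : ℝ) * x ^ 6 = (t * x ^ 5) * x := by ring
        _ ≤ (t * x ^ 5) * 1001 := by gcongr
        _ = _ := by ring
    have h3 : 0 ≤ (t : ℝ) * x ^ 5 := by positivity
    linarith
  push Not at hsmall
  set K := ⌊x⌋₊ with hKdef
  have hKx : (K : ℝ) ≤ x := Nat.floor_le hxpos.le
  have hxK : x < K + 1 := Nat.lt_floor_add_one x
  have hK : 1000 ≤ K := by
    have : (1000 : ℝ) < K + 1 := by linarith
    have : 1000 < K + 1 := by exact_mod_cast this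
    omega
  have hNpos : 0 < N := by omega
  have hKH : t * K ^ 6 ≤ H := by
    have h1 : (K : ℝ) ^ 6 ≤ x ^ 6 := by gcongr
    have h2 : (t : ℝ) * K ^ 6 ≤ H := by
      rw [← htx6]; gcongr
    exact_mod_cast h2
  have hKN : t * K ^ 6 ≤ N := hKH.trans hHN
  have hbig2 : 10000000 * (t ^ 2 * K) ≤ N := by
    have h1 : (10000000 * (t ^ 2 * K)) ^ 6 ≤ N ^ 6 := by
      calc (10000000 * (t ^ 2 * K)) ^ 6 = (10 ^ 42 * t ^ 11) * (t * K ^ 6) := by ring
        _ ≤ N * N := by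
          apply Nat.mul_le_mul _ hKN
          have : t ^ 11 ≤ t ^ 12 := Nat.pow_le_pow_right (by omega) (by norm_num)
          omega
        _ = N ^ 2 := by ring
        _ ≤ N ^ 6 := Nat.pow_le_pow_right hNpos (by norm_num)
    exact le_of_pow_le_pow_left₀ (by norm_num) (by omega) h1
  have hdk : 1000000 * (t * K + 1) ≤ 2 * N / (5 * t) := by
    rw [Nat.le_div_iff_mul_le (by omega)]
    have h1 : 1 ≤ t * K := by nlinarith
    have h2 : 1000000 * (t * K + 1) ≤ 1000000 * (2 * (t * K)) := by omega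
    calc 1000000 * (t * K + 1) * (5 * t) ≤ 1000000 * (2 * (t * K)) * (5 * t) := Nat.mul_le_mul_right _ h2
      _ = 10000000 * (t ^ 2 * K) := by ring
      _ ≤ 2 * N := by omega
  have key := count_S_interval t K N H (1000 * (t * K + 1)) (by omega) (by omega) hHN S
    (fun n hn => ⟨(hS n hn).2.1, (hS n hn).2.2.1⟩)
    (fun J hJ hJK => pattern_count_c N t K _ lam hL1 ht hK hKN rfl hdk hlam hlt S
      (fun n hn => ⟨(hS n hn).1, (hS n hn).2.2.1, (hS n hn).2.2.2⟩) J hJ hJK)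
  have key' : (S.card : ℝ) ≤ 4 * (t * ((H : ℝ) / (t * K) + 2)) + K ^ 4 * (1000 * (t * K + 1)) := by
    have h1 : (S.card : ℝ) ≤ ((4 * (t * (H / (t * K) + 2)) + K ^ 4 * (1000 * (t * K + 1)) : ℕ) : ℝ) := by
      exact_mod_cast key
    refine h1.trans ?_
    push_cast
    have h2 : ((H / (t * K) : ℕ) : ℝ) ≤ (H : ℝ) / (t * K) := by
      have := @Nat.cast_div_le ℝ _ _ _ H (t * K)
      push_cast at this
      exact this
    gcongr
  have hKpos : (0 : ℝ) < K := by exact_mod_cast (by omega : 0 < K)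
  have hKx2 : x ≤ 2 * K := by
    have : (1000 : ℝ) ≤ K := by exact_mod_cast hK
    linarith
  refine key'.trans ?_
  have a1 : (t : ℝ) * ((H : ℝ) / (t * K)) ≤ 2 * (t * x ^ 5) := by
    have : (t : ℝ) * ((H : ℝ) / (t * K)) = H / K := by field_simp
    rw [this, div_le_iff₀ hKpos, ← htx6]
    calc (t : ℝ) * x ^ 6 = t * x ^ 5 * x := by ring
      _ ≤ t * x ^ 5 * (2 * K) := by gcongr
      _ = _ := by ring
  have hx1 : 1 ≤ x := by linarith
  have a2 : (t : ℝ) ≤ t * x ^ 5 := by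
    have : 1 ≤ x ^ 5 := one_le_pow₀ hx1
    nlinarith
  have a3 : (K : ℝ) ^ 4 * (1000 * ((t : ℝ) * K + 1)) ≤ 2000 * (t * x ^ 5) := by
    have h1 : (1 : ℝ) ≤ t * K := by
      have : 1 ≤ t * K := by nlinarith
      exact_mod_cast this
    calc (K : ℝ) ^ 4 * (1000 * ((t : ℝ) * K + 1)) ≤ (K : ℝ) ^ 4 * (1000 * ((t : ℝ) * K + t * K)) := by gcongr
      _ = 2000 * ((t : ℝ) * K ^ 5) := by ring
      _ ≤ 2000 * (t * x ^ 5) := by gcongr
  calc 4 * (t * ((H : ℝ) / (t * K) + 2)) + K ^ 4 * (1000 * (t * K + 1))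
      = 4 * (t * ((H : ℝ) / (t * K))) + 8 * t + K ^ 4 * (1000 * (t * K + 1)) := by ring
    _ ≤ 4 * (2 * (t * x ^ 5)) + 8 * (t * x ^ 5) + 2000 * (t * x ^ 5) := by gcongr
    _ = 2016 * (t * x ^ 5) := by ring

theorem eventually_fixed_c (t : ℕ) (lam : ℝ) : ∃ N1 : ℕ, ∀ N : ℕ, N1 ≤ N → 10000 ≤ Real.log N ∧
    (Real.log (2 * t * lam) ≤ Real.log N / 2000 ∧ 10 ^ 60 * t ^ 12 ≤ N) := by
  have hlog : Tendsto (fun n : ℕ => Real.log n) atTop atTop :=
    Real.tendsto_log_atTop.comp tendsto_natCast_atTop_atTop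
  have h1 : ∀ᶠ n : ℕ in atTop, 10000 ≤ Real.log n := hlog.eventually_ge_atTop 10000
  have h2 : ∀ᶠ n : ℕ in atTop, Real.log (2 * t * lam) ≤ Real.log n / 2000 ∧ 10 ^ 60 * t ^ 12 ≤ n := by
    filter_upwards [hlog.eventually_ge_atTop (2000 * Real.log (2 * t * lam)),
      eventually_ge_atTop (10 ^ 60 * t ^ 12)] with n h3 h4
    exact ⟨by linarith, h4⟩
  obtain ⟨N1, hN1⟩ := eventually_atTop.1 (h1.and h2)
  exact ⟨N1, fun N hN => hN1 N hN⟩

open Classical in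
theorem count_fixed_c (t : ℕ) (lam : ℝ) (ht : 2 ≤ t) (hlam : 1 ≤ lam) (w : ℕ → ℕ) (n0 : ℕ)
    (h : ∀ n, n0 ≤ n → w n ≤ (if NearC lam t n then 1 else 0)) :
    ∃ C : ℝ, 0 < C ∧ ∀ N H : ℕ, H ≤ N →
      ((∑ n ∈ Ioc (N - H) N, w n : ℕ) : ℝ) ≤ C * (H : ℝ) ^ (5 / 6 : ℝ) := by
  obtain ⟨N1, hN1⟩ := eventually_fixed_c t lam
  set N2 := max (max N1 (2 * n0 + 2)) 100 with hN2
  set D : ℝ := 2016 * (t : ℝ) ^ (1 / 6 : ℝ) with hD
  have hD0 : 0 ≤ D := by positivity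
  have hstep : ∀ N M : ℕ, N2 ≤ N → 50 * N / 51 ≤ M → M ≤ N →
      ((∑ n ∈ Ioc M N, w n : ℕ) : ℝ) ≤ D * ((N - M : ℕ) : ℝ) ^ (5 / 6 : ℝ) := by
    intro N M hN hM hMN
    have hNN1 : N1 ≤ N := le_trans (le_trans (le_max_left _ _) (le_max_left _ _)) hN
    have hNn0 : 2 * n0 + 2 ≤ N := le_trans (le_trans (le_max_right _ _) (le_max_left _ _)) hN
    obtain ⟨hL, hN1'⟩ := hN1 N hNN1
    have h1 : ∑ n ∈ Ioc M N, w n ≤ ((Ioc M N).filter (fun n => NearC lam t n)).card := by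
      rw [card_filter]
      apply sum_le_sum
      intro n hn
      rw [mem_Ioc] at hn
      exact h n (by omega)
    have h3 : ((((Ioc M N).filter (fun n => NearC lam t n)).card : ℕ) : ℝ)
        ≤ D * ((N - M : ℕ) : ℝ) ^ (5 / 6 : ℝ) := by
      obtain ⟨b1, b2⟩ := hN1'
      have h4 := bound_t_interval_c N t (N - M) lam (by omega) hL ht hlam b1 b2
        ((Ioc M N).filter (fun n => NearC lam t n)) (fun n hn => by
          rw [mem_filter, mem_Ioc] at hn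
          exact ⟨by omega, by omega, hn.1.2, hn.2⟩)
      refine h4.trans (le_of_eq ?_)
      rw [hD]; ring
    exact le_trans (by exact_mod_cast h1) h3
  set a : ℕ → ℕ := fun N => ∑ n ∈ Ioc 0 N, w n with ha
  have hsplit : ∀ N M : ℕ, M ≤ N → a N = a M + ∑ n ∈ Ioc M N, w n := by
    intro N M hMN
    simp only [ha]
    rw [← sum_union (by
      rw [disjoint_left]
      intro x hx hx'
      rw [mem_Ioc] at hx hx'
      omega)]
    apply sum_congr _ (fun _ _ => rfl)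
    ext x
    simp only [mem_union, mem_Ioc]
    omega
  set W : ℕ := a N2 with hW
  have hamono : ∀ N, N ≤ N2 → a N ≤ W := by
    intro N hN
    rw [hW, hsplit N2 N hN]
    omega
  set C1 : ℝ := max (100 * D + 1) W with hC1
  have hC1a : 100 * D + 1 ≤ C1 := le_max_left _ _
  have hC1b : (W : ℝ) ≤ C1 := le_max_right _ _
  have hC1pos : 0 < C1 := by linarith
  have hall : ∀ N : ℕ, (a N : ℝ) ≤ C1 * (N : ℝ) ^ (5 / 6 : ℝ) := by
    intro N
    induction N using Nat.strong_induction_on with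
    | _ N ih =>
      rcases Nat.eq_zero_or_pos N with hN0 | hN0
      · subst hN0
        simp [ha]
      have hNpos : (0 : ℝ) < N := by exact_mod_cast hN0
      have hN1r : (1 : ℝ) ≤ N := by exact_mod_cast hN0
      by_cases hsmall : N ≤ N2
      · have h1 : (a N : ℝ) ≤ W := by exact_mod_cast hamono N hsmall
        have h4 : 1 ≤ (N : ℝ) ^ (5 / 6 : ℝ) := Real.one_le_rpow hN1r (by norm_num)
        nlinarith
      · push Not at hsmall
        have hN100 : 100 ≤ N := le_trans (le_max_right _ _) hsmall.le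
        have h1 := hstep N (50 * N / 51) hsmall.le le_rfl (by omega)
        have h2 := ih (50 * N / 51) (by omega)
        have h0 : (a N : ℝ) = a (50 * N / 51) + ((∑ n ∈ Ioc (50 * N / 51) N, w n : ℕ) : ℝ) := by
          exact_mod_cast hsplit N (50 * N / 51) (by omega)
        have h3 : ((50 * N / 51 : ℕ) : ℝ) ≤ 50 / 51 * N := by
          have := @Nat.cast_div_le ℝ _ _ _ (50 * N) 51
          push_cast at this
          linarith
        have h4 : ((50 * N / 51 : ℕ) : ℝ) ^ (5 / 6 : ℝ) ≤ 0.99 * (N : ℝ) ^ (5 / 6 : ℝ) := by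
          calc ((50 * N / 51 : ℕ) : ℝ) ^ (5 / 6 : ℝ) ≤ (50 / 51 * (N : ℝ)) ^ (5 / 6 : ℝ) :=
                Real.rpow_le_rpow (by positivity) h3 (by norm_num)
            _ = (50 / 51 : ℝ) ^ (5 / 6 : ℝ) * (N : ℝ) ^ (5 / 6 : ℝ) :=
                Real.mul_rpow (by norm_num) hNpos.le
            _ ≤ 0.99 * (N : ℝ) ^ (5 / 6 : ℝ) := by
                apply mul_le_mul_of_nonneg_right _ (by positivity)
                have : (50 / 51 : ℝ) ^ (5 / 6 : ℝ) = ((50 / 51 : ℝ) ^ (5 : ℝ)) ^ (1 / 6 : ℝ) := by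
                  rw [← Real.rpow_mul (by norm_num)]; norm_num
                rw [this]
                have h99 : (50 / 51 : ℝ) ^ (5 : ℝ) ≤ (0.99 : ℝ) ^ (6 : ℝ) := by norm_num
                calc ((50 / 51 : ℝ) ^ (5 : ℝ)) ^ (1 / 6 : ℝ) ≤ ((0.99 : ℝ) ^ (6 : ℝ)) ^ (1 / 6 : ℝ) :=
                      Real.rpow_le_rpow (by positivity) h99 (by norm_num)
                  _ = 0.99 := by rw [← Real.rpow_mul (by norm_num)]; norm_num
        have h6 : (a (50 * N / 51) : ℝ) ≤ C1 * (0.99 * (N : ℝ) ^ (5 / 6 : ℝ)) := by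
          refine h2.trans ?_
          gcongr
        have h7 : (((N - 50 * N / 51 : ℕ)) : ℝ) ^ (5 / 6 : ℝ) ≤ (N : ℝ) ^ (5 / 6 : ℝ) := by
          apply Real.rpow_le_rpow (by positivity) _ (by norm_num)
          exact_mod_cast Nat.sub_le _ _
        have hP : 0 ≤ (N : ℝ) ^ (5 / 6 : ℝ) := by positivity
        have h8 : D * (((N - 50 * N / 51 : ℕ)) : ℝ) ^ (5 / 6 : ℝ) ≤ C1 / 100 * (N : ℝ) ^ (5 / 6 : ℝ) := by
          calc D * (((N - 50 * N / 51 : ℕ)) : ℝ) ^ (5 / 6 : ℝ) ≤ D * (N : ℝ) ^ (5 / 6 : ℝ) := by gcongr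
            _ ≤ _ := mul_le_mul_of_nonneg_right (by linarith) hP
        rw [h0]
        calc (a (50 * N / 51) : ℝ) + ((∑ n ∈ Ioc (50 * N / 51) N, w n : ℕ) : ℝ)
            ≤ C1 * (0.99 * (N : ℝ) ^ (5 / 6 : ℝ)) + C1 / 100 * (N : ℝ) ^ (5 / 6 : ℝ) :=
              add_le_add h6 (h1.trans h8)
          _ = _ := by ring
  refine ⟨51 * C1, by linarith, ?_⟩
  intro N H hHN
  rcases Nat.eq_zero_or_pos H with hH0 | hHpos
  · subst hH0; simp
  have hHpos' : (0 : ℝ) < H := by exact_mod_cast hHpos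
  have hN0 : 0 < N := by omega
  have hNpos : (0 : ℝ) < N := by exact_mod_cast hN0
  have hle : ∑ n ∈ Ioc (N - H) N, w n ≤ a N := by
    rw [hsplit N (N - H) (Nat.sub_le _ _)]; omega
  by_cases hsmall : N ≤ N2
  · have h1 : ((∑ n ∈ Ioc (N - H) N, w n : ℕ) : ℝ) ≤ W := by
      exact_mod_cast hle.trans (hamono N hsmall)
    have h4 : 1 ≤ (H : ℝ) ^ (5 / 6 : ℝ) :=
      Real.one_le_rpow (by exact_mod_cast hHpos) (by norm_num)
    nlinarith
  push Not at hsmall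
  by_cases hlong : N < 51 * H
  · have h3 : (N : ℝ) ^ (5 / 6 : ℝ) ≤ 51 * (H : ℝ) ^ (5 / 6 : ℝ) := by
      have h4 : (N : ℝ) ≤ 51 * H := by exact_mod_cast hlong.le
      calc (N : ℝ) ^ (5 / 6 : ℝ) ≤ (51 * (H : ℝ)) ^ (5 / 6 : ℝ) :=
            Real.rpow_le_rpow hNpos.le h4 (by norm_num)
        _ = (51 : ℝ) ^ (5 / 6 : ℝ) * (H : ℝ) ^ (5 / 6 : ℝ) :=
            Real.mul_rpow (by norm_num) hHpos'.le
        _ ≤ 51 * (H : ℝ) ^ (5 / 6 : ℝ) := by
            apply mul_le_mul_of_nonneg_right _ (by positivity)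
            calc (51 : ℝ) ^ (5 / 6 : ℝ) ≤ (51 : ℝ) ^ (1 : ℝ) :=
                  Real.rpow_le_rpow_of_exponent_le (by norm_num) (by norm_num)
              _ = 51 := Real.rpow_one _
    calc ((∑ n ∈ Ioc (N - H) N, w n : ℕ) : ℝ) ≤ a N := by exact_mod_cast hle
      _ ≤ C1 * (N : ℝ) ^ (5 / 6 : ℝ) := hall N
      _ ≤ C1 * (51 * (H : ℝ) ^ (5 / 6 : ℝ)) := by gcongr
      _ = 51 * C1 * (H : ℝ) ^ (5 / 6 : ℝ) := by ring
  push Not at hlong
  have h1 := hstep N (N - H) hsmall.le (by omega) (Nat.sub_le _ _)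
  have h2 : N - (N - H) = H := by omega
  rw [h2] at h1
  have h6 : 0 ≤ (H : ℝ) ^ (5 / 6 : ℝ) := by positivity
  exact h1.trans (mul_le_mul_of_nonneg_right (by linarith) h6)

end Pool.Agent.H147
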