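import Pool.Agent.H147_fact.Weighted
import Pool.Agent.H147_fact.Many
import Pool.Agent.H147_fact.NearS

/-!
The equation `a! b! = n!`.
-/

namespace Pool.Agent.H147

open Finset Filter

theorem prod_of_sol (a b k : ℕ) (hk : 1 ≤ k) (h : a.factorial * b.factorial = (a + k).factorial) :
    ∏ x ∈ Icc (a + 1) (a + k), x = b.factorial := by
  have h1 := prod_Icc (a + 1) (a + k) (by omega) (by omega)
  have h2 : a + k + 1 - (a + 1) = k := by omega
  rw [h2] at h1
  have h3 := Nat.add_choose_mul_factorial_mul_factorial a k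
  have h4 : a.factorial * (∏ x ∈ Icc (a + 1) (a + k), x) = a.factorial * b.factorial := by
    rw [h1, h, ← h3]; ring
  exact Nat.eq_of_mul_eq_mul_left (Nat.factorial_pos a) h4

theorem two_pow_mul_factorial (b : ℕ) : 2 ^ b * b.factorial ≤ (b + 1) ^ b := by
  induction b with
  | zero => simp
  | succ b ih =>
    rw [pow_succ, Nat.factorial_succ]
    have h1 : 2 * (b + 1) ^ (b + 1) ≤ (b + 1 + 1) ^ (b + 1) := by
      have h2 : (1 + (b + 1 : ℕ) * (1 / ((b : ℚ) + 1))) ≤ (1 + 1 / ((b : ℚ) + 1)) ^ (b + 1) :=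
        one_add_mul_le_pow (by
          have : (0 : ℚ) ≤ 1 / ((b : ℚ) + 1) := by positivity
          linarith) (b + 1)
      have h3 : (1 + (b + 1 : ℕ) * (1 / ((b : ℚ) + 1))) = 2 := by
        push_cast; field_simp; norm_num
      rw [h3] at h2
      have h4 : (1 + 1 / ((b : ℚ) + 1)) ^ (b + 1) * ((b : ℚ) + 1) ^ (b + 1) = ((b : ℚ) + 1 + 1) ^ (b + 1) := by
        rw [← mul_pow]; congr 1; field_simp
      have h5 : (2 : ℚ) * ((b : ℚ) + 1) ^ (b + 1) ≤ ((b : ℚ) + 1 + 1) ^ (b + 1) := by
        rw [← h4]; gcongr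
      exact_mod_cast h5
    calc 2 ^ b * 2 * ((b + 1) * b.factorial) = 2 * (b + 1) * (2 ^ b * b.factorial) := by ring
      _ ≤ 2 * (b + 1) * (b + 1) ^ b := Nat.mul_le_mul_left _ ih
      _ = 2 * (b + 1) ^ (b + 1) := by ring
      _ ≤ _ := h1

/-- the lengths of the non-trivial solutions with given `b` -/
def SolLen (b k : ℕ) : Prop := 2 ≤ k ∧ ∃ a, b ≤ a ∧ a.factorial * b.factorial = (a + k).factorial

theorem sol_pow_le {a b k : ℕ} (hk : 1 ≤ k) (hba : b ≤ a)
    (h : a.factorial * b.factorial = (a + k).factorial) : (b + 1) ^ k ≤ b.factorial := by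
  rw [← prod_of_sol a b k hk h]
  have h1 := Finset.pow_card_le_prod (Icc (a + 1) (a + k)) (fun x => x) (b + 1) (fun x hx => by
    rw [mem_Icc] at hx; omega)
  rw [Nat.card_Icc] at h1
  have : a + k + 1 - (a + 1) = k := by omega
  rwa [this] at h1

theorem SolLen.lt {b k : ℕ} (h : SolLen b k) : k < b := by
  obtain ⟨hk, a, hba, hab⟩ := h
  have h1 := sol_pow_le (by omega) hba hab
  by_contra hcon
  push Not at hcon
  have h2 : (b + 1) ^ b ≤ (b + 1) ^ k := Nat.pow_le_pow_right (by omega) hcon
  have h3 : b.factorial ≤ b ^ b := Nat.factorial_le_pow b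
  rcases Nat.eq_zero_or_pos b with hb | hb
  · subst hb
    simp only [Nat.factorial_zero, mul_one] at hab
    have h6 : (a + 2).factorial ≤ (a + k).factorial := Nat.factorial_le (by omega)
    have h7 : (a + 2).factorial = (a + 2) * ((a + 1) * a.factorial) := by
      rw [Nat.factorial_succ, Nat.factorial_succ]
    have h8 := Nat.factorial_pos a
    have h9 : 2 * a.factorial ≤ (a + 2) * ((a + 1) * a.factorial) := by
      have h10 : a.factorial ≤ (a + 1) * a.factorial := Nat.le_mul_of_pos_left _ (by omega)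
      exact Nat.mul_le_mul (by omega) h10
    omega
  · have h4 : b ^ b < (b + 1) ^ b := Nat.pow_lt_pow_left (by omega) (by omega)
    omega

theorem eventually_sol : ∀ᶠ b : ℕ in atTop, 2 * Real.logb 2 (b + 1) ^ 2 < b := by
  have h4 : ∀ᶠ x : ℝ in atTop, ‖Real.logb 2 x ^ 2‖ ≤ (1 / 8) * ‖id x‖ :=
    (Real.isLittleO_pow_logb_id_atTop (b := 2) (n := 2)).def (by norm_num)
  have h5 : ∀ᶠ x : ℝ in atTop, 2 * Real.logb 2 x ^ 2 ≤ x / 4 := by
    filter_upwards [h4, eventually_gt_atTop 0] with x h5 h6
    simp only [id, Real.norm_eq_abs, abs_of_pos h6] at h5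
    have := le_abs_self (Real.logb 2 x ^ 2)
    linarith
  have h6 : Tendsto (fun b : ℕ => (b : ℝ) + 1) atTop atTop :=
    tendsto_atTop_add_const_right _ _ tendsto_natCast_atTop_atTop
  have h7 := h6.eventually h5
  filter_upwards [h7, eventually_ge_atTop 2] with b h8 h9
  have : (2 : ℝ) ≤ b := by exact_mod_cast h9
  linarith

theorem sol_near : ∃ b0 : ℕ, ∀ b : ℕ, b0 ≤ b → ∀ k, SolLen b k →
    2 ≤ k ∧ (k : ℝ) ≤ 3 * Real.log b ∧ Near k b := by
  obtain ⟨n1, hn1⟩ := many_factors 1 one_pos
  obtain ⟨n2, hn2⟩ := near_of_close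
  obtain ⟨n3, hn3⟩ := eventually_atTop.1 eventually_sol
  refine ⟨max (max n1 n2) (max n3 2), fun b hb k hsol => ?_⟩
  have hb1 : n1 ≤ b := le_trans (le_trans (le_max_left _ _) (le_max_left _ _)) hb
  have hb2 : n2 ≤ b := le_trans (le_trans (le_max_right _ _) (le_max_left _ _)) hb
  have hb3 : n3 ≤ b := le_trans (le_trans (le_max_left _ _) (le_max_right _ _)) hb
  have hb4 : 2 ≤ b := le_trans (le_trans (le_max_right _ _) (le_max_right _ _)) hb
  have hkb := hsol.lt
  obtain ⟨hk2, a, hba, hab⟩ := hsol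
  set S := Icc (a + 1) (a + k) with hS
  have hScard : S.card = k := by rw [hS, Nat.card_Icc]; omega
  have hprod := prod_of_sol a b k (by omega) hab
  have hbpos : (0 : ℝ) < b := by exact_mod_cast (by omega : 0 < b)
  have hlogb : 0 ≤ Real.logb 2 b := Real.logb_nonneg (by norm_num) (by exact_mod_cast (by omega : 1 ≤ b))
  have hspread : ∀ x ∈ S, ∀ y ∈ S, (y : ℝ) - x ≤ k - 1 := by
    intro x hx y hy
    rw [hS, mem_Icc] at hx hy
    have : y + 1 ≤ x + k := by omega
    have h2 : (y : ℝ) + 1 ≤ x + k := by exact_mod_cast this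
    linarith
  have hfew : (k : ℝ) < 2 * Real.logb 2 b := by
    by_contra hcon
    push Not at hcon
    obtain ⟨x, hx, y, hy, hxy⟩ := hn1 b hb1 S hprod (by rw [hScard]; linarith)
    have h1 := hspread x hx y hy
    have h2 : (b : ℝ) - k ≤ 2 * Real.logb 2 b := by linarith
    have h3 := sol_pow_le (by omega) hba hab
    have h4 := two_pow_mul_factorial b
    have h5 : 2 ^ b * (b + 1) ^ k ≤ (b + 1) ^ b := le_trans (Nat.mul_le_mul_left _ h3) h4
    have h6 : 2 ^ b ≤ (b + 1) ^ (b - k) := by
      have h7 : (b + 1) ^ b = (b + 1) ^ (b - k) * (b + 1) ^ k := by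
        rw [← pow_add]; congr 1; omega
      rw [h7] at h5
      exact Nat.le_of_mul_le_mul_right h5 (by positivity)
    have h8 : ((2 : ℝ)) ^ b ≤ ((b : ℝ) + 1) ^ (b - k) := by exact_mod_cast h6
    have h9 := Real.logb_le_logb_of_le (b := 2) (by norm_num) (by positivity) h8
    rw [Real.logb_pow, Real.logb_pow, Real.logb_self_eq_one (by norm_num), Nat.cast_sub hkb.le] at h9
    have h10 : 0 ≤ Real.logb 2 ((b : ℝ) + 1) := Real.logb_nonneg (by norm_num) (by linarith)
    have h11 : Real.logb 2 b ≤ Real.logb 2 ((b : ℝ) + 1) :=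
      Real.logb_le_logb_of_le (by norm_num) hbpos (by linarith)
    have h12 := hn3 b hb3
    nlinarith
  have hlog2 : (0.6931471803 : ℝ) < Real.log 2 := Real.log_two_gt_d9
  have hlogn : 0 ≤ Real.log b := Real.log_nonneg (by exact_mod_cast (by omega : 1 ≤ b))
  have hk3 : (k : ℝ) ≤ 3 * Real.log b := by
    have h2 : Real.logb 2 b = Real.log b / Real.log 2 := rfl
    have h3 : 2 * Real.logb 2 b ≤ 3 * Real.log b := by
      rw [h2, mul_div_assoc', div_le_iff₀ (by linarith)]
      nlinarith
    linarith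
  have hnear := hn2 b hb2 S hprod (by rw [hScard]; exact hk2) (by rw [hScard]; exact hk3) (by
    intro x hx y hy
    have h1 := hspread x hx y hy
    have : (k : ℝ) ≤ b := by exact_mod_cast hkb.le
    linarith)
  rw [hScard] at hnear
  exact ⟨hk2, hk3, hnear⟩

theorem sol_unique {a a' b k : ℕ} (hk : 1 ≤ k) (h : a.factorial * b.factorial = (a + k).factorial)
    (h' : a'.factorial * b.factorial = (a' + k).factorial) : a = a' := by
  have key : ∀ c d : ℕ, c < d → c.factorial * b.factorial = (c + k).factorial →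
      d.factorial * b.factorial = (d + k).factorial → False := by
    intro c d hcd hc hd
    have h1 := Nat.add_choose_mul_factorial_mul_factorial c k
    have h2 := Nat.add_choose_mul_factorial_mul_factorial d k
    have h3 : (c + k).choose k * k.factorial = b.factorial := by
      have : c.factorial * ((c + k).choose k * k.factorial) = c.factorial * b.factorial := by
        rw [hc, ← h1]; ring
      exact Nat.eq_of_mul_eq_mul_left (Nat.factorial_pos c) this
    have h4 : (d + k).choose k * k.factorial = b.factorial := by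
      have : d.factorial * ((d + k).choose k * k.factorial) = d.factorial * b.factorial := by
        rw [hd, ← h2]; ring
      exact Nat.eq_of_mul_eq_mul_left (Nat.factorial_pos d) this
    have h5 : (c + k).choose k < (d + k).choose k := by
      have h6 : (c + k).choose k < (c + k + 1).choose k := by
        obtain ⟨j, rfl⟩ : ∃ j, k = j + 1 := ⟨k - 1, by omega⟩
        rw [Nat.choose_succ_succ' (c + (j + 1)) j]
        have : 0 < (c + (j + 1)).choose j := Nat.choose_pos (by omega)
        omega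
      have h7 : (c + k + 1).choose k ≤ (d + k).choose k := Nat.choose_le_choose k (by omega)
      omega
    have h8 : (c + k).choose k = (d + k).choose k :=
      Nat.eq_of_mul_eq_mul_right (Nat.factorial_pos k) (h3.trans h4.symm)
    omega
  rcases Nat.lt_trichotomy a a' with h1 | h1 | h1
  · exact (key a a' h1 h h').elim
  · exact h1
  · exact (key a' a h1 h' h).elim

end Pool.Agent.H147
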