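import Mathlib

/-!
Valuations of factorisations of `n!` into distinct factors from a short interval.
-/

namespace Pool.Agent.H147

open Finset

/-- the product of the integers of an interval -/
theorem prod_Icc (A B : ℕ) (hA : 1 ≤ A) (hAB : A ≤ B) :
    ∏ a ∈ Icc A B, a = (B + 1 - A).factorial * B.choose (B + 1 - A) := by
  rw [← Nat.descFactorial_eq_factorial_mul_choose, Nat.descFactorial_eq_prod_range]
  apply Finset.prod_bij' (fun a _ => B - a) (fun i _ => B - i)
  · intro a ha; rw [mem_Icc] at ha; rw [mem_range]; omega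
  · intro i hi; rw [mem_range] at hi; rw [mem_Icc]; omega
  · intro a ha; rw [mem_Icc] at ha; show B - (B - a) = a; omega
  · intro i hi; rw [mem_range] at hi; show B - (B - i) = i; omega
  · intro a ha; rw [mem_Icc] at ha; show a = B - (B - a); omega

/-- the valuations of the elements of the interval outside of `S` -/
theorem val_missing (n A B : ℕ) (S : Finset ℕ) (hA : 1 ≤ A) (hAB : A ≤ B) (hS : S ⊆ Icc A B)
    (hprod : ∏ a ∈ S, a = n.factorial) (hm : B + 1 - A ≤ n) (p : ℕ) :
    ∑ a ∈ Icc A B \ S, a.factorization p + (n - (B + 1 - A)).factorial.factorization p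
      ≤ Nat.log p B := by
  have hne : ∀ a ∈ Icc A B, a ≠ 0 := by intro a ha; rw [mem_Icc] at ha; omega
  have h1 : ∑ a ∈ Icc A B, a.factorization p
      = (B + 1 - A).factorial.factorization p + (B.choose (B + 1 - A)).factorization p := by
    have h2 := congrArg (fun x => Nat.factorization x p) (prod_Icc A B hA hAB)
    rw [Nat.factorization_prod_apply hne, Nat.factorization_mul (Nat.factorial_ne_zero _)
      (Nat.choose_pos (by omega)).ne'] at h2
    simpa using h2
  have h2 : ∑ a ∈ S, a.factorization p = n.factorial.factorization p := by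
    rw [← hprod, Nat.factorization_prod_apply (fun a ha => hne a (hS ha))]
  have h3 : n.factorial.factorization p
      = (n.choose (B + 1 - A)).factorization p + (B + 1 - A).factorial.factorization p
        + (n - (B + 1 - A)).factorial.factorization p := by
    have h4 := congrArg (fun x => Nat.factorization x p) (Nat.choose_mul_factorial_mul_factorial hm)
    rw [Nat.factorization_mul (Nat.mul_ne_zero (Nat.choose_pos hm).ne' (Nat.factorial_ne_zero _))
      (Nat.factorial_ne_zero _), Nat.factorization_mul (Nat.choose_pos hm).ne' (Nat.factorial_ne_zero _)] at h4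
    simpa using h4.symm
  have h5 := Finset.sum_sdiff (f := fun a => a.factorization p) hS
  have h6 := @Nat.factorization_choose_le_log p B (B + 1 - A)
  omega

theorem factorial_two_val (δ : ℕ) : δ ≤ δ.factorial.factorization 2 + Nat.log 2 δ + 1 := by
  have : Fact (Nat.Prime 2) := ⟨Nat.prime_two⟩
  rcases Nat.eq_zero_or_pos δ with h | h
  · subst h; omega
  · have h1 := sub_one_mul_padicValNat_factorial (p := 2) δ
    rw [Nat.factorization_def _ Nat.prime_two]
    have h2 : (Nat.digits 2 δ).sum ≤ Nat.log 2 δ + 1 := by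
      have h3 : (Nat.digits 2 δ).length = Nat.log 2 δ + 1 := Nat.length_digits 2 δ (by norm_num) (by omega)
      rw [← h3]
      have h4 : (Nat.digits 2 δ).sum ≤ (Nat.digits 2 δ).length • 1 := by
        apply List.sum_le_card_nsmul
        intro x hx
        have := Nat.digits_lt_base (by norm_num : 1 < 2) hx
        omega
      simpa using h4
    omega

/-- the defect is at most logarithmic in `B` -/
theorem defect_le (n A B : ℕ) (S : Finset ℕ) (hA : 1 ≤ A) (hAB : A ≤ B) (hS : S ⊆ Icc A B)
    (hprod : ∏ a ∈ S, a = n.factorial) (hm : B + 1 - A ≤ n) :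
    n - (B + 1 - A) ≤ Nat.log 2 B + Nat.log 2 n + 1 := by
  have h1 := val_missing n A B S hA hAB hS hprod hm 2
  have h2 := factorial_two_val (n - (B + 1 - A))
  have h3 : Nat.log 2 (n - (B + 1 - A)) ≤ Nat.log 2 n := Nat.log_mono_right (by omega)
  omega

/-- sharper form of the previous statement -/
theorem defect_le' (n A B : ℕ) (S : Finset ℕ) (hA : 1 ≤ A) (hAB : A ≤ B) (hS : S ⊆ Icc A B)
    (hprod : ∏ a ∈ S, a = n.factorial) (hm : B + 1 - A ≤ n) :
    n - (B + 1 - A) ≤ Nat.log 2 B + Nat.log 2 (n - (B + 1 - A)) + 1 := by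
  have h1 := val_missing n A B S hA hAB hS hprod hm 2
  have h2 := factorial_two_val (n - (B + 1 - A))
  omega

/-- most elements of the interval belong to `S` -/
theorem card_lower (n A B : ℕ) (S : Finset ℕ) (hA : 1 ≤ A) (hAB : A ≤ B) (hS : S ⊆ Icc A B)
    (hprod : ∏ a ∈ S, a = n.factorial) (hm : B + 1 - A ≤ n) (P : ℕ) (hP : P ≠ 0) :
    B + 1 - A ≤ S.card + P.totient * ((B + 1 - A) / P + 1) + P.primeFactors.card * Nat.log 2 B := by
  classical
  have h1 : (Icc A B).card = B + 1 - A := Nat.card_Icc A B
  have h2 : (Icc A B \ S).card + S.card = (Icc A B).card := Finset.card_sdiff_add_card_eq_card hS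
  have hsub : Icc A B \ S ⊆ (Ico A (A + (B + 1 - A))).filter (fun x => P.Coprime x) ∪
      P.primeFactors.biUnion (fun p => (Icc A B \ S).filter (fun a => p ∣ a)) := by
    intro a ha
    have haI := (mem_sdiff.1 ha).1
    rw [mem_Icc] at haI
    rw [mem_union]
    by_cases hc : P.Coprime a
    · left; rw [mem_filter, mem_Ico]; exact ⟨by omega, hc⟩
    · right
      obtain ⟨p, hp, hpP, hpa⟩ := Nat.Prime.not_coprime_iff_dvd.1 hc
      rw [mem_biUnion]
      exact ⟨p, Nat.mem_primeFactors.2 ⟨hp, hpP, hP⟩, mem_filter.2 ⟨ha, hpa⟩⟩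
  have h3 : (Icc A B \ S).card ≤ P.totient * ((B + 1 - A) / P + 1) + P.primeFactors.card * Nat.log 2 B := by
    refine (card_le_card hsub).trans ((card_union_le _ _).trans (Nat.add_le_add ?_ ?_))
    · exact Nat.Ico_filter_coprime_le A (B + 1 - A) hP
    · apply card_biUnion_le_card_mul
      intro p hp
      have hpp := Nat.prime_of_mem_primeFactors hp
      have h4 := val_missing n A B S hA hAB hS hprod hm p
      have h5 : ((Icc A B \ S).filter (fun a => p ∣ a)).card ≤ ∑ a ∈ Icc A B \ S, a.factorization p := by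
        rw [card_filter]
        apply sum_le_sum
        intro a ha
        split_ifs with h
        · have ha0 : a ≠ 0 := by
            have := (mem_sdiff.1 ha).1
            rw [mem_Icc] at this; omega
          exact (hpp.factorization_pos_of_dvd ha0 h)
        · exact Nat.zero_le _
      have h6 : Nat.log p B ≤ Nat.log 2 B := Nat.log_anti_left (by norm_num) hpp.two_le
      omega
  omega

/-- a factorisation with few factors has a huge factor -/
theorem few_factors (n A B : ℕ) (S : Finset ℕ) (hA : 1 ≤ A) (hAB : A ≤ B) (hS : S ⊆ Icc A B)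
    (hne : S.Nonempty) (hprod : ∏ a ∈ S, a = n.factorial) (hm : B + 1 - A ≤ n) :
    n ≤ Nat.log 2 B + S.card * Nat.log 2 n + Nat.log 2 n + 1 := by
  obtain ⟨b, hb, hmax⟩ := S.exists_max_image (fun a => a.factorization 2) hne
  have hbI := hS hb
  rw [mem_Icc] at hbI
  have h2 : ∑ a ∈ S, a.factorization 2 = n.factorial.factorization 2 := by
    rw [← hprod, Nat.factorization_prod_apply (fun a ha => by
      have := hS ha; rw [mem_Icc] at this; omega)]
  have h3 : b.factorization 2 ≤ Nat.log 2 B := by
    have h4 : 2 ^ b.factorization 2 ≤ b := Nat.le_of_dvd (by omega) (Nat.ordProj_dvd b 2)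
    have h5 : b.factorization 2 ≤ Nat.log 2 b := Nat.le_log_of_pow_le (by norm_num) h4
    exact h5.trans (Nat.log_mono_right hbI.2)
  have h4 : ∑ a ∈ S.erase b, a.factorization 2 ≤ (S.erase b).card * Nat.log 2 n := by
    rw [← smul_eq_mul]
    apply Finset.sum_le_card_nsmul
    intro a ha
    obtain ⟨hab, haS⟩ := mem_erase.1 ha
    have haI := hS haS
    rw [mem_Icc] at haI
    have h5 : 2 ^ a.factorization 2 ∣ a := Nat.ordProj_dvd a 2
    have h6 : 2 ^ a.factorization 2 ∣ b :=
      (Nat.pow_dvd_pow 2 (hmax a haS)).trans (Nat.ordProj_dvd b 2)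
    apply Nat.le_log_of_pow_le (by norm_num)
    rcases Nat.lt_or_gt_of_ne hab with h | h
    · have h7 : 2 ^ a.factorization 2 ∣ b - a := Nat.dvd_sub h6 h5
      have := Nat.le_of_dvd (by omega) h7
      omega
    · have h7 : 2 ^ a.factorization 2 ∣ a - b := Nat.dvd_sub h5 h6
      have := Nat.le_of_dvd (by omega) h7
      omega
  have h5 := Finset.add_sum_erase S (fun a => a.factorization 2) hb
  have h6 := factorial_two_val n
  have h7 : (S.erase b).card ≤ S.card := card_le_card (erase_subset _ _)
  have h8 : (S.erase b).card * Nat.log 2 n ≤ S.card * Nat.log 2 n := Nat.mul_le_mul_right _ h7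
  omega

end Pool.Agent.H147
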