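import Pool.Agent.H147_fact.Short

/-!
A weighted form of the count, with the number of factors as an extra variable.
-/

namespace Pool.Agent.H147

open Finset Filter

open Classical in
theorem weight_step (w : ℕ → ℕ) (n0 : ℕ)
    (h : ∀ n, n0 ≤ n → w n ≤ ((Icc 2 ⌊3 * Real.log n⌋₊).filter (fun t => Near t n)).card)
    (N M : ℕ) (hMN : M ≤ N) (hM0 : n0 ≤ M + 1) :
    ∑ n ∈ Ioc M N, w n ≤ ∑ t ∈ Icc 2 ⌊3 * Real.log N⌋₊, ((Ioc M N).filter (fun n => Near t n)).card := by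
  have h1 : ∀ n ∈ Ioc M N, w n ≤ ∑ t ∈ Icc 2 ⌊3 * Real.log N⌋₊, (if Near t n then 1 else 0) := by
    intro n hn
    rw [mem_Ioc] at hn
    refine (h n (by omega)).trans ?_
    rw [card_filter]
    apply sum_le_sum_of_subset
    apply Icc_subset_Icc_right
    apply Nat.floor_le_floor
    have : Real.log n ≤ Real.log N := by
      apply Real.log_le_log
      · exact_mod_cast (by omega : 0 < n)
      · exact_mod_cast hn.2
    linarith
  refine (sum_le_sum h1).trans ?_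
  rw [sum_comm]
  apply sum_le_sum
  intro t _
  rw [card_filter]

theorem sum_bound (L : ℝ) (hL : 10000 ≤ L) (T : ℕ) (hTL : (T : ℝ) ≤ 3 * L) (H : ℝ) (hH : 0 ≤ H)
    (f : ℕ → ℕ) (hf : ∀ t ∈ Icc 2 T, (f t : ℝ) ≤ 2016 * ((t : ℝ) ^ (1 / 6 : ℝ) * H ^ (5 / 6 : ℝ))) :
    ((∑ t ∈ Icc 2 T, f t : ℕ) : ℝ) ≤ 10000 * (H ^ (5 / 6 : ℝ) * L ^ (7 / 6 : ℝ)) := by
  have h2 : ∀ t ∈ Icc 2 T, (f t : ℝ) ≤ 2016 * ((3 * L) ^ (1 / 6 : ℝ) * H ^ (5 / 6 : ℝ)) := by
    intro t ht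
    refine (hf t ht).trans ?_
    have htl : (t : ℝ) ≤ 3 * L := le_trans (by exact_mod_cast (mem_Icc.1 ht).2) hTL
    gcongr
  have h3 : ((∑ t ∈ Icc 2 T, f t : ℕ) : ℝ) ≤ T * (2016 * ((3 * L) ^ (1 / 6 : ℝ) * H ^ (5 / 6 : ℝ))) := by
    push_cast
    refine (sum_le_sum h2).trans ?_
    rw [sum_const, nsmul_eq_mul, Nat.card_Icc]
    have : ((T + 1 - 2 : ℕ) : ℝ) ≤ T := by exact_mod_cast (by omega : T + 1 - 2 ≤ T)
    have hLpos : 0 ≤ 3 * L := by linarith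
    gcongr
  refine h3.trans ?_
  have hLpos : 0 < L := by linarith
  have e1 : (3 * L) ^ (1 / 6 : ℝ) = 3 ^ (1 / 6 : ℝ) * L ^ (1 / 6 : ℝ) := by
    rw [Real.mul_rpow (by norm_num) hLpos.le]
  have e2 : (3 : ℝ) ^ (1 / 6 : ℝ) ≤ 1.5 := by
    have : (3 : ℝ) ≤ (1.5 : ℝ) ^ (6 : ℝ) := by norm_num
    calc (3 : ℝ) ^ (1 / 6 : ℝ) ≤ ((1.5 : ℝ) ^ (6 : ℝ)) ^ (1 / 6 : ℝ) :=
          Real.rpow_le_rpow (by norm_num) this (by norm_num)
      _ = 1.5 := by rw [← Real.rpow_mul (by norm_num)]; norm_num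
  have e3 : L ^ (7 / 6 : ℝ) = L * L ^ (1 / 6 : ℝ) := by
    have : (7 / 6 : ℝ) = 1 + 1 / 6 := by norm_num
    rw [this, Real.rpow_add hLpos, Real.rpow_one]
  have hL6 : 0 ≤ L ^ (1 / 6 : ℝ) := by positivity
  have hN6 : 0 ≤ H ^ (5 / 6 : ℝ) := by positivity
  rw [e1, e3]
  calc (T : ℝ) * (2016 * (3 ^ (1 / 6 : ℝ) * L ^ (1 / 6 : ℝ) * H ^ (5 / 6 : ℝ)))
      ≤ (3 * L) * (2016 * (1.5 * L ^ (1 / 6 : ℝ) * H ^ (5 / 6 : ℝ))) := by gcongr
    _ = 9072 * (H ^ (5 / 6 : ℝ) * (L * L ^ (1 / 6 : ℝ))) := by ring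
    _ ≤ 10000 * (H ^ (5 / 6 : ℝ) * (L * L ^ (1 / 6 : ℝ))) := by
        apply mul_le_mul_of_nonneg_right (by norm_num)
        positivity

open Classical in
theorem count_weight (w : ℕ → ℕ) (n0 : ℕ)
    (h : ∀ n, n0 ≤ n → w n ≤ ((Icc 2 ⌊3 * Real.log n⌋₊).filter (fun t => Near t n)).card) :
    ∃ C : ℝ, 0 < C ∧ ∀ N H : ℕ, 2 ≤ N → H ≤ N →
      ((∑ n ∈ Ioc (N - H) N, w n : ℕ) : ℝ)
        ≤ C * ((H : ℝ) ^ (5 / 6 : ℝ) * (Real.log N) ^ (7 / 6 : ℝ)) := by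
  obtain ⟨N1, hN1⟩ := eventually_large
  set N2 := max (max N1 (2 * n0 + 2)) 100 with hN2
  have hlog2 : 0 < Real.log 2 := Real.log_pos (by norm_num)
  have hl76 : 0 < (Real.log 2) ^ (7 / 6 : ℝ) := by positivity
  -- short steps
  have hstep : ∀ N M : ℕ, N2 ≤ N → 50 * N / 51 ≤ M → M ≤ N →
      ((∑ n ∈ Ioc M N, w n : ℕ) : ℝ)
        ≤ 10000 * (((N - M : ℕ) : ℝ) ^ (5 / 6 : ℝ) * (Real.log N) ^ (7 / 6 : ℝ)) := by
    intro N M hN hM hMN
    have hNN1 : N1 ≤ N := le_trans (le_trans (le_max_left _ _) (le_max_left _ _)) hN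
    have hNn0 : 2 * n0 + 2 ≤ N := le_trans (le_trans (le_max_right _ _) (le_max_left _ _)) hN
    obtain ⟨hL, hN1'⟩ := hN1 N hNN1
    have h1 := weight_step w n0 h N M hMN (by omega)
    have hTL : ((⌊3 * Real.log N⌋₊ : ℕ) : ℝ) ≤ 3 * Real.log N := Nat.floor_le (by linarith)
    have h2 := sum_bound (Real.log N) hL ⌊3 * Real.log N⌋₊ hTL ((N - M : ℕ) : ℝ) (by positivity)
      (fun t => ((Ioc M N).filter (fun n => Near t n)).card) (by
        intro t ht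
        obtain ⟨ht2, htT⟩ := mem_Icc.1 ht
        have htl : (t : ℝ) ≤ 3 * Real.log N := le_trans (by exact_mod_cast htT) hTL
        obtain ⟨b1, b2⟩ := hN1' t ht2 htl
        exact bound_t_interval N t (N - M) (by omega) hL ht2 b1 b2 _ (fun n hn => by
          rw [mem_filter, mem_Ioc] at hn
          exact ⟨by omega, by omega, hn.1.2, hn.2⟩))
    exact le_trans (by exact_mod_cast h1) h2
  -- all `n ≤ N`
  set a : ℕ → ℕ := fun N => ∑ n ∈ Ioc 0 N, w n with ha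
  have hsplit : ∀ N M : ℕ, M ≤ N → a N = a M + ∑ n ∈ Ioc M N, w n := by
    intro N M hMN
    simp only [ha]
    rw [← sum_union (by
      rw [disjoint_left]
      intro x hx hx'
      rw [mem_Ioc] at hx hx'
      omega)]
    apply sum_congr _ (fun _ _ => rfl)
    ext x
    simp only [mem_union, mem_Ioc]
    omega
  set W : ℕ := a N2 with hW
  have hamono : ∀ N, N ≤ N2 → a N ≤ W := by
    intro N hN
    rw [hW, hsplit N2 N hN]
    omega
  set C1 : ℝ := max 1000000 (W / (Real.log 2) ^ (7 / 6 : ℝ)) with hC1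
  have hC1a : 1000000 ≤ C1 := le_max_left _ _
  have hC1b : W / (Real.log 2) ^ (7 / 6 : ℝ) ≤ C1 := le_max_right _ _
  have hall : ∀ N : ℕ, 2 ≤ N → (a N : ℝ) ≤ C1 * ((N : ℝ) ^ (5 / 6 : ℝ) * (Real.log N) ^ (7 / 6 : ℝ)) := by
    intro N
    induction N using Nat.strong_induction_on with
    | _ N ih =>
      intro hN2'
      have hNpos : (0 : ℝ) < N := by exact_mod_cast (by omega : 0 < N)
      have hN1r : (1 : ℝ) ≤ N := by exact_mod_cast (by omega : 1 ≤ N)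
      have hlogmono : Real.log 2 ≤ Real.log N := by
        apply Real.log_le_log (by norm_num)
        exact_mod_cast hN2'
      have hlogpos : 0 < Real.log N := by linarith
      by_cases hsmall : N ≤ N2
      · have h1 : (a N : ℝ) ≤ W := by exact_mod_cast hamono N hsmall
        have h2 : (W : ℝ) ≤ C1 * (Real.log 2) ^ (7 / 6 : ℝ) := by
          rwa [div_le_iff₀ hl76] at hC1b
        have h3 : (Real.log 2) ^ (7 / 6 : ℝ) ≤ (N : ℝ) ^ (5 / 6 : ℝ) * (Real.log N) ^ (7 / 6 : ℝ) := by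
          have h4 : 1 ≤ (N : ℝ) ^ (5 / 6 : ℝ) := Real.one_le_rpow hN1r (by norm_num)
          have h5 : (Real.log 2) ^ (7 / 6 : ℝ) ≤ (Real.log N) ^ (7 / 6 : ℝ) :=
            Real.rpow_le_rpow hlog2.le hlogmono (by norm_num)
          nlinarith
        calc (a N : ℝ) ≤ W := h1
          _ ≤ C1 * (Real.log 2) ^ (7 / 6 : ℝ) := h2
          _ ≤ _ := by gcongr
      · push Not at hsmall
        have hN100 : 100 ≤ N := le_trans (le_max_right _ _) hsmall.le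
        have h1 := hstep N (50 * N / 51) hsmall.le le_rfl (by omega)
        have h2 := ih (50 * N / 51) (by omega) (by omega)
        have h0 : (a N : ℝ) = a (50 * N / 51) + ((∑ n ∈ Ioc (50 * N / 51) N, w n : ℕ) : ℝ) := by
          exact_mod_cast hsplit N (50 * N / 51) (by omega)
        have h3 : ((50 * N / 51 : ℕ) : ℝ) ≤ 50 / 51 * N := by
          have := @Nat.cast_div_le ℝ _ _ _ (50 * N) 51
          push_cast at this
          linarith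
        have h4 : ((50 * N / 51 : ℕ) : ℝ) ^ (5 / 6 : ℝ) ≤ 0.99 * (N : ℝ) ^ (5 / 6 : ℝ) := by
          calc ((50 * N / 51 : ℕ) : ℝ) ^ (5 / 6 : ℝ) ≤ (50 / 51 * (N : ℝ)) ^ (5 / 6 : ℝ) :=
                Real.rpow_le_rpow (by positivity) h3 (by norm_num)
            _ = (50 / 51 : ℝ) ^ (5 / 6 : ℝ) * (N : ℝ) ^ (5 / 6 : ℝ) :=
                Real.mul_rpow (by norm_num) hNpos.le
            _ ≤ 0.99 * (N : ℝ) ^ (5 / 6 : ℝ) := by
                apply mul_le_mul_of_nonneg_right _ (by positivity)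
                have : (50 / 51 : ℝ) ^ (5 / 6 : ℝ) = ((50 / 51 : ℝ) ^ (5 : ℝ)) ^ (1 / 6 : ℝ) := by
                  rw [← Real.rpow_mul (by norm_num)]; norm_num
                rw [this]
                have h99 : (50 / 51 : ℝ) ^ (5 : ℝ) ≤ (0.99 : ℝ) ^ (6 : ℝ) := by norm_num
                calc ((50 / 51 : ℝ) ^ (5 : ℝ)) ^ (1 / 6 : ℝ) ≤ ((0.99 : ℝ) ^ (6 : ℝ)) ^ (1 / 6 : ℝ) :=
                      Real.rpow_le_rpow (by positivity) h99 (by norm_num)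
                  _ = 0.99 := by rw [← Real.rpow_mul (by norm_num)]; norm_num
        have h5 : (Real.log ((50 * N / 51 : ℕ) : ℝ)) ^ (7 / 6 : ℝ) ≤ (Real.log N) ^ (7 / 6 : ℝ) := by
          apply Real.rpow_le_rpow
          · apply Real.log_nonneg
            exact_mod_cast (by omega : 1 ≤ 50 * N / 51)
          · apply Real.log_le_log
            · exact_mod_cast (by omega : 0 < 50 * N / 51)
            · linarith
          · norm_num
        have hlp : 0 ≤ (Real.log N) ^ (7 / 6 : ℝ) := by positivity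
        have h6 : (a (50 * N / 51) : ℝ) ≤ C1 * (0.99 * (N : ℝ) ^ (5 / 6 : ℝ) * (Real.log N) ^ (7 / 6 : ℝ)) := by
          refine h2.trans ?_
          gcongr
        have h7 : (((N - 50 * N / 51 : ℕ)) : ℝ) ^ (5 / 6 : ℝ) ≤ (N : ℝ) ^ (5 / 6 : ℝ) := by
          apply Real.rpow_le_rpow (by positivity) _ (by norm_num)
          exact_mod_cast Nat.sub_le _ _
        have hP : 0 ≤ (N : ℝ) ^ (5 / 6 : ℝ) * (Real.log N) ^ (7 / 6 : ℝ) := by positivity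
        have h8 : 10000 * ((((N - 50 * N / 51 : ℕ)) : ℝ) ^ (5 / 6 : ℝ) * (Real.log N) ^ (7 / 6 : ℝ))
            ≤ C1 / 100 * ((N : ℝ) ^ (5 / 6 : ℝ) * (Real.log N) ^ (7 / 6 : ℝ)) := by
          calc 10000 * ((((N - 50 * N / 51 : ℕ)) : ℝ) ^ (5 / 6 : ℝ) * (Real.log N) ^ (7 / 6 : ℝ))
              ≤ 10000 * ((N : ℝ) ^ (5 / 6 : ℝ) * (Real.log N) ^ (7 / 6 : ℝ)) := by gcongr
            _ ≤ _ := mul_le_mul_of_nonneg_right (by linarith) hP
        rw [h0]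
        calc (a (50 * N / 51) : ℝ) + ((∑ n ∈ Ioc (50 * N / 51) N, w n : ℕ) : ℝ)
            ≤ C1 * (0.99 * (N : ℝ) ^ (5 / 6 : ℝ) * (Real.log N) ^ (7 / 6 : ℝ))
              + C1 / 100 * ((N : ℝ) ^ (5 / 6 : ℝ) * (Real.log N) ^ (7 / 6 : ℝ)) := add_le_add h6 (h1.trans h8)
          _ = _ := by ring
  -- all intervals
  refine ⟨51 * C1, by linarith, ?_⟩
  intro N H hN hHN
  have hNpos : (0 : ℝ) < N := by exact_mod_cast (by omega : 0 < N)
  have hlogmono : Real.log 2 ≤ Real.log N := by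
    apply Real.log_le_log (by norm_num)
    exact_mod_cast hN
  have hlogpos : 0 < Real.log N := by linarith
  have hlp : 0 ≤ (Real.log N) ^ (7 / 6 : ℝ) := by positivity
  rcases Nat.eq_zero_or_pos H with hH0 | hHpos
  · subst hH0; simp
  have hHpos' : (0 : ℝ) < H := by exact_mod_cast hHpos
  have hle : ∑ n ∈ Ioc (N - H) N, w n ≤ a N := by
    rw [hsplit N (N - H) (Nat.sub_le _ _)]; omega
  by_cases hsmall : N ≤ N2
  · have h1 : ((∑ n ∈ Ioc (N - H) N, w n : ℕ) : ℝ) ≤ W := by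
      exact_mod_cast hle.trans (hamono N hsmall)
    have h2 : (W : ℝ) ≤ C1 * (Real.log 2) ^ (7 / 6 : ℝ) := by
      rwa [div_le_iff₀ hl76] at hC1b
    have h3 : (Real.log 2) ^ (7 / 6 : ℝ) ≤ (H : ℝ) ^ (5 / 6 : ℝ) * (Real.log N) ^ (7 / 6 : ℝ) := by
      have h4 : 1 ≤ (H : ℝ) ^ (5 / 6 : ℝ) :=
        Real.one_le_rpow (by exact_mod_cast hHpos) (by norm_num)
      have h5 : (Real.log 2) ^ (7 / 6 : ℝ) ≤ (Real.log N) ^ (7 / 6 : ℝ) :=
        Real.rpow_le_rpow hlog2.le hlogmono (by norm_num)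
      nlinarith
    have h6 : 0 ≤ (H : ℝ) ^ (5 / 6 : ℝ) * (Real.log N) ^ (7 / 6 : ℝ) := by positivity
    calc ((∑ n ∈ Ioc (N - H) N, w n : ℕ) : ℝ) ≤ W := h1
      _ ≤ C1 * (Real.log 2) ^ (7 / 6 : ℝ) := h2
      _ ≤ C1 * ((H : ℝ) ^ (5 / 6 : ℝ) * (Real.log N) ^ (7 / 6 : ℝ)) := by gcongr
      _ ≤ 51 * C1 * ((H : ℝ) ^ (5 / 6 : ℝ) * (Real.log N) ^ (7 / 6 : ℝ)) :=
          mul_le_mul_of_nonneg_right (by linarith) h6
  push Not at hsmall
  by_cases hlong : N < 51 * H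
  · have h3 : (N : ℝ) ^ (5 / 6 : ℝ) ≤ 51 * (H : ℝ) ^ (5 / 6 : ℝ) := by
      have h4 : (N : ℝ) ≤ 51 * H := by exact_mod_cast hlong.le
      calc (N : ℝ) ^ (5 / 6 : ℝ) ≤ (51 * (H : ℝ)) ^ (5 / 6 : ℝ) :=
            Real.rpow_le_rpow hNpos.le h4 (by norm_num)
        _ = (51 : ℝ) ^ (5 / 6 : ℝ) * (H : ℝ) ^ (5 / 6 : ℝ) :=
            Real.mul_rpow (by norm_num) hHpos'.le
        _ ≤ 51 * (H : ℝ) ^ (5 / 6 : ℝ) := by
            apply mul_le_mul_of_nonneg_right _ (by positivity)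
            calc (51 : ℝ) ^ (5 / 6 : ℝ) ≤ (51 : ℝ) ^ (1 : ℝ) :=
                  Real.rpow_le_rpow_of_exponent_le (by norm_num) (by norm_num)
              _ = 51 := Real.rpow_one _
    calc ((∑ n ∈ Ioc (N - H) N, w n : ℕ) : ℝ) ≤ a N := by exact_mod_cast hle
      _ ≤ C1 * ((N : ℝ) ^ (5 / 6 : ℝ) * (Real.log N) ^ (7 / 6 : ℝ)) := hall N hN
      _ ≤ C1 * ((51 * (H : ℝ) ^ (5 / 6 : ℝ)) * (Real.log N) ^ (7 / 6 : ℝ)) := by gcongr
      _ = 51 * C1 * ((H : ℝ) ^ (5 / 6 : ℝ) * (Real.log N) ^ (7 / 6 : ℝ)) := by ring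
  push Not at hlong
  have h1 := hstep N (N - H) hsmall.le (by omega) (Nat.sub_le _ _)
  have h2 : N - (N - H) = H := by omega
  rw [h2] at h1
  have h6 : 0 ≤ (H : ℝ) ^ (5 / 6 : ℝ) * (Real.log N) ^ (7 / 6 : ℝ) := by positivity
  exact h1.trans (mul_le_mul_of_nonneg_right (by linarith) h6)

end Pool.Agent.H147
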